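import Pool.Agent.K1H61.LC.Local

/-!
# Building blocks of generating functions
-/

set_option autoImplicit false

open scoped ContDiff Topology
open Filter Set

namespace Pool.Agent.K1H61.LC

lemma dt_dx {r : ℝ × ℝ → ℝ} (hr : ContDiff ℝ ∞ r) (p : ℝ × ℝ) : dx (dt r) p = dt (dx r) p := by
  have hs : IsSymmSndFDerivAt ℝ r p :=
    hr.contDiffAt.isSymmSndFDerivAt (by
      rw [minSmoothness_of_isRCLikeNormedField]
      exact WithTop.coe_le_coe.2 (le_top (a := (2 : ℕ∞))))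
  have hd : DifferentiableAt ℝ (fderiv ℝ r) p :=
    (hr.fderiv_right (m := ∞) (by simp)).differentiable (by simp) p
  have h1 : ∀ a : ℝ × ℝ, HasFDerivAt (fun q => fderiv ℝ r q a)
      ((ContinuousLinearMap.apply ℝ ℝ a).comp (fderiv ℝ (fderiv ℝ r) p)) p := by
    intro a
    exact (ContinuousLinearMap.apply ℝ ℝ a).hasFDerivAt.comp p hd.hasFDerivAt
  have e1 : dx (dt r) p = fderiv ℝ (fderiv ℝ r) p (0, 1) (1, 0) := by
    show fderiv ℝ (fun q => fderiv ℝ r q (1, 0)) p (0, 1) = _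
    rw [(h1 (1, 0)).fderiv]; rfl
  have e2 : dt (dx r) p = fderiv ℝ (fderiv ℝ r) p (1, 0) (0, 1) := by
    show fderiv ℝ (fun q => fderiv ℝ r q (0, 1)) p (1, 0) = _
    rw [(h1 (0, 1)).fderiv]; rfl
  rw [e1, e2]
  exact hs _ _

/-- the generating function of the block -/
noncomputable def bG (κ : ℝ) (r : ℝ × ℝ → ℝ) (u : ℝ × ℝ) : ℝ := κ * (r u * √(r u) - 1)
/-- its `x`-derivative -/
noncomputable def bY (κ : ℝ) (r : ℝ × ℝ → ℝ) (u : ℝ × ℝ) : ℝ := 3 / 2 * κ * √(r u) * dx r u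
/-- its `t`-derivative -/
noncomputable def bQ (κ : ℝ) (r : ℝ × ℝ → ℝ) (u : ℝ × ℝ) : ℝ := 3 / 2 * κ * √(r u) * dt r u

/-- auxiliary second order expressions -/
noncomputable def bD (r : ℝ × ℝ → ℝ) (u : ℝ × ℝ) : ℝ :=
  r u * ((dt r u + dt (dt r) u) * dx (dx r) u - dt (dx r) u ^ 2) +
  1 / 2 * (dx (dx r) u * dt r u ^ 2 - 2 * dt (dx r) u * dt r u * dx r u +
    (dt (dt r) u + dt r u) * dx r u ^ 2)

/-- real part of the phase -/
noncomputable def bRe (κ : ℝ) (r : ℝ × ℝ → ℝ) (u : ℝ × ℝ) : ℝ :=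
  √(r u) * (1 - (3 / 2 * κ) ^ 2 * bD r u)
/-- imaginary part of the phase -/
noncomputable def bIm (κ : ℝ) (r : ℝ × ℝ → ℝ) (u : ℝ × ℝ) : ℝ :=
  3 / 2 * κ * (r u * (dt r u + dt (dt r) u + dx (dx r) u) + 1 / 2 * (dt r u ^ 2 + dx r u ^ 2))
/-- the phase -/
noncomputable def bth (κ : ℝ) (r : ℝ × ℝ → ℝ) (u : ℝ × ℝ) : ℝ :=
  Complex.arg ((bRe κ r u : ℂ) + (bIm κ r u : ℂ) * Complex.I)

/-- the block at `u` is locally constant -/
def Flat (r : ℝ × ℝ → ℝ) (u : ℝ × ℝ) : Prop := 0 < r u ∧ ∀ᶠ v in 𝓝 u, r v = r u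

section

variable {κ : ℝ} {r : ℝ × ℝ → ℝ} (hr : ContDiff ℝ ∞ r)

include hr

lemma bG_continuous : Continuous (bG κ r) := by
  have := hr.continuous
  unfold bG; fun_prop

lemma bY_continuous : Continuous (bY κ r) := by
  have := hr.continuous
  have := (dx_smooth hr).continuous
  unfold bY; fun_prop

lemma bQ_continuous : Continuous (bQ κ r) := by
  have := hr.continuous
  have := (dt_smooth hr).continuous
  unfold bQ; fun_prop

lemma bRe_continuous : Continuous (bRe κ r) := by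
  have := hr.continuous
  have := (dt_smooth hr).continuous
  have := (dx_smooth hr).continuous
  have := (dt_smooth (dt_smooth hr)).continuous
  have := (dx_smooth (dx_smooth hr)).continuous
  have := (dt_smooth (dx_smooth hr)).continuous
  unfold bRe bD; fun_prop

lemma bIm_continuous : Continuous (bIm κ r) := by
  have := hr.continuous
  have := (dt_smooth hr).continuous
  have := (dx_smooth hr).continuous
  have := (dt_smooth (dt_smooth hr)).continuous
  have := (dx_smooth (dx_smooth hr)).continuous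
  unfold bIm; fun_prop

lemma bth_continuousAt {u : ℝ × ℝ} (h : 0 < bRe κ r u ∨ bIm κ r u ≠ 0) :
    ContinuousAt (bth κ r) u := by
  unfold bth
  have h1 : ContinuousAt (fun u => (bRe κ r u : ℂ) + (bIm κ r u : ℂ) * Complex.I) u := by
    have := bRe_continuous (κ := κ) hr
    have := bIm_continuous (κ := κ) hr
    fun_prop
  refine ContinuousAt.comp (f := fun u => (bRe κ r u : ℂ) + (bIm κ r u : ℂ) * Complex.I) (g := Complex.arg)
    (Complex.continuousAt_arg ?_) h1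
  rw [Complex.mem_slitPlane_iff]
  simpa using h

lemma sqrt_hasFDerivAt {u : ℝ × ℝ} (h : 0 < r u) :
    HasFDerivAt (fun u => √(r u)) (lin (dt r u / (2 * √(r u))) (dx r u / (2 * √(r u)))) u := by
  have h1 := (hasFDerivAt_lin (hr.differentiable (by simp) u)).sqrt h.ne'
  refine h1.congr_fderiv ?_
  ext <;> simp <;> ring

lemma bY_hasFDerivAt {u : ℝ × ℝ} (h : 0 < r u) :
    HasFDerivAt (bY κ r)
      (lin (3 / 2 * κ * (√(r u) * dt (dx r) u + dt r u * dx r u / (2 * √(r u))))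
        (3 / 2 * κ * (√(r u) * dx (dx r) u + dx r u * dx r u / (2 * √(r u))))) u := by
  have h1 := ((sqrt_hasFDerivAt hr h).const_mul (3 / 2 * κ)).mul
    (hasFDerivAt_lin ((dx_smooth hr).differentiable (by simp) u))
  refine h1.congr_fderiv ?_
  ext <;> simp <;> ring

lemma bQ_hasFDerivAt {u : ℝ × ℝ} (h : 0 < r u) :
    HasFDerivAt (bQ κ r)
      (lin (3 / 2 * κ * (√(r u) * dt (dt r) u + dt r u * dt r u / (2 * √(r u))))
        (3 / 2 * κ * (√(r u) * dt (dx r) u + dt r u * dx r u / (2 * √(r u))))) u := by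
  have h1 := ((sqrt_hasFDerivAt hr h).const_mul (3 / 2 * κ)).mul
    (hasFDerivAt_lin ((dt_smooth hr).differentiable (by simp) u))
  refine h1.congr_fderiv ?_
  rw [dt_dx hr]
  ext <;> simp <;> ring

lemma bG_hasFDerivAt {u : ℝ × ℝ} (h : 0 < r u) :
    HasFDerivAt (bG κ r) (lin (bQ κ r u) (bY κ r u)) u := by
  have h1 := (((hasFDerivAt_lin (hr.differentiable (by simp) u)).mul
    (sqrt_hasFDerivAt hr h)).sub_const 1).const_mul κ
  refine h1.congr_fderiv ?_
  have h2 : 0 < √(r u) := Real.sqrt_pos.2 h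
  have h3 : √(r u) ^ 2 = r u := Real.sq_sqrt h.le
  unfold bQ bY
  ext
  · simp
    field_simp
    linear_combination (-κ * dt r u) * h3
  · simp
    field_simp
    linear_combination (-κ * dx r u) * h3

lemma sqrt_smoothOn : ContDiffOn ℝ ∞ (fun u => √(r u)) {u | 0 < r u} :=
  hr.contDiffOn.sqrt (fun _ hu => (ne_of_gt hu))

lemma bG_smoothOn : ContDiffOn ℝ ∞ (bG κ r) {u | 0 < r u} := by
  unfold bG
  exact contDiffOn_const.mul ((hr.contDiffOn.mul (sqrt_smoothOn hr)).sub contDiffOn_const)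

lemma bY_smoothOn : ContDiffOn ℝ ∞ (bY κ r) {u | 0 < r u} := by
  unfold bY
  exact (contDiffOn_const.mul (sqrt_smoothOn hr)).mul (dx_smooth hr).contDiffOn

lemma bQ_smoothOn : ContDiffOn ℝ ∞ (bQ κ r) {u | 0 < r u} := by
  unfold bQ
  exact (contDiffOn_const.mul (sqrt_smoothOn hr)).mul (dt_smooth hr).contDiffOn

end

lemma phase_algebra (σ : ℝ) (hσ : σ = 1 ∨ σ = -1) (n : ℤ) (P T : ℝ) :
    (Complex.exp (-((Real.pi * n + σ * Complex.arg ((P : ℂ) + (T : ℂ) * Complex.I) : ℝ) : ℂ) *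
      Complex.I) * ((P : ℂ) + (σ * T : ℝ) * Complex.I)).im = 0 := by
  set w : ℂ := (P : ℂ) + (T : ℂ) * Complex.I with hw
  have h1 : (‖w‖ : ℂ) * Complex.exp (Complex.arg w * Complex.I) = w := Complex.norm_mul_exp_arg_mul_I w
  have h2 : (P : ℂ) + (σ * T : ℝ) * Complex.I =
      (‖w‖ : ℂ) * Complex.exp ((σ * Complex.arg w : ℝ) * Complex.I) := by
    rcases hσ with rfl | rfl
    · rw [one_mul, one_mul, h1]
    · have h3 := congrArg (starRingEnd ℂ) h1
      rw [map_mul, ← Complex.exp_conj, map_mul, Complex.conj_ofReal, Complex.conj_ofReal,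
        Complex.conj_I] at h3
      have h4 : (starRingEnd ℂ) w = (P : ℂ) + ((-1) * T : ℝ) * Complex.I := by
        rw [hw]; simp
      rw [h4] at h3
      rw [← h3]
      congr 2
      push_cast; ring
  rw [h2]
  have h5 : Complex.exp (-((Real.pi * n + σ * Complex.arg w : ℝ) : ℂ) * Complex.I) *
      ((‖w‖ : ℂ) * Complex.exp ((σ * Complex.arg w : ℝ) * Complex.I)) =
      (‖w‖ : ℂ) * Complex.exp (((-(n : ℝ) * Real.pi : ℝ) : ℂ) * Complex.I) := by
    rw [mul_left_comm, ← Complex.exp_add]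
    congr 2
    push_cast; ring
  rw [h5, Complex.im_ofReal_mul, Complex.exp_ofReal_mul_I_im, ← Int.cast_neg, Real.sin_int_mul_pi,
    mul_zero]

theorem good_of_block {L : Set E4} {f φ : E4 → ℝ} {p : E4} {r : ℝ × ℝ → ℝ} (hr : ContDiff ℝ ∞ r)
    {κ h σ : ℝ} {n : ℤ} (hσ : σ = 1 ∨ σ = -1) (hpos : 0 < r (pr p)) (hp : p ∈ L)
    (hL : ∀ᶠ q in 𝓝 p, q ∈ L ↔ q.2.2.1 = σ * bY κ r (pr q) ∧
      q.2.2.2 = h + σ * (bG κ r (pr q) + bQ κ r (pr q)))
    (hf : ∀ᶠ q in 𝓝 p, q ∈ L → f q = Real.exp q.1 * (σ * bQ κ r (pr q)))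
    (hφ : φ p = Real.pi * n + σ * bth κ r (pr p)) :
    Good L f φ p := by
  have hV : IsOpen {u : ℝ × ℝ | 0 < r u} := isOpen_lt continuous_const hr.continuous
  have smul_lin : ∀ a A B : ℝ, a • lin A B = lin (a * A) (a * B) := by
    intro a A B; ext <;> simp
  have add_lin : ∀ a b A B : ℝ, lin a b + lin A B = lin (a + A) (b + B) := by
    intro a b A B; ext <;> simp
  have hY := (bY_hasFDerivAt (κ := κ) hr hpos).const_mul σ
  have hQ := (bQ_hasFDerivAt (κ := κ) hr hpos).const_mul σ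
  have hG := (bG_hasFDerivAt (κ := κ) hr hpos).const_mul σ
  rw [smul_lin] at hY hQ hG
  set s : ℝ := √(r (pr p)) with hs
  set yt : ℝ := 3 / 2 * κ * (s * dt (dx r) (pr p) + dt r (pr p) * dx r (pr p) / (2 * s)) with hyt
  set yx : ℝ := 3 / 2 * κ * (s * dx (dx r) (pr p) + dx r (pr p) * dx r (pr p) / (2 * s)) with hyx
  set qt : ℝ := 3 / 2 * κ * (s * dt (dt r) (pr p) + dt r (pr p) * dt r (pr p) / (2 * s)) with hqt
  have hZ : HasFDerivAt (fun u => h + σ * (bG κ r u + bQ κ r u))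
      (lin (σ * bQ κ r (pr p) + σ * qt) (σ * bY κ r (pr p) + σ * yt)) (pr p) := by
    have hZ0 := (hG.add hQ).const_add h
    rw [add_lin] at hZ0
    refine hZ0.congr_of_eventuallyEq (Eventually.of_forall fun u => ?_)
    show h + σ * (bG κ r u + bQ κ r u) = h + (σ * bG κ r u + σ * bQ κ r u)
    ring
  have sY : ContDiffOn ℝ ∞ (fun u => σ * bY κ r u) {u : ℝ × ℝ | 0 < r u} :=
    contDiffOn_const.mul (bY_smoothOn hr)
  have sZ : ContDiffOn ℝ ∞ (fun u => h + σ * (bG κ r u + bQ κ r u)) {u : ℝ × ℝ | 0 < r u} :=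
    contDiffOn_const.add (contDiffOn_const.mul ((bG_smoothOn hr).add (bQ_smoothOn hr)))
  refine good_of_graph hV hpos sY sZ hY hZ hQ hL hp hf ?_ ?_ ?_ ?_
  · rfl
  · ring
  · rfl
  · have h2 : 0 < s := Real.sqrt_pos.2 hpos
    have h3 : s ^ 2 = r (pr p) := Real.sq_sqrt hpos.le
    have hσ2 : σ ^ 2 = 1 := by rcases hσ with rfl | rfl <;> norm_num
    have key := phase_algebra σ hσ n (bRe κ r (pr p)) (bIm κ r (pr p))
    rw [show Complex.arg ((bRe κ r (pr p) : ℂ) + (bIm κ r (pr p) : ℂ) * Complex.I) =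
      bth κ r (pr p) from rfl, ← hφ] at key
    have e1 : s * (1 - yx * (bQ κ r (pr p) + qt) + yt ^ 2) = bRe κ r (pr p) := by
      simp only [hyx, hqt, hyt, bRe, bD, bQ, ← hs]
      field_simp
      linear_combination (-36 * κ ^ 2 * s ^ 2 * (dx (dx r) (pr p) * dt r (pr p) +
        dx (dx r) (pr p) * dt (dt r) (pr p) - dt (dx r) (pr p) ^ 2)) * h3
    have e2 : s * (bQ κ r (pr p) + qt + yx) = bIm κ r (pr p) := by
      simp only [hyx, hqt, bIm, bQ, ← hs]
      field_simp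
      linear_combination (2 * κ * (dt r (pr p) + dt (dt r) (pr p) + dx (dx r) (pr p))) * h3
    have e3 : (s : ℂ) * ((1 + ((σ * bQ κ r (pr p) + σ * qt : ℝ) : ℂ) * Complex.I) *
        (1 + ((σ * yx : ℝ) : ℂ) * Complex.I) + ((σ * yt : ℝ) : ℂ) ^ 2) =
        (bRe κ r (pr p) : ℂ) + (σ * bIm κ r (pr p) : ℝ) * Complex.I := by
      rw [← e1, ← e2]
      have hσc : (σ : ℂ) ^ 2 = 1 := by exact_mod_cast hσ2
      push_cast
      linear_combination (s : ℂ) * (-(yx * (bQ κ r (pr p) + qt) : ℂ) + (yt : ℂ) ^ 2) * hσc +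
        (s : ℂ) * (σ : ℂ) ^ 2 * (yx * (bQ κ r (pr p) + qt) : ℂ) * Complex.I_sq
    rw [← e3, mul_left_comm, Complex.im_ofReal_mul] at key
    exact (mul_eq_zero.1 key).resolve_left h2.ne'

end Pool.Agent.K1H61.LC
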