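import Pool.Agent.K1H61.LC.Conn

/-!
# A simple closed curve on the surface which does not separate
-/

set_option autoImplicit false

open scoped ContDiff Topology
open Filter Set

namespace Pool.Agent.K1H61.LC

variable {B S M : ℝ}

/-- the closed curve -/
noncomputable def cir (B S : ℝ) (z : Circle) : E4 :=
  if 0 ≤ (z : ℂ).im then (mdl B S).P 2 (0, 6 * (z : ℂ).re) else (mdl B S).P 3 (0, 6 * (z : ℂ).re)

lemma domC2 (hB : 13 ≤ B) (h : Bds M S) {x : ℝ} (h1 : -6 ≤ x) (h2 : x ≤ 6) :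
    ((0 : ℝ), x) ∈ (mdl B S).dom 2 := by
  refine (dom2 _).2 ⟨h1, ?_, ?_, by show x ≤ B; linarith⟩
  · show lam S (0 + S) ≤ Fn x
    rw [lam_right h.S_pos (by linarith)]
    linarith [Fn_nonneg x]
  · exact Fn_ge_of_abs (by rw [abs_of_neg (by show x - 8 < 0; linarith)]; show 2 ≤ -(x - 8); linarith) _ _

lemma domC3 (hB : 13 ≤ B) {x : ℝ} (h1 : -6 ≤ x) (h2 : x ≤ 6) :
    ((0 : ℝ), x) ∈ (mdl B S).dom 3 := by
  refine (dom3 _).2 ⟨h1, ?_, by show x ≤ B + 4; linarith⟩
  exact Fn_ge_of_abs (by rw [abs_of_neg (by show x - 8 < 0; linarith)]; show 2 ≤ -(x - 8); linarith) _ _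

lemma circle_sq (z : Circle) : (z : ℂ).re ^ 2 + (z : ℂ).im ^ 2 = 1 := by
  have h := Circle.normSq_coe z
  rw [Complex.normSq_apply] at h
  linarith

lemma circle_re_bd (z : Circle) : -6 ≤ 6 * (z : ℂ).re ∧ 6 * (z : ℂ).re ≤ 6 := by
  have h := circle_sq z
  constructor <;> nlinarith [sq_nonneg (z : ℂ).im]

lemma cir_eq_of_im_zero (hB : 13 ≤ B) (h : Bds M S) (z : Circle) (hz : (z : ℂ).im = 0) :
    (mdl B S).P 2 (0, 6 * (z : ℂ).re) = (mdl B S).P 3 (0, 6 * (z : ℂ).re) := by
  have h1 := circle_sq z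
  rw [hz] at h1
  have h2 : ((z : ℂ).re - 1) * ((z : ℂ).re + 1) = 0 := by nlinarith
  rcases mul_eq_zero.1 h2 with h3 | h3
  · have : 6 * (z : ℂ).re = 6 := by linarith
    rw [this]
    exact fold23m hB h (le_refl 0) (Or.inl rfl)
  · have : 6 * (z : ℂ).re = -6 := by linarith
    rw [this]
    exact fold23 hB h 0

lemma cir_continuous (hB : 13 ≤ B) (h : Bds M S) : Continuous (cir B S) := by
  unfold cir
  have him : Continuous (fun z : Circle => (z : ℂ).im) := Complex.continuous_im.comp continuous_subtype_val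
  have hre : Continuous (fun z : Circle => (z : ℂ).re) := Complex.continuous_re.comp continuous_subtype_val
  refine Continuous.if_le ?_ ?_ continuous_const him ?_
  · exact ((mdl B S).P_continuous 2).comp (continuous_const.prodMk (continuous_const.mul hre))
  · exact ((mdl B S).P_continuous 3).comp (continuous_const.prodMk (continuous_const.mul hre))
  · intro z hz
    exact cir_eq_of_im_zero hB h z hz.symm

lemma cir_fst (z : Circle) : (cir B S z).1 = 0 ∧ (cir B S z).2.1 = 6 * (z : ℂ).re := by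
  unfold cir
  split_ifs <;> exact ⟨rfl, rfl⟩

lemma cir_mem (hB : 13 ≤ B) (h : Bds M S) (z : Circle) :
    cir B S z ∈ (mdl B S).Sh 2 ∨ cir B S z ∈ (mdl B S).Sh 3 := by
  have h1 := circle_re_bd z
  unfold cir
  split_ifs
  · exact Or.inl ((mdl B S).P_mem (domC2 hB h h1.1 h1.2))
  · exact Or.inr ((mdl B S).P_mem (domC3 hB h1.1 h1.2))

lemma P_inj {j j' : Fin 4} {u : ℝ × ℝ} (h : (mdl B S).P j u = (mdl B S).P j' u) :
    (mdl B S).Y j u = (mdl B S).Y j' u ∧ (mdl B S).Z j u = (mdl B S).Z j' u := by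
  simp only [Surf.P, Prod.mk.injEq, true_and] at h
  exact h

lemma cir_not (hB : 13 ≤ B) (h : Bds M S) {x : ℝ} (h1 : -6 ≤ x) (h2 : x ≤ 6)
    (he : (mdl B S).P 2 (0, x) = (mdl B S).P 3 (0, x)) : x = -6 ∨ x = 6 := by
  rcases i23 hB h (0, x) (domC2 hB h h1 h2) (P_inj he).2 with h3 | h3
  · exact Or.inl h3
  · right
    rw [box_eq_zero_iff, lam_left h.S_pos (by show (0 : ℝ) + 0 ≤ 0; norm_num)] at h3
    have h4 : Fn (x - 8) = 2 := h3
    have h5 : |x - 8| ≤ 2 := ge_of_abs_le h4.le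
    have := (abs_le.1 h5).1
    linarith

lemma cir_injective (hB : 13 ≤ B) (h : Bds M S) : Function.Injective (cir B S) := by
  intro z w hzw
  have h1 : (z : ℂ).re = (w : ℂ).re := by
    have := congrArg (fun p : E4 => p.2.1) hzw
    simp only [cir_fst] at this
    linarith
  have hz := circle_sq z
  have hw := circle_sq w
  have key : ∀ z w : Circle, cir B S z = cir B S w → (z : ℂ).re = (w : ℂ).re →
      0 ≤ (z : ℂ).im → (w : ℂ).im < 0 → False := by
    intro z w hzw hre hz0 hw0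
    unfold cir at hzw
    rw [if_pos hz0, if_neg (not_le.2 hw0), ← hre] at hzw
    have hb := circle_re_bd z
    have hw := circle_sq w
    have h6 : (w : ℂ).re ^ 2 = 1 := by
      rcases cir_not hB h hb.1 hb.2 hzw with h5 | h5
      · rw [← hre]; nlinarith
      · rw [← hre]; nlinarith
    nlinarith
  have him : (z : ℂ).im = (w : ℂ).im := by
    rw [h1] at hz
    have h3 : ((z : ℂ).im - (w : ℂ).im) * ((z : ℂ).im + (w : ℂ).im) = 0 := by nlinarith
    rcases mul_eq_zero.1 h3 with h4 | h4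
    · linarith
    · rcases le_or_gt 0 (z : ℂ).im with h5 | h5
      · rcases le_or_gt 0 (w : ℂ).im with h6 | h6
        · linarith
        · exact (key z w hzw h1 h5 h6).elim
      · have h6 : 0 ≤ (w : ℂ).im := by linarith
        exact (key w z hzw.symm h1.symm h6 h5).elim
  apply Circle.ext
  exact Complex.ext h1 him

lemma cir_surj (hB : 13 ≤ B) (h : Bds M S) {x : ℝ} (h1 : -6 ≤ x) (h2 : x ≤ 6) :
    (mdl B S).P 2 (0, x) ∈ range (cir B S) ∧ (mdl B S).P 3 (0, x) ∈ range (cir B S) := by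
  have hx1 : -1 ≤ x / 6 := by linarith
  have hx2 : x / 6 ≤ 1 := by linarith
  have hc : Real.cos (Real.arccos (x / 6)) = x / 6 := Real.cos_arccos hx1 hx2
  have hs : 0 ≤ Real.sin (Real.arccos (x / 6)) :=
    Real.sin_nonneg_of_nonneg_of_le_pi (Real.arccos_nonneg _) (Real.arccos_le_pi _)
  constructor
  · refine ⟨Circle.exp (Real.arccos (x / 6)), ?_⟩
    have e1 : ((Circle.exp (Real.arccos (x / 6)) : Circle) : ℂ).re = x / 6 := by
      rw [Circle.coe_exp, Complex.exp_ofReal_mul_I_re, hc]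
    have e2 : 0 ≤ ((Circle.exp (Real.arccos (x / 6)) : Circle) : ℂ).im := by
      rw [Circle.coe_exp, Complex.exp_ofReal_mul_I_im]; exact hs
    unfold cir
    rw [if_pos e2, e1]
    congr 2; ring
  · refine ⟨Circle.exp (-Real.arccos (x / 6)), ?_⟩
    have e1 : ((Circle.exp (-Real.arccos (x / 6)) : Circle) : ℂ).re = x / 6 := by
      rw [Circle.coe_exp, Complex.exp_ofReal_mul_I_re, Real.cos_neg, hc]
    have e2 : ((Circle.exp (-Real.arccos (x / 6)) : Circle) : ℂ).im =
        -Real.sin (Real.arccos (x / 6)) := by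
      rw [Circle.coe_exp, Complex.exp_ofReal_mul_I_im, Real.sin_neg]
    have e3 : (6 * (x / 6) : ℝ) = x := by ring
    rcases eq_or_lt_of_le hs with h3 | h3
    · have e4 := cir_eq_of_im_zero hB h (Circle.exp (-Real.arccos (x / 6)))
        (by rw [e2, ← h3, neg_zero])
      unfold cir
      rw [if_pos (by rw [e2, ← h3, neg_zero]), e4, e1, e3]
    · unfold cir
      rw [if_neg (by rw [e2]; linarith), e1, e3]

lemma not_cir {p : E4} (hp : p.1 ≠ 0 ∨ 6 < p.2.1) : p ∉ range (cir B S) := by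
  rintro ⟨z, rfl⟩
  have h1 := cir_fst (B := B) (S := S) z
  have h2 := circle_re_bd z
  rcases hp with hp | hp
  · exact hp h1.1
  · rw [h1.2] at hp; linarith

lemma not_cir0 (hB : 13 ≤ B) (h : Bds M S) {s x : ℝ} (hd : (s, x) ∈ (mdl B S).dom 0) :
    (mdl B S).P 0 (s, x) ∉ range (cir B S) := by
  rintro ⟨z, hz⟩
  have h1 := cir_fst (B := B) (S := S) z
  have h2 := circle_re_bd z
  rw [hz] at h1
  have hs : s = 0 := h1.1
  have hx : x = 6 * (z : ℂ).re := h1.2
  have hmem := cir_mem hB h z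
  rw [hz] at hmem
  have h0 : (mdl B S).P 0 (s, x) ∈ (mdl B S).Sh 0 := (mdl B S).P_mem hd
  rcases hmem with h3 | h3
  · rcases i02 hB h (s, x) hd h3.1 (h0.2.2.symm.trans h3.2.2) with h4 | h4
    · have : box S 0 S (s, x) = 1 := box_one' h.S_pos (by show S ≤ s + S; linarith)
      rw [this] at h4; norm_num at h4
    · have h5 : x = B := h4
      linarith
  · exact i03 h (s, x) hd h3.1 (h0.2.2.symm.trans h3.2.2)

lemma not_cir1 (hB : 13 ≤ B) (h : Bds M S) {s x : ℝ} (hd : (s, x) ∈ (mdl B S).dom 1) :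
    (mdl B S).P 1 (s, x) ∉ range (cir B S) := by
  rintro ⟨z, hz⟩
  have h1 := cir_fst (B := B) (S := S) z
  have h2 := circle_re_bd z
  rw [hz] at h1
  have hx : x = 6 * (z : ℂ).re := h1.2
  have hmem := cir_mem hB h z
  rw [hz] at hmem
  have h0 : (mdl B S).P 1 (s, x) ∈ (mdl B S).Sh 1 := (mdl B S).P_mem hd
  rcases hmem with h3 | h3
  · exact i12 h (s, x) h3.1 (h0.2.2.symm.trans h3.2.2)
  · have h5 : x = B + 4 := i13 hB h (s, x) h3.1 (h0.2.2.symm.trans h3.2.2)
      (h0.2.1.symm.trans h3.2.1)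
    linarith

theorem compl_connected (hB : 13 ≤ B) (h : Bds M S) :
    IsConnected ((mdl B S).L \ range (cir B S)) := by
  have hS := h.S_pos
  set W : Set E4 := (mdl B S).L \ range (cir B S) with hWd
  have hW : (mdl B S).L ∩ {p | p.1 = S + 1} ⊆ W := by
    rintro p ⟨hp, hp1⟩
    exact ⟨hp, not_cir (Or.inl (by rw [show p.1 = S + 1 from hp1]; linarith))⟩
  have up : ∀ {j : Fin 4} {t s x : ℝ}, (t, x) ∈ (mdl B S).dom j → (t ≤ s ∨ S < s) →
      (s, x) ∈ (mdl B S).dom j := by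
    intro j t s x hu hs
    rcases hs with hs | hs
    · exact dom_up h hs hu
    · exact dom_top h hs hu
  -- sheets 0 and 1
  have j0 : ∀ {t x : ℝ}, (t, x) ∈ (mdl B S).dom 0 → Jn W ((mdl B S).P 0 (t, x)) (base B S) := by
    intro t x hu
    refine vert_joined hB h hW hu fun s hs => ⟨(mdl B S).P_mem_L (up hu hs), ?_⟩
    exact not_cir0 hB h (up hu hs)
  have j1 : ∀ {t x : ℝ}, (t, x) ∈ (mdl B S).dom 1 → Jn W ((mdl B S).P 1 (t, x)) (base B S) := by
    intro t x hu
    refine vert_joined hB h hW hu fun s hs => ⟨(mdl B S).P_mem_L (up hu hs), ?_⟩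
    exact not_cir1 hB h (up hu hs)
  -- positive t, or x > 6
  have jpos : ∀ {j : Fin 4} {t x : ℝ}, (t, x) ∈ (mdl B S).dom j → (0 < t ∨ 6 < x) →
      Jn W ((mdl B S).P j (t, x)) (base B S) := by
    intro j t x hu hx
    refine vert_joined hB h hW hu fun s hs => ⟨(mdl B S).P_mem_L (up hu hs), ?_⟩
    rcases hx with hx | hx
    · refine not_cir (Or.inl ?_)
      show s ≠ 0
      rcases hs with hs | hs <;> linarith
    · exact not_cir (Or.inr hx)
  -- bottom level
  set T : ℝ := -S - 1 with hT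
  have memneg : ∀ {j : Fin 4} {t x : ℝ}, (t, x) ∈ (mdl B S).dom j → t < 0 →
      (mdl B S).P j (t, x) ∈ W := by
    intro j t x hu ht
    exact ⟨(mdl B S).P_mem_L hu, not_cir (Or.inl (by show t ≠ 0; linarith))⟩
  have bot : Jn W ((mdl B S).P 2 (T, -6)) (base B S) := by
    have e : Jn W ((mdl B S).P 2 (T, -6)) ((mdl B S).P 2 (T, -2)) := by
      refine Surf.seg_h 2 fun w hw => memneg ((dom2 _).2 ?_) (by linarith)
      have := uIcc_bd hw (le_refl _) (by norm_num) (by norm_num) (le_refl _)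
      refine ⟨this.1, Fn_ge_of_abs ?_ _ _, Fn_ge_of_abs ?_ _ _, by show w ≤ B; linarith⟩
      · rw [abs_of_neg (by show w < 0; linarith)]; show 2 ≤ -w; linarith
      · rw [abs_of_neg (by show w - 8 < 0; linarith)]; show 2 ≤ -(w - 8); linarith
    rw [← fold02m hB h (by linarith) (Or.inr rfl)] at e
    refine e.trans (j0 ((dom0 _).2 ⟨by norm_num, Fn_ge_of_abs (by norm_num) _ _,
      by show (-2 : ℝ) ≤ B; linarith⟩))
  have left : ∀ {t : ℝ}, t < 0 → Jn W ((mdl B S).P 2 (t, -6)) (base B S) := by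
    intro t ht
    have e : Jn W ((mdl B S).P 2 (t, -6)) ((mdl B S).P 2 (T, -6)) := by
      refine Surf.seg_v 2 fun s hs => memneg ((dom2 _).2 ?_) ?_
      · exact ⟨le_refl _, Fn_ge_of_abs (by norm_num) _ _, Fn_ge_of_abs (by norm_num) _ _,
          by show (-6 : ℝ) ≤ B; linarith⟩
      · rcases mem_uIcc.1 hs with ⟨_, h2⟩ | ⟨_, h2⟩ <;> linarith
    exact e.trans bot
  have left3 : ∀ {t x : ℝ}, t < 0 → -6 ≤ x → x ≤ 6 → Jn W ((mdl B S).P 3 (t, x)) (base B S) := by
    intro t x ht h1 h2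
    have e : Jn W ((mdl B S).P 3 (t, x)) ((mdl B S).P 3 (t, -6)) := by
      refine Surf.seg_h 3 fun w hw => memneg ((dom3 _).2 ?_) ht
      have := uIcc_bd hw h1 (le_refl _) h2 (by norm_num)
      refine ⟨this.1, Fn_ge_of_abs ?_ _ _, by show w ≤ B + 4; linarith⟩
      rw [abs_of_neg (by show w - 8 < 0; linarith)]; show 2 ≤ -(w - 8); linarith
    rw [← fold23 hB h] at e
    exact e.trans (left ht)
  have left2 : ∀ {t x : ℝ}, t < 0 → x ≤ 6 → (t, x) ∈ (mdl B S).dom 2 →
      Jn W ((mdl B S).P 2 (t, x)) (base B S) := by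
    intro t x ht h2 hu
    have hu' := (dom2 _).1 hu
    have h1 : -6 ≤ x := hu'.1
    have hl : lam S (t + S) ≤ Fn x := hu'.2.1
    rcases le_or_gt x 0 with hx | hx
    · have e : Jn W ((mdl B S).P 2 (t, x)) ((mdl B S).P 2 (t, -6)) := by
        refine Surf.seg_h 2 fun w hw => memneg ((dom2 _).2 ?_) ht
        have hw2 := uIcc_bd hw h1 (le_refl _) (le_refl x) h1
        refine ⟨hw2.1, ?_, Fn_ge_of_abs ?_ _ _, by show w ≤ B; linarith⟩
        · refine hl.trans ?_
          show Fn x ≤ Fn w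
          rw [← Fn_abs w, Fn_le_iff (abs_nonneg w), abs_of_nonpos hx, abs_of_nonpos (by linarith)]
          linarith
        · rw [abs_of_neg (by show w - 8 < 0; linarith)]; show 2 ≤ -(w - 8); linarith
      exact e.trans (left ht)
    · have e : Jn W ((mdl B S).P 2 (t, x)) ((mdl B S).P 2 (t, 6)) := by
        refine Surf.seg_h 2 fun w hw => memneg ((dom2 _).2 ?_) ht
        have hw2 := uIcc_bd hw (le_refl x) h2 h2 (le_refl _)
        refine ⟨by show -6 ≤ w; linarith, ?_, Fn_ge_of_abs ?_ _ _, by show w ≤ B; linarith⟩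
        · refine hl.trans ?_
          show Fn x ≤ Fn w
          rw [← Fn_abs w, Fn_le_iff (abs_nonneg w), abs_of_pos hx, abs_of_pos (by linarith)]
          linarith
        · rw [abs_of_neg (by show w - 8 < 0; linarith)]; show 2 ≤ -(w - 8); linarith
      rw [fold23m hB h ht.le (Or.inl rfl)] at e
      exact e.trans (left3 ht (by norm_num) (le_refl _))
  have hbase : base B S ∈ W := hW ⟨base_mem hB h, rfl⟩
  refine connected_of_Jn hbase ?_
  rintro p ⟨⟨j, hj⟩, hpc⟩
  have hd := hj.1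
  have hp : p = (mdl B S).P j (p.1, p.2.1) := (mdl B S).eq_P hj
  have hd' : (p.1, p.2.1) ∈ (mdl B S).dom j := hd
  rw [hp] at hpc ⊢
  by_cases hx : 0 < p.1 ∨ 6 < p.2.1
  · exact jpos hd' hx
  · rw [not_or, not_lt, not_lt] at hx
    obtain ⟨ht, hx⟩ := hx
    fin_cases j
    · exact j0 hd'
    · exact j1 hd'
    · have h1 : -6 ≤ p.2.1 := ((dom2 _).1 hd').1
      rcases eq_or_lt_of_le ht with h3 | h3
      · exfalso
        apply hpc
        rw [h3]
        exact (cir_surj hB h h1 hx).1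
      · exact left2 h3 hx hd'
    · have h1 : -6 ≤ p.2.1 := ((dom3 _).1 hd').1
      rcases eq_or_lt_of_le ht with h3 | h3
      · exfalso
        apply hpc
        rw [h3]
        exact (cir_surj hB h h1 hx).2
      · exact left3 h3 h1 hx

end Pool.Agent.K1H61.LC
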