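import Pool.Agent.K1H61.LC.Model

/-!
# The concrete surface: geometric conditions
-/

set_option autoImplicit false

open scoped ContDiff Topology
open Filter Set

namespace Pool.Agent.K1H61.LC

lemma ev_lt {f : ℝ × ℝ → ℝ} (hf : Continuous f) {u : ℝ × ℝ} {c : ℝ} (h : c < f u) :
    ∀ᶠ v in 𝓝 u, c < f v := hf.continuousAt.eventually (lt_mem_nhds h)

lemma ev_gt {f : ℝ × ℝ → ℝ} (hf : Continuous f) {u : ℝ × ℝ} {c : ℝ} (h : f u < c) :
    ∀ᶠ v in 𝓝 u, f v < c := hf.continuousAt.eventually (gt_mem_nhds h)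

/-! ### the wall -/

lemma lam_le (S t : ℝ) : lam S t ≤ 2 := by
  have := th_nonneg (t / S); unfold lam; linarith

lemma lam_ge (S t : ℝ) : -1 ≤ lam S t := by
  have := th_le_one (t / S); unfold lam; linarith

lemma lam_left {S t : ℝ} (hS : 0 < S) (h : t ≤ 0) : lam S t = 2 := by
  unfold lam; rw [th_zero (div_nonpos_of_nonpos_of_nonneg h hS.le)]; norm_num

lemma lam_right {S t : ℝ} (hS : 0 < S) (h : S ≤ t) : lam S t = -1 := by
  unfold lam; rw [th_one ((one_le_div hS).2 h)]; norm_num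

lemma lam_anti {S : ℝ} (hS : 0 < S) {t t' : ℝ} (h : t ≤ t') : lam S t' ≤ lam S t := by
  have := th_mono (div_le_div_of_nonneg_right h hS.le)
  unfold lam; linarith

lemma lam1_nonpos {S : ℝ} (hS : 0 < S) (t : ℝ) : lam1 S t ≤ 0 := by
  have := deriv_th_nonneg (t / S)
  unfold lam1
  have h : 0 < 3 / S := by positivity
  nlinarith

lemma lam1_left {S t : ℝ} (hS : 0 < S) (h : t < 0) : lam1 S t = 0 := by
  unfold lam1; rw [deriv_th_zero_left (div_neg_of_neg_of_pos h hS), mul_zero]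

lemma lam1_right {S t : ℝ} (hS : 0 < S) (h : S < t) : lam1 S t = 0 := by
  unfold lam1; rw [deriv_th_zero_right ((one_lt_div hS).2 h), mul_zero]

lemma lam1_ne {S t : ℝ} (hS : 0 < S) (h0 : 0 < t) (h1 : t < S) : lam1 S t ≠ 0 := by
  have := deriv_th_pos (div_pos h0 hS) ((div_lt_one hS).2 h1)
  unfold lam1
  have h : 0 < 3 / S := by positivity
  have := mul_pos h this
  nlinarith

lemma box_eq_zero_iff {S a b : ℝ} {u : ℝ × ℝ} : box S a b u = 0 ↔ Fn (u.2 - a) = lam S (u.1 + b) := by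
  unfold box; rw [Rn_eq_zero_iff, sub_eq_zero]

lemma box_nonneg_iff {S a b : ℝ} {u : ℝ × ℝ} :
    0 ≤ box S a b u ↔ lam S (u.1 + b) ≤ Fn (u.2 - a) := by
  unfold box; rw [Rn_nonneg_iff, sub_nonneg]

lemma box_reg {S : ℝ} (hS : 0 < S) (a b : ℝ) (u : ℝ × ℝ) (hu : box S a b u = 0) :
    0 < dx (box S a b) u ^ 2 + dt (box S a b) u ^ 2 := by
  have hw : wf S a b u = 0 := by
    have := box_eq_zero_iff.1 hu
    unfold wf; linarith
  have hR : deriv Rn 0 = 1 := deriv_Rn_small (by norm_num)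
  rw [box_dx, box_dt]
  simp only [hw, hR, one_mul, neg_sq]
  by_cases hx : u.2 - a = 0
  · have h1 := box_eq_zero_iff.1 hu
    rw [hx, Fn_zero] at h1
    have h2 : 0 < u.1 + b := by
      by_contra h
      rw [lam_left hS (not_lt.1 h)] at h1; norm_num at h1
    have h3 : u.1 + b < S := by
      by_contra h
      rw [lam_right hS (not_lt.1 h)] at h1; norm_num at h1
    have := lam1_ne hS h2 h3
    positivity
  · have := deriv_Fn_ne hx
    positivity

lemma Bds.box_slit {M S : ℝ} (h : Bds M S) (a b : ℝ) (u : ℝ × ℝ) (hu : 0 ≤ box S a b u) :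
    0 < bRe 1 (box S a b) u ∨ bIm 1 (box S a b) u ≠ 0 := by
  rcases eq_or_lt_of_le hu with h0 | h0
  · right
    have h1 := box_reg h.S_pos a b u h0.symm
    have : bIm 1 (box S a b) u = 3 / 4 * (dx (box S a b) u ^ 2 + dt (box S a b) u ^ 2) := by
      simp only [bIm, ← h0]; ring
    rw [this]; positivity
  · left
    have h1 := h.box_bD a b u hu
    unfold bRe
    rw [mul_one]
    exact mul_pos (Real.sqrt_pos.2 h0) (by linarith)

lemma flat_of_ev {r : ℝ × ℝ → ℝ} {u : ℝ × ℝ} {c : ℝ} (hc : 0 < c) (h : ∀ᶠ v in 𝓝 u, r v = c) :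
    Flat r u := by
  have := h.self_of_nhds
  exact ⟨by rw [this]; exact hc, by simpa [this] using h⟩

lemma box_one {S a b : ℝ} {u : ℝ × ℝ} (h : 3 ≤ |u.2 - a|) : box S a b u = 1 := by
  unfold box
  rw [Fn_of_large (by linarith)]
  exact Rn_of_large (by linarith [lam_le S (u.1 + b)])

lemma box_one' {S a b : ℝ} (hS : 0 < S) {u : ℝ × ℝ} (h : S ≤ u.1 + b) : box S a b u = 1 := by
  unfold box
  rw [lam_right hS h]
  exact Rn_of_large (by linarith [Fn_nonneg (u.2 - a)])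

lemma box_flat {S a b : ℝ} {u : ℝ × ℝ} (h : 3 < |u.2 - a|) : Flat (box S a b) u := by
  refine flat_of_ev one_pos ?_
  have : ∀ᶠ v : ℝ × ℝ in 𝓝 u, 3 < |v.2 - a| :=
    ev_lt (by fun_prop) h
  filter_upwards [this] with v hv using box_one hv.le

lemma bZ_box_lower {S : ℝ} (hS : 0 < S) (a b : ℝ) (u : ℝ × ℝ) (hu : 0 ≤ box S a b u) :
    -1 ≤ bG 1 (box S a b) u + bQ 1 (box S a b) u ∧
    (bG 1 (box S a b) u + bQ 1 (box S a b) u = -1 → box S a b u = 0) := by
  have h1 : 0 ≤ bQ 1 (box S a b) u := by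
    unfold bQ
    rw [box_dt]
    have h2 := deriv_Rn_nonneg (wf S a b u)
    have h3 := lam1_nonpos hS (u.1 + b)
    have h4 := Real.sqrt_nonneg (box S a b u)
    have : 0 ≤ -(deriv Rn (wf S a b u) * lam1 S (u.1 + b)) := by nlinarith
    positivity
  have h2 : 0 ≤ box S a b u * √(box S a b u) := mul_nonneg hu (Real.sqrt_nonneg _)
  unfold bG
  refine ⟨by linarith, fun h => ?_⟩
  have h3 : box S a b u * √(box S a b u) = 0 := by linarith
  rcases mul_eq_zero.1 h3 with h4 | h4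
  · exact h4
  · exact le_antisymm (Real.sqrt_eq_zero'.1 h4) hu

lemma Bds.bQ_box {M S : ℝ} (h : Bds M S) (a b : ℝ) (u : ℝ × ℝ) :
    |bQ 1 (box S a b) u| ≤ 1 / 2 := by
  have l1 := h.lam1_bd (u.1 + b)
  obtain ⟨-, -, R1, R2, -, -⟩ := h.bd (wf S a b u)
  have hM := h.one_le
  have hM0 : 0 ≤ M := by linarith
  have hS := h.S_pos
  have heps := h.eps
  have hε0 : 0 ≤ 3 * M / S := by positivity
  have ht : |dt (box S a b) u| ≤ M * (3 * M / S) := by
    rw [box_dt, abs_neg]; exact mul_bd R1 l1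
  have hs : |√(box S a b u)| ≤ 1 := by
    rw [abs_of_nonneg (Real.sqrt_nonneg _)]
    exact Real.sqrt_le_one.2 (box_le_one _ _ _ _)
  unfold bQ
  have h1 : |3 / 2 * 1 * √(box S a b u) * dt (box S a b) u| ≤ 3 / 2 * 1 * (M * (3 * M / S)) := by
    refine mul_bd ?_ ht
    have h2 : |(3 / 2 * 1 : ℝ)| ≤ 3 / 2 := by rw [abs_of_pos] <;> norm_num
    exact (mul_bd h2 hs).trans (by norm_num)
  refine h1.trans ?_
  have hM5 : M ≤ M ^ 5 := by
    calc M = M ^ 1 := (pow_one M).symm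
      _ ≤ M ^ 5 := pow_le_pow_right₀ hM (by norm_num)
  nlinarith

lemma bG_le {r : ℝ × ℝ → ℝ} {u : ℝ × ℝ} {κ : ℝ} (hκ : 0 < κ) (h1 : r u ≤ 1) :
    bG κ r u ≤ 0 := by
  unfold bG
  have h2 : √(r u) ≤ 1 := Real.sqrt_le_one.2 h1
  have h3 := Real.sqrt_nonneg (r u)
  have : r u * √(r u) ≤ 1 := by nlinarith
  nlinarith

lemma Bds.bZ_box_upper {M S : ℝ} (h : Bds M S) (a b : ℝ) (u : ℝ × ℝ) :
    bG 1 (box S a b) u + bQ 1 (box S a b) u ≤ 1 / 2 := by
  have h1 := (abs_le.1 (h.bQ_box a b u)).2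
  have h2 := bG_le (κ := 1) one_pos (box_le_one S a b u)
  linarith

/-! ### the one variable blocks -/

/-- the blocks depending on `x` only -/
noncomputable def e0 (c x : ℝ) : ℝ := Rn (x + c)
/-- mirrored block -/
noncomputable def e1 (c x : ℝ) : ℝ := Rn (c - x)
/-- the ramp -/
noncomputable def er (B x : ℝ) : ℝ := (1 + th (x - B - 1)) ^ 2

lemma e0_smooth (c : ℝ) : ContDiff ℝ ∞ (e0 c) := by
  unfold e0; exact Rn_smooth.comp (by fun_prop)
lemma e1_smooth (c : ℝ) : ContDiff ℝ ∞ (e1 c) := by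
  unfold e1; exact Rn_smooth.comp (by fun_prop)
lemma er_smooth (B : ℝ) : ContDiff ℝ ∞ (er B) := by
  unfold er; exact (contDiff_const.add (th_smooth.comp (by fun_prop))).pow 2

lemma e0_deriv {c x : ℝ} (h : e0 c x = 0) : deriv (e0 c) x ≠ 0 := by
  have h1 : x + c = 0 := Rn_eq_zero_iff.1 h
  have h2 : HasDerivAt (fun x : ℝ => x + c) 1 x := (hasDerivAt_id x).add_const c
  have h3 := (smooth_hasDerivAt Rn_smooth (x + c)).comp x h2
  have h4 : HasDerivAt (e0 c) _ x := h3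
  rw [h4.deriv, h1, deriv_Rn_small (by norm_num)]; norm_num

lemma e1_deriv {c x : ℝ} (h : e1 c x = 0) : deriv (e1 c) x ≠ 0 := by
  have h1 : c - x = 0 := Rn_eq_zero_iff.1 h
  have h2 : HasDerivAt (fun x : ℝ => c - x) (-1) x := (hasDerivAt_id x).const_sub c
  have h3 := (smooth_hasDerivAt Rn_smooth (c - x)).comp x h2
  have h4 : HasDerivAt (e1 c) _ x := h3
  rw [h4.deriv, h1, deriv_Rn_small (by norm_num)]; norm_num

lemma er_pos (B x : ℝ) : 0 < er B x := by
  have := th_nonneg (x - B - 1); unfold er; positivity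

lemma er_deriv {B x : ℝ} (h : er B x = 0) : deriv (er B) x ≠ 0 := absurd h (er_pos B x).ne'

lemma e0_flat {c : ℝ} {u : ℝ × ℝ} (h : 1 < u.2 + c) : Flat (fun u : ℝ × ℝ => e0 c u.2) u := by
  refine flat_of_ev one_pos ?_
  have : ∀ᶠ v : ℝ × ℝ in 𝓝 u, 1 < v.2 + c :=
    ev_lt (by fun_prop) h
  filter_upwards [this] with v hv using Rn_of_large hv.le

lemma e1_flat {c : ℝ} {u : ℝ × ℝ} (h : 1 < c - u.2) : Flat (fun u : ℝ × ℝ => e1 c u.2) u := by
  refine flat_of_ev one_pos ?_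
  have : ∀ᶠ v : ℝ × ℝ in 𝓝 u, 1 < c - v.2 :=
    ev_lt (by fun_prop) h
  filter_upwards [this] with v hv using Rn_of_large hv.le

lemma er_left {B x : ℝ} (h : x ≤ B + 1) : er B x = 1 := by
  unfold er; rw [th_zero (by linarith)]; norm_num

lemma er_right {B x : ℝ} (h : B + 2 ≤ x) : er B x = 4 := by
  unfold er; rw [th_one (by linarith)]; norm_num

lemma er_flat {B : ℝ} {u : ℝ × ℝ} (h : u.2 < B + 1 ∨ B + 2 < u.2) :
    Flat (fun u : ℝ × ℝ => er B u.2) u := by
  rcases h with h | h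
  · refine flat_of_ev one_pos ?_
    have : ∀ᶠ v : ℝ × ℝ in 𝓝 u, v.2 < B + 1 :=
      ev_gt (by fun_prop) h
    filter_upwards [this] with v hv using er_left hv.le
  · refine flat_of_ev (c := 4) (by norm_num) ?_
    have : ∀ᶠ v : ℝ × ℝ in 𝓝 u, B + 2 < v.2 :=
      ev_lt (by fun_prop) h
    filter_upwards [this] with v hv using er_right hv.le

/-- The concrete surface. -/
noncomputable def mdl (B S : ℝ) : Surf (Fin 7) (Fin 4) where
  κ := ![3, 1, 1, 1, 1, 1, 4 / 7]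
  r := ![fun u => e0 9 u.2, fun u => e0 6 u.2, box S 0 S, box S 8 0, fun u => e1 B u.2,
    fun u => e1 (B + 4) u.2, fun u => er B u.2]
  s := ![![1, 0, 1, 0, 1, 0, 0], ![-1, 0, 0, 0, 0, 1, 1], ![0, 1, -1, 1, -1, 0, 0],
    ![0, -1, 0, -1, 0, -1, 0]]
  h := ![0, -6, -2, -4]
  n := ![0, 1, 1, 2]
  κ_pos := by intro i; fin_cases i <;> norm_num
  smooth := by
    intro i
    fin_cases i
    · exact one_smooth (e0_smooth 9)
    · exact one_smooth (e0_smooth 6)
    · exact box_smooth S 0 S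
    · exact box_smooth S 8 0
    · exact one_smooth (e1_smooth B)
    · exact one_smooth (e1_smooth (B + 4))
    · exact one_smooth (er_smooth B)
  s_val := by intro j i; fin_cases j <;> fin_cases i <;> simp

end Pool.Agent.K1H61.LC
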