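import Pool.Agent.K1H61.LC.Conc

/-!
# The concrete surface: verification of the geometric conditions
-/

set_option autoImplicit false

open scoped ContDiff Topology
open Filter Set

namespace Pool.Agent.K1H61.LC

variable {B S : ℝ}

lemma dom0 (u : ℝ × ℝ) : u ∈ (mdl B S).dom 0 ↔
    -9 ≤ u.2 ∧ lam S (u.1 + S) ≤ Fn u.2 ∧ u.2 ≤ B := by
  have h1 : 0 ≤ e0 9 u.2 ↔ -9 ≤ u.2 := by
    unfold e0; rw [Rn_nonneg_iff]; constructor <;> intro h <;> linarith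
  have h2 : 0 ≤ box S 0 S u ↔ lam S (u.1 + S) ≤ Fn u.2 := by rw [box_nonneg_iff, sub_zero]
  have h3 : 0 ≤ e1 B u.2 ↔ u.2 ≤ B := by
    unfold e1; rw [Rn_nonneg_iff]; constructor <;> intro h <;> linarith
  rw [← h1, ← h2, ← h3]
  simp [Surf.dom, mdl, Fin.forall_fin_succ]

lemma dom1 (u : ℝ × ℝ) : u ∈ (mdl B S).dom 1 ↔ -9 ≤ u.2 ∧ u.2 ≤ B + 4 := by
  have h1 : 0 ≤ e0 9 u.2 ↔ -9 ≤ u.2 := by
    unfold e0; rw [Rn_nonneg_iff]; constructor <;> intro h <;> linarith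
  have h3 : 0 ≤ e1 (B + 4) u.2 ↔ u.2 ≤ B + 4 := by
    unfold e1; rw [Rn_nonneg_iff]; constructor <;> intro h <;> linarith
  have h4 : 0 ≤ er B u.2 := (er_pos B u.2).le
  rw [← h1, ← h3]
  simp [Surf.dom, mdl, Fin.forall_fin_succ, h4]

lemma dom2 (u : ℝ × ℝ) : u ∈ (mdl B S).dom 2 ↔
    -6 ≤ u.2 ∧ lam S (u.1 + S) ≤ Fn u.2 ∧ lam S u.1 ≤ Fn (u.2 - 8) ∧ u.2 ≤ B := by
  have h1 : 0 ≤ e0 6 u.2 ↔ -6 ≤ u.2 := by
    unfold e0; rw [Rn_nonneg_iff]; constructor <;> intro h <;> linarith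
  have h2 : 0 ≤ box S 0 S u ↔ lam S (u.1 + S) ≤ Fn u.2 := by rw [box_nonneg_iff, sub_zero]
  have h2' : 0 ≤ box S 8 0 u ↔ lam S u.1 ≤ Fn (u.2 - 8) := by rw [box_nonneg_iff, add_zero]
  have h3 : 0 ≤ e1 B u.2 ↔ u.2 ≤ B := by
    unfold e1; rw [Rn_nonneg_iff]; constructor <;> intro h <;> linarith
  rw [← h1, ← h2, ← h2', ← h3]
  simp [Surf.dom, mdl, Fin.forall_fin_succ]

lemma dom3 (u : ℝ × ℝ) : u ∈ (mdl B S).dom 3 ↔
    -6 ≤ u.2 ∧ lam S u.1 ≤ Fn (u.2 - 8) ∧ u.2 ≤ B + 4 := by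
  have h1 : 0 ≤ e0 6 u.2 ↔ -6 ≤ u.2 := by
    unfold e0; rw [Rn_nonneg_iff]; constructor <;> intro h <;> linarith
  have h2' : 0 ≤ box S 8 0 u ↔ lam S u.1 ≤ Fn (u.2 - 8) := by rw [box_nonneg_iff, add_zero]
  have h3 : 0 ≤ e1 (B + 4) u.2 ↔ u.2 ≤ B + 4 := by
    unfold e1; rw [Rn_nonneg_iff]; constructor <;> intro h <;> linarith
  rw [← h1, ← h2', ← h3]
  simp [Surf.dom, mdl, Fin.forall_fin_succ]

/-- contribution of a block to `z` -/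
noncomputable def bZ (κ : ℝ) (r : ℝ × ℝ → ℝ) (u : ℝ × ℝ) : ℝ := bG κ r u + bQ κ r u

lemma Z0 (u : ℝ × ℝ) : (mdl B S).Z 0 u = bZ 3 (fun u => e0 9 u.2) u + bZ 1 (box S 0 S) u +
    bZ 1 (fun u => e1 B u.2) u := by
  simp only [Surf.Z, Surf.G, Surf.Q, Fin.sum_univ_seven, mdl, bZ]
  simp
  ring

lemma Z1 (u : ℝ × ℝ) : (mdl B S).Z 1 u = -6 - bZ 3 (fun u => e0 9 u.2) u +
    bZ 1 (fun u => e1 (B + 4) u.2) u + bZ (4 / 7) (fun u => er B u.2) u := by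
  simp only [Surf.Z, Surf.G, Surf.Q, Fin.sum_univ_seven, mdl, bZ]
  simp
  ring

lemma Z2 (u : ℝ × ℝ) : (mdl B S).Z 2 u = -2 + bZ 1 (fun u => e0 6 u.2) u - bZ 1 (box S 0 S) u +
    bZ 1 (box S 8 0) u - bZ 1 (fun u => e1 B u.2) u := by
  simp only [Surf.Z, Surf.G, Surf.Q, Fin.sum_univ_seven, mdl, bZ]
  simp
  ring

lemma Z3 (u : ℝ × ℝ) : (mdl B S).Z 3 u = -4 - bZ 1 (fun u => e0 6 u.2) u - bZ 1 (box S 8 0) u -
    bZ 1 (fun u => e1 (B + 4) u.2) u := by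
  simp only [Surf.Z, Surf.G, Surf.Q, Fin.sum_univ_seven, mdl, bZ]
  simp
  ring

lemma one_bZ {ρ : ℝ → ℝ} (hρ : ContDiff ℝ ∞ ρ) (κ : ℝ) (u : ℝ × ℝ) :
    bZ κ (fun u : ℝ × ℝ => ρ u.2) u = κ * (ρ u.2 * √(ρ u.2) - 1) := by
  rw [bZ, one_bQ hρ, bG, add_zero]

lemma e0_val {c κ x : ℝ} (hκ : 0 < κ) (u : ℝ × ℝ) (hu : u.2 = x) (h : -c ≤ x) :
    -κ ≤ bZ κ (fun u : ℝ × ℝ => e0 c u.2) u ∧ bZ κ (fun u : ℝ × ℝ => e0 c u.2) u ≤ 0 ∧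
    (bZ κ (fun u : ℝ × ℝ => e0 c u.2) u = -κ → x = -c) ∧
    (x = -c → bZ κ (fun u : ℝ × ℝ => e0 c u.2) u = -κ) ∧
    (1 - c ≤ x → bZ κ (fun u : ℝ × ℝ => e0 c u.2) u = 0) := by
  subst hu
  rw [one_bZ (e0_smooth c)]
  have h1 : 0 ≤ e0 c u.2 := by unfold e0; rw [Rn_nonneg_iff]; linarith
  have h2 : e0 c u.2 ≤ 1 := Rn_le_one _
  have h3 : √(e0 c u.2) ≤ 1 := Real.sqrt_le_one.2 h2
  have h4 := Real.sqrt_nonneg (e0 c u.2)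
  have h5 : 0 ≤ e0 c u.2 * √(e0 c u.2) := by positivity
  have h6 : e0 c u.2 * √(e0 c u.2) ≤ 1 := by nlinarith
  refine ⟨by nlinarith, by nlinarith, fun h => ?_, fun h => ?_, fun h => ?_⟩
  · have h7 : κ * (e0 c u.2 * √(e0 c u.2)) = 0 := by linarith
    have h8 := (mul_eq_zero.1 h7).resolve_left hκ.ne'
    have h9 : e0 c u.2 = 0 := by
      rcases mul_eq_zero.1 h8 with h | h
      · exact h
      · exact le_antisymm (Real.sqrt_eq_zero'.1 h) h1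
    have := Rn_eq_zero_iff.1 h9
    linarith
  · have : e0 c u.2 = 0 := by unfold e0; rw [Rn_eq_zero_iff]; linarith
    rw [this]; ring
  · have : e0 c u.2 = 1 := Rn_of_large (by linarith)
    rw [this]; simp

lemma e1_val {c κ x : ℝ} (hκ : 0 < κ) (u : ℝ × ℝ) (hu : u.2 = x) (h : x ≤ c) :
    -κ ≤ bZ κ (fun u : ℝ × ℝ => e1 c u.2) u ∧ bZ κ (fun u : ℝ × ℝ => e1 c u.2) u ≤ 0 ∧
    (bZ κ (fun u : ℝ × ℝ => e1 c u.2) u = -κ → x = c) ∧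
    (x = c → bZ κ (fun u : ℝ × ℝ => e1 c u.2) u = -κ) ∧
    (x ≤ c - 1 → bZ κ (fun u : ℝ × ℝ => e1 c u.2) u = 0) := by
  subst hu
  rw [one_bZ (e1_smooth c)]
  have h1 : 0 ≤ e1 c u.2 := by unfold e1; rw [Rn_nonneg_iff]; linarith
  have h2 : e1 c u.2 ≤ 1 := Rn_le_one _
  have h3 : √(e1 c u.2) ≤ 1 := Real.sqrt_le_one.2 h2
  have h4 := Real.sqrt_nonneg (e1 c u.2)
  have h5 : 0 ≤ e1 c u.2 * √(e1 c u.2) := by positivity
  have h6 : e1 c u.2 * √(e1 c u.2) ≤ 1 := by nlinarith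
  refine ⟨by nlinarith, by nlinarith, fun h => ?_, fun h => ?_, fun h => ?_⟩
  · have h7 : κ * (e1 c u.2 * √(e1 c u.2)) = 0 := by linarith
    have h8 := (mul_eq_zero.1 h7).resolve_left hκ.ne'
    have h9 : e1 c u.2 = 0 := by
      rcases mul_eq_zero.1 h8 with h | h
      · exact h
      · exact le_antisymm (Real.sqrt_eq_zero'.1 h) h1
    have := Rn_eq_zero_iff.1 h9
    linarith
  · have : e1 c u.2 = 0 := by unfold e1; rw [Rn_eq_zero_iff]; linarith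
    rw [this]; ring
  · have : e1 c u.2 = 1 := Rn_of_large (by linarith)
    rw [this]; simp

lemma er_val (B : ℝ) (u : ℝ × ℝ) :
    bZ (4 / 7) (fun u : ℝ × ℝ => er B u.2) u = 4 / 7 * ((1 + th (u.2 - B - 1)) ^ 3 - 1) := by
  rw [one_bZ (er_smooth B)]
  have h0 := th_nonneg (u.2 - B - 1)
  have : √(er B u.2) = 1 + th (u.2 - B - 1) := by
    unfold er; rw [Real.sqrt_sq (by linarith)]
  rw [this, er]; ring

lemma er_val_left {u : ℝ × ℝ} (h : u.2 ≤ B + 1) : bZ (4 / 7) (fun u : ℝ × ℝ => er B u.2) u = 0 := by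
  rw [er_val, th_zero (by linarith)]; norm_num

lemma er_val_right {u : ℝ × ℝ} (h : B + 2 ≤ u.2) :
    bZ (4 / 7) (fun u : ℝ × ℝ => er B u.2) u = 4 := by
  rw [er_val, th_one (by linarith)]; norm_num

lemma box_val {M : ℝ} (h : Bds M S) (a b : ℝ) (u : ℝ × ℝ) (hu : 0 ≤ box S a b u) :
    -1 ≤ bZ 1 (box S a b) u ∧ bZ 1 (box S a b) u ≤ 1 / 2 ∧
    (bZ 1 (box S a b) u = -1 → box S a b u = 0) ∧ (box S a b u = 0 → bZ 1 (box S a b) u = -1) := by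
  obtain ⟨h1, h2⟩ := bZ_box_lower h.S_pos a b u hu
  refine ⟨h1, h.bZ_box_upper a b u, h2, fun h0 => ?_⟩
  simp [bZ, bG, bQ, h0]

lemma box_val_flat {a b : ℝ} {u : ℝ × ℝ} (h : 3 < |u.2 - a|) : bZ 1 (box S a b) u = 0 := by
  have h1 := (flat_bQ (κ := 1) (box_flat (S := S) (b := b) h)).self_of_nhds
  have h2 := box_one (S := S) (b := b) h.le
  simp [bZ, bG, h1, h2]

end Pool.Agent.K1H61.LC
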