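import Pool.Agent.K1H61.LC.Conc2

/-!
# The concrete surface: the sheets meet only at the folds
-/

set_option autoImplicit false

open scoped ContDiff Topology
open Filter Set

namespace Pool.Agent.K1H61.LC

variable {B S M : ℝ}

lemma Y1 (u : ℝ × ℝ) : (mdl B S).Y 1 u = - bY 3 (fun u => e0 9 u.2) u +
    bY 1 (fun u => e1 (B + 4) u.2) u + bY (4 / 7) (fun u => er B u.2) u := by
  simp only [Surf.Y, Fin.sum_univ_seven, mdl]
  simp

lemma Y3 (u : ℝ × ℝ) : (mdl B S).Y 3 u = - bY 1 (fun u => e0 6 u.2) u - bY 1 (box S 8 0) u -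
    bY 1 (fun u => e1 (B + 4) u.2) u := by
  simp only [Surf.Y, Fin.sum_univ_seven, mdl]
  simp
  ring

lemma box0_nonneg {u : ℝ × ℝ} (h : lam S (u.1 + S) ≤ Fn u.2) : 0 ≤ box S 0 S u := by
  rw [box_nonneg_iff, sub_zero]; exact h

lemma box8_nonneg {u : ℝ × ℝ} (h : lam S u.1 ≤ Fn (u.2 - 8)) : 0 ≤ box S 8 0 u := by
  rw [box_nonneg_iff, add_zero]; exact h

lemma i01 (hB : 13 ≤ B) (h : Bds M S) (u : ℝ × ℝ) (h0 : u ∈ (mdl B S).dom 0)
    (hz : (mdl B S).Z 0 u = (mdl B S).Z 1 u) : u.2 = -9 := by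
  rw [dom0] at h0
  rw [Z0, Z1] at hz
  obtain ⟨a1, a2, a3, a4, a5⟩ := e0_val (c := 9) (κ := 3) (by norm_num) u rfl h0.1
  obtain ⟨b1, b2, b3, b4, b5⟩ := e1_val (c := B) (κ := 1) (by norm_num) u rfl h0.2.2
  obtain ⟨c1, c2, c3, c4, c5⟩ := e1_val (c := B + 4) (κ := 1) (by norm_num) u rfl
    (show u.2 ≤ B + 4 by linarith [h0.2.2])
  obtain ⟨d1, d2, d3, d4⟩ := box_val h 0 S u (box0_nonneg h0.2.1)
  rw [c5 (by linarith [h0.2.2]), er_val_left (by linarith [h0.2.2])] at hz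
  rcases lt_or_ge u.2 (-8) with hx | hx
  · rw [b5 (by linarith), box_val_flat (by rw [sub_zero, abs_of_neg (by linarith)]; linarith)] at hz
    exact a3 (by linarith)
  · rw [a5 (by linarith)] at hz
    linarith

lemma i02 (hB : 13 ≤ B) (h : Bds M S) (u : ℝ × ℝ) (h0 : u ∈ (mdl B S).dom 0)
    (h2 : u ∈ (mdl B S).dom 2) (hz : (mdl B S).Z 0 u = (mdl B S).Z 2 u) :
    box S 0 S u = 0 ∨ u.2 = B := by
  rw [dom0] at h0
  rw [dom2] at h2
  rw [Z0, Z2] at hz
  obtain ⟨a1, a2, a3, a4, a5⟩ := e0_val (c := 9) (κ := 3) (by norm_num) u rfl h0.1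
  obtain ⟨l1, l2, l3, l4, l5⟩ := e0_val (c := 6) (κ := 1) (by norm_num) u rfl h2.1
  obtain ⟨b1, b2, b3, b4, b5⟩ := e1_val (c := B) (κ := 1) (by norm_num) u rfl h0.2.2
  obtain ⟨d1, d2, d3, d4⟩ := box_val h 0 S u (box0_nonneg h0.2.1)
  obtain ⟨f1, f2, f3, f4⟩ := box_val h 8 0 u (box8_nonneg h2.2.2.1)
  rw [a5 (by linarith [h2.1])] at hz
  rcases lt_or_ge u.2 4 with hx | hx
  · rw [b5 (by linarith), box_val_flat (a := 8) (by rw [abs_of_neg (by linarith)]; linarith)] at hz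
    exact Or.inl (d3 (by linarith))
  · rw [box_val_flat (a := 0) (by rw [sub_zero, abs_of_pos (by linarith)]; linarith)] at hz
    rcases lt_or_ge u.2 (23 / 2) with hx' | hx'
    · rw [b5 (by linarith)] at hz
      linarith
    · rw [box_val_flat (a := 8) (by rw [abs_of_pos (by linarith)]; linarith),
        l5 (by linarith)] at hz
      exact Or.inr (b3 (by linarith))

lemma i03 (h : Bds M S) (u : ℝ × ℝ) (h0 : u ∈ (mdl B S).dom 0)
    (h3 : u ∈ (mdl B S).dom 3) (hz : (mdl B S).Z 0 u = (mdl B S).Z 3 u) : False := by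
  rw [dom0] at h0
  rw [dom3] at h3
  rw [Z0, Z3] at hz
  obtain ⟨a1, a2, a3, a4, a5⟩ := e0_val (c := 9) (κ := 3) (by norm_num) u rfl h0.1
  obtain ⟨l1, l2, l3, l4, l5⟩ := e0_val (c := 6) (κ := 1) (by norm_num) u rfl h3.1
  obtain ⟨b1, b2, b3, b4, b5⟩ := e1_val (c := B) (κ := 1) (by norm_num) u rfl h0.2.2
  obtain ⟨c1, c2, c3, c4, c5⟩ := e1_val (c := B + 4) (κ := 1) (by norm_num) u rfl h3.2.2
  obtain ⟨d1, d2, d3, d4⟩ := box_val h 0 S u (box0_nonneg h0.2.1)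
  obtain ⟨f1, f2, f3, f4⟩ := box_val h 8 0 u (box8_nonneg h3.2.1)
  rw [a5 (by linarith [h3.1]), c5 (by linarith [h0.2.2])] at hz
  rcases lt_or_ge u.2 (-4) with hx | hx
  · rw [box_val_flat (a := 0) (by rw [sub_zero, abs_of_neg (by linarith)]; linarith),
      box_val_flat (a := 8) (by rw [abs_of_neg (by linarith)]; linarith), b5 (by linarith)] at hz
    linarith
  · rw [l5 (by linarith)] at hz
    linarith

lemma i12 (h : Bds M S) (u : ℝ × ℝ)
    (h2 : u ∈ (mdl B S).dom 2) (hz : (mdl B S).Z 1 u = (mdl B S).Z 2 u) : False := by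
  rw [dom2] at h2
  rw [Z1, Z2] at hz
  obtain ⟨a1, a2, a3, a4, a5⟩ := e0_val (c := 9) (κ := 3) (by norm_num) u rfl
    (show -9 ≤ u.2 by linarith [h2.1])
  obtain ⟨l1, l2, l3, l4, l5⟩ := e0_val (c := 6) (κ := 1) (by norm_num) u rfl h2.1
  obtain ⟨b1, b2, b3, b4, b5⟩ := e1_val (c := B) (κ := 1) (by norm_num) u rfl h2.2.2.2
  obtain ⟨c1, c2, c3, c4, c5⟩ := e1_val (c := B + 4) (κ := 1) (by norm_num) u rfl
    (show u.2 ≤ B + 4 by linarith [h2.2.2.2])
  obtain ⟨d1, d2, d3, d4⟩ := box_val h 0 S u (box0_nonneg h2.2.1)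
  obtain ⟨f1, f2, f3, f4⟩ := box_val h 8 0 u (box8_nonneg h2.2.2.1)
  rw [a5 (by linarith [h2.1]), c5 (by linarith [h2.2.2.2]),
    er_val_left (by linarith [h2.2.2.2])] at hz
  linarith

lemma i23 (hB : 13 ≤ B) (h : Bds M S) (u : ℝ × ℝ)
    (h2 : u ∈ (mdl B S).dom 2) (hz : (mdl B S).Z 2 u = (mdl B S).Z 3 u) :
    u.2 = -6 ∨ box S 8 0 u = 0 := by
  rw [dom2] at h2
  rw [Z2, Z3] at hz
  obtain ⟨l1, l2, l3, l4, l5⟩ := e0_val (c := 6) (κ := 1) (by norm_num) u rfl h2.1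
  obtain ⟨b1, b2, b3, b4, b5⟩ := e1_val (c := B) (κ := 1) (by norm_num) u rfl h2.2.2.2
  obtain ⟨c1, c2, c3, c4, c5⟩ := e1_val (c := B + 4) (κ := 1) (by norm_num) u rfl
    (show u.2 ≤ B + 4 by linarith [h2.2.2.2])
  obtain ⟨d1, d2, d3, d4⟩ := box_val h 0 S u (box0_nonneg h2.2.1)
  obtain ⟨f1, f2, f3, f4⟩ := box_val h 8 0 u (box8_nonneg h2.2.2.1)
  rw [c5 (by linarith [h2.2.2.2])] at hz
  rcases lt_or_ge u.2 (-4) with hx | hx
  · rw [box_val_flat (a := 0) (by rw [sub_zero, abs_of_neg (by linarith)]; linarith),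
      box_val_flat (a := 8) (by rw [abs_of_neg (by linarith)]; linarith), b5 (by linarith)] at hz
    exact Or.inl (l3 (by linarith))
  · rw [l5 (by linarith)] at hz
    rcases lt_or_ge u.2 4 with hx' | hx'
    · rw [box_val_flat (a := 8) (by rw [abs_of_neg (by linarith)]; linarith),
        b5 (by linarith)] at hz
      linarith
    · rw [box_val_flat (a := 0) (by rw [sub_zero, abs_of_pos (by linarith)]; linarith)] at hz
      rcases lt_or_ge u.2 (23 / 2) with hx2 | hx2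
      · rw [b5 (by linarith)] at hz
        exact Or.inr (f3 (by linarith))
      · rw [box_val_flat (a := 8) (by rw [abs_of_pos (by linarith)]; linarith)] at hz
        linarith

lemma er_bY (u : ℝ × ℝ) : bY (4 / 7) (fun u : ℝ × ℝ => er B u.2) u =
    12 / 7 * (1 + th (u.2 - B - 1)) ^ 2 * deriv th (u.2 - B - 1) := by
  unfold bY
  rw [one_dx (er_smooth B)]
  have h0 := th_nonneg (u.2 - B - 1)
  have h1 : √(er B u.2) = 1 + th (u.2 - B - 1) := by
    unfold er; rw [Real.sqrt_sq (by linarith)]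
  have h2 : HasDerivAt (fun x : ℝ => x - B - 1) 1 u.2 :=
    ((hasDerivAt_id u.2).sub_const B).sub_const 1
  have h3 := (smooth_hasDerivAt th_smooth (u.2 - B - 1)).comp u.2 h2
  have h4 : HasDerivAt (er B) _ u.2 := (h3.const_add 1).pow 2
  show 3 / 2 * (4 / 7) * √(er B u.2) * deriv (er B) u.2 = _
  rw [h1, h4.deriv]
  simp only [Function.comp_apply, mul_one]
  push_cast
  ring

lemma i13 (hB : 13 ≤ B) (h : Bds M S) (u : ℝ × ℝ)
    (h3 : u ∈ (mdl B S).dom 3) (hz : (mdl B S).Z 1 u = (mdl B S).Z 3 u)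
    (hy : (mdl B S).Y 1 u = (mdl B S).Y 3 u) : u.2 = B + 4 := by
  rw [dom3] at h3
  rw [Z1, Z3] at hz
  obtain ⟨a1, a2, a3, a4, a5⟩ := e0_val (c := 9) (κ := 3) (by norm_num) u rfl
    (show -9 ≤ u.2 by linarith [h3.1])
  obtain ⟨l1, l2, l3, l4, l5⟩ := e0_val (c := 6) (κ := 1) (by norm_num) u rfl h3.1
  obtain ⟨c1, c2, c3, c4, c5⟩ := e1_val (c := B + 4) (κ := 1) (by norm_num) u rfl h3.2.2
  obtain ⟨f1, f2, f3, f4⟩ := box_val h 8 0 u (box8_nonneg h3.2.1)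
  rw [a5 (by linarith [h3.1])] at hz
  rcases le_or_gt u.2 (B + 1) with hx | hx
  · rw [c5 (by linarith), er_val_left hx] at hz
    linarith
  · have hb8 : bZ 1 (box S 8 0) u = 0 :=
      box_val_flat (a := 8) (by rw [abs_of_pos (by linarith)]; linarith)
    rw [hb8, l5 (by linarith)] at hz
    rcases lt_or_ge u.2 (B + 2) with hx' | hx'
    · exfalso
      have hd := deriv_th_pos (show 0 < u.2 - B - 1 by linarith) (by linarith)
      have h0 := th_nonneg (u.2 - B - 1)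
      have f1 : bY 3 (fun u : ℝ × ℝ => e0 9 u.2) u = 0 :=
        (flat_bY (e0_flat (c := 9) (u := u) (by linarith))).self_of_nhds
      have f2 : bY 1 (fun u : ℝ × ℝ => e1 (B + 4) u.2) u = 0 :=
        (flat_bY (e1_flat (c := B + 4) (u := u) (by linarith))).self_of_nhds
      have f3 : bY 1 (fun u : ℝ × ℝ => e0 6 u.2) u = 0 :=
        (flat_bY (e0_flat (c := 6) (u := u) (by linarith))).self_of_nhds
      have f4 : bY 1 (box S 8 0) u = 0 :=
        (flat_bY (box_flat (by rw [abs_of_pos (by linarith)]; linarith))).self_of_nhds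
      rw [Y1, Y3, f1, f2, f3, f4, er_bY] at hy
      have : 0 < 12 / 7 * (1 + th (u.2 - B - 1)) ^ 2 * deriv th (u.2 - B - 1) := by positivity
      linarith
    · rw [er_val_right hx'] at hz
      exact c3 (by linarith)

end Pool.Agent.K1H61.LC
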