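import Pool.Agent.K1H61.LC.Conc3

/-!
# The concrete surface satisfies the geometric conditions
-/

set_option autoImplicit false

open scoped ContDiff Topology
open Filter Set

namespace Pool.Agent.K1H61.LC

variable {B S M : ℝ}

lemma G0 (u : ℝ × ℝ) : (mdl B S).G 0 u = bG 3 (fun u => e0 9 u.2) u + bG 1 (box S 0 S) u +
    bG 1 (fun u => e1 B u.2) u := by
  simp only [Surf.G, Fin.sum_univ_seven, mdl]
  simp

lemma G1 (u : ℝ × ℝ) : (mdl B S).G 1 u = -6 - bG 3 (fun u => e0 9 u.2) u +
    bG 1 (fun u => e1 (B + 4) u.2) u + bG (4 / 7) (fun u => er B u.2) u := by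
  simp only [Surf.G, Fin.sum_univ_seven, mdl]
  simp
  ring

lemma G2 (u : ℝ × ℝ) : (mdl B S).G 2 u = -2 + bG 1 (fun u => e0 6 u.2) u - bG 1 (box S 0 S) u +
    bG 1 (box S 8 0) u - bG 1 (fun u => e1 B u.2) u := by
  simp only [Surf.G, Fin.sum_univ_seven, mdl]
  simp
  ring

lemma G3 (u : ℝ × ℝ) : (mdl B S).G 3 u = -4 - bG 1 (fun u => e0 6 u.2) u - bG 1 (box S 8 0) u -
    bG 1 (fun u => e1 (B + 4) u.2) u := by
  simp only [Surf.G, Fin.sum_univ_seven, mdl]
  simp
  ring

lemma bG_one {κ : ℝ} {r : ℝ × ℝ → ℝ} {u : ℝ × ℝ} (h : r u = 1) : bG κ r u = 0 := by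
  simp [bG, h]

lemma bG_nil {κ : ℝ} {r : ℝ × ℝ → ℝ} {u : ℝ × ℝ} (h : r u = 0) : bG κ r u = -κ := by
  simp [bG, h]

lemma bG_er_right {u : ℝ × ℝ} (h : B + 2 ≤ u.2) : bG (4 / 7) (fun u => er B u.2) u = 4 := by
  have h1 := er_val_right (B := B) h
  rwa [bZ, one_bQ (er_smooth B), add_zero] at h1

lemma e0_one {c x : ℝ} (h : 1 ≤ x + c) : e0 c x = 1 := Rn_of_large h
lemma e1_one {c x : ℝ} (h : 1 ≤ c - x) : e1 c x = 1 := Rn_of_large h
lemma e0_zero_iff {c x : ℝ} : e0 c x = 0 ↔ x = -c := by
  unfold e0; rw [Rn_eq_zero_iff]; constructor <;> intro h <;> linarith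
lemma e1_zero_iff {c x : ℝ} : e1 c x = 0 ↔ x = c := by
  unfold e1; rw [Rn_eq_zero_iff]; constructor <;> intro h <;> linarith

lemma ge_of_abs_le {x : ℝ} (h : Fn x ≤ 2) : |x| ≤ 2 := by
  rw [← Fn_two, Fn_le_iff (by norm_num)] at h; exact h

lemma Fn_ge_of_abs {x : ℝ} (h : 2 ≤ |x|) (S t : ℝ) : lam S t ≤ Fn x := by
  rw [Fn_of_large (by linarith)]
  linarith [lam_le S t]

theorem mdl_ok (hB : 13 ≤ B) (h : Bds M S) : (mdl B S).Ok := by
  have hS := h.S_pos
  refine ⟨?_, ?_, ?_, ?_, ?_, ?_⟩
  · -- one
    intro j u hu
    fin_cases j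
    · have hu0 := (dom0 u).1 hu
      rcases le_or_gt u.2 (-4) with hx | hx
      · refine ⟨0, by simp [mdl], fun k hk hs => ?_⟩
        fin_cases k <;> simp [mdl] at hk hs ⊢
        · exact box_flat (by rw [sub_zero, abs_of_neg (by linarith)]; linarith)
        · exact e1_flat (by linarith)
      · rcases le_or_gt u.2 5 with hx' | hx'
        · refine ⟨2, by simp [mdl], fun k hk hs => ?_⟩
          fin_cases k <;> simp [mdl] at hk hs ⊢
          · exact e0_flat (by linarith)
          · exact e1_flat (by linarith)
        · refine ⟨4, by simp [mdl], fun k hk hs => ?_⟩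
          fin_cases k <;> simp [mdl] at hk hs ⊢
          · exact e0_flat (by linarith)
          · exact box_flat (by rw [sub_zero, abs_of_pos (by linarith)]; linarith)
    · have hu0 := (dom1 u).1 hu
      rcases le_or_gt u.2 0 with hx | hx
      · refine ⟨0, by simp [mdl], fun k hk hs => ?_⟩
        fin_cases k <;> simp [mdl] at hk hs ⊢
        · exact e1_flat (by linarith)
        · exact er_flat (Or.inl (by linarith))
      · rcases lt_or_ge u.2 (B + 5 / 2) with hx' | hx'
        · refine ⟨6, by simp [mdl], fun k hk hs => ?_⟩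
          fin_cases k <;> simp [mdl] at hk hs ⊢
          · exact e0_flat (by linarith)
          · exact e1_flat (by linarith)
        · refine ⟨5, by simp [mdl], fun k hk hs => ?_⟩
          fin_cases k <;> simp [mdl] at hk hs ⊢
          · exact e0_flat (by linarith)
          · exact er_flat (Or.inr (by linarith))
    · have hu0 := (dom2 u).1 hu
      rcases le_or_gt u.2 (-4) with hx | hx
      · refine ⟨1, by simp [mdl], fun k hk hs => ?_⟩
        fin_cases k <;> simp [mdl] at hk hs ⊢
        · exact box_flat (by rw [sub_zero, abs_of_neg (by linarith)]; linarith)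
        · exact box_flat (by rw [abs_of_neg (by linarith)]; linarith)
        · exact e1_flat (by linarith)
      · rcases lt_or_ge u.2 4 with hx' | hx'
        · refine ⟨2, by simp [mdl], fun k hk hs => ?_⟩
          fin_cases k <;> simp [mdl] at hk hs ⊢
          · exact e0_flat (by linarith)
          · exact box_flat (by rw [abs_of_neg (by linarith)]; linarith)
          · exact e1_flat (by linarith)
        · rcases lt_or_ge u.2 (23 / 2) with hx2 | hx2
          · refine ⟨3, by simp [mdl], fun k hk hs => ?_⟩
            fin_cases k <;> simp [mdl] at hk hs ⊢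
            · exact e0_flat (by linarith)
            · exact box_flat (by rw [sub_zero, abs_of_pos (by linarith)]; linarith)
            · exact e1_flat (by linarith)
          · refine ⟨4, by simp [mdl], fun k hk hs => ?_⟩
            fin_cases k <;> simp [mdl] at hk hs ⊢
            · exact e0_flat (by linarith)
            · exact box_flat (by rw [sub_zero, abs_of_pos (by linarith)]; linarith)
            · exact box_flat (by rw [abs_of_pos (by linarith)]; linarith)
    · have hu0 := (dom3 u).1 hu
      rcases le_or_gt u.2 (-4) with hx | hx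
      · refine ⟨1, by simp [mdl], fun k hk hs => ?_⟩
        fin_cases k <;> simp [mdl] at hk hs ⊢
        · exact box_flat (by rw [abs_of_neg (by linarith)]; linarith)
        · exact e1_flat (by linarith)
      · rcases lt_or_ge u.2 12 with hx' | hx'
        · refine ⟨3, by simp [mdl], fun k hk hs => ?_⟩
          fin_cases k <;> simp [mdl] at hk hs ⊢
          · exact e0_flat (by linarith)
          · exact e1_flat (by linarith)
        · refine ⟨5, by simp [mdl], fun k hk hs => ?_⟩
          fin_cases k <;> simp [mdl] at hk hs ⊢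
          · exact e0_flat (by linarith)
          · exact box_flat (by rw [abs_of_pos (by linarith)]; linarith)
  · -- slit
    intro i u hu
    fin_cases i
    · exact one_slit (e0_smooth 9) (κ := 3) (by norm_num) (fun x hx => e0_deriv hx) u hu
    · exact one_slit (e0_smooth 6) (κ := 1) (by norm_num) (fun x hx => e0_deriv hx) u hu
    · exact h.box_slit 0 S u hu
    · exact h.box_slit 8 0 u hu
    · exact one_slit (e1_smooth B) (κ := 1) (by norm_num) (fun x hx => e1_deriv hx) u hu
    · exact one_slit (e1_smooth (B + 4)) (κ := 1) (by norm_num) (fun x hx => e1_deriv hx) u hu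
    · exact one_slit (er_smooth B) (κ := 4 / 7) (by norm_num) (fun x hx => er_deriv hx) u hu
  · -- reg
    intro i u hu
    fin_cases i
    · exact one_reg (e0_smooth 9) (fun x hx => e0_deriv hx) u hu
    · exact one_reg (e0_smooth 6) (fun x hx => e0_deriv hx) u hu
    · exact box_reg hS 0 S u hu
    · exact box_reg hS 8 0 u hu
    · exact one_reg (e1_smooth B) (fun x hx => e1_deriv hx) u hu
    · exact one_reg (e1_smooth (B + 4)) (fun x hx => e1_deriv hx) u hu
    · exact one_reg (er_smooth B) (fun x hx => er_deriv hx) u hu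
  · -- pair
    intro j i u hu hs hr
    fin_cases j
    · have hu0 := (dom0 u).1 hu
      fin_cases i <;> simp [mdl] at hs
      · have hr' : e0 9 u.2 = 0 := hr
        have hx : u.2 = -9 := e0_zero_iff.1 hr'
        refine ⟨1, by simp [mdl], (dom1 u).2 ⟨by linarith, by linarith⟩, ?_, by simp [mdl]⟩
        show (mdl B S).G 0 u = (mdl B S).G 1 u
        rw [G0, G1, bG_nil (r := fun u => e0 9 u.2) hr',
          bG_one (r := box S 0 S) (box_one (by rw [hx]; norm_num)),
          bG_one (r := fun u => e1 B u.2) (e1_one (by linarith)),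
          bG_one (r := fun u => e1 (B + 4) u.2) (e1_one (by linarith)),
          bG_one (r := fun u => er B u.2) (er_left (by linarith))]
        norm_num
      · have hr' : box S 0 S u = 0 := hr
        have hx : |u.2| ≤ 2 := by
          have h1 := box_eq_zero_iff.1 hr'
          rw [sub_zero] at h1
          exact ge_of_abs_le (by rw [h1]; exact lam_le _ _)
        obtain ⟨hx1, hx2⟩ := abs_le.1 hx
        refine ⟨2, by simp [mdl], (dom2 u).2 ⟨by linarith, hu0.2.1, Fn_ge_of_abs (by
          rw [abs_of_neg (by linarith)]; linarith) _ _, hu0.2.2⟩, ?_, by simp [mdl]⟩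
        show (mdl B S).G 0 u = (mdl B S).G 2 u
        rw [G0, G2, bG_nil (r := box S 0 S) hr',
          bG_one (r := fun u => e0 9 u.2) (e0_one (by linarith)),
          bG_one (r := fun u => e0 6 u.2) (e0_one (by linarith)),
          bG_one (r := fun u => e1 B u.2) (e1_one (by linarith)),
          bG_one (r := box S 8 0) (box_one (by rw [abs_of_neg (by linarith)]; linarith))]
        norm_num
      · have hr' : e1 B u.2 = 0 := hr
        have hx : u.2 = B := e1_zero_iff.1 hr'
        refine ⟨2, by simp [mdl], (dom2 u).2 ⟨by linarith, hu0.2.1, Fn_ge_of_abs (by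
          rw [abs_of_pos (by linarith)]; linarith) _ _, hu0.2.2⟩, ?_, by simp [mdl]⟩
        show (mdl B S).G 0 u = (mdl B S).G 2 u
        rw [G0, G2, bG_nil (r := fun u => e1 B u.2) hr',
          bG_one (r := fun u => e0 9 u.2) (e0_one (by linarith)),
          bG_one (r := fun u => e0 6 u.2) (e0_one (by linarith)),
          bG_one (r := box S 0 S) (box_one (by rw [abs_of_pos (by linarith)]; linarith)),
          bG_one (r := box S 8 0) (box_one (by rw [abs_of_pos (by linarith)]; linarith))]
        norm_num
    · have hu0 := (dom1 u).1 hu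
      fin_cases i <;> simp [mdl] at hs
      · have hr' : e0 9 u.2 = 0 := hr
        have hx : u.2 = -9 := e0_zero_iff.1 hr'
        refine ⟨0, by simp [mdl], (dom0 u).2 ⟨by linarith, Fn_ge_of_abs (by rw [hx]; norm_num) _ _,
          by linarith⟩, ?_, by simp [mdl]⟩
        show (mdl B S).G 1 u = (mdl B S).G 0 u
        rw [G0, G1, bG_nil (r := fun u => e0 9 u.2) hr',
          bG_one (r := box S 0 S) (box_one (by rw [hx]; norm_num)),
          bG_one (r := fun u => e1 B u.2) (e1_one (by linarith)),
          bG_one (r := fun u => e1 (B + 4) u.2) (e1_one (by linarith)),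
          bG_one (r := fun u => er B u.2) (er_left (by linarith))]
        norm_num
      · have hr' : e1 (B + 4) u.2 = 0 := hr
        have hx : u.2 = B + 4 := e1_zero_iff.1 hr'
        refine ⟨3, by simp [mdl], (dom3 u).2 ⟨by linarith, Fn_ge_of_abs (by
          rw [abs_of_pos (by linarith)]; linarith) _ _, by linarith⟩, ?_, by
          simp [mdl]; norm_num⟩
        show (mdl B S).G 1 u = (mdl B S).G 3 u
        rw [G1, G3, bG_nil (r := fun u => e1 (B + 4) u.2) hr',
          bG_one (r := fun u => e0 9 u.2) (e0_one (by linarith)),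
          bG_one (r := fun u => e0 6 u.2) (e0_one (by linarith)),
          bG_one (r := box S 8 0) (box_one (by rw [abs_of_pos (by linarith)]; linarith)),
          bG_er_right (by linarith)]
        norm_num
      · exact absurd hr (er_pos B u.2).ne'
    · have hu0 := (dom2 u).1 hu
      fin_cases i <;> simp [mdl] at hs
      · have hr' : e0 6 u.2 = 0 := hr
        have hx : u.2 = -6 := e0_zero_iff.1 hr'
        refine ⟨3, by simp [mdl], (dom3 u).2 ⟨by linarith, hu0.2.2.1, by linarith⟩, ?_, by
          simp [mdl]; norm_num⟩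
        show (mdl B S).G 2 u = (mdl B S).G 3 u
        rw [G2, G3, bG_nil (r := fun u => e0 6 u.2) hr',
          bG_one (r := box S 0 S) (box_one (by rw [hx]; norm_num)),
          bG_one (r := box S 8 0) (box_one (by rw [hx]; norm_num)),
          bG_one (r := fun u => e1 B u.2) (e1_one (by linarith)),
          bG_one (r := fun u => e1 (B + 4) u.2) (e1_one (by linarith))]
        norm_num
      · have hr' : box S 0 S u = 0 := hr
        have hx : |u.2| ≤ 2 := by
          have h1 := box_eq_zero_iff.1 hr'
          rw [sub_zero] at h1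
          exact ge_of_abs_le (by rw [h1]; exact lam_le _ _)
        obtain ⟨hx1, hx2⟩ := abs_le.1 hx
        refine ⟨0, by simp [mdl], (dom0 u).2 ⟨by linarith, hu0.2.1, by linarith⟩, ?_, by
          simp [mdl]⟩
        show (mdl B S).G 2 u = (mdl B S).G 0 u
        rw [G0, G2, bG_nil (r := box S 0 S) hr',
          bG_one (r := fun u => e0 9 u.2) (e0_one (by linarith)),
          bG_one (r := fun u => e0 6 u.2) (e0_one (by linarith)),
          bG_one (r := fun u => e1 B u.2) (e1_one (by linarith)),
          bG_one (r := box S 8 0) (box_one (by rw [abs_of_neg (by linarith)]; linarith))]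
        norm_num
      · have hr' : box S 8 0 u = 0 := hr
        have hx : |u.2 - 8| ≤ 2 := by
          have h1 := box_eq_zero_iff.1 hr'
          exact ge_of_abs_le (by rw [h1]; exact lam_le _ _)
        obtain ⟨hx1, hx2⟩ := abs_le.1 hx
        refine ⟨3, by simp [mdl], (dom3 u).2 ⟨by linarith, hu0.2.2.1, by linarith⟩, ?_, by
          simp [mdl]; norm_num⟩
        show (mdl B S).G 2 u = (mdl B S).G 3 u
        rw [G2, G3, bG_nil (r := box S 8 0) hr',
          bG_one (r := fun u => e0 6 u.2) (e0_one (by linarith)),
          bG_one (r := fun u => e1 B u.2) (e1_one (by linarith)),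
          bG_one (r := fun u => e1 (B + 4) u.2) (e1_one (by linarith)),
          bG_one (r := box S 0 S) (box_one (by rw [abs_of_pos (by linarith)]; linarith))]
        norm_num
      · have hr' : e1 B u.2 = 0 := hr
        have hx : u.2 = B := e1_zero_iff.1 hr'
        refine ⟨0, by simp [mdl], (dom0 u).2 ⟨by linarith, hu0.2.1, by linarith⟩, ?_, by
          simp [mdl]⟩
        show (mdl B S).G 2 u = (mdl B S).G 0 u
        rw [G0, G2, bG_nil (r := fun u => e1 B u.2) hr',
          bG_one (r := fun u => e0 9 u.2) (e0_one (by linarith)),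
          bG_one (r := fun u => e0 6 u.2) (e0_one (by linarith)),
          bG_one (r := box S 0 S) (box_one (by rw [abs_of_pos (by linarith)]; linarith)),
          bG_one (r := box S 8 0) (box_one (by rw [abs_of_pos (by linarith)]; linarith))]
        norm_num
    · have hu0 := (dom3 u).1 hu
      fin_cases i <;> simp [mdl] at hs
      · have hr' : e0 6 u.2 = 0 := hr
        have hx : u.2 = -6 := e0_zero_iff.1 hr'
        refine ⟨2, by simp [mdl], (dom2 u).2 ⟨by linarith, Fn_ge_of_abs (by rw [hx]; norm_num) _ _,
          hu0.2.1, by linarith⟩, ?_, by simp [mdl]; norm_num⟩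
        show (mdl B S).G 3 u = (mdl B S).G 2 u
        rw [G2, G3, bG_nil (r := fun u => e0 6 u.2) hr',
          bG_one (r := box S 0 S) (box_one (by rw [hx]; norm_num)),
          bG_one (r := box S 8 0) (box_one (by rw [hx]; norm_num)),
          bG_one (r := fun u => e1 B u.2) (e1_one (by linarith)),
          bG_one (r := fun u => e1 (B + 4) u.2) (e1_one (by linarith))]
        norm_num
      · have hr' : box S 8 0 u = 0 := hr
        have hx : |u.2 - 8| ≤ 2 := by
          have h1 := box_eq_zero_iff.1 hr'
          exact ge_of_abs_le (by rw [h1]; exact lam_le _ _)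
        obtain ⟨hx1, hx2⟩ := abs_le.1 hx
        refine ⟨2, by simp [mdl], (dom2 u).2 ⟨by linarith, Fn_ge_of_abs (by
          rw [abs_of_pos (by linarith)]; linarith) _ _, hu0.2.1, by linarith⟩, ?_, by
          simp [mdl]; norm_num⟩
        show (mdl B S).G 3 u = (mdl B S).G 2 u
        rw [G2, G3, bG_nil (r := box S 8 0) hr',
          bG_one (r := fun u => e0 6 u.2) (e0_one (by linarith)),
          bG_one (r := fun u => e1 B u.2) (e1_one (by linarith)),
          bG_one (r := fun u => e1 (B + 4) u.2) (e1_one (by linarith)),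
          bG_one (r := box S 0 S) (box_one (by rw [abs_of_pos (by linarith)]; linarith))]
        norm_num
      · have hr' : e1 (B + 4) u.2 = 0 := hr
        have hx : u.2 = B + 4 := e1_zero_iff.1 hr'
        refine ⟨1, by simp [mdl], (dom1 u).2 ⟨by linarith, by linarith⟩, ?_, by
          simp [mdl]; norm_num⟩
        show (mdl B S).G 3 u = (mdl B S).G 1 u
        rw [G1, G3, bG_nil (r := fun u => e1 (B + 4) u.2) hr',
          bG_one (r := fun u => e0 9 u.2) (e0_one (by linarith)),
          bG_one (r := fun u => e0 6 u.2) (e0_one (by linarith)),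
          bG_one (r := box S 8 0) (box_one (by rw [abs_of_pos (by linarith)]; linarith)),
          bG_er_right (by linarith)]
        norm_num
  · -- inter
    have key : ∀ j j' (q : E4), j < j' → q ∈ (mdl B S).Sh j → q ∈ (mdl B S).Sh j' →
        ∃ i, (mdl B S).s j i ≠ 0 ∧ (mdl B S).s j' i = - (mdl B S).s j i ∧
          (mdl B S).r i (pr q) = 0 := by
      intro j j' q hjj hq hq'
      obtain ⟨d1, y1, z1⟩ := hq
      obtain ⟨d2, y2, z2⟩ := hq'
      have hz := z1.symm.trans z2
      have hy := y1.symm.trans y2
      fin_cases j <;> fin_cases j' <;> simp at hjj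
      · exact ⟨0, by simp [mdl], by simp [mdl], e0_zero_iff.2 (i01 hB h _ d1 hz)⟩
      · rcases i02 hB h _ d1 d2 hz with hh | hh
        · exact ⟨2, by simp [mdl], by simp [mdl], hh⟩
        · exact ⟨4, by simp [mdl], by simp [mdl], e1_zero_iff.2 hh⟩
      · exact (i03 h _ d1 d2 hz).elim
      · exact (i12 h _ d2 hz).elim
      · exact ⟨5, by simp [mdl], by simp [mdl], e1_zero_iff.2 (i13 hB h _ d2 hz hy)⟩
      · rcases i23 hB h _ d1 hz with hh | hh
        · exact ⟨1, by simp [mdl], by simp [mdl], e0_zero_iff.2 hh⟩
        · exact ⟨3, by simp [mdl], by simp [mdl], hh⟩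
    intro j j' q hne hq hq'
    rcases lt_or_gt_of_ne hne with hlt | hlt
    · exact key j j' q hlt hq hq'
    · obtain ⟨i, h1, h2, h3⟩ := key j' j q hlt hq' hq
      refine ⟨i, ?_, ?_, h3⟩
      · rw [h2]; exact neg_ne_zero.2 h1
      · rw [h2, neg_neg]
  · -- uniq
    intro j j' i u hu hu' hr hs hs'
    have h6 : i ≠ 6 := by
      rintro rfl
      exact (er_pos B u.2).ne' hr
    clear hr hu hu'
    revert j j' i
    intro j j' i
    fin_cases i <;> fin_cases j <;> fin_cases j' <;> simp [mdl] <;> norm_num

end Pool.Agent.K1H61.LC
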