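import Pool.Agent.K1H61.LC.Ends

/-!
# Connectedness
-/

set_option autoImplicit false

open scoped ContDiff Topology
open Filter Set

namespace Pool.Agent.K1H61.LC

/-- two points are joined by a preconnected set in `W` -/
def Jn (W : Set E4) (p q : E4) : Prop := ∃ K, K ⊆ W ∧ IsPreconnected K ∧ p ∈ K ∧ q ∈ K

lemma Jn.symm {W : Set E4} {p q : E4} (h : Jn W p q) : Jn W q p := by
  obtain ⟨K, h1, h2, h3, h4⟩ := h
  exact ⟨K, h1, h2, h4, h3⟩

lemma Jn.trans {W : Set E4} {p q r : E4} (h : Jn W p q) (h' : Jn W q r) : Jn W p r := by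
  obtain ⟨K, h1, h2, h3, h4⟩ := h
  obtain ⟨K', h1', h2', h3', h4'⟩ := h'
  exact ⟨K ∪ K', union_subset h1 h1', h2.union q h4 h3' h2', Or.inl h3, Or.inr h4'⟩

lemma Jn.mono {W W' : Set E4} {p q : E4} (h : Jn W p q) (hW : W ⊆ W') : Jn W' p q := by
  obtain ⟨K, h1, h2⟩ := h
  exact ⟨K, h1.trans hW, h2⟩

lemma connected_of_Jn {W : Set E4} {b : E4} (hb : b ∈ W) (h : ∀ p ∈ W, Jn W p b) :
    IsConnected W := by
  refine ⟨⟨b, hb⟩, isPreconnected_of_forall b fun p hp => ?_⟩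
  obtain ⟨K, h1, h2, h3, h4⟩ := h p hp
  exact ⟨K, h1, h4, h3, h2⟩

namespace Surf

variable {ι J : Type} [Fintype ι] {A : Surf ι J}

lemma seg_h {W : Set E4} (j : J) {t x1 x2 : ℝ} (h : ∀ x ∈ uIcc x1 x2, A.P j (t, x) ∈ W) :
    Jn W (A.P j (t, x1)) (A.P j (t, x2)) := by
  refine ⟨(fun x => A.P j (t, x)) '' uIcc x1 x2, ?_, ?_, ⟨x1, left_mem_uIcc, rfl⟩,
    ⟨x2, right_mem_uIcc, rfl⟩⟩
  · rintro _ ⟨x, hx, rfl⟩; exact h x hx
  · refine isPreconnected_uIcc.image _ ?_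
    exact ((A.P_continuous j).comp (by fun_prop)).continuousOn

lemma seg_v {W : Set E4} (j : J) {t1 t2 x : ℝ} (h : ∀ t ∈ uIcc t1 t2, A.P j (t, x) ∈ W) :
    Jn W (A.P j (t1, x)) (A.P j (t2, x)) := by
  refine ⟨(fun t => A.P j (t, x)) '' uIcc t1 t2, ?_, ?_, ⟨t1, left_mem_uIcc, rfl⟩,
    ⟨t2, right_mem_uIcc, rfl⟩⟩
  · rintro _ ⟨x, hx, rfl⟩; exact h x hx
  · refine isPreconnected_uIcc.image _ ?_
    exact ((A.P_continuous j).comp (by fun_prop)).continuousOn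

lemma Ok.P_fold (hA : A.Ok) {j j' : J} {i : ι} {u : ℝ × ℝ} (hu : u ∈ A.dom j)
    (hu' : u ∈ A.dom j') (hi : A.s j i ≠ 0) (hj : A.s j' i = - A.s j i) (hr : A.r i u = 0) :
    A.P j u = A.P j' u := by
  obtain ⟨j'', h1, h2, h3, _⟩ := hA.pair j i u hu hi hr
  have hi' : A.s j' i ≠ 0 := by rw [hj]; exact neg_ne_zero.2 hi
  have : j'' = j' := hA.uniq j'' j' i u h2 hu' hr (by rw [h1]; exact neg_ne_zero.2 hi)
    (by rw [h1, hj])
  subst this
  unfold P Z
  rw [hA.Y_of_zero hu hi hr, hA.Y_of_zero h2 hi' hr, hA.Q_of_zero hu hi hr,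
    hA.Q_of_zero h2 hi' hr, h3]

end Surf

variable {B S M : ℝ}

lemma fold01 (hB : 13 ≤ B) (h : Bds M S) (t : ℝ) :
    (mdl B S).P 0 (t, -9) = (mdl B S).P 1 (t, -9) :=
  (mdl_ok hB h).P_fold (i := 0)
    ((dom0 _).2 ⟨le_refl _, Fn_ge_of_abs (by norm_num) _ _, by show (-9 : ℝ) ≤ B; linarith⟩)
    ((dom1 _).2 ⟨le_refl _, by show (-9 : ℝ) ≤ B + 4; linarith⟩)
    (by simp [mdl]) (by simp [mdl]) (e0_zero_iff.2 rfl)

lemma fold23 (hB : 13 ≤ B) (h : Bds M S) (t : ℝ) :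
    (mdl B S).P 2 (t, -6) = (mdl B S).P 3 (t, -6) :=
  (mdl_ok hB h).P_fold (i := 1)
    ((dom2 _).2 ⟨le_refl _, Fn_ge_of_abs (by norm_num) _ _, Fn_ge_of_abs (by norm_num) _ _,
      by show (-6 : ℝ) ≤ B; linarith⟩)
    ((dom3 _).2 ⟨le_refl _, Fn_ge_of_abs (by norm_num) _ _, by show (-6 : ℝ) ≤ B + 4; linarith⟩)
    (by simp [mdl]) (by simp [mdl]) (e0_zero_iff.2 rfl)

lemma fold02 (hB : 13 ≤ B) (h : Bds M S) (t : ℝ) :
    (mdl B S).P 0 (t, B) = (mdl B S).P 2 (t, B) :=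
  (mdl_ok hB h).P_fold (i := 4)
    ((dom0 _).2 ⟨by show -9 ≤ B; linarith, Fn_ge_of_abs (by
      rw [abs_of_pos (by show 0 < B; linarith)]; show 2 ≤ B; linarith) _ _, le_refl _⟩)
    ((dom2 _).2 ⟨by show -6 ≤ B; linarith, Fn_ge_of_abs (by
      rw [abs_of_pos (by show 0 < B; linarith)]; show 2 ≤ B; linarith) _ _, Fn_ge_of_abs (by
      rw [abs_of_pos (by show 0 < B - 8; linarith)]; show 2 ≤ B - 8; linarith) _ _, le_refl _⟩)
    (by simp [mdl]) (by simp [mdl]) (e1_zero_iff.2 rfl)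

lemma fold13 (hB : 13 ≤ B) (h : Bds M S) (t : ℝ) :
    (mdl B S).P 1 (t, B + 4) = (mdl B S).P 3 (t, B + 4) :=
  (mdl_ok hB h).P_fold (i := 5)
    ((dom1 _).2 ⟨by show -9 ≤ B + 4; linarith, le_refl _⟩)
    ((dom3 _).2 ⟨by show -6 ≤ B + 4; linarith, Fn_ge_of_abs (by
      rw [abs_of_pos (by show 0 < B + 4 - 8; linarith)]; show 2 ≤ B + 4 - 8; linarith) _ _,
      le_refl _⟩)
    (by simp [mdl]) (by simp [mdl]) (e1_zero_iff.2 rfl)

lemma fold02m (hB : 13 ≤ B) (h : Bds M S) {t : ℝ} (ht : t ≤ -S) {x : ℝ} (hx : x = 2 ∨ x = -2) :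
    (mdl B S).P 0 (t, x) = (mdl B S).P 2 (t, x) := by
  have hS := h.S_pos
  refine (mdl_ok hB h).P_fold (i := 2) ?_ ?_ (by simp [mdl]) (by simp [mdl]) ?_
  · rcases hx with rfl | rfl
    · exact (dom0 _).2 ⟨by norm_num, Fn_ge_of_abs (by norm_num) _ _, by show (2 : ℝ) ≤ B; linarith⟩
    · exact (dom0 _).2 ⟨by norm_num, Fn_ge_of_abs (by norm_num) _ _, by show (-2 : ℝ) ≤ B; linarith⟩
  · rcases hx with rfl | rfl
    · exact (dom2 _).2 ⟨by norm_num, Fn_ge_of_abs (by norm_num) _ _,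
        Fn_ge_of_abs (by norm_num) _ _, by show (2 : ℝ) ≤ B; linarith⟩
    · exact (dom2 _).2 ⟨by norm_num, Fn_ge_of_abs (by norm_num) _ _,
        Fn_ge_of_abs (by norm_num) _ _, by show (-2 : ℝ) ≤ B; linarith⟩
  · show box S 0 S (t, x) = 0
    rw [box_eq_zero_iff, sub_zero, lam_left hS (by show t + S ≤ 0; linarith)]
    rcases hx with rfl | rfl
    · exact Fn_two
    · rw [Fn_even]; exact Fn_two

lemma fold23m (hB : 13 ≤ B) (h : Bds M S) {t : ℝ} (ht : t ≤ 0) {x : ℝ} (hx : x = 6 ∨ x = 10) :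
    (mdl B S).P 2 (t, x) = (mdl B S).P 3 (t, x) := by
  have hS := h.S_pos
  refine (mdl_ok hB h).P_fold (i := 3) ?_ ?_ (by simp [mdl]) (by simp [mdl]) ?_
  · rcases hx with rfl | rfl
    · exact (dom2 _).2 ⟨by norm_num, Fn_ge_of_abs (by norm_num) _ _,
        Fn_ge_of_abs (by norm_num) _ _, by show (6 : ℝ) ≤ B; linarith⟩
    · exact (dom2 _).2 ⟨by norm_num, Fn_ge_of_abs (by norm_num) _ _,
        Fn_ge_of_abs (by norm_num) _ _, by show (10 : ℝ) ≤ B; linarith⟩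
  · rcases hx with rfl | rfl
    · exact (dom3 _).2 ⟨by norm_num, Fn_ge_of_abs (by norm_num) _ _,
        by show (6 : ℝ) ≤ B + 4; linarith⟩
    · exact (dom3 _).2 ⟨by norm_num, Fn_ge_of_abs (by norm_num) _ _,
        by show (10 : ℝ) ≤ B + 4; linarith⟩
  · show box S 8 0 (t, x) = 0
    rw [box_eq_zero_iff, lam_left hS (by show t + 0 ≤ 0; linarith)]
    rcases hx with rfl | rfl
    · show Fn (6 - 8) = 2
      rw [show (6 - 8 : ℝ) = -2 by norm_num, Fn_even]; exact Fn_two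
    · show Fn (10 - 8) = 2
      rw [show (10 - 8 : ℝ) = 2 by norm_num]; exact Fn_two

lemma dom_up (h : Bds M S) {j : Fin 4} {t s x : ℝ} (hts : t ≤ s) (hu : (t, x) ∈ (mdl B S).dom j) :
    (s, x) ∈ (mdl B S).dom j := by
  have hS := h.S_pos
  have h1 := lam_anti hS (show t + S ≤ s + S by linarith)
  have h2 := lam_anti hS hts
  fin_cases j
  · have := (dom0 _).1 hu
    exact (dom0 _).2 ⟨this.1, h1.trans this.2.1, this.2.2⟩
  · exact (dom1 (s, x)).2 ((dom1 (t, x)).1 hu)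
  · have := (dom2 _).1 hu
    exact (dom2 _).2 ⟨this.1, h1.trans this.2.1, h2.trans this.2.2.1, this.2.2.2⟩
  · have := (dom3 _).1 hu
    exact (dom3 _).2 ⟨this.1, h2.trans this.2.1, this.2.2⟩

lemma dom_top (h : Bds M S) {j : Fin 4} {t s x : ℝ} (hs : S < s)
    (hu : (t, x) ∈ (mdl B S).dom j) : (s, x) ∈ (mdl B S).dom j := by
  rcases le_total t s with h1 | h1
  · exact dom_up h h1 hu
  · exact ((prod_top (B := B) h).dom_iff (t := t) (t' := s) (lt_of_lt_of_le hs h1) hs x j).1 hu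

/-- base point -/
noncomputable def base (B S : ℝ) : E4 := (mdl B S).P 0 (S + 1, B)

lemma domT0 (h : Bds M S) {x : ℝ} (h1 : -9 ≤ x) (h2 : x ≤ B) {t : ℝ} (ht : 0 ≤ t) :
    (t, x) ∈ (mdl B S).dom 0 := by
  refine (dom0 _).2 ⟨h1, ?_, h2⟩
  show lam S (t + S) ≤ Fn x
  rw [lam_right h.S_pos (by linarith)]
  linarith [Fn_nonneg x]

lemma domT2 (h : Bds M S) {x : ℝ} (h1 : -6 ≤ x) (h2 : x ≤ B) {t : ℝ} (ht : S ≤ t) :
    (t, x) ∈ (mdl B S).dom 2 := by
  have hS := h.S_pos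
  refine (dom2 _).2 ⟨h1, ?_, ?_, h2⟩
  · show lam S (t + S) ≤ Fn x
    rw [lam_right h.S_pos (by linarith)]
    linarith [Fn_nonneg x]
  · show lam S t ≤ Fn (x - 8)
    rw [lam_right h.S_pos (by linarith)]
    linarith [Fn_nonneg (x - 8)]

lemma domT3 (h : Bds M S) {x : ℝ} (h1 : -6 ≤ x) (h2 : x ≤ B + 4) {t : ℝ} (ht : S ≤ t) :
    (t, x) ∈ (mdl B S).dom 3 := by
  refine (dom3 _).2 ⟨h1, ?_, h2⟩
  show lam S t ≤ Fn (x - 8)
  rw [lam_right h.S_pos (by linarith)]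
  linarith [Fn_nonneg (x - 8)]

lemma uIcc_bd {a b x l r : ℝ} (hx : x ∈ uIcc a b) (h1 : l ≤ a) (h2 : l ≤ b) (h3 : a ≤ r)
    (h4 : b ≤ r) : l ≤ x ∧ x ≤ r := by
  rcases mem_uIcc.1 hx with ⟨h5, h6⟩ | ⟨h5, h6⟩ <;> constructor <;> linarith

lemma top_joined (hB : 13 ≤ B) (h : Bds M S) {W : Set E4}
    (hW : (mdl B S).L ∩ {p | p.1 = S + 1} ⊆ W) {j : Fin 4} {x : ℝ}
    (hu : (S + 1, x) ∈ (mdl B S).dom j) : Jn W ((mdl B S).P j (S + 1, x)) (base B S) := by
  have hS := h.S_pos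
  have mem : ∀ (k : Fin 4) (y : ℝ), (S + 1, y) ∈ (mdl B S).dom k → (mdl B S).P k (S + 1, y) ∈ W :=
    fun k y hy => hW ⟨(mdl B S).P_mem_L hy, rfl⟩
  have j0 : ∀ y, -9 ≤ y → y ≤ B → Jn W ((mdl B S).P 0 (S + 1, y)) (base B S) := by
    intro y h1 h2
    refine Surf.seg_h 0 fun z hz => mem 0 z ?_
    have := uIcc_bd hz h1 (by linarith) h2 (le_refl B)
    exact domT0 h this.1 this.2 (by linarith)
  have j2 : ∀ y, -6 ≤ y → y ≤ B → Jn W ((mdl B S).P 2 (S + 1, y)) (base B S) := by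
    intro y h1 h2
    have e : Jn W ((mdl B S).P 2 (S + 1, y)) ((mdl B S).P 2 (S + 1, B)) := by
      refine Surf.seg_h 2 fun z hz => mem 2 z ?_
      have := uIcc_bd hz h1 (by linarith) h2 (le_refl B)
      exact domT2 h this.1 this.2 (by linarith)
    rw [← fold02 hB h] at e
    exact e
  have j3 : ∀ y, -6 ≤ y → y ≤ B + 4 → Jn W ((mdl B S).P 3 (S + 1, y)) (base B S) := by
    intro y h1 h2
    have e : Jn W ((mdl B S).P 3 (S + 1, y)) ((mdl B S).P 3 (S + 1, -6)) := by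
      refine Surf.seg_h 3 fun z hz => mem 3 z ?_
      have := uIcc_bd hz h1 (le_refl _) h2 (by linarith)
      exact domT3 h this.1 this.2 (by linarith)
    rw [← fold23 hB h] at e
    exact e.trans (j2 _ (le_refl _) (by linarith))
  have j1 : ∀ y, -9 ≤ y → y ≤ B + 4 → Jn W ((mdl B S).P 1 (S + 1, y)) (base B S) := by
    intro y h1 h2
    have e : Jn W ((mdl B S).P 1 (S + 1, y)) ((mdl B S).P 1 (S + 1, -9)) := by
      refine Surf.seg_h 1 fun z hz => mem 1 z ?_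
      exact (dom1 _).2 (uIcc_bd hz h1 (le_refl _) h2 (by linarith))
    rw [← fold01 hB h] at e
    exact e.trans (j0 _ (le_refl _) (by linarith))
  fin_cases j
  · have := (dom0 _).1 hu; exact j0 x this.1 this.2.2
  · have := (dom1 _).1 hu; exact j1 x this.1 this.2
  · have := (dom2 _).1 hu; exact j2 x this.1 this.2.2.2
  · have := (dom3 _).1 hu; exact j3 x this.1 this.2.2

lemma base_mem (hB : 13 ≤ B) (h : Bds M S) : base B S ∈ (mdl B S).L :=
  (mdl B S).P_mem_L (domT0 h (by linarith) (le_refl B) (by linarith [h.S_pos]))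

/-- vertical segment to the top -/
lemma vert_joined (hB : 13 ≤ B) (h : Bds M S) {W : Set E4}
    (hW : (mdl B S).L ∩ {p | p.1 = S + 1} ⊆ W) {j : Fin 4} {t x : ℝ}
    (hu : (t, x) ∈ (mdl B S).dom j) (hv : ∀ s, (t ≤ s ∨ S < s) → (mdl B S).P j (s, x) ∈ W) :
    Jn W ((mdl B S).P j (t, x)) (base B S) := by
  have h1 : Jn W ((mdl B S).P j (t, x)) ((mdl B S).P j (S + 1, x)) := by
    refine Surf.seg_v j fun s hs => hv s ?_
    rcases mem_uIcc.1 hs with ⟨h2, _⟩ | ⟨h2, _⟩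
    · exact Or.inl h2
    · exact Or.inr (by linarith)
  exact h1.trans (top_joined hB h hW (dom_top h (by linarith) hu))

theorem L_connected (hB : 13 ≤ B) (h : Bds M S) : IsConnected (mdl B S).L := by
  refine connected_of_Jn (base_mem hB h) ?_
  rintro p ⟨j, hj⟩
  rw [(mdl B S).eq_P hj]
  refine vert_joined hB h inter_subset_left hj.1 fun s hs => (mdl B S).P_mem_L ?_
  rcases hs with hs | hs
  · exact dom_up h hs hj.1
  · exact dom_top h hs hj.1

lemma slice_connected {t0 : ℝ} (h : IsConnected ((mdl B S).L ∩ {p | p.1 = t0})) :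
    IsConnected {q : E3 | ((t0, q) : E4) ∈ (mdl B S).L} := by
  have : {q : E3 | ((t0, q) : E4) ∈ (mdl B S).L} = Prod.snd '' ((mdl B S).L ∩ {p | p.1 = t0}) := by
    ext q
    simp only [mem_image, mem_inter_iff]
    constructor
    · intro hq; exact ⟨(t0, q), ⟨hq, rfl⟩, rfl⟩
    · rintro ⟨⟨t, q'⟩, ⟨h1, h2⟩, rfl⟩
      have : t = t0 := h2
      subst this
      exact h1
  rw [this]
  exact h.image _ continuous_snd.continuousOn

theorem Lp_connected (hB : 13 ≤ B) (h : Bds M S) : IsConnected (Lp B S) := by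
  refine slice_connected (connected_of_Jn (b := base B S) ⟨base_mem hB h, rfl⟩ ?_)
  rintro p ⟨⟨j, hj⟩, hp⟩
  rw [(mdl B S).eq_P hj]
  have e : pr p = (S + 1, p.2.1) := by
    show (p.1, p.2.1) = _
    rw [show p.1 = S + 1 from hp]
  rw [e]
  refine top_joined hB h (le_refl _) ?_
  rw [← e]
  exact hj.1

theorem Lm_connected (hB : 13 ≤ B) (h : Bds M S) : IsConnected (Lm B S) := by
  have hS := h.S_pos
  set W : Set E4 := (mdl B S).L ∩ {p | p.1 = -S - 1} with hWd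
  set T : ℝ := -S - 1 with hT
  have hT0 : T + S ≤ 0 := by linarith
  have l1 : lam S (T + S) = 2 := lam_left hS hT0
  have l2 : lam S T = 2 := lam_left hS (by linarith)
  have Fge : ∀ {y : ℝ}, 2 ≤ Fn y ↔ 2 ≤ |y| := by
    intro y
    constructor
    · intro hy
      by_contra hc
      rw [not_le] at hc
      have := (Fn_lt_iff (v := y) (a := 2) (by norm_num)).2 hc
      rw [Fn_two] at this
      linarith
    · intro hy
      rw [Fn_of_large (by linarith)]; exact hy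
  have D0 : ∀ y, (T, y) ∈ (mdl B S).dom 0 ↔ -9 ≤ y ∧ 2 ≤ |y| ∧ y ≤ B := by
    intro y; rw [dom0]; simp only [l1, Fge]
  have D1 : ∀ y, (T, y) ∈ (mdl B S).dom 1 ↔ -9 ≤ y ∧ y ≤ B + 4 := by
    intro y; rw [dom1]
  have D2 : ∀ y, (T, y) ∈ (mdl B S).dom 2 ↔ -6 ≤ y ∧ 2 ≤ |y| ∧ 2 ≤ |y - 8| ∧ y ≤ B := by
    intro y; rw [dom2]; simp only [l1, l2, Fge]
  have D3 : ∀ y, (T, y) ∈ (mdl B S).dom 3 ↔ -6 ≤ y ∧ 2 ≤ |y - 8| ∧ y ≤ B + 4 := by
    intro y; rw [dom3]; simp only [l2, Fge]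
  have mem : ∀ (k : Fin 4) (y : ℝ), (T, y) ∈ (mdl B S).dom k → (mdl B S).P k (T, y) ∈ W :=
    fun k y hy => ⟨(mdl B S).P_mem_L hy, rfl⟩
  set b : E4 := (mdl B S).P 0 (T, -9) with hb
  have sg : ∀ (k : Fin 4) (y z : ℝ), (∀ w ∈ uIcc y z, (T, w) ∈ (mdl B S).dom k) →
      Jn W ((mdl B S).P k (T, y)) ((mdl B S).P k (T, z)) :=
    fun k y z hk => Surf.seg_h k fun w hw => mem k w (hk w hw)
  -- left part of sheet 0
  have a1 : ∀ y, -9 ≤ y → y ≤ -2 → Jn W ((mdl B S).P 0 (T, y)) b := by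
    intro y h1 h2
    refine sg 0 y (-9) fun w hw => (D0 w).2 ?_
    have := uIcc_bd hw h1 (le_refl _) h2 (by norm_num)
    exact ⟨this.1, by rw [abs_of_neg (by linarith)]; linarith, by linarith⟩
  have a2 : ∀ y, -6 ≤ y → y ≤ -2 → Jn W ((mdl B S).P 2 (T, y)) b := by
    intro y h1 h2
    have e : Jn W ((mdl B S).P 2 (T, y)) ((mdl B S).P 2 (T, -2)) := by
      refine sg 2 y (-2) fun w hw => (D2 w).2 ?_
      have := uIcc_bd hw h1 (by norm_num) h2 (le_refl _)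
      exact ⟨this.1, by rw [abs_of_neg (by linarith)]; linarith,
        by rw [abs_of_neg (by linarith)]; linarith, by linarith⟩
    rw [← fold02m hB h (by linarith) (Or.inr rfl)] at e
    exact e.trans (a1 _ (by norm_num) (le_refl _))
  have a3 : ∀ y, -6 ≤ y → y ≤ 6 → Jn W ((mdl B S).P 3 (T, y)) b := by
    intro y h1 h2
    have e : Jn W ((mdl B S).P 3 (T, y)) ((mdl B S).P 3 (T, -6)) := by
      refine sg 3 y (-6) fun w hw => (D3 w).2 ?_
      have := uIcc_bd hw h1 (le_refl _) h2 (by norm_num)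
      exact ⟨this.1, by rw [abs_of_neg (by linarith)]; linarith, by linarith⟩
    rw [← fold23 hB h] at e
    exact e.trans (a2 _ (le_refl _) (by norm_num))
  have a4 : ∀ y, 2 ≤ y → y ≤ 6 → Jn W ((mdl B S).P 2 (T, y)) b := by
    intro y h1 h2
    have e : Jn W ((mdl B S).P 2 (T, y)) ((mdl B S).P 2 (T, 6)) := by
      refine sg 2 y 6 fun w hw => (D2 w).2 ?_
      have := uIcc_bd hw h1 (by norm_num) h2 (le_refl _)
      exact ⟨by linarith, by rw [abs_of_pos (by linarith)]; linarith,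
        by rw [abs_of_neg (by linarith)]; linarith, by linarith⟩
    rw [fold23m hB h (by linarith) (Or.inl rfl)] at e
    exact e.trans (a3 _ (by norm_num) (le_refl _))
  have a5 : ∀ y, 2 ≤ y → y ≤ B → Jn W ((mdl B S).P 0 (T, y)) b := by
    intro y h1 h2
    have e : Jn W ((mdl B S).P 0 (T, y)) ((mdl B S).P 0 (T, 2)) := by
      refine sg 0 y 2 fun w hw => (D0 w).2 ?_
      have := uIcc_bd hw h1 (le_refl _) h2 (by linarith)
      exact ⟨by linarith, by rw [abs_of_pos (by linarith)]; linarith, by linarith⟩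
    rw [fold02m hB h (by linarith) (Or.inl rfl)] at e
    exact e.trans (a4 _ (le_refl _) (by norm_num))
  have a6 : ∀ y, 10 ≤ y → y ≤ B → Jn W ((mdl B S).P 2 (T, y)) b := by
    intro y h1 h2
    have e : Jn W ((mdl B S).P 2 (T, y)) ((mdl B S).P 2 (T, B)) := by
      refine sg 2 y B fun w hw => (D2 w).2 ?_
      have := uIcc_bd hw h1 (by linarith) h2 (le_refl _)
      exact ⟨by linarith, by rw [abs_of_pos (by linarith)]; linarith,
        by rw [abs_of_pos (by linarith)]; linarith, by linarith⟩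
    rw [← fold02 hB h] at e
    exact e.trans (a5 _ (by linarith) (le_refl _))
  have a7 : ∀ y, -9 ≤ y → y ≤ B + 4 → Jn W ((mdl B S).P 1 (T, y)) b := by
    intro y h1 h2
    have e : Jn W ((mdl B S).P 1 (T, y)) ((mdl B S).P 1 (T, -9)) := by
      refine sg 1 y (-9) fun w hw => (D1 w).2 ?_
      exact uIcc_bd hw h1 (le_refl _) h2 (by linarith)
    rw [← fold01 hB h] at e
    exact e
  have a8 : ∀ y, 10 ≤ y → y ≤ B + 4 → Jn W ((mdl B S).P 3 (T, y)) b := by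
    intro y h1 h2
    have e : Jn W ((mdl B S).P 3 (T, y)) ((mdl B S).P 3 (T, B + 4)) := by
      refine sg 3 y (B + 4) fun w hw => (D3 w).2 ?_
      have := uIcc_bd hw h1 (by linarith) h2 (le_refl _)
      exact ⟨by linarith, by rw [abs_of_pos (by linarith)]; linarith, by linarith⟩
    rw [← fold13 hB h] at e
    exact e.trans (a7 _ (by linarith) (le_refl _))
  have split : ∀ {y : ℝ}, 2 ≤ |y| → y ≤ -2 ∨ 2 ≤ y := by
    intro y hy
    rcases le_abs.1 hy with h1 | h1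
    · exact Or.inr h1
    · exact Or.inl (by linarith)
  refine slice_connected (connected_of_Jn (b := b) (mem 0 _ ((D0 _).2 ⟨le_refl _, by norm_num,
    by linarith⟩)) ?_)
  rintro p ⟨⟨j, hj⟩, hp⟩
  rw [(mdl B S).eq_P hj]
  have e : pr p = (T, p.2.1) := by
    show (p.1, p.2.1) = _
    rw [show p.1 = T from hp]
  have hd := hj.1
  rw [e] at hd ⊢
  fin_cases j
  · have h1 := (D0 _).1 hd
    rcases split h1.2.1 with h2 | h2
    · exact a1 _ h1.1 h2
    · exact a5 _ h2 h1.2.2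
  · have h1 := (D1 _).1 hd
    exact a7 _ h1.1 h1.2
  · have h1 := (D2 _).1 hd
    rcases split h1.2.1 with h2 | h2
    · exact a2 _ h1.1 h2
    · rcases split h1.2.2.1 with h3 | h3
      · exact a4 _ h2 (by linarith)
      · exact a6 _ (by linarith) h1.2.2.2
  · have h1 := (D3 _).1 hd
    rcases split h1.2.1 with h3 | h3
    · exact a3 _ h1.1 (by linarith)
    · exact a8 _ (by linarith) h1.2.2

end Pool.Agent.K1H61.LC
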