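import Mathlib

/-!
# Legendrian knots and Lagrangian cobordisms in the symplectization of the standard contact `ℝ³`

`E3 = ℝ × ℝ × ℝ` has the coordinates `(x, y, z)` and the contact form `α = dz - y dx`;
`E4 = ℝ × E3` has the coordinates `(t, x, y, z)` and the symplectic form `d(e^t α)`.
-/

set_option autoImplicit false

open scoped ContDiff Topology

namespace Pool.Agent.K1H61.LC

/-- `ℝ³` with the coordinates `(x, y, z)`. -/
abbrev E3 : Type := ℝ × ℝ × ℝ

/-- `ℝ × ℝ³` with the coordinates `(t, x, y, z)`. -/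
abbrev E4 : Type := ℝ × E3

/-- `v` is tangent to the set `S` at `p`: it is the velocity at time `0` of a curve in `S` which is
at `p` at time `0`. -/
def IsTangent {E : Type*} [NormedAddCommGroup E] [NormedSpace ℝ E] (S : Set E) (p v : E) : Prop :=
  ∃ c : ℝ → E, c 0 = p ∧ (∀ᶠ s in 𝓝 (0 : ℝ), c s ∈ S) ∧ HasDerivAt c v 0

/-- `S` is a smooth submanifold of codimension two (without boundary): locally it is the zero set
of a smooth map to the plane with surjective derivative. -/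
def IsSubmanifold {E : Type*} [NormedAddCommGroup E] [NormedSpace ℝ E] (S : Set E) : Prop :=
  ∀ p ∈ S, ∃ (U : Set E) (F : E → ℝ × ℝ), IsOpen U ∧ p ∈ U ∧ ContDiffOn ℝ ∞ F U ∧
    (∀ q ∈ U, q ∈ S ↔ F q = 0) ∧ Function.Surjective (fderiv ℝ F p)

/-- The contact form `α = dz - y dx` at the point `q`, evaluated on `v`. -/
def alpha (q v : E3) : ℝ := v.2.2 - q.2.1 * v.1

/-- The symplectic form `d(e^t α) = e^t (dt ∧ α + dx ∧ dy)` at `p`, evaluated on `v`, `w`. -/
noncomputable def omega (p v w : E4) : ℝ :=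
  Real.exp p.1 * (v.1 * alpha p.2 w.2 - w.1 * alpha p.2 v.2 + (v.2.1 * w.2.2.1 - w.2.1 * v.2.2.1))

/-- The complex volume form `(dt + i α) ∧ (dx + i dy)` at `p`, evaluated on `v`, `w`. -/
noncomputable def cvol (p v w : E4) : ℂ :=
  ((v.1 : ℂ) + (alpha p.2 v.2 : ℂ) * Complex.I) * ((w.2.1 : ℂ) + (w.2.2.1 : ℂ) * Complex.I) -
  ((w.1 : ℂ) + (alpha p.2 w.2 : ℂ) * Complex.I) * ((v.2.1 : ℂ) + (v.2.2.1 : ℂ) * Complex.I)

/-- `Λ` is a Legendrian knot (a compact connected one-dimensional submanifold of `ℝ³` tangent to the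
kernel of `α`), oriented by the continuous tangent vector field `τ` without zeros. -/
structure IsLegendrianKnot (Λ : Set E3) (τ : E3 → E3) : Prop where
  compact : IsCompact Λ
  connected : IsConnected Λ
  submanifold : IsSubmanifold Λ
  legendrian : ∀ q ∈ Λ, ∀ v, IsTangent Λ q v → alpha q v = 0
  continuousOn : ContinuousOn τ Λ
  tangent : ∀ q ∈ Λ, τ q ≠ 0 ∧ IsTangent Λ q (τ q)

/-- `f` is a primitive of the restriction of `e^t α` to `L` (tested along all curves in `L`). -/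
def IsPrimitive (L : Set E4) (f : E4 → ℝ) : Prop :=
  ∀ p ∈ L, ∀ (c : ℝ → E4) (v : E4), c 0 = p → (∀ᶠ s in 𝓝 (0 : ℝ), c s ∈ L) → HasDerivAt c v 0 →
    HasDerivAt (fun s => f (c s)) (Real.exp p.1 * alpha p.2 v.2) 0

/-- `φ` is a continuous real valued phase on `L`: the complex volume form takes values in
`ℝ e^{i φ}` on the tangent planes of `L`. -/
def IsPhase (L : Set E4) (φ : E4 → ℝ) : Prop :=
  ContinuousOn φ L ∧ ∀ p ∈ L, ∀ v w, IsTangent L p v → IsTangent L p w →
    (Complex.exp (-(φ p : ℂ) * Complex.I) * cvol p v w).im = 0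

/-- `L` is an exact Lagrangian cobordism of Maslov class zero from the oriented Legendrian knot
`(Λ₀, τ₀)` to the oriented Legendrian knot `(Λ₁, τ₁)`: a closed connected Lagrangian surface, which is
the cylinder over `Λ₁` for `t > T`, the cylinder over `Λ₀` for `t < -T`, and compact in between;
`f` is a primitive of `e^t α` on `L` which is constant on each end, and `φ` is a continuous real
valued phase of `L`. The phase orients `L` (the complex volume form is a positive multiple of `e^{i φ}`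
on positive bases), and this orientation is the product orientation on the two ends. -/
structure IsCobordism (L : Set E4) (Λ₀ : Set E3) (τ₀ : E3 → E3) (Λ₁ : Set E3) (τ₁ : E3 → E3)
    (T : ℝ) (f φ : E4 → ℝ) : Prop where
  closed : IsClosed L
  connected : IsConnected L
  submanifold : IsSubmanifold L
  lagrangian : ∀ p ∈ L, ∀ v w, IsTangent L p v → IsTangent L p w → omega p v w = 0
  pos : 0 < T
  top : ∀ t, T < t → ∀ q : E3, ((t, q) : E4) ∈ L ↔ q ∈ Λ₁
  bot : ∀ t, t < -T → ∀ q : E3, ((t, q) : E4) ∈ L ↔ q ∈ Λ₀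
  compact : IsCompact (L ∩ {p : E4 | -T ≤ p.1 ∧ p.1 ≤ T})
  primitive : IsPrimitive L f
  const_top : ∃ a, ∀ p ∈ L, T < p.1 → f p = a
  const_bot : ∃ b, ∀ p ∈ L, p.1 < -T → f p = b
  phase : IsPhase L φ
  orient_top : ∀ t, T < t → ∀ q ∈ Λ₁,
    0 < (Complex.exp (-(φ (t, q) : ℂ) * Complex.I) * cvol (t, q) (1, 0) (0, τ₁ q)).re
  orient_bot : ∀ t, t < -T → ∀ q ∈ Λ₀,
    0 < (Complex.exp (-(φ (t, q) : ℂ) * Complex.I) * cvol (t, q) (1, 0) (0, τ₀ q)).re

/-- `L` has positive genus: some simple closed curve on `L` does not separate `L`. -/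
def HasPositiveGenus (L : Set E4) : Prop :=
  ∃ c : Circle → E4, Continuous c ∧ Function.Injective c ∧ Set.range c ⊆ L ∧
    IsConnected (L \ Set.range c)

/-- `H` is a smooth isotopy of embeddings of the oriented knot `(Λ₁, τ₁)` into `ℝ³`, from the inclusion
(for times `s ≥ T`) to an orientation preserving diffeomorphism onto the oriented knot `(Λ₀, τ₀)` (for
times `s ≤ -T`). Its track `{(s, H s q) : -T ≤ s ≤ T, q ∈ Λ₁}` is a smooth cobordism of genus zero
(an annulus) from `(Λ₀, τ₀)` to `(Λ₁, τ₁)`. -/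
structure IsIsotopy (Λ₁ : Set E3) (τ₁ : E3 → E3) (Λ₀ : Set E3) (τ₀ : E3 → E3)
    (H : ℝ → E3 → E3) (T : ℝ) : Prop where
  smooth : ∀ s, ∀ q ∈ Λ₁, ContDiffAt ℝ ∞ (fun p : ℝ × E3 => H p.1 p.2) (s, q)
  injective : ∀ s, Set.InjOn (H s) Λ₁
  immersion : ∀ s, ∀ q ∈ Λ₁, fderiv ℝ (H s) q (τ₁ q) ≠ 0
  top : ∀ s, T ≤ s → ∀ q ∈ Λ₁, H s q = q
  bot : ∀ s, s ≤ -T → H s '' Λ₁ = Λ₀
  orient : ∀ s, s ≤ -T → ∀ q ∈ Λ₁, ∃ c : ℝ, 0 < c ∧ fderiv ℝ (H s) q (τ₁ q) = c • τ₀ (H s q)

end Pool.Agent.K1H61.LC
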