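import Pool.Agent.K1H61.LC.Local

/-!
# Slices of graded Lagrangian surfaces which are products
-/

set_option autoImplicit false

open scoped ContDiff Topology
open Filter Set

namespace Pool.Agent.K1H61.LC

/-- a submanifold of codimension two in `ℝ³` has nonzero tangent vectors -/
lemma exists_tangent {S : Set E3} (hS : IsSubmanifold S) {q : E3} (hq : q ∈ S) :
    ∃ v : E3, v ≠ 0 ∧ IsTangent S q v := by
  obtain ⟨U, F, hU, hqU, hF, hiff, hsurj⟩ := hS q hq
  have hFq : ContDiffAt ℝ ∞ F q := hF.contDiffAt (hU.mem_nhds hqU)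
  have hst : HasStrictFDerivAt F (fderiv ℝ F q) q := hFq.hasStrictFDerivAt (by simp)
  have hr : (fderiv ℝ F q).range = ⊤ := LinearMap.range_eq_top.2 hsurj
  have hker : ∃ v : E3, v ≠ 0 ∧ fderiv ℝ F q v = 0 := by
    have hlt : Module.finrank ℝ (ℝ × ℝ) < Module.finrank ℝ E3 := by
      simp [Module.finrank_prod]
    have := LinearMap.ker_ne_bot_of_finrank_lt (f := (fderiv ℝ F q).toLinearMap) hlt
    obtain ⟨v, hv, hv0⟩ := Submodule.exists_mem_ne_zero_of_ne_bot this
    exact ⟨v, hv0, hv⟩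
  obtain ⟨v, hv0, hv⟩ := hker
  set w : (fderiv ℝ F q).ker := ⟨v, hv⟩ with hw
  set g := hst.implicitFunction F (fderiv ℝ F q) hr with hg
  refine ⟨v, hv0, fun s => g (F q) (s • w), ?_, ?_, ?_⟩
  · simp only [zero_smul, hg]
    exact hst.implicitFunction_apply_image hr
  · have hw0 : Tendsto (fun s : ℝ => s • w) (𝓝 0) (𝓝 0) := by
      have : Continuous (fun s : ℝ => s • w) := by fun_prop
      have := this.tendsto 0
      rwa [zero_smul] at this
    have h1 : Tendsto (fun s : ℝ => (F q, s • w)) (𝓝 0) (𝓝 (F q, 0)) :=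
      tendsto_const_nhds.prodMk_nhds hw0
    have h2 := h1.eventually (hst.map_implicitFunction_eq hr)
    have h3 : Tendsto (fun s : ℝ => g (F q) (s • w)) (𝓝 0) (𝓝 q) :=
      hst.tendsto_implicitFunction hr tendsto_const_nhds hw0
    filter_upwards [h2, h3.eventually (hU.mem_nhds hqU)] with s hs1 hs2
    rw [hiff _ hs2]
    have : F q = 0 := (hiff q hqU).1 hq
    rw [← this]
    exact hs1
  · have h1 : HasFDerivAt (g (F q)) (fderiv ℝ F q).ker.subtypeL 0 :=
      (hst.to_implicitFunction hr).hasFDerivAt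
    have h2 : HasDerivAt (fun s : ℝ => s • w) w 0 := by
      simpa using (hasDerivAt_id (0 : ℝ)).smul_const w
    have h3 : HasFDerivAt (g (F q)) (fderiv ℝ F q).ker.subtypeL ((0 : ℝ) • w) := by
      rw [zero_smul]; exact h1
    exact h3.comp_hasDerivAt 0 h2

lemma IsTangent.smul {E : Type*} [NormedAddCommGroup E] [NormedSpace ℝ E] {S : Set E} {p v : E}
    (h : IsTangent S p v) (a : ℝ) : IsTangent S p (a • v) := by
  obtain ⟨c, h0, hc, hd⟩ := h
  refine ⟨fun s => c (a * s), by simp [h0], ?_, ?_⟩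
  · have : Tendsto (fun s : ℝ => a * s) (𝓝 0) (𝓝 0) := by
      have : Continuous (fun s : ℝ => a * s) := by fun_prop
      have := this.tendsto 0
      rwa [mul_zero] at this
    exact this.eventually hc
  · have h1 : HasDerivAt (fun s : ℝ => a * s) a 0 := by
      simpa using (hasDerivAt_id (0 : ℝ)).const_mul a
    have h2 : HasDerivAt c v (a * 0) := by rw [mul_zero]; exact hd
    exact h2.scomp 0 h1

section Slice

variable {L : Set E4} {f φ : E4 → ℝ} {Λ : Set E3} {t0 : ℝ}

/-- the tangent vector field of a slice -/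
noncomputable def tau (φ : E4 → ℝ) (t0 : ℝ) (q : E3) : E3 :=
  (Real.cos (φ (t0, q)), Real.sin (φ (t0, q)), q.2.1 * Real.cos (φ (t0, q)))

variable (hgood : ∀ p ∈ L, Good L f φ p)
  (hprod : ∀ᶠ t in 𝓝 t0, ∀ q, (t, q) ∈ L ↔ q ∈ Λ)

include hprod

lemma slice_tangent_t {q : E3} (hq : q ∈ Λ) : IsTangent L (t0, q) (1, 0) := by
  refine ⟨fun s => (t0 + s, q), by simp, ?_, ?_⟩
  · have : Tendsto (fun s : ℝ => t0 + s) (𝓝 0) (𝓝 t0) := by
      have : Continuous (fun s : ℝ => t0 + s) := by fun_prop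
      have := this.tendsto 0
      rwa [add_zero] at this
    filter_upwards [this.eventually hprod] with s hs
    exact (hs q).2 hq
  · exact ((hasDerivAt_id (0 : ℝ)).const_add t0).prodMk (hasDerivAt_const _ _)

lemma slice_tangent {q v : E3} (h : IsTangent Λ q v) : IsTangent L (t0, q) (0, v) := by
  obtain ⟨c, h0, hc, hd⟩ := h
  refine ⟨fun s => (t0, c s), by simp [h0], ?_, (hasDerivAt_const _ _).prodMk hd⟩
  filter_upwards [hc] with s hs
  exact (hprod.self_of_nhds _).2 hs

include hgood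

lemma slice_submanifold : IsSubmanifold Λ := by
  intro q hq
  have hp : ((t0, q) : E4) ∈ L := (hprod.self_of_nhds _).2 hq
  obtain ⟨U, F, hU, hpU, hF, hiff, hsurj⟩ := (hgood _ hp).sub
  have hι : Continuous (fun q : E3 => ((t0, q) : E4)) := by fun_prop
  have hι2 : ContDiff ℝ ∞ (fun q : E3 => ((t0, q) : E4)) := contDiff_const.prodMk contDiff_id
  refine ⟨(fun q : E3 => ((t0, q) : E4)) ⁻¹' U, fun q => F (t0, q), hU.preimage hι, hpU, ?_, ?_, ?_⟩
  · exact hF.comp hι2.contDiffOn (fun x hx => hx)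
  · intro q' hq'
    rw [← hiff _ hq']
    exact (hprod.self_of_nhds _).symm
  · have hFp : HasFDerivAt F (fderiv ℝ F (t0, q)) (t0, q) :=
      ((hF.contDiffAt (hU.mem_nhds hpU)).differentiableAt (by simp)).hasFDerivAt
    have h1 : HasFDerivAt (fun q : E3 => ((t0, q) : E4)) (ContinuousLinearMap.inr ℝ ℝ E3) q :=
      hasFDerivAt_prodMk_right t0 q
    have h2 := hFp.comp q h1
    have h3 : HasFDerivAt (fun q : E3 => F (t0, q)) _ q := h2
    rw [h3.fderiv]
    obtain ⟨c, h0, hc, hd⟩ := slice_tangent_t hprod hq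
    have h4 : fderiv ℝ F (t0, q) (1, 0) = 0 := by
      have e1 : HasDerivAt (fun s => F (c s)) (fderiv ℝ F (t0, q) (1, 0)) 0 := by
        have : HasFDerivAt F (fderiv ℝ F (t0, q)) (c 0) := by rw [h0]; exact hFp
        exact this.comp_hasDerivAt 0 hd
      have hct : Tendsto c (𝓝 0) (𝓝 (t0, q)) := by
        have := hd.continuousAt.tendsto
        rwa [h0] at this
      have e2 : (fun s => F (c s)) =ᶠ[𝓝 0] fun _ => 0 := by
        filter_upwards [hc, hct.eventually (hU.mem_nhds hpU)] with s hs1 hs2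
        exact (hiff _ hs2).1 hs1
      exact e1.unique ((hasDerivAt_const (0 : ℝ) (0 : ℝ × ℝ)).congr_of_eventuallyEq e2)
    intro w
    obtain ⟨⟨a, v⟩, hav⟩ := hsurj w
    refine ⟨v, ?_⟩
    have e : ((a, v) : E4) = a • ((1, 0) : E4) + (0, v) := by simp
    rw [e, map_add, map_smul, h4, smul_zero, zero_add] at hav
    simpa using hav

lemma slice_legendrian {q v : E3} (hq : q ∈ Λ) (hv : IsTangent Λ q v) : alpha q v = 0 := by
  have hp : ((t0, q) : E4) ∈ L := (hprod.self_of_nhds _).2 hq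
  have h := (hgood _ hp).lag _ _ (slice_tangent_t hprod hq) (slice_tangent hprod hv)
  simp only [omega] at h
  have h2 := (mul_eq_zero.1 h).resolve_left (Real.exp_pos _).ne'
  simpa using h2

lemma slice_multiple {q v : E3} (hq : q ∈ Λ) (hv : IsTangent Λ q v) :
    v = (v.1 * Real.cos (φ (t0, q)) + v.2.1 * Real.sin (φ (t0, q))) • tau φ t0 q := by
  have hp : ((t0, q) : E4) ∈ L := (hprod.self_of_nhds _).2 hq
  have h := (hgood _ hp).phase _ _ (slice_tangent_t hprod hq) (slice_tangent hprod hv)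
  have h1 := slice_legendrian hgood hprod hq hv
  have h2 : v.2.2 = q.2.1 * v.1 := by simp only [alpha] at h1; linarith
  set θ := φ (t0, q) with hθ
  have h3 : v.2.1 * Real.cos θ = v.1 * Real.sin θ := by
    have e : cvol ((t0, q) : E4) (1, 0) (0, v) = (v.1 : ℂ) + (v.2.1 : ℂ) * Complex.I := by
      simp [cvol, alpha]
    rw [e, show -(θ : ℂ) * Complex.I = ((-θ : ℝ) : ℂ) * Complex.I by push_cast; ring,
      Complex.mul_im, Complex.exp_ofReal_mul_I_im, Complex.exp_ofReal_mul_I_re] at h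
    simp at h
    linarith
  have h4 := Real.sin_sq_add_cos_sq θ
  ext
  · simp only [tau, Prod.smul_mk, smul_eq_mul, ← hθ]
    linear_combination (-v.1) * h4 - Real.sin θ * h3
  · simp only [tau, Prod.smul_mk, smul_eq_mul, ← hθ]
    linear_combination (-v.2.1) * h4 + Real.cos θ * h3
  · simp only [tau, Prod.smul_mk, smul_eq_mul, ← hθ]
    rw [h2]
    linear_combination (-q.2.1 * v.1) * h4 - q.2.1 * Real.sin θ * h3

lemma slice_tau {q : E3} (hq : q ∈ Λ) : tau φ t0 q ≠ 0 ∧ IsTangent Λ q (tau φ t0 q) := by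
  constructor
  · intro h
    have h1 := congrArg Prod.fst h
    have h2 := congrArg (fun v : E3 => v.2.1) h
    simp only [tau] at h1 h2
    have := Real.sin_sq_add_cos_sq (φ (t0, q))
    rw [show Real.cos (φ (t0, q)) = 0 from h1, show Real.sin (φ (t0, q)) = 0 from h2] at this
    norm_num at this
  · obtain ⟨v, hv0, hv⟩ := exists_tangent (slice_submanifold hgood hprod) hq
    have h := slice_multiple hgood hprod hq hv
    set a := v.1 * Real.cos (φ (t0, q)) + v.2.1 * Real.sin (φ (t0, q)) with ha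
    have ha0 : a ≠ 0 := by
      intro h0
      rw [h0, zero_smul] at h
      exact hv0 h
    have e : tau φ t0 q = a⁻¹ • v := by
      rw [h, smul_smul, inv_mul_cancel₀ ha0, one_smul]
    rw [e]
    exact hv.smul _

end Slice

end Pool.Agent.K1H61.LC
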