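import Pool.Agent.K1H61.LC.Conc4
import Pool.Agent.K1H61.LC.Slice

/-!
# The surface is a product where the blocks do not depend on `t`
-/

set_option autoImplicit false

open scoped ContDiff Topology
open Filter Set

namespace Pool.Agent.K1H61.LC

lemma dt_congr {r r' : ℝ × ℝ → ℝ} {u : ℝ × ℝ} (h : r =ᶠ[𝓝 u] r') : dt r =ᶠ[𝓝 u] dt r' := by
  filter_upwards [h.fderiv (𝕜 := ℝ)] with v hv
  simp [dt, hv]

lemma dx_congr {r r' : ℝ × ℝ → ℝ} {u : ℝ × ℝ} (h : r =ᶠ[𝓝 u] r') : dx r =ᶠ[𝓝 u] dx r' := by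
  filter_upwards [h.fderiv (𝕜 := ℝ)] with v hv
  simp [dx, hv]

lemma block_congr {r r' : ℝ × ℝ → ℝ} {u : ℝ × ℝ} (κ : ℝ) (h : r =ᶠ[𝓝 u] r') :
    bG κ r u = bG κ r' u ∧ bY κ r u = bY κ r' u ∧ bQ κ r u = bQ κ r' u ∧
      bth κ r u = bth κ r' u := by
  have e0 := h.self_of_nhds
  have e1 := (dt_congr h).self_of_nhds
  have e2 := (dx_congr h).self_of_nhds
  have e3 := (dt_congr (dt_congr h)).self_of_nhds
  have e4 := (dt_congr (dx_congr h)).self_of_nhds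
  have e5 := (dx_congr (dx_congr h)).self_of_nhds
  refine ⟨by simp [bG, e0], by simp [bY, e0, e2], by simp [bQ, e0, e1], ?_⟩
  simp [bth, bRe, bIm, bD, e0, e1, e2, e3, e4, e5]

lemma one_shift {ρ : ℝ → ℝ} (hρ : ContDiff ℝ ∞ ρ) (κ t t' x : ℝ) :
    bG κ (fun u : ℝ × ℝ => ρ u.2) (t, x) = bG κ (fun u : ℝ × ℝ => ρ u.2) (t', x) ∧
    bY κ (fun u : ℝ × ℝ => ρ u.2) (t, x) = bY κ (fun u : ℝ × ℝ => ρ u.2) (t', x) ∧
    bQ κ (fun u : ℝ × ℝ => ρ u.2) (t, x) = 0 ∧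
    bth κ (fun u : ℝ × ℝ => ρ u.2) (t, x) = bth κ (fun u : ℝ × ℝ => ρ u.2) (t', x) := by
  have h1 := one_dt hρ
  have h2 := one_dx hρ
  have h3 := one_dtdx hρ
  have h4 : dx (fun u : ℝ × ℝ => deriv ρ u.2) = fun u => deriv (deriv ρ) u.2 :=
    one_dx (deriv_smooth hρ)
  refine ⟨by simp [bG], by simp [bY, h2], by simp [bQ, h1], ?_⟩
  simp only [bth, bRe, bIm, bD, h1, h3, const_dt]
  simp only [h2, h4]

namespace Surf

variable {ι J : Type} [Fintype ι]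

/-- the blocks do not depend on `t` for `t ∈ I` -/
structure ProdOn (A : Surf ι J) (I : Set ℝ) (ρ : ι → ℝ → ℝ) : Prop where
  isOpen : IsOpen I
  smooth : ∀ i, ContDiff ℝ ∞ (ρ i)
  eq : ∀ i, ∀ t ∈ I, ∀ x, A.r i (t, x) = ρ i x

namespace ProdOn

variable {A : Surf ι J} {I : Set ℝ} {ρ : ι → ℝ → ℝ} (h : A.ProdOn I ρ)

include h

lemma ev {t : ℝ} (ht : t ∈ I) (x : ℝ) (i : ι) : A.r i =ᶠ[𝓝 (t, x)] fun u => ρ i u.2 := by
  have : ∀ᶠ u : ℝ × ℝ in 𝓝 (t, x), u.1 ∈ I :=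
    (continuous_fst.tendsto (t, x)).eventually (h.isOpen.mem_nhds ht)
  filter_upwards [this] with u hu
  exact h.eq i u.1 hu u.2

lemma dom_iff {t t' : ℝ} (ht : t ∈ I) (ht' : t' ∈ I) (x : ℝ) (j : J) :
    (t, x) ∈ A.dom j ↔ (t', x) ∈ A.dom j := by
  simp only [dom, mem_ofPred_eq, h.eq _ t ht, h.eq _ t' ht']

lemma G_eq {t t' : ℝ} (ht : t ∈ I) (ht' : t' ∈ I) (x : ℝ) (j : J) :
    A.G j (t, x) = A.G j (t', x) := by
  unfold G
  congr 1
  refine Finset.sum_congr rfl fun i _ => ?_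
  rw [(block_congr (A.κ i) (h.ev ht x i)).1, (block_congr (A.κ i) (h.ev ht' x i)).1,
    (one_shift (h.smooth i) (A.κ i) t t' x).1]

lemma Y_eq {t t' : ℝ} (ht : t ∈ I) (ht' : t' ∈ I) (x : ℝ) (j : J) :
    A.Y j (t, x) = A.Y j (t', x) := by
  unfold Y
  refine Finset.sum_congr rfl fun i _ => ?_
  rw [(block_congr (A.κ i) (h.ev ht x i)).2.1, (block_congr (A.κ i) (h.ev ht' x i)).2.1,
    (one_shift (h.smooth i) (A.κ i) t t' x).2.1]

lemma Q_eq {t : ℝ} (ht : t ∈ I) (x : ℝ) (j : J) : A.Q j (t, x) = 0 := by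
  unfold Q
  refine Finset.sum_eq_zero fun i _ => ?_
  rw [(block_congr (A.κ i) (h.ev ht x i)).2.2.1, (one_shift (h.smooth i) (A.κ i) t t x).2.2.1,
    mul_zero]

lemma Z_eq {t t' : ℝ} (ht : t ∈ I) (ht' : t' ∈ I) (x : ℝ) (j : J) :
    A.Z j (t, x) = A.Z j (t', x) := by
  unfold Z
  rw [h.G_eq ht ht', h.Q_eq ht, h.Q_eq ht']

lemma Ph_eq {t t' : ℝ} (ht : t ∈ I) (ht' : t' ∈ I) (x : ℝ) (j : J) :
    A.Ph j (t, x) = A.Ph j (t', x) := by
  unfold Ph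
  congr 1
  refine Finset.sum_congr rfl fun i _ => ?_
  rw [(block_congr (A.κ i) (h.ev ht x i)).2.2.2, (block_congr (A.κ i) (h.ev ht' x i)).2.2.2,
    (one_shift (h.smooth i) (A.κ i) t t' x).2.2.2]

lemma Sh_iff {t t' : ℝ} (ht : t ∈ I) (ht' : t' ∈ I) (q : E3) (j : J) :
    ((t, q) : E4) ∈ A.Sh j ↔ ((t', q) : E4) ∈ A.Sh j := by
  simp only [Sh, mem_ofPred_eq, pr]
  rw [h.dom_iff ht ht', h.Y_eq ht ht', h.Z_eq ht ht']

lemma L_iff {t t' : ℝ} (ht : t ∈ I) (ht' : t' ∈ I) (q : E3) :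
    ((t, q) : E4) ∈ A.L ↔ ((t', q) : E4) ∈ A.L :=
  exists_congr fun j => h.Sh_iff ht ht' q j

lemma φ_eq (hA : A.Ok) {t t' : ℝ} (ht : t ∈ I) (ht' : t' ∈ I) {q : E3}
    (hq : ((t, q) : E4) ∈ A.L) : A.φ (t, q) = A.φ (t', q) := by
  obtain ⟨j, hj⟩ := hq
  rw [hA.φ_eq hj, hA.φ_eq ((h.Sh_iff ht ht' q j).1 hj)]
  exact h.Ph_eq ht ht' _ j

lemma f_eq (hA : A.Ok) {t : ℝ} (ht : t ∈ I) {q : E3}
    (hq : ((t, q) : E4) ∈ A.L) : A.f (t, q) = 0 := by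
  obtain ⟨j, hj⟩ := hq
  rw [hA.f_eq hj, show pr ((t, q) : E4) = (t, q.1) from rfl, h.Q_eq ht, mul_zero]

end ProdOn

end Surf

/-! ### the two ends of the concrete surface -/

variable {B S M : ℝ}

/-- blocks at the top -/
noncomputable def rtop (B : ℝ) : Fin 7 → ℝ → ℝ :=
  ![e0 9, e0 6, fun _ => 1, fun _ => 1, e1 B, e1 (B + 4), er B]

/-- blocks at the bottom -/
noncomputable def rbot (B : ℝ) : Fin 7 → ℝ → ℝ :=
  ![e0 9, e0 6, fun x => Rn (Fn x - 2), fun x => Rn (Fn (x - 8) - 2), e1 B, e1 (B + 4), er B]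

lemma prod_top (h : Bds M S) : (mdl B S).ProdOn (Ioi S) (rtop B) := by
  have hS := h.S_pos
  refine ⟨isOpen_Ioi, fun i => ?_, fun i t ht x => ?_⟩
  · fin_cases i
    · exact e0_smooth 9
    · exact e0_smooth 6
    · exact contDiff_const
    · exact contDiff_const
    · exact e1_smooth B
    · exact e1_smooth (B + 4)
    · exact er_smooth B
  · have ht' : S < t := ht
    fin_cases i
    · rfl
    · rfl
    · exact box_one' hS (by show S ≤ t + S; linarith)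
    · exact box_one' hS (by show S ≤ t + 0; linarith)
    · rfl
    · rfl
    · rfl

lemma prod_bot (h : Bds M S) : (mdl B S).ProdOn (Iio (-S)) (rbot B) := by
  have hS := h.S_pos
  refine ⟨isOpen_Iio, fun i => ?_, fun i t ht x => ?_⟩
  · fin_cases i
    · exact e0_smooth 9
    · exact e0_smooth 6
    · exact Rn_smooth.comp (Fn_smooth.sub contDiff_const)
    · exact Rn_smooth.comp ((Fn_smooth.comp (by fun_prop)).sub contDiff_const)
    · exact e1_smooth B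
    · exact e1_smooth (B + 4)
    · exact er_smooth B
  · have ht' : t < -S := ht
    fin_cases i
    · rfl
    · rfl
    · show Rn (Fn (x - 0) - lam S (t + S)) = Rn (Fn x - 2)
      rw [lam_left hS (by linarith), sub_zero]
    · show Rn (Fn (x - 8) - lam S (t + 0)) = Rn (Fn (x - 8) - 2)
      rw [lam_left hS (by linarith)]
    · rfl
    · rfl
    · rfl

/-- the knot at the positive end -/
def Lp (B S : ℝ) : Set E3 := {q | ((S + 1, q) : E4) ∈ (mdl B S).L}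
/-- the knot at the negative end -/
def Lm (B S : ℝ) : Set E3 := {q | ((-S - 1, q) : E4) ∈ (mdl B S).L}

lemma top_iff (h : Bds M S) {t : ℝ} (ht : S < t) (q : E3) :
    ((t, q) : E4) ∈ (mdl B S).L ↔ q ∈ Lp B S :=
  (prod_top h).L_iff ht (show S < S + 1 by linarith) q

lemma bot_iff (h : Bds M S) {t : ℝ} (ht : t < -S) (q : E3) :
    ((t, q) : E4) ∈ (mdl B S).L ↔ q ∈ Lm B S :=
  (prod_bot h).L_iff ht (show -S - 1 < -S by linarith) q

lemma top_ev (h : Bds M S) : ∀ᶠ t in 𝓝 (S + 1), ∀ q : E3, ((t, q) : E4) ∈ (mdl B S).L ↔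
    q ∈ Lp B S := by
  filter_upwards [lt_mem_nhds (show S < S + 1 by linarith)] with t ht q
  exact top_iff h ht q

lemma bot_ev (h : Bds M S) : ∀ᶠ t in 𝓝 (-S - 1), ∀ q : E3, ((t, q) : E4) ∈ (mdl B S).L ↔
    q ∈ Lm B S := by
  filter_upwards [gt_mem_nhds (show -S - 1 < -S by linarith)] with t ht q
  exact bot_iff h ht q

/-! ### compactness -/

lemma L_closed : IsClosed (mdl B S).L := by
  have hL : (mdl B S).L = ⋃ j, (mdl B S).Sh j := by ext q; simp [Surf.L]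
  rw [hL]
  exact isClosed_iUnion_of_finite fun j => (mdl B S).Sh_closed j

lemma dom_bounds {j : Fin 4} {u : ℝ × ℝ} (hu : u ∈ (mdl B S).dom j) :
    -9 ≤ u.2 ∧ u.2 ≤ B + 4 := by
  fin_cases j
  · have := (dom0 u).1 hu; exact ⟨this.1, by linarith [this.2.2]⟩
  · exact (dom1 u).1 hu
  · have := (dom2 u).1 hu; exact ⟨by linarith [this.1], by linarith [this.2.2.2]⟩
  · have := (dom3 u).1 hu; exact ⟨by linarith [this.1], by linarith [this.2.2]⟩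

lemma slab_compact (a b : ℝ) : IsCompact ((mdl B S).L ∩ {p : E4 | a ≤ p.1 ∧ p.1 ≤ b}) := by
  have : (mdl B S).L ∩ {p : E4 | a ≤ p.1 ∧ p.1 ≤ b} =
      ⋃ j, (mdl B S).P j '' ((Icc a b ×ˢ Icc (-9) (B + 4)) ∩ (mdl B S).dom j) := by
    ext p
    simp only [mem_inter_iff, mem_iUnion, mem_image]
    constructor
    · rintro ⟨⟨j, hj⟩, h1, h2⟩
      exact ⟨j, pr p, ⟨⟨⟨h1, h2⟩, dom_bounds hj.1⟩, hj.1⟩, ((mdl B S).eq_P hj).symm⟩
    · rintro ⟨j, u, ⟨⟨h1, _⟩, hu⟩, rfl⟩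
      exact ⟨(mdl B S).P_mem_L hu, h1⟩
  rw [this]
  refine isCompact_iUnion fun j => ?_
  exact ((isCompact_Icc.prod isCompact_Icc).inter_right ((mdl B S).dom_closed j)).image
    ((mdl B S).P_continuous j)

lemma slice_compact (t0 : ℝ) : IsCompact {q : E3 | ((t0, q) : E4) ∈ (mdl B S).L} := by
  have h1 : IsCompact ((mdl B S).L ∩ {p : E4 | t0 ≤ p.1 ∧ p.1 ≤ t0}) := slab_compact t0 t0
  have : {q : E3 | ((t0, q) : E4) ∈ (mdl B S).L} =
      Prod.snd '' ((mdl B S).L ∩ {p : E4 | t0 ≤ p.1 ∧ p.1 ≤ t0}) := by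
    ext q
    simp only [mem_image, mem_inter_iff]
    constructor
    · intro hq; exact ⟨(t0, q), ⟨hq, le_refl t0, le_refl t0⟩, rfl⟩
    · rintro ⟨⟨t, q'⟩, ⟨h4, h2, h3⟩, rfl⟩
      have : t = t0 := le_antisymm h3 h2
      subst this
      exact h4
  rw [this]
  exact h1.image continuous_snd

end Pool.Agent.K1H61.LC
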