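import Pool.Agent.K1H61.LC.Iso4
import Pool.Agent.K1H61.LC.Circ

/-!
# The final assembly
-/

set_option autoImplicit false

open scoped ContDiff Topology
open Filter Set

namespace Pool.Agent.K1H61.LC

variable {B S M : ℝ}

lemma Lp_mem_L {q : E3} (hq : q ∈ Lp B S) : ((S + 1, q) : E4) ∈ (mdl B S).L := hq
lemma Lm_mem_L {q : E3} (hq : q ∈ Lm B S) : ((-S - 1, q) : E4) ∈ (mdl B S).L := hq

lemma tau_continuousOn {L : Set E4} {φ : E4 → ℝ} (hφ : ContinuousOn φ L) {Λ : Set E3} {t0 : ℝ}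
    (h : ∀ q ∈ Λ, ((t0, q) : E4) ∈ L) : ContinuousOn (tau φ t0) Λ := by
  have h1 : ContinuousOn (fun q : E3 => φ (t0, q)) Λ :=
    hφ.comp (by fun_prop) (fun q hq => h q hq)
  have h2 : ContinuousOn (fun q : E3 => Real.cos (φ (t0, q))) Λ :=
    Real.continuous_cos.comp_continuousOn h1
  have h3 : ContinuousOn (fun q : E3 => Real.sin (φ (t0, q))) Λ :=
    Real.continuous_sin.comp_continuousOn h1
  have h4 : ContinuousOn (fun q : E3 => q.2.1) Λ := by fun_prop
  exact h2.prodMk (h3.prodMk (h4.mul h2))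

theorem Lp_knot (hB : 13 ≤ B) (h : Bds M S) :
    IsLegendrianKnot (Lp B S) (tau (mdl B S).φ (S + 1)) := by
  have hA := mdl_ok hB h
  have hgood := fun p hp => hA.good (p := p) hp
  exact
    { compact := slice_compact (S + 1)
      connected := Lp_connected hB h
      submanifold := slice_submanifold hgood (top_ev h)
      legendrian := fun q hq v hv => slice_legendrian hgood (top_ev h) hq hv
      continuousOn := tau_continuousOn hA.φ_continuousOn (fun q hq => hq)
      tangent := fun q hq => slice_tau hgood (top_ev h) hq }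

theorem Lm_knot (hB : 13 ≤ B) (h : Bds M S) :
    IsLegendrianKnot (Lm B S) (tau (mdl B S).φ (-S - 1)) := by
  have hA := mdl_ok hB h
  have hgood := fun p hp => hA.good (p := p) hp
  exact
    { compact := slice_compact (-S - 1)
      connected := Lm_connected hB h
      submanifold := slice_submanifold hgood (bot_ev h)
      legendrian := fun q hq v hv => slice_legendrian hgood (bot_ev h) hq hv
      continuousOn := tau_continuousOn hA.φ_continuousOn (fun q hq => hq)
      tangent := fun q hq => slice_tau hgood (bot_ev h) hq }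

lemma orient_aux (φ : E4 → ℝ) (t t0 : ℝ) (q : E3) (h : φ (t, q) = φ (t0, q)) :
    0 < (Complex.exp (-(φ (t, q) : ℂ) * Complex.I) * cvol (t, q) (1, 0) (0, tau φ t0 q)).re := by
  have e : cvol ((t, q) : E4) (1, 0) (0, tau φ t0 q) =
      Complex.exp ((φ (t, q) : ℂ) * Complex.I) := by
    rw [h]
    apply Complex.ext
    · rw [Complex.exp_ofReal_mul_I_re]; simp [cvol, alpha, tau, Complex.cos_ofReal_re]
    · rw [Complex.exp_ofReal_mul_I_im]; simp [cvol, alpha, tau, Complex.sin_ofReal_re]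
  rw [e, ← Complex.exp_add, show -(φ (t, q) : ℂ) * Complex.I + (φ (t, q) : ℂ) * Complex.I = 0 by ring,
    Complex.exp_zero]
  norm_num

theorem L_cob (hB : 13 ≤ B) (h : Bds M S) :
    IsCobordism (mdl B S).L (Lm B S) (tau (mdl B S).φ (-S - 1)) (Lp B S) (tau (mdl B S).φ (S + 1))
      S (mdl B S).f (mdl B S).φ := by
  have hA := mdl_ok hB h
  have hS := h.S_pos
  have hgood := fun p hp => hA.good (p := p) hp
  exact
    { closed := L_closed
      connected := L_connected hB h
      submanifold := fun p hp => (hgood p hp).sub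
      lagrangian := fun p hp => (hgood p hp).lag
      pos := hS
      top := fun t ht q => top_iff h ht q
      bot := fun t ht q => bot_iff h ht q
      compact := slab_compact (-S) S
      primitive := fun p hp => (hgood p hp).prim
      const_top := ⟨0, fun p hp ht => (prod_top h).f_eq hA (t := p.1) (q := p.2) ht hp⟩
      const_bot := ⟨0, fun p hp ht => (prod_bot h).f_eq hA (t := p.1) (q := p.2) ht hp⟩
      phase := ⟨hA.φ_continuousOn, fun p hp => (hgood p hp).phase⟩
      orient_top := fun t ht q hq => orient_aux _ t (S + 1) q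
        ((prod_top h).φ_eq hA ht (show S < S + 1 by linarith) ((top_iff h ht q).2 hq))
      orient_bot := fun t ht q hq => orient_aux _ t (-S - 1) q
        ((prod_bot h).φ_eq hA ht (show -S - 1 < -S by linarith) ((bot_iff h ht q).2 hq)) }

theorem L_genus (hB : 13 ≤ B) (h : Bds M S) : HasPositiveGenus (mdl B S).L := by
  refine ⟨cir B S, cir_continuous hB h, cir_injective hB h, ?_, compl_connected hB h⟩
  rintro _ ⟨z, rfl⟩
  rcases cir_mem hB h z with h1 | h1
  · exact ⟨2, h1⟩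
  · exact ⟨3, h1⟩

lemma Hm_smooth' (hB : 13 ≤ B) (hS : 0 < S) (s : ℝ) {q : E3} (hq : q ∈ Lp B S) :
    ContDiffAt ℝ ∞ (Hm B s) q := by
  have h1 := Hm_smooth hB hS s hq
  have h2 : ContDiffAt ℝ ∞ (fun q : E3 => ((s, q) : ℝ × E3)) q :=
    contDiffAt_const.prodMk contDiffAt_id
  exact h1.comp q h2

lemma Ph1 (hB : 13 ≤ B) (t : ℝ) : (mdl B S).Ph 1 (t, 0) = Real.pi := by
  simp only [Surf.Ph, Fin.sum_univ_seven, mdl]
  have f1 : bth 3 (fun u : ℝ × ℝ => e0 9 u.2) (t, 0) = 0 :=
    flat_bth (e0_flat (by show (1 : ℝ) < 0 + 9; norm_num))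
  have f2 : bth 1 (fun u : ℝ × ℝ => e1 (B + 4) u.2) (t, 0) = 0 :=
    flat_bth (e1_flat (by show (1 : ℝ) < B + 4 - 0; linarith))
  have f3 : bth (4 / 7) (fun u : ℝ × ℝ => er B u.2) (t, 0) = 0 :=
    flat_bth (er_flat (Or.inl (by show (0 : ℝ) < B + 1; linarith)))
  simp [f1, f2, f3]

lemma φ1 (hB : 13 ≤ B) (h : Bds M S) (t : ℝ) : (mdl B S).φ (t, pt B S t 1 0) = Real.pi := by
  have hd : (t, (0 : ℝ)) ∈ (mdl B S).dom 1 :=
    (dom1 _).2 ⟨by norm_num, by show (0 : ℝ) ≤ B + 4; linarith⟩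
  have hm : ((t, pt B S t 1 0) : E4) ∈ (mdl B S).Sh 1 := ⟨hd, rfl, rfl⟩
  rw [(mdl_ok hB h).φ_eq hm]
  exact Ph1 hB t

theorem Hm_orient (hB : 13 ≤ B) (h : Bds M S) (hB2 : 16 * M < B) {s : ℝ} (hs : s ≤ -2) {q : E3}
    (hq : q ∈ Lp B S) : ∃ c : ℝ, 0 < c ∧ fderiv ℝ (Hm B s) q (tau (mdl B S).φ (S + 1) q) =
      c • tau (mdl B S).φ (-S - 1) (Hm B s q) := by
  have hA := mdl_ok hB h
  have hS := h.S_pos
  have hgood := fun p hp => hA.good (p := p) hp
  set φ := (mdl B S).φ with hφd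
  set v : E3 → E3 := fun q => fderiv ℝ (Hm B s) q (tau φ (S + 1) q) with hv
  set lam0 : E3 → ℝ := fun q => (v q).1 * Real.cos (φ (-S - 1, Hm B s q)) +
    (v q).2.1 * Real.sin (φ (-S - 1, Hm B s q)) with hlam
  have him := Hm_image hB h hB2 hs
  have hmaps : ∀ q ∈ Lp B S, Hm B s q ∈ Lm B S := fun q hq => by
    rw [← him]; exact ⟨q, hq, rfl⟩
  have htan : ∀ q ∈ Lp B S, IsTangent (Lm B S) (Hm B s q) (v q) := by
    intro q hq
    obtain ⟨c, c0, cL, cd⟩ := (slice_tau hgood (top_ev h) hq).2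
    refine ⟨fun u => Hm B s (c u), by simp [c0], ?_, ?_⟩
    · filter_upwards [cL] with u hu using hmaps _ hu
    · have hd : HasFDerivAt (Hm B s) (fderiv ℝ (Hm B s) q) (c 0) := by
        rw [c0]; exact ((Hm_smooth' hB hS s hq).differentiableAt (by simp)).hasFDerivAt
      exact hd.comp_hasDerivAt 0 cd
  have hmul : ∀ q ∈ Lp B S, v q = lam0 q • tau φ (-S - 1) (Hm B s q) := fun q hq =>
    slice_multiple hgood (bot_ev h) (hmaps q hq) (htan q hq)
  have hv0 : ∀ q ∈ Lp B S, v q ≠ 0 := fun q hq => Hm_imm hB h hB2 s hq _ rfl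
  have hl0 : ∀ q ∈ Lp B S, lam0 q ≠ 0 := by
    intro q hq h0
    apply hv0 q hq
    rw [hmul q hq, h0, zero_smul]
  have hcont : ContinuousOn lam0 (Lp B S) := by
    have c1 : ContinuousOn (tau φ (S + 1)) (Lp B S) :=
      tau_continuousOn hA.φ_continuousOn (fun q hq => hq)
    have c2 : ContinuousOn (fun q => fderiv ℝ (Hm B s) q) (Lp B S) := by
      intro q hq
      exact ((Hm_smooth' hB hS s hq).fderiv_right (m := 0) (by simp)).continuousAt.continuousWithinAt
    have c3 : ContinuousOn v (Lp B S) := c2.clm_apply c1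
    have c4 : ContinuousOn (Hm B s) (Lp B S) := fun q hq =>
      (Hm_smooth' hB hS s hq).continuousAt.continuousWithinAt
    have c5 : ContinuousOn (fun q : E3 => φ (-S - 1, Hm B s q)) (Lp B S) := by
      refine hA.φ_continuousOn.comp (continuousOn_const.prodMk c4) fun q hq => ?_
      exact hmaps q hq
    have c6 : ContinuousOn (fun q => (v q).1) (Lp B S) := continuous_fst.comp_continuousOn c3
    have c7 : ContinuousOn (fun q => (v q).2.1) (Lp B S) :=
      (by fun_prop : Continuous (fun w : E3 => w.2.1)).comp_continuousOn c3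
    exact (c6.mul (Real.continuous_cos.comp_continuousOn c5)).add
      (c7.mul (Real.continuous_sin.comp_continuousOn c5))
  -- the base point
  set q0 : E3 := pt B S (S + 1) 1 0 with hq0
  have hq0m : q0 ∈ Lp B S :=
    (mem_Lp hS).2 (Or.inr (Or.inl ⟨0, by norm_num, by linarith, rfl⟩))
  have hz : q0.2.2 = -6 := (top1_z hB (by norm_num) (by linarith)).2 (by norm_num) (by linarith)
  have hr : q0.1 < -7 ∨ B - 5 < q0.1 ∨ q0.2.2 < -5 := Or.inr (Or.inr (by rw [hz]; norm_num))
  have hpos : lam0 q0 = 1 := by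
    have e1 : v q0 = tau φ (S + 1) q0 := by
      simp only [hv]
      rw [Hm_fderiv_id hB hr]; rfl
    have e2 : Hm B s q0 = q0 := Hm_id hB hr
    have e3 : φ (S + 1, q0) = Real.pi := φ1 hB h (S + 1)
    have e4 : φ (-S - 1, q0) = Real.pi := by
      rw [hq0, pt1 (S + 1) (-S - 1)]; exact φ1 hB h (-S - 1)
    simp only [hlam, e1, e2, e4, tau, e3]
    simp
  refine ⟨lam0 q, ?_, hmul q hq⟩
  by_contra hc
  rw [not_lt] at hc
  have := (Lp_connected hB h).isPreconnected.intermediate_value hq hq0m hcont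
  obtain ⟨q1, hq1, hq2⟩ := this ⟨hc, by rw [hpos]; norm_num⟩
  exact hl0 q1 hq1 hq2

theorem main_thm : ∃ (Λ₀ Λ₁ : Set E3) (τ₀ τ₁ : E3 → E3) (L : Set E4) (T : ℝ) (f φ : E4 → ℝ),
    IsLegendrianKnot Λ₀ τ₀ ∧ IsLegendrianKnot Λ₁ τ₁ ∧ IsCobordism L Λ₀ τ₀ Λ₁ τ₁ T f φ ∧
    HasPositiveGenus L ∧ ∃ H : ℝ → E3 → E3, IsIsotopy Λ₁ τ₁ Λ₀ τ₀ H T := by
  obtain ⟨M, hM, hb⟩ := exists_bounds
  set S : ℝ := 80 * M ^ 6 + 2 with hSd
  set B : ℝ := 16 * M + 13 with hBd
  have h : Bds M S := ⟨hM, hb, by rw [hSd]; linarith⟩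
  have hB : 13 ≤ B := by rw [hBd]; linarith
  have hB2 : 16 * M < B := by rw [hBd]; linarith
  have hS := h.S_pos
  have hS2 : 2 ≤ S := by
    have : 0 ≤ M ^ 6 := by positivity
    rw [hSd]; linarith
  refine ⟨Lm B S, Lp B S, tau (mdl B S).φ (-S - 1), tau (mdl B S).φ (S + 1), (mdl B S).L, S,
    (mdl B S).f, (mdl B S).φ, Lm_knot hB h, Lp_knot hB h, L_cob hB h, L_genus hB h, Hm B, ?_⟩
  exact
    { smooth := fun s q hq => Hm_smooth hB hS s hq
      injective := fun s => Hm_inj hB h hB2 s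
      immersion := fun s q hq => Hm_imm hB h hB2 s hq _ rfl
      top := fun s hs q hq => by
        have e2 : s2 s = 0 := th_zero (by linarith)
        have e1 : s1 s = 0 := th_zero (by linarith)
        rcases kinds hB hS hq with k | k | k
        · rw [Hm_kind0 hB k.2, e2]
          unfold Xs Ys Zs
          simp
        · exact Hm_kind1 hB k.2
        · rw [Hm_kind2 hB k.1 k.2.1 k.2.2.1 k.2.2.2]
          unfold Psi
          rw [e1]
          simp
      bot := fun s hs => Hm_image hB h hB2 (by linarith)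
      orient := fun s hs q hq => Hm_orient hB h hB2 (by linarith) hq }

end Pool.Agent.K1H61.LC
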