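import Pool.Agent.K1H61.LC.Conc

/-!
# The zigzag curve
-/

set_option autoImplicit false

open scoped ContDiff Topology
open Filter Set

namespace Pool.Agent.K1H61.LC

/-! ### further facts on the profiles -/

lemma th_strict {x y : ℝ} (hx : 0 ≤ x) (hx1 : x < 1) (hxy : x < y) : th x < th y := by
  have hmono : StrictMonoOn th (Icc 0 1) := by
    apply strictMonoOn_of_deriv_pos (convex_Icc 0 1) th_smooth.continuous.continuousOn
    intro v hv
    rw [interior_Icc] at hv
    exact deriv_th_pos hv.1 hv.2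
  rcases le_or_gt y 1 with h | h
  · exact hmono ⟨hx, hx1.le⟩ ⟨by linarith, h⟩ hxy
  · rw [th_one h.le]; exact th_lt_one hx1

lemma th_half : th (1 / 2) = 1 / 2 := by
  unfold th Real.smoothTransition
  have h : (1 - 1 / 2 : ℝ) = 1 / 2 := by norm_num
  rw [h]
  have := expNegInvGlue.pos_of_pos (show (0 : ℝ) < 1 / 2 by norm_num)
  field_simp
  norm_num

lemma deriv_th_ge {x : ℝ} (h : 1 ≤ x) : deriv th x = 0 := by
  rcases eq_or_lt_of_le h with h | h
  · -- th attains its maximum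
    rw [← h]
    have : IsLocalMax th 1 := by
      refine Eventually.of_forall fun y => ?_
      rw [th_one (le_refl 1)]; exact th_le_one y
    exact this.deriv_eq_zero
  · exact deriv_th_zero_right h

lemma deriv_Fn_ge {v : ℝ} (h : 1 ≤ v) : deriv Fn v = 1 := by
  rw [deriv_Fn_of_pos (by linarith), Th_one (by rw [abs_of_pos (by linarith)]; exact h)]
  rcases eq_or_lt_of_le h with h1 | h1
  · rw [← h1]; norm_num
  · rw [deriv_th_zero_right (by nlinarith)]; ring

lemma deriv_Fn_le {v : ℝ} (h : v ≤ -1) : deriv Fn v = -1 := by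
  have h1 := deriv_Fn_odd (-v)
  rw [neg_neg, deriv_Fn_ge (show 1 ≤ -v by linarith)] at h1
  exact h1

lemma Fn_ge {v : ℝ} (h : 1 ≤ v) : Fn v = v := by
  rw [Fn_of_large (by rw [abs_of_pos (by linarith)]; exact h), abs_of_pos (by linarith)]

lemma Fn_le {v : ℝ} (h : v ≤ -1) : Fn v = -v := by
  rw [Fn_of_large (by rw [abs_of_neg (by linarith)]; linarith), abs_of_neg (by linarith)]

/-- square root of `Rn (Fn v)` with the sign of `v` -/
noncomputable def gn (v : ℝ) : ℝ := if 0 ≤ v then √(Rn (Fn v)) else -√(Rn (Fn v))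

lemma gn_of_nonneg {v : ℝ} (h : 0 ≤ v) : gn v = √(Rn (Fn v)) := if_pos h
lemma gn_of_neg {v : ℝ} (h : v < 0) : gn v = -√(Rn (Fn v)) := if_neg (not_le.2 h)

lemma Rn_Fn_nonneg (v : ℝ) : 0 ≤ Rn (Fn v) := Rn_nonneg_iff.2 (Fn_nonneg v)

lemma gn_sq (v : ℝ) : gn v ^ 2 = Rn (Fn v) := by
  rcases le_or_gt 0 v with h | h
  · rw [gn_of_nonneg h, Real.sq_sqrt (Rn_Fn_nonneg v)]
  · rw [gn_of_neg h, neg_sq, Real.sq_sqrt (Rn_Fn_nonneg v)]

lemma gn_zero : gn 0 = 0 := by rw [gn_of_nonneg (le_refl 0), Fn_zero, Rn_zero, Real.sqrt_zero]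

lemma gn_odd (v : ℝ) : gn (-v) = - gn v := by
  rcases lt_trichotomy v 0 with h | h | h
  · rw [gn_of_neg h, gn_of_nonneg (by linarith), Fn_even, neg_neg]
  · subst h; simp [gn_zero]
  · rw [gn_of_neg (by linarith), gn_of_nonneg h.le, Fn_even]

lemma gn_pos {v : ℝ} (h : 0 < v) : 0 < gn v := by
  rw [gn_of_nonneg h.le]; exact Real.sqrt_pos.2 (Rn_pos (Fn_pos h.ne'))

lemma gn_neg {v : ℝ} (h : v < 0) : gn v < 0 := by
  have := gn_pos (v := -v) (by linarith)
  rw [gn_odd] at this; linarith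

lemma gn_ge {v : ℝ} (h : 1 ≤ v) : gn v = 1 := by
  rw [gn_of_nonneg (by linarith), Rn_of_large (by rw [Fn_ge h]; exact h), Real.sqrt_one]

lemma gn_le {v : ℝ} (h : v ≤ -1) : gn v = -1 := by
  have := gn_ge (v := -v) (by linarith)
  rw [gn_odd] at this; linarith

lemma gn_small {v : ℝ} (h : |v| ≤ 1 / 2) : gn v = v := by
  have h1 : Fn v = v ^ 2 := Fn_of_small h
  have h2 : v ^ 2 ≤ 1 / 4 := by
    rw [← sq_abs]; nlinarith [abs_nonneg v]
  rcases le_or_gt 0 v with h3 | h3
  · rw [gn_of_nonneg h3, h1, Rn_of_small (by linarith), Real.sqrt_sq h3]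
  · rw [gn_of_neg h3, h1, Rn_of_small (by linarith), Real.sqrt_sq_eq_abs, abs_of_neg h3, neg_neg]

lemma gn_smooth : ContDiff ℝ ∞ gn := by
  rw [contDiff_iff_contDiffAt]
  intro v
  have hR : ContDiff ℝ ∞ (fun v => Rn (Fn v)) := Rn_smooth.comp Fn_smooth
  rcases lt_trichotomy v 0 with h | h | h
  · have h1 : gn =ᶠ[𝓝 v] fun v => -√(Rn (Fn v)) := by
      filter_upwards [gt_mem_nhds h] with w hw using gn_of_neg hw
    refine ContDiffAt.congr_of_eventuallyEq ?_ h1
    exact (hR.contDiffAt.sqrt (Rn_pos (Fn_pos h.ne)).ne').neg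
  · subst h
    have h1 : gn =ᶠ[𝓝 0] fun v => v := by
      filter_upwards [Metric.ball_mem_nhds (0 : ℝ) (show (0 : ℝ) < 1 / 2 by norm_num)] with v hv
      apply gn_small
      simpa using (Metric.mem_ball.1 hv).le
    exact ContDiffAt.congr_of_eventuallyEq contDiffAt_id h1
  · have h1 : gn =ᶠ[𝓝 v] fun v => √(Rn (Fn v)) := by
      filter_upwards [lt_mem_nhds h] with w hw using gn_of_nonneg hw.le
    refine ContDiffAt.congr_of_eventuallyEq ?_ h1
    exact hR.contDiffAt.sqrt (Rn_pos (Fn_pos h.ne')).ne'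

lemma gn_strict {v w : ℝ} (hv : -1 < w) (hv1 : v < 1) (hvw : v < w) : gn v < gn w := by
  -- strictly monotone on [0, 1]
  have key : ∀ a b : ℝ, 0 ≤ a → a < b → a < 1 → gn a < gn b := by
    intro a b ha hab ha1
    rw [gn_of_nonneg ha, gn_of_nonneg (by linarith)]
    apply Real.sqrt_lt_sqrt (Rn_Fn_nonneg a)
    have h1 : Fn a < Fn b := Fn_strictMonoOn (mem_Ici.2 ha) (mem_Ici.2 (by linarith)) hab
    have h2 : Fn a < 1 := by
      rw [← Fn_one]; exact Fn_strictMonoOn (mem_Ici.2 ha) (by simp) ha1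
    rcases le_or_gt (Fn b) 1 with h3 | h3
    · exact Rn_strictMonoOn (mem_Iic.2 h2.le) (mem_Iic.2 h3) h1
    · rw [Rn_of_large h3.le]
      rw [← Rn_of_large (le_refl 1)]
      exact Rn_strictMonoOn (mem_Iic.2 h2.le) (by simp) h2
  rcases le_or_gt 0 v with h | h
  · exact key v w h hvw hv1
  · rcases le_or_gt w 0 with h' | h'
    · have := key (-w) (-v) (by linarith) (by linarith) (by linarith)
      rw [gn_odd, gn_odd] at this; linarith
    · linarith [gn_neg h, gn_pos h']

lemma gn_mono : Monotone gn := by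
  intro v w hvw
  rcases eq_or_lt_of_le hvw with h | h
  · rw [h]
  · rcases le_or_gt w (-1) with h1 | h1
    · rw [gn_le h1, gn_le (by linarith)]
    · rcases le_or_gt 1 v with h2 | h2
      · rw [gn_ge h2, gn_ge (by linarith)]
      · exact (gn_strict h1 h2 h).le

lemma gn_bd (v : ℝ) : -1 ≤ gn v ∧ gn v ≤ 1 := by
  constructor
  · rw [← gn_le (show min v (-1) ≤ -1 from min_le_right _ _)]; exact gn_mono (min_le_left _ _)
  · rw [← gn_ge (show 1 ≤ max v 1 from le_max_right _ _)]; exact gn_mono (le_max_left _ _)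

/-- the `y`-coordinate of the model cusp -/
noncomputable def Ps (v : ℝ) : ℝ := 3 / 2 * gn v * deriv Rn (Fn v)

lemma Ps_smooth : ContDiff ℝ ∞ Ps := by
  unfold Ps
  exact (contDiff_const.mul gn_smooth).mul ((deriv_smooth Rn_smooth).comp Fn_smooth)

lemma Ps_odd (v : ℝ) : Ps (-v) = - Ps v := by unfold Ps; rw [gn_odd, Fn_even]; ring

lemma Ps_large {v : ℝ} (h : 1 ≤ |v|) : Ps v = 0 := by
  unfold Ps
  rw [deriv_Rn_ge (one_le_Fn h), mul_zero]

lemma deriv_Ps_zero : deriv Ps 0 = 3 / 2 := by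
  have : Ps =ᶠ[𝓝 0] fun v => 3 / 2 * v := by
    filter_upwards [Metric.ball_mem_nhds (0 : ℝ) (show (0 : ℝ) < 1 / 2 by norm_num)] with v hv
    have hv' : |v| < 1 / 2 := by simpa using (Metric.mem_ball.1 hv)
    unfold Ps
    rw [gn_small hv'.le, deriv_Rn_small, mul_one]
    rw [Fn_of_small hv'.le, ← sq_abs]
    nlinarith [abs_nonneg v]
  rw [this.deriv_eq]
  simp

lemma deriv_Ps_large {v : ℝ} (h : 1 < |v|) : deriv Ps v = 0 := by
  have : Ps =ᶠ[𝓝 v] fun _ => 0 := by
    have : {w : ℝ | 1 < |w|} ∈ 𝓝 v := (isOpen_lt continuous_const continuous_abs).mem_nhds h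
    filter_upwards [this] with w hw using Ps_large (le_of_lt hw)
  rw [this.deriv_eq]; simp

/-! ### the zigzag -/

/-- `x`-coordinate of the zigzag -/
noncomputable def xi (w : ℝ) : ℝ := w + Fn (w - 10) - Fn (w - 6) + Fn (w + 6) - Fn (w + 10)
/-- `y`-coordinate of the zigzag -/
noncomputable def yo (w : ℝ) : ℝ := Ps (w - 10) - Ps (w - 6) + Ps (w + 10) - Ps (w + 6)
/-- `z`-coordinate of the zigzag -/
noncomputable def zo (w : ℝ) : ℝ := gn (w - 6) ^ 3 + gn (w - 10) ^ 3 - gn (w + 6) ^ 3 - gn (w + 10) ^ 3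

lemma xi_smooth : ContDiff ℝ ∞ xi := by
  unfold xi
  have := Fn_smooth
  exact (((contDiff_id.add (Fn_smooth.comp (by fun_prop))).sub (Fn_smooth.comp (by fun_prop))).add
    (Fn_smooth.comp (by fun_prop))).sub (Fn_smooth.comp (by fun_prop))

lemma yo_smooth : ContDiff ℝ ∞ yo := by
  unfold yo
  exact (((Ps_smooth.comp (by fun_prop)).sub (Ps_smooth.comp (by fun_prop))).add
    (Ps_smooth.comp (by fun_prop))).sub (Ps_smooth.comp (by fun_prop))

lemma zo_smooth : ContDiff ℝ ∞ zo := by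
  unfold zo
  exact ((((gn_smooth.comp (by fun_prop)).pow 3).add ((gn_smooth.comp (by fun_prop)).pow 3)).sub
    ((gn_smooth.comp (by fun_prop)).pow 3)).sub ((gn_smooth.comp (by fun_prop)).pow 3)

lemma xi_odd (w : ℝ) : xi (-w) = - xi w := by
  unfold xi
  rw [show -w - 10 = -(w + 10) by ring, show -w - 6 = -(w + 6) by ring,
    show -w + 6 = -(w - 6) by ring, show -w + 10 = -(w - 10) by ring, Fn_even, Fn_even, Fn_even,
    Fn_even]
  ring

lemma yo_odd (w : ℝ) : yo (-w) = - yo w := by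
  unfold yo
  rw [show -w - 10 = -(w + 10) by ring, show -w - 6 = -(w + 6) by ring,
    show -w + 6 = -(w - 6) by ring, show -w + 10 = -(w - 10) by ring, Ps_odd, Ps_odd, Ps_odd,
    Ps_odd]
  ring

lemma zo_even (w : ℝ) : zo (-w) = zo w := by
  unfold zo
  rw [show -w - 10 = -(w + 10) by ring, show -w - 6 = -(w + 6) by ring,
    show -w + 6 = -(w - 6) by ring, show -w + 10 = -(w - 10) by ring, gn_odd, gn_odd, gn_odd,
    gn_odd]
  ring

lemma xi_left {w : ℝ} (h0 : -5 ≤ w) (h : w ≤ 9) : xi w = 6 - Fn (w - 6) := by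
  unfold xi
  rw [Fn_le (show w - 10 ≤ -1 by linarith), Fn_ge (show 1 ≤ w + 6 by linarith),
    Fn_ge (show 1 ≤ w + 10 by linarith)]
  ring

lemma xi_right {w : ℝ} (h : 7 ≤ w) : xi w = 2 + Fn (w - 10) := by
  unfold xi
  rw [Fn_ge (show 1 ≤ w - 6 by linarith), Fn_ge (show 1 ≤ w + 6 by linarith),
    Fn_ge (show 1 ≤ w + 10 by linarith)]
  ring

lemma xi_zero : xi 0 = 0 := by
  rw [xi_left (by norm_num) (by norm_num), Fn_le (by norm_num)]; norm_num

lemma xi_pos {w : ℝ} (h : 0 < w) : 0 < xi w := by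
  rcases le_or_gt w 9 with h1 | h1
  · rw [xi_left (by linarith) h1]
    have : Fn (w - 6) < Fn 6 := (Fn_lt_iff (by norm_num)).2 (by rw [abs_lt]; constructor <;> linarith)
    rw [Fn_ge (v := 6) (by norm_num)] at this
    linarith
  · rw [xi_right (by linarith)]
    linarith [Fn_nonneg (w - 10)]

lemma xi_bd {w : ℝ} (h0 : 0 ≤ w) (h : w ≤ 11) : 0 ≤ xi w ∧ xi w ≤ 6 := by
  refine ⟨?_, ?_⟩
  · rcases eq_or_lt_of_le h0 with h1 | h1
    · rw [← h1, xi_zero]
    · exact (xi_pos h1).le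
  · rcases le_or_gt w 9 with h1 | h1
    · rw [xi_left (by linarith) h1]; linarith [Fn_nonneg (w - 6)]
    · rw [xi_right (by linarith)]
      have : Fn (w - 10) ≤ 1 := Fn_le_one (by rw [abs_le]; constructor <;> linarith)
      linarith

lemma xi_far {w : ℝ} (h : 11 ≤ w) : xi w = w - 8 := by
  rw [xi_right (by linarith), Fn_ge (by linarith)]; ring

lemma yo_pos {w : ℝ} (h : 0 ≤ w) : yo w = Ps (w - 10) - Ps (w - 6) := by
  unfold yo
  rw [Ps_large (v := w + 10) (by rw [abs_of_pos (by linarith)]; linarith),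
    Ps_large (v := w + 6) (by rw [abs_of_pos (by linarith)]; linarith)]
  ring

lemma zo_pos {w : ℝ} (h : 0 ≤ w) : zo w = gn (w - 6) ^ 3 + gn (w - 10) ^ 3 - 2 := by
  unfold zo
  rw [gn_ge (v := w + 6) (by linarith), gn_ge (v := w + 10) (by linarith)]
  ring

lemma yo_far {w : ℝ} (h : 11 ≤ w) : yo w = 0 := by
  rw [yo_pos (by linarith), Ps_large (by rw [abs_of_pos (by linarith)]; linarith),
    Ps_large (by rw [abs_of_pos (by linarith)]; linarith)]
  ring

lemma zo_far {w : ℝ} (h : 11 ≤ w) : zo w = 0 := by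
  rw [zo_pos (by linarith), gn_ge (by linarith), gn_ge (by linarith)]; norm_num

lemma cube_mono : Monotone (fun x : ℝ => x ^ 3) := (Odd.strictMono_pow (by decide)).monotone

lemma zo_mono {w w' : ℝ} (h : 0 ≤ w) (hw : w ≤ w') : zo w ≤ zo w' := by
  rw [zo_pos h, zo_pos (by linarith)]
  have h1 := cube_mono (gn_mono (show w - 6 ≤ w' - 6 by linarith))
  have h2 := cube_mono (gn_mono (show w - 10 ≤ w' - 10 by linarith))
  simp only at h1 h2
  linarith

lemma zo_ge (w : ℝ) : -4 ≤ zo w := by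
  unfold zo
  have c1 := cube_mono (gn_bd (w - 6)).1
  have c2 := cube_mono (gn_bd (w - 10)).1
  have c3 := cube_mono (gn_bd (w + 6)).2
  have c4 := cube_mono (gn_bd (w + 10)).2
  simp only at c1 c2 c3 c4
  linarith

lemma zo_le {w : ℝ} (h : 0 ≤ w) : zo w ≤ 0 := by
  have := zo_mono h (le_max_left w 11)
  rwa [zo_far (le_max_right w 11)] at this

lemma gn_eq {v w : ℝ} (h : gn v = gn w) (hvw : v < w) : w ≤ -1 ∨ 1 ≤ v := by
  by_contra hc
  rw [not_or, not_le, not_le] at hc
  exact (gn_strict hc.1 hc.2 hvw).ne h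

/-- the zigzag is injective on positive parameters -/
lemma zig_inj {w w' : ℝ} (h : 0 < w) (hw : w < w') (hx : xi w = xi w') (hz : zo w = zo w') :
    False := by
  rw [zo_pos h.le, zo_pos (by linarith)] at hz
  have m1 := cube_mono (gn_mono (show w - 6 ≤ w' - 6 by linarith))
  have m2 := cube_mono (gn_mono (show w - 10 ≤ w' - 10 by linarith))
  simp only at m1 m2
  have sm : StrictMono (fun x : ℝ => x ^ 3) := Odd.strictMono_pow (by decide)
  have e1 : gn (w - 6) = gn (w' - 6) := sm.injective (show gn (w - 6) ^ 3 = gn (w' - 6) ^ 3 by linarith)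
  have e2 : gn (w - 10) = gn (w' - 10) :=
    sm.injective (show gn (w - 10) ^ 3 = gn (w' - 10) ^ 3 by linarith)
  rcases gn_eq e1 (by linarith) with h1 | h1
  · rw [xi_left (by linarith) (by linarith), xi_left (by linarith) (by linarith),
      Fn_le (by linarith), Fn_le (by linarith)] at hx
    linarith
  · rcases gn_eq e2 (by linarith) with h2 | h2
    · rw [xi_right (by linarith), xi_right (by linarith), Fn_le (by linarith),
        Fn_le (by linarith)] at hx
      linarith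
    · rw [xi_far (by linarith), xi_far (by linarith)] at hx
      linarith

/-! ### derivatives -/

lemma shift_hasDerivAt {f : ℝ → ℝ} (hf : ContDiff ℝ ∞ f) (a w : ℝ) :
    HasDerivAt (fun w => f (w + a)) (deriv f (w + a)) w := by
  have h1 : HasDerivAt (fun w : ℝ => w + a) 1 w := (hasDerivAt_id w).add_const a
  exact ((smooth_hasDerivAt hf (w + a)).comp w h1).congr_deriv (by ring)

lemma shift_hasDerivAt' {f : ℝ → ℝ} (hf : ContDiff ℝ ∞ f) (a w : ℝ) :
    HasDerivAt (fun w => f (w - a)) (deriv f (w - a)) w := by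
  have h1 : HasDerivAt (fun w : ℝ => w - a) 1 w := (hasDerivAt_id w).sub_const a
  exact ((smooth_hasDerivAt hf (w - a)).comp w h1).congr_deriv (by ring)

lemma deriv_xi (w : ℝ) : deriv xi w =
    1 + deriv Fn (w - 10) - deriv Fn (w - 6) + deriv Fn (w + 6) - deriv Fn (w + 10) := by
  have h := ((((hasDerivAt_id w).add (shift_hasDerivAt' Fn_smooth 10 w)).sub
    (shift_hasDerivAt' Fn_smooth 6 w)).add (shift_hasDerivAt Fn_smooth 6 w)).sub
    (shift_hasDerivAt Fn_smooth 10 w)
  have h2 : HasDerivAt xi _ w := h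
  rw [h2.deriv]

lemma deriv_yo (w : ℝ) : deriv yo w =
    deriv Ps (w - 10) - deriv Ps (w - 6) + deriv Ps (w + 10) - deriv Ps (w + 6) := by
  have h := (((shift_hasDerivAt' Ps_smooth 10 w).sub
    (shift_hasDerivAt' Ps_smooth 6 w)).add (shift_hasDerivAt Ps_smooth 10 w)).sub
    (shift_hasDerivAt Ps_smooth 6 w)
  have h2 : HasDerivAt yo _ w := h
  rw [h2.deriv]

/-- the zigzag is regular -/
lemma zig_reg {w : ℝ} (h : 0 ≤ w) : deriv xi w ≠ 0 ∨ deriv yo w ≠ 0 := by
  by_contra hc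
  rw [not_or, not_not, not_not] at hc
  obtain ⟨h1, h2⟩ := hc
  rw [deriv_xi, deriv_Fn_ge (show 1 ≤ w + 6 by linarith),
    deriv_Fn_ge (show 1 ≤ w + 10 by linarith)] at h1
  rw [deriv_yo, deriv_Ps_large (v := w + 10) (by rw [abs_of_pos (by linarith)]; linarith),
    deriv_Ps_large (v := w + 6) (by rw [abs_of_pos (by linarith)]; linarith)] at h2
  rcases le_or_gt w 8 with h3 | h3
  · rw [deriv_Fn_le (show w - 10 ≤ -1 by linarith)] at h1
    have h4 : deriv Fn (w - 6) = 0 := by linarith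
    have h5 : w - 6 = 0 := by
      by_contra h6
      exact deriv_Fn_ne h6 h4
    rw [h5, deriv_Ps_zero, deriv_Ps_large (v := w - 10) (by rw [abs_of_neg (by linarith)]; linarith)] at h2
    norm_num at h2
  · rw [deriv_Fn_ge (show 1 ≤ w - 6 by linarith)] at h1
    have h4 : deriv Fn (w - 10) = 0 := by linarith
    have h5 : w - 10 = 0 := by
      by_contra h6
      exact deriv_Fn_ne h6 h4
    rw [h5, deriv_Ps_zero, deriv_Ps_large (v := w - 6) (by rw [abs_of_pos (by linarith)]; linarith)] at h2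
    norm_num at h2

/-! ### the reparametrisation and the family of curves -/

/-- reparametrisation -/
noncomputable def sg (u : ℝ) : ℝ := u + 8 * (2 * th ((u + 3) / 6) - 1)

lemma sg_smooth : ContDiff ℝ ∞ sg := by
  unfold sg
  exact contDiff_id.add (contDiff_const.mul ((contDiff_const.mul
    (th_smooth.comp (by fun_prop))).sub contDiff_const))

lemma sg_hasDerivAt (u : ℝ) : HasDerivAt sg (1 + 8 / 3 * deriv th ((u + 3) / 6)) u := by
  have h1 : HasDerivAt (fun u : ℝ => (u + 3) / 6) (1 / 6) u :=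
    ((hasDerivAt_id u).add_const 3).div_const 6
  have h2 := ((smooth_hasDerivAt th_smooth ((u + 3) / 6)).comp u h1).const_mul 2
  have h3 := (h2.sub_const 1).const_mul 8
  have h4 := (hasDerivAt_id u).add h3
  exact h4.congr_deriv (by ring)

lemma sg_strict : StrictMono sg := by
  apply strictMono_of_deriv_pos
  intro u
  rw [(sg_hasDerivAt u).deriv]
  have := deriv_th_nonneg ((u + 3) / 6)
  linarith

lemma th_symm (x : ℝ) : th (1 - x) = 1 - th x := by
  unfold th Real.smoothTransition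
  have h1 := Real.smoothTransition.pos_denom x
  have h2 := Real.smoothTransition.pos_denom (1 - x)
  rw [sub_sub_cancel] at h2 ⊢
  have h3 : expNegInvGlue (1 - x) + expNegInvGlue x ≠ 0 := h2.ne'
  have h4 : expNegInvGlue x + expNegInvGlue (1 - x) ≠ 0 := h1.ne'
  field_simp
  ring

lemma sg_odd (u : ℝ) : sg (-u) = - sg u := by
  unfold sg
  rw [show (-u + 3) / 6 = 1 - (u + 3) / 6 by ring, th_symm]
  ring

lemma sg_zero : sg 0 = 0 := by
  have := sg_odd 0
  rw [neg_zero] at this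
  linarith

lemma sg_pos {u : ℝ} (h : 0 < u) : 0 < sg u := by
  have := sg_strict h
  rwa [sg_zero] at this

lemma sg_nonneg {u : ℝ} (h : 0 ≤ u) : 0 ≤ sg u := by
  have := sg_strict.monotone h
  rwa [sg_zero] at this

lemma sg_right {u : ℝ} (h : 3 ≤ u) : sg u = u + 8 := by
  unfold sg; rw [th_one (by linarith)]; ring

lemma sg_three : sg 3 = 11 := by rw [sg_right (le_refl 3)]; norm_num

/-- auxiliary push -/
noncomputable def Wn (u : ℝ) : ℝ := -(1 - th (u ^ 2 / 9))

lemma Wn_smooth : ContDiff ℝ ∞ Wn := by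
  unfold Wn
  exact (contDiff_const.sub (th_smooth.comp (by fun_prop))).neg

lemma Wn_even (u : ℝ) : Wn (-u) = Wn u := by unfold Wn; rw [neg_sq]

lemma Wn_far {u : ℝ} (h : 3 ≤ u) : Wn u = 0 := by
  unfold Wn; rw [th_one (by rw [le_div_iff₀ (by norm_num)]; nlinarith)]; ring

lemma Wn_bd (u : ℝ) : -1 ≤ Wn u ∧ Wn u ≤ 0 := by
  have h1 := th_nonneg (u ^ 2 / 9)
  have h2 := th_le_one (u ^ 2 / 9)
  unfold Wn
  constructor <;> linarith

lemma Wn_strict {u u' : ℝ} (h : 0 ≤ u) (h3 : u < 3) (hu : u < u') : Wn u < Wn u' := by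
  unfold Wn
  have := th_strict (x := u ^ 2 / 9) (y := u' ^ 2 / 9) (by positivity)
    (by rw [div_lt_one (by norm_num)]; nlinarith) (by gcongr)
  linarith

lemma Wn_hasDerivAt (u : ℝ) : HasDerivAt Wn (2 / 9 * u * deriv th (u ^ 2 / 9)) u := by
  have h1 : HasDerivAt (fun u : ℝ => u ^ 2 / 9) (2 * u / 9) u := by
    simpa using (hasDerivAt_pow 2 u).div_const 9
  have h2 := (smooth_hasDerivAt th_smooth (u ^ 2 / 9)).comp u h1
  exact ((h2.const_sub 1).neg).congr_deriv (by ring)

/-- `x`-coordinate of the family -/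
noncomputable def Xs (σ u : ℝ) : ℝ := (1 - σ) * u + σ * xi (sg u)
/-- `y`-coordinate of the family -/
noncomputable def Ys (σ u : ℝ) : ℝ := σ * yo (sg u)
/-- `z`-coordinate of the family -/
noncomputable def Zs (σ u : ℝ) : ℝ := σ * zo (sg u) + σ * (1 - σ) * Wn u

lemma Xs_odd (σ u : ℝ) : Xs σ (-u) = - Xs σ u := by unfold Xs; rw [sg_odd, xi_odd]; ring
lemma Ys_odd (σ u : ℝ) : Ys σ (-u) = - Ys σ u := by unfold Ys; rw [sg_odd, yo_odd]; ring
lemma Zs_even (σ u : ℝ) : Zs σ (-u) = Zs σ u := by unfold Zs; rw [sg_odd, zo_even, Wn_even]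

lemma Xs_far {u : ℝ} (σ : ℝ) (h : 3 ≤ |u|) : Xs σ u = u := by
  rcases le_abs.1 h with h | h
  · unfold Xs; rw [sg_right h, xi_far (by linarith)]; ring
  · have : Xs σ (-(-u)) = -Xs σ (-u) := Xs_odd σ (-u)
    rw [neg_neg] at this
    rw [this]
    unfold Xs; rw [sg_right h, xi_far (by linarith)]; ring

lemma Ys_far {u : ℝ} (σ : ℝ) (h : 3 ≤ |u|) : Ys σ u = 0 := by
  rcases le_abs.1 h with h | h
  · unfold Ys; rw [sg_right h, yo_far (by linarith)]; ring
  · have : Ys σ (-(-u)) = -Ys σ (-u) := Ys_odd σ (-u)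
    rw [neg_neg] at this
    rw [this]
    unfold Ys; rw [sg_right h, yo_far (by linarith)]; ring

lemma Zs_far {u : ℝ} (σ : ℝ) (h : 3 ≤ |u|) : Zs σ u = 0 := by
  rcases le_abs.1 h with h | h
  · unfold Zs; rw [sg_right h, zo_far (by linarith), Wn_far h]; ring
  · have : Zs σ (-(-u)) = Zs σ (-u) := Zs_even σ (-u)
    rw [neg_neg] at this
    rw [this]
    unfold Zs; rw [sg_right h, zo_far (by linarith), Wn_far h]; ring

lemma Xs_zero (σ : ℝ) : Xs σ 0 = 0 := by unfold Xs; rw [sg_zero, xi_zero]; ring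

lemma Xs_pos {σ u : ℝ} (h0 : 0 ≤ σ) (h1 : σ ≤ 1) (hu : 0 < u) : 0 < Xs σ u := by
  unfold Xs
  have h2 := xi_pos (sg_pos hu)
  rcases eq_or_lt_of_le h0 with h | h
  · rw [← h]; simpa using hu
  · have : 0 ≤ (1 - σ) * u := by apply mul_nonneg <;> linarith
    have := mul_pos h h2
    linarith

lemma Xs_bd {σ u : ℝ} (h0 : 0 ≤ σ) (h1 : σ ≤ 1) (hu : |u| < 3) : |Xs σ u| ≤ 6 := by
  have key : ∀ u, 0 ≤ u → u < 3 → |Xs σ u| ≤ 6 := by
    intro u hu0 hu
    have h2 : sg u ≤ 11 := by rw [← sg_three]; exact sg_strict.monotone hu.le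
    have h3 := xi_bd (sg_nonneg hu0) h2
    have h4 : 0 ≤ (1 - σ) * u := by apply mul_nonneg <;> linarith
    have h5 : 0 ≤ σ * xi (sg u) := mul_nonneg h0 h3.1
    have h6 : σ * xi (sg u) ≤ σ * 6 := mul_le_mul_of_nonneg_left h3.2 h0
    have h7 : (1 - σ) * u ≤ (1 - σ) * 6 := mul_le_mul_of_nonneg_left (by linarith) (by linarith)
    unfold Xs
    rw [abs_of_nonneg (by linarith)]
    linarith
  rcases le_total 0 u with h | h
  · exact key u h (by rwa [abs_of_nonneg h] at hu)
  · have := key (-u) (by linarith) (by rw [abs_of_nonpos h] at hu; exact hu)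
    rwa [Xs_odd, abs_neg] at this

lemma Zs_ge {σ : ℝ} (u : ℝ) (h0 : 0 ≤ σ) (h1 : σ ≤ 1) : -5 ≤ Zs σ u := by
  unfold Zs
  have h2 := zo_ge (sg u)
  have h3 := (Wn_bd u).1
  have h4 : 0 ≤ σ * (1 - σ) := by apply mul_nonneg <;> linarith
  have h5 : σ * (1 - σ) ≤ 1 := by nlinarith
  nlinarith

/-- the curves of the family are injective -/
lemma fam_inj {σ u u' : ℝ} (h0 : 0 ≤ σ) (h1 : σ ≤ 1) (hX : Xs σ u = Xs σ u')
    (hZ : Zs σ u = Zs σ u') : u = u' := by
  have key : ∀ u u', 0 < u → u < u' → Xs σ u = Xs σ u' → Zs σ u = Zs σ u' → False := by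
    intro u u' hu huu hX hZ
    rcases eq_or_lt_of_le h0 with h | h
    · rw [← h] at hX; unfold Xs at hX; linarith
    · rcases eq_or_lt_of_le h1 with h' | h'
      · subst h'
        unfold Xs at hX
        unfold Zs at hZ
        exact zig_inj (sg_pos hu) (sg_strict huu) (by linarith) (by linarith)
      · rcases lt_or_ge u 3 with h3 | h3
        · have e1 := zo_mono (sg_nonneg hu.le) (sg_strict huu).le
          have e2 := Wn_strict hu.le h3 huu
          unfold Zs at hZ
          have e3 := mul_le_mul_of_nonneg_left e1 h.le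
          have e4 := mul_lt_mul_of_pos_left e2 (mul_pos h (sub_pos.2 h'))
          linarith
        · rw [Xs_far σ (by rw [abs_of_pos (by linarith)]; exact h3),
            Xs_far σ (by rw [abs_of_pos (by linarith)]; linarith)] at hX
          linarith
  have key2 : ∀ u u', 0 < u → 0 < u' → Xs σ u = Xs σ u' → Zs σ u = Zs σ u' → u = u' := by
    intro u u' hu hu' hX hZ
    rcases lt_trichotomy u u' with h | h | h
    · exact (key u u' hu h hX hZ).elim
    · exact h
    · exact (key u' u hu' h hX.symm hZ.symm).elim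
  have neg : ∀ u, u < 0 → Xs σ u < 0 := by
    intro u hu
    have := Xs_pos h0 h1 (u := -u) (by linarith)
    rw [Xs_odd] at this; linarith
  rcases lt_trichotomy u 0 with h | h | h
  · rcases lt_trichotomy u' 0 with h' | h' | h'
    · have := key2 (-u) (-u') (by linarith) (by linarith) (by rw [Xs_odd, Xs_odd, hX])
        (by rw [Zs_even, Zs_even, hZ])
      linarith
    · rw [h', Xs_zero] at hX; linarith [neg u h]
    · linarith [neg u h, Xs_pos h0 h1 h']
  · rcases lt_trichotomy u' 0 with h' | h' | h'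
    · rw [h, Xs_zero] at hX; linarith [neg u' h']
    · rw [h, h']
    · rw [h, Xs_zero] at hX; linarith [Xs_pos h0 h1 h']
  · rcases lt_trichotomy u' 0 with h' | h' | h'
    · linarith [neg u' h', Xs_pos h0 h1 h]
    · rw [h', Xs_zero] at hX; linarith [Xs_pos h0 h1 h]
    · exact key2 u u' h h' hX hZ

lemma Xs_hasDerivAt (σ u : ℝ) : HasDerivAt (Xs σ)
    ((1 - σ) + σ * (deriv xi (sg u) * (1 + 8 / 3 * deriv th ((u + 3) / 6)))) u := by
  have h1 := (smooth_hasDerivAt xi_smooth (sg u)).comp u (sg_hasDerivAt u)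
  have h2 := ((hasDerivAt_id u).const_mul (1 - σ)).add (h1.const_mul σ)
  exact h2.congr_deriv (by ring)

lemma Ys_hasDerivAt (σ u : ℝ) : HasDerivAt (Ys σ)
    (σ * (deriv yo (sg u) * (1 + 8 / 3 * deriv th ((u + 3) / 6)))) u :=
  ((smooth_hasDerivAt yo_smooth (sg u)).comp u (sg_hasDerivAt u)).const_mul σ

lemma Zs_hasDerivAt (σ u : ℝ) : HasDerivAt (Zs σ)
    (σ * (deriv zo (sg u) * (1 + 8 / 3 * deriv th ((u + 3) / 6))) +
      σ * (1 - σ) * (2 / 9 * u * deriv th (u ^ 2 / 9))) u :=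
  (((smooth_hasDerivAt zo_smooth (sg u)).comp u (sg_hasDerivAt u)).const_mul σ).add
    ((Wn_hasDerivAt u).const_mul (σ * (1 - σ)))

lemma deriv_zo_nonneg {w : ℝ} (h : 0 < w) : 0 ≤ deriv zo w := by
  have hm : MonotoneOn zo (Ioi 0) := fun a ha b _ hab => zo_mono (le_of_lt ha) hab
  have h1 := hm.derivWithin_nonneg (x := w)
  rwa [derivWithin_of_isOpen isOpen_Ioi h] at h1

/-- the curves of the family are regular -/
lemma fam_reg {σ u : ℝ} (h0 : 0 ≤ σ) (h1 : σ ≤ 1) :
    deriv (Xs σ) u ≠ 0 ∨ deriv (Ys σ) u ≠ 0 ∨ deriv (Zs σ) u ≠ 0 := by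
  have key : ∀ u, 0 ≤ u → deriv (Xs σ) u ≠ 0 ∨ deriv (Ys σ) u ≠ 0 ∨ deriv (Zs σ) u ≠ 0 := by
    intro u hu
    rw [(Xs_hasDerivAt σ u).deriv, (Ys_hasDerivAt σ u).deriv, (Zs_hasDerivAt σ u).deriv]
    have hs : 0 < 1 + 8 / 3 * deriv th ((u + 3) / 6) := by
      have := deriv_th_nonneg ((u + 3) / 6); linarith
    rcases eq_or_lt_of_le h0 with h | h
    · left; rw [← h]; norm_num
    · rcases eq_or_lt_of_le h1 with h' | h'
      · subst h'
        rcases zig_reg (sg_nonneg hu) with h2 | h2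
        · left
          have := mul_ne_zero h2 hs.ne'
          simpa using this
        · right; left
          have := mul_ne_zero h2 hs.ne'
          simpa using this
      · rcases eq_or_lt_of_le hu with h2 | h2
        · left
          subst h2
          have hxi : deriv xi 0 = 1 := by
            rw [deriv_xi, deriv_Fn_le (by norm_num), deriv_Fn_le (by norm_num),
              deriv_Fn_ge (by norm_num), deriv_Fn_ge (by norm_num)]
            norm_num
          rw [sg_zero, hxi, one_mul]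
          have := mul_pos h hs
          exact (by linarith : 0 < 1 - σ + σ * (1 + 8 / 3 * deriv th ((0 + 3) / 6))).ne'
        · rcases lt_or_ge u 3 with h3 | h3
          · right; right
            have e1 := deriv_zo_nonneg (sg_pos h2)
            have e2 : 0 < deriv th (u ^ 2 / 9) :=
              deriv_th_pos (by positivity) (by rw [div_lt_one (by norm_num)]; nlinarith)
            have e3 : 0 ≤ σ * (deriv zo (sg u) * (1 + 8 / 3 * deriv th ((u + 3) / 6))) := by
              positivity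
            have e4 : 0 < σ * (1 - σ) * (2 / 9 * u * deriv th (u ^ 2 / 9)) := by
              have : 0 < 1 - σ := sub_pos.2 h'
              positivity
            exact (by linarith : 0 < σ * (deriv zo (sg u) * (1 + 8 / 3 * deriv th ((u + 3) / 6))) +
              σ * (1 - σ) * (2 / 9 * u * deriv th (u ^ 2 / 9))).ne'
          · left
            rw [deriv_th_ge (show 1 ≤ (u + 3) / 6 by linarith), sg_right h3, deriv_xi,
              deriv_Fn_ge (by linarith), deriv_Fn_ge (by linarith), deriv_Fn_ge (by linarith),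
              deriv_Fn_ge (by linarith)]
            norm_num
  rcases le_total 0 u with h | h
  · exact key u h
  · have hneg : HasDerivAt (fun u : ℝ => -u) (-1) u := hasDerivAt_neg u
    have eX : deriv (Xs σ) u = deriv (Xs σ) (-u) := by
      have e1 : (fun u => - Xs σ (-u)) = Xs σ := by funext v; rw [Xs_odd, neg_neg]
      have e2 := ((Xs_hasDerivAt σ (-u)).comp u hneg).neg
      have e3 : HasDerivAt (fun u => - Xs σ (-u)) _ u := e2
      rw [e1] at e3
      rw [e3.deriv, (Xs_hasDerivAt σ (-u)).deriv]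
      ring
    have eY : deriv (Ys σ) u = deriv (Ys σ) (-u) := by
      have e1 : (fun u => - Ys σ (-u)) = Ys σ := by funext v; rw [Ys_odd, neg_neg]
      have e2 := ((Ys_hasDerivAt σ (-u)).comp u hneg).neg
      have e3 : HasDerivAt (fun u => - Ys σ (-u)) _ u := e2
      rw [e1] at e3
      rw [e3.deriv, (Ys_hasDerivAt σ (-u)).deriv]
      ring
    have eZ : deriv (Zs σ) u = -deriv (Zs σ) (-u) := by
      have e1 : (fun u => Zs σ (-u)) = Zs σ := by funext v; rw [Zs_even]
      have e2 := (Zs_hasDerivAt σ (-u)).comp u hneg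
      have e3 : HasDerivAt (fun u => Zs σ (-u)) _ u := e2
      rw [e1] at e3
      rw [e3.deriv, (Zs_hasDerivAt σ (-u)).deriv]
      ring
    rw [eX, eY, eZ]
    rcases key (-u) (by linarith) with h2 | h2 | h2
    · exact Or.inl h2
    · exact Or.inr (Or.inl h2)
    · exact Or.inr (Or.inr (neg_ne_zero.2 h2))

end Pool.Agent.K1H61.LC
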