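import Pool.Agent.K1H61.LC.Ends
import Pool.Agent.K1H61.LC.Zig

/-!
# Explicit formulas for the two knots
-/

set_option autoImplicit false

open scoped ContDiff Topology
open Filter Set

namespace Pool.Agent.K1H61.LC

/-- `y`-contribution of a model block -/
noncomputable def yc (κ s : ℝ) : ℝ := 3 / 2 * κ * √(Rn s) * deriv Rn s
/-- `z`-contribution of a model block -/
noncomputable def zc (κ s : ℝ) : ℝ := κ * (Rn s * √(Rn s) - 1)

lemma yc_one {κ s : ℝ} (h : 1 ≤ s) : yc κ s = 0 := by unfold yc; rw [deriv_Rn_ge h, mul_zero]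
lemma zc_one {κ s : ℝ} (h : 1 ≤ s) : zc κ s = 0 := by
  unfold zc; rw [Rn_of_large h, Real.sqrt_one]; ring

lemma yc_Fn {v : ℝ} (h : 0 ≤ v) : yc 1 (Fn v) = Ps v := by
  unfold yc Ps; rw [gn_of_nonneg h]; ring

lemma zc_Fn {v : ℝ} (h : 0 ≤ v) : zc 1 (Fn v) = gn v ^ 3 - 1 := by
  unfold zc
  have h1 := gn_sq v
  rw [← h1, Real.sqrt_sq (by rw [gn_of_nonneg h]; exact Real.sqrt_nonneg _)]; ring

lemma zc_bd {κ s : ℝ} (hκ : 0 < κ) (hs : 0 ≤ s) :
    -κ ≤ zc κ s ∧ zc κ s ≤ 0 ∧ (zc κ s = -κ → s = 0) := by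
  have h1 : 0 ≤ Rn s := Rn_nonneg_iff.2 hs
  have h2 : Rn s ≤ 1 := Rn_le_one _
  have h3 : √(Rn s) ≤ 1 := Real.sqrt_le_one.2 h2
  have h4 := Real.sqrt_nonneg (Rn s)
  have h5 : 0 ≤ Rn s * √(Rn s) := by positivity
  have h6 : Rn s * √(Rn s) ≤ 1 := by nlinarith
  unfold zc
  refine ⟨by nlinarith, by nlinarith, fun h => ?_⟩
  have h7 : κ * (Rn s * √(Rn s)) = 0 := by linarith
  have h8 := (mul_eq_zero.1 h7).resolve_left hκ.ne'
  have h9 : Rn s = 0 := by
    rcases mul_eq_zero.1 h8 with h | h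
    · exact h
    · exact le_antisymm (Real.sqrt_eq_zero'.1 h) h1
  exact Rn_eq_zero_iff.1 h9

lemma e0_bY (κ c : ℝ) (u : ℝ × ℝ) : bY κ (fun u : ℝ × ℝ => e0 c u.2) u = yc κ (u.2 + c) := by
  unfold bY
  rw [one_dx (e0_smooth c)]
  have h2 : HasDerivAt (fun x : ℝ => x + c) 1 u.2 := (hasDerivAt_id u.2).add_const c
  have h3 := (smooth_hasDerivAt Rn_smooth (u.2 + c)).comp u.2 h2
  have h4 : HasDerivAt (e0 c) _ u.2 := h3
  show 3 / 2 * κ * √(e0 c u.2) * deriv (e0 c) u.2 = _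
  rw [h4.deriv]; unfold e0 yc; ring

lemma e0_bZ (κ c : ℝ) (u : ℝ × ℝ) : bZ κ (fun u : ℝ × ℝ => e0 c u.2) u = zc κ (u.2 + c) := by
  rw [one_bZ (e0_smooth c)]; rfl

lemma e1_bY (κ c : ℝ) (u : ℝ × ℝ) : bY κ (fun u : ℝ × ℝ => e1 c u.2) u = -yc κ (c - u.2) := by
  unfold bY
  rw [one_dx (e1_smooth c)]
  have h2 : HasDerivAt (fun x : ℝ => c - x) (-1) u.2 := (hasDerivAt_id u.2).const_sub c
  have h3 := (smooth_hasDerivAt Rn_smooth (c - u.2)).comp u.2 h2
  have h4 : HasDerivAt (e1 c) _ u.2 := h3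
  show 3 / 2 * κ * √(e1 c u.2) * deriv (e1 c) u.2 = _
  rw [h4.deriv]; unfold e1 yc; ring

lemma e1_bZ (κ c : ℝ) (u : ℝ × ℝ) : bZ κ (fun u : ℝ × ℝ => e1 c u.2) u = zc κ (c - u.2) := by
  rw [one_bZ (e1_smooth c)]; rfl

variable {B S M : ℝ}

lemma box_top_flat (hS : 0 < S) {a b : ℝ} {u : ℝ × ℝ} (h : S < u.1 + b) : Flat (box S a b) u := by
  refine flat_of_ev one_pos ?_
  have : ∀ᶠ v : ℝ × ℝ in 𝓝 u, S < v.1 + b := ev_lt (f := fun v : ℝ × ℝ => v.1 + b) (by fun_prop) h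
  filter_upwards [this] with v hv using box_one' hS (le_of_lt hv)

lemma box_top_bY (hS : 0 < S) {a b : ℝ} {u : ℝ × ℝ} (h : S < u.1 + b) : bY 1 (box S a b) u = 0 :=
  (flat_bY (box_top_flat hS h)).self_of_nhds

lemma box_top_bZ (hS : 0 < S) {a b : ℝ} {u : ℝ × ℝ} (h : S < u.1 + b) : bZ 1 (box S a b) u = 0 := by
  have h1 := (flat_bQ (κ := 1) (box_top_flat (a := a) hS h)).self_of_nhds
  have h2 := box_one' (a := a) hS h.le
  simp [bZ, bG, h1, h2]

lemma box_bot_bY (hS : 0 < S) {a b t x : ℝ} (h : t + b < 0) :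
    bY 1 (box S a b) (t, x) = yc 1 (Fn (x - a) - 2) * deriv Fn (x - a) := by
  unfold bY
  rw [box_dx]
  simp only [box, wf, yc]
  rw [lam_left hS h.le]
  ring

lemma box_bot_bZ (hS : 0 < S) {a b t x : ℝ} (h : t + b < 0) :
    bZ 1 (box S a b) (t, x) = zc 1 (Fn (x - a) - 2) := by
  unfold bZ bG bQ
  rw [box_dt]
  simp only
  rw [lam1_left hS h]
  unfold box zc
  rw [lam_left hS h.le]
  ring

lemma Y0' (u : ℝ × ℝ) : (mdl B S).Y 0 u = bY 3 (fun u => e0 9 u.2) u + bY 1 (box S 0 S) u +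
    bY 1 (fun u => e1 B u.2) u := by
  simp only [Surf.Y, Fin.sum_univ_seven, mdl]
  simp

lemma Y2' (u : ℝ × ℝ) : (mdl B S).Y 2 u = bY 1 (fun u => e0 6 u.2) u - bY 1 (box S 0 S) u +
    bY 1 (box S 8 0) u - bY 1 (fun u => e1 B u.2) u := by
  simp only [Surf.Y, Fin.sum_univ_seven, mdl]
  simp
  ring

/-- the point over `x` of the sheet `j` of the slice at `t` -/
noncomputable def pt (B S t : ℝ) (j : Fin 4) (x : ℝ) : E3 :=
  (x, (mdl B S).Y j (t, x), (mdl B S).Z j (t, x))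

lemma mem_slice {t : ℝ} {q : E3} : ((t, q) : E4) ∈ (mdl B S).L ↔
    ∃ j x, (t, x) ∈ (mdl B S).dom j ∧ q = pt B S t j x := by
  constructor
  · rintro ⟨j, hj⟩
    refine ⟨j, q.1, hj.1, ?_⟩
    have := (mdl B S).eq_P hj
    exact congrArg Prod.snd this
  · rintro ⟨j, x, hx, rfl⟩
    exact ⟨j, hx, rfl, rfl⟩

lemma top0 (hS : 0 < S) (x : ℝ) : pt B S (S + 1) 0 x =
    (x, yc 3 (x + 9) - yc 1 (B - x), zc 3 (x + 9) + zc 1 (B - x)) := by
  unfold pt
  rw [Y0', Z0, e0_bY, e0_bZ, e1_bY, e1_bZ, box_top_bY hS (by show S < S + 1 + S; linarith),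
    box_top_bZ hS (by show S < S + 1 + S; linarith)]
  simp only [add_zero]
  ring_nf

lemma top2 (hS : 0 < S) (x : ℝ) : pt B S (S + 1) 2 x =
    (x, yc 1 (x + 6) + yc 1 (B - x), -2 + zc 1 (x + 6) - zc 1 (B - x)) := by
  unfold pt
  rw [Y2', Z2, e0_bY, e0_bZ, e1_bY, e1_bZ, box_top_bY hS (by show S < S + 1 + S; linarith),
    box_top_bZ hS (by show S < S + 1 + S; linarith),
    box_top_bY hS (by show S < S + 1 + 0; linarith),
    box_top_bZ hS (by show S < S + 1 + 0; linarith)]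
  simp only [add_zero, sub_zero, sub_neg_eq_add]

lemma top3 (hS : 0 < S) (x : ℝ) : pt B S (S + 1) 3 x =
    (x, -yc 1 (x + 6) + yc 1 (B + 4 - x), -4 - zc 1 (x + 6) - zc 1 (B + 4 - x)) := by
  unfold pt
  rw [Y3, Z3, e0_bY, e0_bZ, e1_bY, e1_bZ,
    box_top_bY hS (by show S < S + 1 + 0; linarith),
    box_top_bZ hS (by show S < S + 1 + 0; linarith)]
  simp only [sub_zero, sub_neg_eq_add]

lemma bot0 (hS : 0 < S) (x : ℝ) : pt B S (-S - 1) 0 x =
    (x, yc 3 (x + 9) + yc 1 (Fn x - 2) * deriv Fn x - yc 1 (B - x),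
      zc 3 (x + 9) + zc 1 (Fn x - 2) + zc 1 (B - x)) := by
  unfold pt
  rw [Y0', Z0, e0_bY, e0_bZ, e1_bY, e1_bZ, box_bot_bY hS (by linarith),
    box_bot_bZ hS (by linarith)]
  simp only [sub_zero]
  ring_nf

lemma bot2 (hS : 0 < S) (x : ℝ) : pt B S (-S - 1) 2 x =
    (x, yc 1 (x + 6) - yc 1 (Fn x - 2) * deriv Fn x +
        yc 1 (Fn (x - 8) - 2) * deriv Fn (x - 8) + yc 1 (B - x),
      -2 + zc 1 (x + 6) - zc 1 (Fn x - 2) + zc 1 (Fn (x - 8) - 2) - zc 1 (B - x)) := by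
  unfold pt
  rw [Y2', Z2, e0_bY, e0_bZ, e1_bY, e1_bZ, box_bot_bY hS (a := 0) (b := S) (by linarith),
    box_bot_bZ hS (a := 0) (b := S) (by linarith), box_bot_bY hS (a := 8) (b := 0) (by linarith),
    box_bot_bZ hS (a := 8) (b := 0) (by linarith)]
  simp only [sub_zero, sub_neg_eq_add]

lemma bot3 (hS : 0 < S) (x : ℝ) : pt B S (-S - 1) 3 x =
    (x, -yc 1 (x + 6) - yc 1 (Fn (x - 8) - 2) * deriv Fn (x - 8) + yc 1 (B + 4 - x),
      -4 - zc 1 (x + 6) - zc 1 (Fn (x - 8) - 2) - zc 1 (B + 4 - x)) := by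
  unfold pt
  rw [Y3, Z3, e0_bY, e0_bZ, e1_bY, e1_bZ, box_bot_bY hS (a := 8) (b := 0) (by linarith),
    box_bot_bZ hS (a := 8) (b := 0) (by linarith)]
  simp only [sub_neg_eq_add]

lemma pt1 (t t' x : ℝ) : pt B S t 1 x = pt B S t' 1 x := by
  unfold pt
  rw [Y1, Y1, Z1, Z1, e0_bY, e0_bY, e1_bY, e1_bY, e0_bZ, e0_bZ, e1_bZ, e1_bZ, er_bY, er_bY, er_val,
    er_val]

lemma pt1_z (t x : ℝ) : (pt B S t 1 x).2.2 = -6 - zc 3 (x + 9) + zc 1 (B + 4 - x) +
    4 / 7 * ((1 + th (x - B - 1)) ^ 3 - 1) := by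
  unfold pt
  simp only
  rw [Z1, e0_bZ, e1_bZ, er_val]

lemma pt1_y (t x : ℝ) : (pt B S t 1 x).2.1 = - yc 3 (x + 9) - yc 1 (B + 4 - x) +
    12 / 7 * (1 + th (x - B - 1)) ^ 2 * deriv th (x - B - 1) := by
  unfold pt
  simp only
  rw [Y1, e0_bY, e1_bY, er_bY]
  ring

/-! ### the sheets of the lower knot near the cusps -/

section Cusps

variable (hB : 13 ≤ B) (hS : 0 < S)

include hB hS

lemma E0r {v : ℝ} (h0 : 0 ≤ v) (h1 : v ≤ 1) :
    pt B S (-S - 1) 0 (2 + Fn v) = (2 + Fn v, Ps v, gn v ^ 3 - 1) := by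
  have hF := Fn_nonneg v
  have hF1 : Fn v ≤ 1 := Fn_le_one (by rw [abs_of_nonneg h0]; exact h1)
  rw [bot0 hS, Fn_ge (show 1 ≤ 2 + Fn v by linarith), deriv_Fn_ge (show 1 ≤ 2 + Fn v by linarith),
    show 2 + Fn v - 2 = Fn v by ring, yc_Fn h0, zc_Fn h0, yc_one (s := 2 + Fn v + 9) (by linarith),
    zc_one (s := 2 + Fn v + 9) (by linarith), yc_one (s := B - (2 + Fn v)) (by linarith),
    zc_one (s := B - (2 + Fn v)) (by linarith)]
  simp

lemma E2r {v : ℝ} (h0 : 0 ≤ v) (h1 : v ≤ 2) :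
    pt B S (-S - 1) 2 (2 + Fn v) = (2 + Fn v, -Ps v, -gn v ^ 3 - 1) := by
  have hF := Fn_nonneg v
  have hF1 : Fn v ≤ 2 := by
    rw [← Fn_two]; exact (Fn_le_iff (by norm_num)).2 (by rw [abs_of_nonneg h0]; exact h1)
  rw [bot2 hS, Fn_ge (show 1 ≤ 2 + Fn v by linarith), deriv_Fn_ge (show 1 ≤ 2 + Fn v by linarith),
    show 2 + Fn v - 2 = Fn v by ring, yc_Fn h0, zc_Fn h0, yc_one (s := 2 + Fn v + 6) (by linarith),
    zc_one (s := 2 + Fn v + 6) (by linarith), yc_one (s := B - (2 + Fn v)) (by linarith),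
    zc_one (s := B - (2 + Fn v)) (by linarith), Fn_le (show 2 + Fn v - 8 ≤ -1 by linarith),
    yc_one (s := -(2 + Fn v - 8) - 2) (by linarith), zc_one (s := -(2 + Fn v - 8) - 2) (by linarith)]
  simp only [Prod.mk.injEq, true_and]
  constructor <;> ring

lemma E2m {v : ℝ} (h0 : 0 ≤ v) (h1 : v ≤ 2) :
    pt B S (-S - 1) 2 (6 - Fn v) = (6 - Fn v, -Ps v, gn v ^ 3 - 3) := by
  have hF := Fn_nonneg v
  have hF1 : Fn v ≤ 2 := by
    rw [← Fn_two]; exact (Fn_le_iff (by norm_num)).2 (by rw [abs_of_nonneg h0]; exact h1)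
  rw [bot2 hS, Fn_ge (show 1 ≤ 6 - Fn v by linarith),
    Fn_le (show 6 - Fn v - 8 ≤ -1 by linarith), deriv_Fn_le (show 6 - Fn v - 8 ≤ -1 by linarith),
    show -(6 - Fn v - 8) - 2 = Fn v by ring, yc_Fn h0, zc_Fn h0,
    yc_one (s := 6 - Fn v + 6) (by linarith),
    zc_one (s := 6 - Fn v + 6) (by linarith), yc_one (s := B - (6 - Fn v)) (by linarith),
    zc_one (s := B - (6 - Fn v)) (by linarith),
    yc_one (s := 6 - Fn v - 2) (by linarith), zc_one (s := 6 - Fn v - 2) (by linarith)]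
  simp only [Prod.mk.injEq, true_and]
  constructor <;> ring

lemma E3r {v : ℝ} (h0 : 0 ≤ v) (h1 : v ≤ 6) :
    pt B S (-S - 1) 3 (6 - Fn v) = (6 - Fn v, Ps v, -gn v ^ 3 - 3) := by
  have hF := Fn_nonneg v
  have hF1 : Fn v ≤ 6 := by
    rw [← Fn_ge (v := 6) (by norm_num)]
    exact (Fn_le_iff (by norm_num)).2 (by rw [abs_of_nonneg h0]; exact h1)
  rw [bot3 hS,
    Fn_le (show 6 - Fn v - 8 ≤ -1 by linarith), deriv_Fn_le (show 6 - Fn v - 8 ≤ -1 by linarith),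
    show -(6 - Fn v - 8) - 2 = Fn v by ring, yc_Fn h0, zc_Fn h0,
    yc_one (s := 6 - Fn v + 6) (by linarith),
    zc_one (s := 6 - Fn v + 6) (by linarith), yc_one (s := B + 4 - (6 - Fn v)) (by linarith),
    zc_one (s := B + 4 - (6 - Fn v)) (by linarith)]
  simp only [Prod.mk.injEq, true_and]
  constructor <;> ring

lemma E3l {v : ℝ} (h0 : 0 ≤ v) (h1 : v ≤ 6) :
    pt B S (-S - 1) 3 (-6 + Fn v) = (-6 + Fn v, -Ps v, -gn v ^ 3 - 3) := by
  have hF := Fn_nonneg v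
  have hF1 : Fn v ≤ 6 := by
    rw [← Fn_ge (v := 6) (by norm_num)]
    exact (Fn_le_iff (by norm_num)).2 (by rw [abs_of_nonneg h0]; exact h1)
  rw [bot3 hS, show -6 + Fn v + 6 = Fn v by ring, yc_Fn h0, zc_Fn h0,
    Fn_le (show -6 + Fn v - 8 ≤ -1 by linarith),
    yc_one (s := -(-6 + Fn v - 8) - 2) (by linarith),
    zc_one (s := -(-6 + Fn v - 8) - 2) (by linarith),
    yc_one (s := B + 4 - (-6 + Fn v)) (by linarith),
    zc_one (s := B + 4 - (-6 + Fn v)) (by linarith)]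
  simp only [Prod.mk.injEq, true_and]
  constructor <;> ring

lemma E2l {v : ℝ} (h0 : 0 ≤ v) (h1 : v ≤ 2) :
    pt B S (-S - 1) 2 (-6 + Fn v) = (-6 + Fn v, Ps v, gn v ^ 3 - 3) := by
  have hF := Fn_nonneg v
  have hF1 : Fn v ≤ 2 := by
    rw [← Fn_two]; exact (Fn_le_iff (by norm_num)).2 (by rw [abs_of_nonneg h0]; exact h1)
  rw [bot2 hS, show -6 + Fn v + 6 = Fn v by ring, yc_Fn h0, zc_Fn h0,
    Fn_le (show -6 + Fn v - 8 ≤ -1 by linarith), Fn_le (show -6 + Fn v ≤ -1 by linarith),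
    yc_one (s := -(-6 + Fn v - 8) - 2) (by linarith),
    zc_one (s := -(-6 + Fn v - 8) - 2) (by linarith),
    yc_one (s := -(-6 + Fn v) - 2) (by linarith),
    zc_one (s := -(-6 + Fn v) - 2) (by linarith),
    yc_one (s := B - (-6 + Fn v)) (by linarith),
    zc_one (s := B - (-6 + Fn v)) (by linarith)]
  simp only [Prod.mk.injEq, true_and]
  constructor <;> ring

lemma E2n {v : ℝ} (h0 : 0 ≤ v) (h1 : v ≤ 2) :
    pt B S (-S - 1) 2 (-2 - Fn v) = (-2 - Fn v, Ps v, -gn v ^ 3 - 1) := by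
  have hF := Fn_nonneg v
  have hF1 : Fn v ≤ 2 := by
    rw [← Fn_two]; exact (Fn_le_iff (by norm_num)).2 (by rw [abs_of_nonneg h0]; exact h1)
  rw [bot2 hS, Fn_le (show -2 - Fn v ≤ -1 by linarith), deriv_Fn_le (show -2 - Fn v ≤ -1 by linarith),
    show -(-2 - Fn v) - 2 = Fn v by ring, yc_Fn h0, zc_Fn h0,
    Fn_le (show -2 - Fn v - 8 ≤ -1 by linarith),
    yc_one (s := -(-2 - Fn v - 8) - 2) (by linarith),
    zc_one (s := -(-2 - Fn v - 8) - 2) (by linarith),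
    yc_one (s := -2 - Fn v + 6) (by linarith),
    zc_one (s := -2 - Fn v + 6) (by linarith),
    yc_one (s := B - (-2 - Fn v)) (by linarith),
    zc_one (s := B - (-2 - Fn v)) (by linarith)]
  simp only [Prod.mk.injEq, true_and]
  constructor <;> ring

lemma E0l {v : ℝ} (h0 : 0 ≤ v) (h1 : v ≤ 1) :
    pt B S (-S - 1) 0 (-2 - Fn v) = (-2 - Fn v, -Ps v, gn v ^ 3 - 1) := by
  have hF := Fn_nonneg v
  have hF1 : Fn v ≤ 1 := Fn_le_one (by rw [abs_of_nonneg h0]; exact h1)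
  rw [bot0 hS, Fn_le (show -2 - Fn v ≤ -1 by linarith), deriv_Fn_le (show -2 - Fn v ≤ -1 by linarith),
    show -(-2 - Fn v) - 2 = Fn v by ring, yc_Fn h0, zc_Fn h0,
    yc_one (s := -2 - Fn v + 9) (by linarith),
    zc_one (s := -2 - Fn v + 9) (by linarith),
    yc_one (s := B - (-2 - Fn v)) (by linarith),
    zc_one (s := B - (-2 - Fn v)) (by linarith)]
  simp only [Prod.mk.injEq, true_and]
  constructor <;> ring

end Cusps

/-- the zigzag point -/
noncomputable def zg (w : ℝ) : E3 := (xi w, yo w, zo w)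

section Zigzag

variable (hB : 13 ≤ B) (hS : 0 < S)

include hB hS

lemma zg1 {w : ℝ} (h0 : 10 ≤ w) (h1 : w ≤ 11) : zg w = pt B S (-S - 1) 0 (xi w) := by
  have e : xi w = 2 + Fn (w - 10) := xi_right (by linarith)
  rw [e, E0r hB hS (by linarith) (by linarith)]
  unfold zg
  rw [e, yo_pos (by linarith), zo_pos (by linarith),
    Ps_large (v := w - 6) (by rw [abs_of_pos (by linarith)]; linarith), gn_ge (v := w - 6) (by linarith)]
  simp only [Prod.mk.injEq, true_and]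
  constructor <;> ring

lemma zg2 {w : ℝ} (h0 : 8 ≤ w) (h1 : w ≤ 10) : zg w = pt B S (-S - 1) 2 (xi w) := by
  have e : xi w = 2 + Fn (10 - w) := by
    rw [xi_right (by linarith), show w - 10 = -(10 - w) by ring, Fn_even]
  rw [e, E2r hB hS (by linarith) (by linarith)]
  unfold zg
  rw [e, yo_pos (by linarith), zo_pos (by linarith), show w - 10 = -(10 - w) by ring, Ps_odd, gn_odd,
    Ps_large (v := w - 6) (by rw [abs_of_pos (by linarith)]; linarith), gn_ge (v := w - 6) (by linarith)]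
  simp only [Prod.mk.injEq, true_and]
  constructor <;> ring

lemma zg3 {w : ℝ} (h0 : 6 ≤ w) (h1 : w ≤ 8) : zg w = pt B S (-S - 1) 2 (xi w) := by
  have e : xi w = 6 - Fn (w - 6) := xi_left (by linarith) (by linarith)
  rw [e, E2m hB hS (by linarith) (by linarith)]
  unfold zg
  rw [e, yo_pos (by linarith), zo_pos (by linarith),
    Ps_large (v := w - 10) (by rw [abs_of_neg (by linarith)]; linarith), gn_le (v := w - 10) (by linarith)]
  simp only [Prod.mk.injEq, true_and]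
  constructor <;> ring

lemma zg4 {w : ℝ} (h0 : 0 ≤ w) (h1 : w ≤ 6) : zg w = pt B S (-S - 1) 3 (xi w) := by
  have e : xi w = 6 - Fn (6 - w) := by
    rw [xi_left (by linarith) (by linarith), show w - 6 = -(6 - w) by ring, Fn_even]
  rw [e, E3r hB hS (by linarith) (by linarith)]
  unfold zg
  rw [e, yo_pos (by linarith), zo_pos (by linarith), show w - 6 = -(6 - w) by ring, Ps_odd, gn_odd,
    Ps_large (v := w - 10) (by rw [abs_of_neg (by linarith)]; linarith), gn_le (v := w - 10) (by linarith)]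
  simp only [Prod.mk.injEq, true_and]
  constructor <;> ring

lemma zg1' {w : ℝ} (h0 : 10 ≤ w) (h1 : w ≤ 11) : zg (-w) = pt B S (-S - 1) 0 (xi (-w)) := by
  have e : xi (-w) = -2 - Fn (w - 10) := by rw [xi_odd, xi_right (by linarith)]; ring
  rw [e, E0l hB hS (by linarith) (by linarith)]
  unfold zg
  rw [e, yo_odd, zo_even, yo_pos (by linarith), zo_pos (by linarith),
    Ps_large (v := w - 6) (by rw [abs_of_pos (by linarith)]; linarith), gn_ge (v := w - 6) (by linarith)]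
  simp only [Prod.mk.injEq, true_and]
  constructor <;> ring

lemma zg2' {w : ℝ} (h0 : 8 ≤ w) (h1 : w ≤ 10) : zg (-w) = pt B S (-S - 1) 2 (xi (-w)) := by
  have e : xi (-w) = -2 - Fn (10 - w) := by
    rw [xi_odd, xi_right (by linarith), show w - 10 = -(10 - w) by ring, Fn_even]; ring
  rw [e, E2n hB hS (by linarith) (by linarith)]
  unfold zg
  rw [e, yo_odd, zo_even, yo_pos (by linarith), zo_pos (by linarith),
    show w - 10 = -(10 - w) by ring, Ps_odd, gn_odd,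
    Ps_large (v := w - 6) (by rw [abs_of_pos (by linarith)]; linarith), gn_ge (v := w - 6) (by linarith)]
  simp only [Prod.mk.injEq, true_and]
  constructor <;> ring

lemma zg3' {w : ℝ} (h0 : 6 ≤ w) (h1 : w ≤ 8) : zg (-w) = pt B S (-S - 1) 2 (xi (-w)) := by
  have e : xi (-w) = -6 + Fn (w - 6) := by
    rw [xi_odd, xi_left (by linarith) (by linarith)]; ring
  rw [e, E2l hB hS (by linarith) (by linarith)]
  unfold zg
  rw [e, yo_odd, zo_even, yo_pos (by linarith), zo_pos (by linarith),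
    Ps_large (v := w - 10) (by rw [abs_of_neg (by linarith)]; linarith), gn_le (v := w - 10) (by linarith)]
  simp only [Prod.mk.injEq, true_and]
  constructor <;> ring

lemma zg4' {w : ℝ} (h0 : 0 ≤ w) (h1 : w ≤ 6) : zg (-w) = pt B S (-S - 1) 3 (xi (-w)) := by
  have e : xi (-w) = -6 + Fn (6 - w) := by
    rw [xi_odd, xi_left (by linarith) (by linarith), show w - 6 = -(6 - w) by ring, Fn_even]; ring
  rw [e, E3l hB hS (by linarith) (by linarith)]
  unfold zg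
  rw [e, yo_odd, zo_even, yo_pos (by linarith), zo_pos (by linarith),
    show w - 6 = -(6 - w) by ring, Ps_odd, gn_odd,
    Ps_large (v := w - 10) (by rw [abs_of_neg (by linarith)]; linarith), gn_le (v := w - 10) (by linarith)]
  simp only [Prod.mk.injEq, true_and]
  constructor <;> ring

end Zigzag

end Pool.Agent.K1H61.LC
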