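import Pool.Agent.K1H61.LC.Iso1
import Pool.Agent.K1H61.LC.Conn

/-!
# The smooth isotopy between the two knots
-/

set_option autoImplicit false

open scoped ContDiff Topology
open Filter Set

namespace Pool.Agent.K1H61.LC

variable {B S M : ℝ}

/-- time function of the shift -/
noncomputable def s1 (s : ℝ) : ℝ := th (-s)
/-- time function of the zigzag -/
noncomputable def s2 (s : ℝ) : ℝ := th (-s - 1)

lemma s1_bd (s : ℝ) : 0 ≤ s1 s ∧ s1 s ≤ 1 := ⟨th_nonneg _, th_le_one _⟩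
lemma s2_bd (s : ℝ) : 0 ≤ s2 s ∧ s2 s ≤ 1 := ⟨th_nonneg _, th_le_one _⟩

lemma s1_one {s : ℝ} (h : s2 s ≠ 0) : s1 s = 1 := by
  apply th_one
  by_contra hc
  exact h (th_zero (by linarith))

/-- the shift to the right -/
noncomputable def Psi (B s x : ℝ) : ℝ := x + 16 * s1 s * (1 - th ((x + 5) / B))

lemma Psi_right (hB : 0 < B) {s x : ℝ} (h : B - 5 ≤ x) : Psi B s x = x := by
  unfold Psi; rw [th_one (by rw [le_div_iff₀ hB]; linarith)]; ring

lemma Psi_left (hB : 0 < B) {s x : ℝ} (h : x ≤ -5) : Psi B s x = x + 16 * s1 s := by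
  unfold Psi; rw [th_zero (div_nonpos_of_nonpos_of_nonneg (by linarith) hB.le)]; ring

lemma Psi_ge (B s x : ℝ) : x ≤ Psi B s x := by
  have h1 := (s1_bd s).1
  have h2 := th_le_one ((x + 5) / B)
  unfold Psi
  have : 0 ≤ 16 * s1 s * (1 - th ((x + 5) / B)) := by
    apply mul_nonneg
    · linarith
    · linarith
  linarith

lemma Psi_hasDerivAt (B s x : ℝ) :
    HasDerivAt (Psi B s) (1 - 16 * s1 s * (deriv th ((x + 5) / B) / B)) x := by
  have h1 : HasDerivAt (fun x : ℝ => (x + 5) / B) (1 / B) x :=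
    ((hasDerivAt_id x).add_const 5).div_const B
  have h2 := (smooth_hasDerivAt th_smooth ((x + 5) / B)).comp x h1
  have h3 := (hasDerivAt_id x).add ((h2.const_sub 1).const_mul (16 * s1 s))
  exact h3.congr_deriv (by ring)

lemma Psi_deriv_pos (h : Bds M S) (hB : 16 * M < B) (s x : ℝ) :
    0 < 1 - 16 * s1 s * (deriv th ((x + 5) / B) / B) := by
  have hM := h.one_le
  have hB0 : 0 < B := by linarith
  have h1 := (abs_le.1 (h.bd ((x + 5) / B)).1).2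
  have h2 := deriv_th_nonneg ((x + 5) / B)
  have h3 := s1_bd s
  have h4 : deriv th ((x + 5) / B) / B ≤ M / B := by gcongr
  have h5 : 0 ≤ deriv th ((x + 5) / B) / B := by positivity
  have h6 : s1 s * (deriv th ((x + 5) / B) / B) ≤ 1 * (M / B) :=
    mul_le_mul h3.2 h4 h5 (by norm_num)
  have h7 : 16 * (M / B) < 1 := by
    rw [← mul_div_assoc, div_lt_one hB0]; exact hB
  linarith

lemma Psi_strict (h : Bds M S) (hB : 16 * M < B) (s : ℝ) : StrictMono (Psi B s) := by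
  apply strictMono_of_deriv_pos
  intro x
  rw [(Psi_hasDerivAt B s x).deriv]
  exact Psi_deriv_pos h hB s x

lemma comps {a b : E3} (h : a = b) : a.1 = b.1 ∧ a.2.1 = b.2.1 ∧ a.2.2 = b.2.2 := by
  subst h; exact ⟨rfl, rfl, rfl⟩

open Classical in
/-- the isotopy -/
noncomputable def Hm (B s : ℝ) (q : E3) : E3 :=
  if -1 / 2 < q.2.2 then (Xs (s2 s) q.1, q.2.1 + Ys (s2 s) q.1, q.2.2 + Zs (s2 s) q.1)
  else if -7 < q.1 ∧ -5 < q.2.2 ∧ q.2.2 < -1 then (Psi B s q.1, q.2.1, q.2.2)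
  else q

lemma Hm_A {s : ℝ} {q : E3} (h : -1 / 2 < q.2.2) :
    Hm B s q = (Xs (s2 s) q.1, q.2.1 + Ys (s2 s) q.1, q.2.2 + Zs (s2 s) q.1) := if_pos h

lemma Hm_B {s : ℝ} {q : E3} (h : -7 < q.1 ∧ -5 < q.2.2 ∧ q.2.2 < -1) :
    Hm B s q = (Psi B s q.1, q.2.1, q.2.2) := by
  unfold Hm
  rw [if_neg (by linarith [h.2.2]), if_pos h]

lemma Hm_id {s : ℝ} {q : E3} (hB : 13 ≤ B) (h : q.1 < -7 ∨ B - 5 < q.1 ∨ q.2.2 < -5) :
    Hm B s q = q := by
  unfold Hm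
  split_ifs with h1 h2
  · have h3 : 3 ≤ |q.1| := by
      rcases h with h | h | h
      · rw [abs_of_neg (by linarith)]; linarith
      · rw [abs_of_pos (by linarith)]; linarith
      · linarith
    rw [Xs_far _ h3, Ys_far _ h3, Zs_far _ h3, add_zero, add_zero]
  · rcases h with h | h | h
    · linarith [h2.1]
    · rw [Psi_right (by linarith) h.le]
    · linarith [h2.2.1]
  · rfl

/-! ### description of the upper knot -/

lemma domTop0 (hS : 0 < S) (x : ℝ) : (S + 1, x) ∈ (mdl B S).dom 0 ↔ -9 ≤ x ∧ x ≤ B := by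
  rw [dom0]
  simp only
  rw [lam_right hS (by linarith)]
  have := Fn_nonneg x
  constructor
  · rintro ⟨h1, _, h2⟩; exact ⟨h1, h2⟩
  · rintro ⟨h1, h2⟩; exact ⟨h1, by linarith, h2⟩

lemma domTop2 (hS : 0 < S) (x : ℝ) : (S + 1, x) ∈ (mdl B S).dom 2 ↔ -6 ≤ x ∧ x ≤ B := by
  rw [dom2]
  simp only
  rw [lam_right hS (by linarith), lam_right hS (by linarith)]
  have h3 := Fn_nonneg x
  have h4 := Fn_nonneg (x - 8)
  constructor
  · rintro ⟨h1, _, _, h2⟩; exact ⟨h1, h2⟩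
  · rintro ⟨h1, h2⟩; exact ⟨h1, by linarith, by linarith, h2⟩

lemma domTop3 (hS : 0 < S) (x : ℝ) : (S + 1, x) ∈ (mdl B S).dom 3 ↔ -6 ≤ x ∧ x ≤ B + 4 := by
  rw [dom3]
  simp only
  rw [lam_right hS (by linarith)]
  have h4 := Fn_nonneg (x - 8)
  constructor
  · rintro ⟨h1, _, h2⟩; exact ⟨h1, h2⟩
  · rintro ⟨h1, h2⟩; exact ⟨h1, by linarith, h2⟩

lemma Fn_two_le {y : ℝ} : 2 ≤ Fn y ↔ 2 ≤ |y| := by
  constructor
  · intro hy
    by_contra hc
    rw [not_le] at hc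
    have := (Fn_lt_iff (v := y) (a := 2) (by norm_num)).2 hc
    rw [Fn_two] at this
    linarith
  · intro hy
    rw [Fn_of_large (by linarith)]; exact hy

lemma domBot0 (hS : 0 < S) (x : ℝ) : (-S - 1, x) ∈ (mdl B S).dom 0 ↔ -9 ≤ x ∧ 2 ≤ |x| ∧ x ≤ B := by
  rw [dom0]
  simp only
  rw [lam_left hS (by linarith), Fn_two_le]

lemma domBot2 (hS : 0 < S) (x : ℝ) : (-S - 1, x) ∈ (mdl B S).dom 2 ↔
    -6 ≤ x ∧ 2 ≤ |x| ∧ 2 ≤ |x - 8| ∧ x ≤ B := by
  rw [dom2]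
  simp only
  rw [lam_left hS (by linarith), lam_left hS (by linarith), Fn_two_le, Fn_two_le]

lemma domBot3 (hS : 0 < S) (x : ℝ) : (-S - 1, x) ∈ (mdl B S).dom 3 ↔
    -6 ≤ x ∧ 2 ≤ |x - 8| ∧ x ≤ B + 4 := by
  rw [dom3]
  simp only
  rw [lam_left hS (by linarith), Fn_two_le]

lemma mem_Lp (hS : 0 < S) {q : E3} : q ∈ Lp B S ↔
    (∃ x, -9 ≤ x ∧ x ≤ B ∧ q = pt B S (S + 1) 0 x) ∨
    (∃ x, -9 ≤ x ∧ x ≤ B + 4 ∧ q = pt B S (S + 1) 1 x) ∨
    (∃ x, -6 ≤ x ∧ x ≤ B ∧ q = pt B S (S + 1) 2 x) ∨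
    (∃ x, -6 ≤ x ∧ x ≤ B + 4 ∧ q = pt B S (S + 1) 3 x) := by
  show ((S + 1, q) : E4) ∈ (mdl B S).L ↔ _
  rw [mem_slice]
  constructor
  · rintro ⟨j, x, hx, rfl⟩
    fin_cases j
    · have := (domTop0 hS x).1 hx; exact Or.inl ⟨x, this.1, this.2, rfl⟩
    · have := (dom1 _).1 hx; exact Or.inr (Or.inl ⟨x, this.1, this.2, rfl⟩)
    · have := (domTop2 hS x).1 hx; exact Or.inr (Or.inr (Or.inl ⟨x, this.1, this.2, rfl⟩))
    · have := (domTop3 hS x).1 hx; exact Or.inr (Or.inr (Or.inr ⟨x, this.1, this.2, rfl⟩))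
  · rintro (⟨x, h1, h2, rfl⟩ | ⟨x, h1, h2, rfl⟩ | ⟨x, h1, h2, rfl⟩ | ⟨x, h1, h2, rfl⟩)
    · exact ⟨0, x, (domTop0 hS x).2 ⟨h1, h2⟩, rfl⟩
    · exact ⟨1, x, (dom1 _).2 ⟨h1, h2⟩, rfl⟩
    · exact ⟨2, x, (domTop2 hS x).2 ⟨h1, h2⟩, rfl⟩
    · exact ⟨3, x, (domTop3 hS x).2 ⟨h1, h2⟩, rfl⟩

lemma mem_Lm (hS : 0 < S) {q : E3} : q ∈ Lm B S ↔
    (∃ x, (-9 ≤ x ∧ 2 ≤ |x| ∧ x ≤ B) ∧ q = pt B S (-S - 1) 0 x) ∨
    (∃ x, (-9 ≤ x ∧ x ≤ B + 4) ∧ q = pt B S (-S - 1) 1 x) ∨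
    (∃ x, (-6 ≤ x ∧ 2 ≤ |x| ∧ 2 ≤ |x - 8| ∧ x ≤ B) ∧ q = pt B S (-S - 1) 2 x) ∨
    (∃ x, (-6 ≤ x ∧ 2 ≤ |x - 8| ∧ x ≤ B + 4) ∧ q = pt B S (-S - 1) 3 x) := by
  show ((-S - 1, q) : E4) ∈ (mdl B S).L ↔ _
  rw [mem_slice]
  constructor
  · rintro ⟨j, x, hx, rfl⟩
    fin_cases j
    · exact Or.inl ⟨x, (domBot0 hS x).1 hx, rfl⟩
    · exact Or.inr (Or.inl ⟨x, (dom1 _).1 hx, rfl⟩)
    · exact Or.inr (Or.inr (Or.inl ⟨x, (domBot2 hS x).1 hx, rfl⟩))
    · exact Or.inr (Or.inr (Or.inr ⟨x, (domBot3 hS x).1 hx, rfl⟩))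
  · rintro (⟨x, h1, rfl⟩ | ⟨x, h1, rfl⟩ | ⟨x, h1, rfl⟩ | ⟨x, h1, rfl⟩)
    · exact ⟨0, x, (domBot0 hS x).2 h1, rfl⟩
    · exact ⟨1, x, (dom1 _).2 h1, rfl⟩
    · exact ⟨2, x, (domBot2 hS x).2 h1, rfl⟩
    · exact ⟨3, x, (domBot3 hS x).2 h1, rfl⟩

lemma pt_fst (t : ℝ) (j : Fin 4) (x : ℝ) : (pt B S t j x).1 = x := rfl

lemma top0_mid (hS : 0 < S) {x : ℝ} (h1 : -8 ≤ x) (h2 : x ≤ B - 1) :
    pt B S (S + 1) 0 x = (x, 0, 0) := by
  rw [top0 hS, yc_one (by linarith), zc_one (by linarith), yc_one (by linarith),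
    zc_one (by linarith)]
  simp

lemma top1_z (hB : 13 ≤ B) {x : ℝ} (h1 : -9 ≤ x) (h2 : x ≤ B + 4) :
    (pt B S (S + 1) 1 x).2.2 ≤ -2 ∧
    (-8 ≤ x → x ≤ B + 1 → (pt B S (S + 1) 1 x).2.2 = -6) := by
  rw [pt1_z]
  have z1 := zc_bd (κ := 3) (s := x + 9) (by norm_num) (by linarith)
  have z2 := zc_bd (κ := 1) (s := B + 4 - x) (by norm_num) (by linarith)
  constructor
  · rcases le_or_gt x (B + 1) with h | h
    · rw [th_zero (show x - B - 1 ≤ 0 by linarith)]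
      linarith
    · rw [zc_one (s := x + 9) (by linarith)]
      have h3 := th_le_one (x - B - 1)
      have h4 := th_nonneg (x - B - 1)
      have h5 : (1 + th (x - B - 1)) ^ 3 ≤ 2 ^ 3 := by gcongr; linarith
      linarith
  · intro h3 h4
    rw [zc_one (s := x + 9) (by linarith), zc_one (s := B + 4 - x) (by linarith),
      th_zero (show x - B - 1 ≤ 0 by linarith)]
    norm_num

lemma top2_z (hB : 13 ≤ B) (hS : 0 < S) {x : ℝ} (h1 : -6 ≤ x) (h2 : x ≤ B) :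
    -3 ≤ (pt B S (S + 1) 2 x).2.2 ∧ (pt B S (S + 1) 2 x).2.2 ≤ -1 ∧
    ((pt B S (S + 1) 2 x).2.2 = -1 → x = B) := by
  rw [top2 hS]
  simp only
  have z1 := zc_bd (κ := 1) (s := x + 6) (by norm_num) (by linarith)
  have z2 := zc_bd (κ := 1) (s := B - x) (by norm_num) (by linarith)
  rcases le_or_gt x (B - 1) with h | h
  · rw [zc_one (s := B - x) (by linarith)]
    exact ⟨by linarith, by linarith, fun h3 => by linarith⟩
  · rw [zc_one (s := x + 6) (by linarith)]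
    refine ⟨by linarith, by linarith, fun h3 => ?_⟩
    have := z2.2.2 (by linarith)
    linarith

lemma top3_z (hB : 13 ≤ B) (hS : 0 < S) {x : ℝ} (h1 : -6 ≤ x) (h2 : x ≤ B + 4) :
    -4 ≤ (pt B S (S + 1) 3 x).2.2 ∧ (pt B S (S + 1) 3 x).2.2 ≤ -3 := by
  rw [top3 hS]
  simp only
  have z1 := zc_bd (κ := 1) (s := x + 6) (by norm_num) (by linarith)
  have z2 := zc_bd (κ := 1) (s := B + 4 - x) (by norm_num) (by linarith)
  rcases le_or_gt x B with h | h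
  · rw [zc_one (s := B + 4 - x) (by linarith)]
    constructor <;> linarith
  · rw [zc_one (s := x + 6) (by linarith)]
    constructor <;> linarith

/-- points of the upper knot of the three kinds -/
lemma kinds (hB : 13 ≤ B) (hS : 0 < S) {q : E3} (hq : q ∈ Lp B S) :
    (q.1 ≤ B ∧ (-8 ≤ q.1 → q.1 ≤ B - 1 → q.2.1 = 0 ∧ q.2.2 = 0)) ∨
    (q.2.2 ≤ -2 ∧ (-8 ≤ q.1 → q.1 ≤ B + 1 → q.2.2 = -6)) ∨
    (-6 ≤ q.1 ∧ -4 ≤ q.2.2 ∧ q.2.2 ≤ -1 ∧ (q.2.2 = -1 → q.1 = B)) := by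
  rcases (mem_Lp hS).1 hq with ⟨x, h1, h2, rfl⟩ | ⟨x, h1, h2, rfl⟩ | ⟨x, h1, h2, rfl⟩ |
    ⟨x, h1, h2, rfl⟩
  · left
    refine ⟨h2, fun h3 h4 => ?_⟩
    have h5 : (-8 : ℝ) ≤ x := h3
    have h6 : x ≤ B - 1 := h4
    rw [top0_mid hS h5 h6]; exact ⟨rfl, rfl⟩
  · right; left
    exact top1_z hB h1 h2
  · right; right
    have := top2_z hB hS h1 h2
    exact ⟨h1, by linarith [this.1], this.2.1, this.2.2⟩
  · right; right
    have := top3_z hB hS h1 h2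
    exact ⟨h1, this.1, by linarith [this.2], fun h => by linarith [this.2]⟩

/-- formula for points of the first kind -/
lemma Hm_kind0 (hB : 13 ≤ B) {s : ℝ} {q : E3}
    (hm : -8 ≤ q.1 → q.1 ≤ B - 1 → q.2.1 = 0 ∧ q.2.2 = 0) :
    Hm B s q = (Xs (s2 s) q.1, q.2.1 + Ys (s2 s) q.1, q.2.2 + Zs (s2 s) q.1) := by
  by_cases hz : -1 / 2 < q.2.2
  · exact Hm_A hz
  · have h : q.1 < -8 ∨ B - 1 < q.1 := by
      by_contra hc
      rw [not_or, not_lt, not_lt] at hc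
      have := (hm hc.1 hc.2).2
      rw [this] at hz; norm_num at hz
    have h3 : 3 ≤ |q.1| := by
      rcases h with h | h
      · rw [abs_of_neg (by linarith)]; linarith
      · rw [abs_of_pos (by linarith)]; linarith
    rw [Xs_far _ h3, Ys_far _ h3, Zs_far _ h3, add_zero, add_zero]
    apply Hm_id hB
    rcases h with h | h
    · left; linarith
    · right; left; linarith

lemma Hm_kind1 (hB : 13 ≤ B) {s : ℝ} {q : E3}
    (hm : -8 ≤ q.1 → q.1 ≤ B + 1 → q.2.2 = -6) : Hm B s q = q := by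
  apply Hm_id hB
  by_contra hc
  rw [not_or, not_or, not_lt, not_lt, not_lt] at hc
  have := hm (by linarith [hc.1]) (by linarith [hc.2.1])
  linarith [hc.2.2]

lemma Hm_kind2 (hB : 13 ≤ B) {s : ℝ} {q : E3} (h1 : -6 ≤ q.1) (h2 : -4 ≤ q.2.2)
    (h3 : q.2.2 ≤ -1) (h4 : q.2.2 = -1 → q.1 = B) : Hm B s q = (Psi B s q.1, q.2.1, q.2.2) := by
  by_cases hz : q.2.2 < -1
  · exact Hm_B ⟨by linarith, by linarith, hz⟩
  · have h5 : q.2.2 = -1 := le_antisymm h3 (not_lt.1 hz)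
    have h6 := h4 h5
    rw [Psi_right (by linarith) (by linarith)]
    apply Hm_id hB
    right; left; linarith

theorem Hm_inj (hB : 13 ≤ B) (h : Bds M S) (hB2 : 16 * M < B) (s : ℝ) :
    InjOn (Hm B s) (Lp B S) := by
  have hS := h.S_pos
  have hst := Psi_strict h hB2 s
  have hbd := s2_bd s
  have hPr : Psi B s (B - 5) = B - 5 := Psi_right (by linarith) (le_refl _)
  -- mixed cases
  have h01 : ∀ q q' : E3, (-8 ≤ q.1 → q.1 ≤ B - 1 → q.2.1 = 0 ∧ q.2.2 = 0) →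
      (q'.2.2 ≤ -2 ∧ (-8 ≤ q'.1 → q'.1 ≤ B + 1 → q'.2.2 = -6)) →
      Hm B s q = Hm B s q' → q = q' := by
    intro q q' hq hq' he
    have e2 := Hm_kind1 (s := s) hB hq'.2
    have e1 := Hm_kind0 (s := s) hB hq
    rcases lt_or_ge |q.1| 3 with h3 | h3
    · exfalso
      obtain ⟨h4, h5⟩ := abs_lt.1 h3
      have h6 := hq (by linarith) (by linarith)
      rw [e1, e2] at he
      have hx : Xs (s2 s) q.1 = q'.1 := (comps he).1
      have hz : q.2.2 + Zs (s2 s) q.1 = q'.2.2 := (comps he).2.2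
      have h7 := abs_le.1 (Xs_bd hbd.1 hbd.2 h3)
      have h8 := Zs_ge q.1 hbd.1 hbd.2
      have h9 := hq'.2 (by linarith) (by linarith)
      linarith [h6.2]
    · rw [Xs_far _ h3, Ys_far _ h3, Zs_far _ h3, add_zero, add_zero] at e1
      rw [e1, e2] at he
      exact he
  have h02 : ∀ q q' : E3, (-8 ≤ q.1 → q.1 ≤ B - 1 → q.2.1 = 0 ∧ q.2.2 = 0) →
      (-6 ≤ q'.1 ∧ -4 ≤ q'.2.2 ∧ q'.2.2 ≤ -1 ∧ (q'.2.2 = -1 → q'.1 = B)) →
      Hm B s q = Hm B s q' → q = q' := by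
    intro q q' hq hq' he
    have e2 := Hm_kind2 (s := s) hB hq'.1 hq'.2.1 hq'.2.2.1 hq'.2.2.2
    have e1 := Hm_kind0 (s := s) hB hq
    rcases lt_or_ge |q.1| 3 with h3 | h3
    · exfalso
      obtain ⟨h4, h5⟩ := abs_lt.1 h3
      have h6 := hq (by linarith) (by linarith)
      rw [e1, e2] at he
      have hx : Xs (s2 s) q.1 = Psi B s q'.1 := (comps he).1
      have hz : q.2.2 + Zs (s2 s) q.1 = q'.2.2 := (comps he).2.2
      by_cases hs : s2 s = 0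
      · rw [hs, h6.2] at hz
        unfold Zs at hz
        linarith [hq'.2.2.1]
      · have h7 := abs_le.1 (Xs_bd hbd.1 hbd.2 h3)
        have h8 : Psi B s (-6) ≤ Psi B s q'.1 := hst.monotone hq'.1
        rw [Psi_left (by linarith) (by norm_num), s1_one hs] at h8
        linarith
    · rw [Xs_far _ h3, Ys_far _ h3, Zs_far _ h3, add_zero, add_zero] at e1
      rw [e1, e2] at he
      have hx : q.1 = Psi B s q'.1 := (comps he).1
      have hy : q.2.1 = q'.2.1 := (comps he).2.1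
      have hz : q.2.2 = q'.2.2 := (comps he).2.2
      have h8 := Psi_ge B s q'.1
      have h9 : B - 1 < q.1 := by
        by_contra hc
        have := (hq (by linarith [hq'.1]) (not_lt.1 hc)).2
        linarith [hq'.2.2.1]
      have h10 : B - 5 < q'.1 := by
        by_contra hc
        have := hst.monotone (not_lt.1 hc)
        linarith
      rw [Psi_right (by linarith) h10.le] at hx
      exact Prod.ext hx (Prod.ext hy hz)
  have h12 : ∀ q q' : E3, (q.2.2 ≤ -2 ∧ (-8 ≤ q.1 → q.1 ≤ B + 1 → q.2.2 = -6)) →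
      (-6 ≤ q'.1 ∧ -4 ≤ q'.2.2 ∧ q'.2.2 ≤ -1 ∧ (q'.2.2 = -1 → q'.1 = B)) →
      Hm B s q = Hm B s q' → q = q' := by
    intro q q' hq hq' he
    have e2 := Hm_kind2 (s := s) hB hq'.1 hq'.2.1 hq'.2.2.1 hq'.2.2.2
    have e1 := Hm_kind1 (s := s) hB hq.2
    rw [e1, e2] at he
    have hx : q.1 = Psi B s q'.1 := (comps he).1
    have hy : q.2.1 = q'.2.1 := (comps he).2.1
    have hz : q.2.2 = q'.2.2 := (comps he).2.2
    have h8 := Psi_ge B s q'.1
    have h9 : B - 5 < q.1 := by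
      by_contra hc
      have := hq.2 (by linarith [hq'.1]) (by linarith [not_lt.1 hc])
      linarith [hq'.2.1]
    have h10 : B - 5 < q'.1 := by
      by_contra hc
      have := hst.monotone (not_lt.1 hc)
      linarith
    rw [Psi_right (by linarith) h10.le] at hx
    exact Prod.ext hx (Prod.ext hy hz)
  intro q hq q' hq' he
  rcases kinds hB hS hq with k | k | k
  · rcases kinds hB hS hq' with k' | k' | k'
    · have e1 := Hm_kind0 (s := s) hB k.2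
      have e2 := Hm_kind0 (s := s) hB k'.2
      rw [e1, e2] at he
      have hx : Xs (s2 s) q.1 = Xs (s2 s) q'.1 := (comps he).1
      have hy : q.2.1 + Ys (s2 s) q.1 = q'.2.1 + Ys (s2 s) q'.1 :=
        (comps he).2.1
      have hz : q.2.2 + Zs (s2 s) q.1 = q'.2.2 + Zs (s2 s) q'.1 :=
        (comps he).2.2
      have mid : ∀ q q' : E3, (-8 ≤ q.1 → q.1 ≤ B - 1 → q.2.1 = 0 ∧ q.2.2 = 0) →
          (-8 ≤ q'.1 → q'.1 ≤ B - 1 → q'.2.1 = 0 ∧ q'.2.2 = 0) → |q.1| < 3 →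
          Xs (s2 s) q.1 = Xs (s2 s) q'.1 → q.2.2 + Zs (s2 s) q.1 = q'.2.2 + Zs (s2 s) q'.1 →
          q = q' := by
        intro q q' hq hq' h3 hx hz
        obtain ⟨h4, h5⟩ := abs_lt.1 h3
        have h6 := hq (by linarith) (by linarith)
        have h7 : |q'.1| ≤ 6 := by
          rcases lt_or_ge |q'.1| 3 with h8 | h8
          · linarith
          · rw [Xs_far _ h8] at hx
            rw [← hx]
            exact Xs_bd hbd.1 hbd.2 h3
        obtain ⟨h8, h9⟩ := abs_le.1 h7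
        have h10 := hq' (by linarith) (by linarith)
        rw [h6.2, h10.2, zero_add, zero_add] at hz
        have h11 := fam_inj hbd.1 hbd.2 hx hz
        exact Prod.ext h11 (Prod.ext (by rw [h6.1, h10.1]) (by rw [h6.2, h10.2]))
      rcases lt_or_ge |q.1| 3 with h3 | h3
      · exact mid q q' k.2 k'.2 h3 hx hz
      · rcases lt_or_ge |q'.1| 3 with h4 | h4
        · exact (mid q' q k'.2 k.2 h4 hx.symm hz.symm).symm
        · rw [Xs_far _ h3, Xs_far _ h4] at hx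
          rw [Ys_far _ h3, Ys_far _ h4, add_zero, add_zero] at hy
          rw [Zs_far _ h3, Zs_far _ h4, add_zero, add_zero] at hz
          exact Prod.ext hx (Prod.ext hy hz)
    · exact h01 q q' k.2 k' he
    · exact h02 q q' k.2 k' he
  · rcases kinds hB hS hq' with k' | k' | k'
    · exact (h01 q' q k'.2 k he.symm).symm
    · rw [Hm_kind1 hB k.2, Hm_kind1 hB k'.2] at he
      exact he
    · exact h12 q q' k k' he
  · rcases kinds hB hS hq' with k' | k' | k'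
    · exact (h02 q' q k'.2 k he.symm).symm
    · exact (h12 q' q k' k he.symm).symm
    · rw [Hm_kind2 hB k.1 k.2.1 k.2.2.1 k.2.2.2, Hm_kind2 hB k'.1 k'.2.1 k'.2.2.1 k'.2.2.2] at he
      have hx : Psi B s q.1 = Psi B s q'.1 := (comps he).1
      have hy : q.2.1 = q'.2.1 := (comps he).2.1
      have hz : q.2.2 = q'.2.2 := (comps he).2.2
      exact Prod.ext (hst.injective hx) (Prod.ext hy hz)

end Pool.Agent.K1H61.LC
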