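import Pool.Agent.K1H61.LC.Iso2

/-!
# The smooth isotopy between the two knots: smoothness and image
-/

set_option autoImplicit false

open scoped ContDiff Topology
open Filter Set

namespace Pool.Agent.K1H61.LC

variable {B S M : ℝ}

/-- classification of the points of the upper knot by region -/
lemma regions (hB : 13 ≤ B) (hS : 0 < S) {q : E3} (hq : q ∈ Lp B S) :
    (q.1 < -7 ∨ B - 5 < q.1 ∨ q.2.2 < -5) ∨
    (-8 < q.1 ∧ q.1 < B - 1 ∧ q = pt B S (S + 1) 0 q.1) ∨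
    (-7 < q.1 ∧ -5 < q.2.2 ∧ q.2.2 < -1) := by
  by_cases hc : q.1 < -7 ∨ B - 5 < q.1 ∨ q.2.2 < -5
  · exact Or.inl hc
  · right
    rw [not_or, not_or, not_lt, not_lt, not_lt] at hc
    obtain ⟨c1, c2, c3⟩ := hc
    rcases (mem_Lp hS).1 hq with ⟨x, h1, h2, rfl⟩ | ⟨x, h1, h2, rfl⟩ | ⟨x, h1, h2, rfl⟩ |
      ⟨x, h1, h2, rfl⟩
    · left
      rw [pt_fst] at c1 c2 ⊢
      exact ⟨by linarith, by linarith, rfl⟩
    · exfalso
      rw [pt_fst] at c1 c2
      have := (top1_z (S := S) hB h1 h2).2 (by linarith) (by linarith)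
      linarith
    · right
      rw [pt_fst] at c1 c2 ⊢
      have := top2_z hB hS h1 h2
      refine ⟨by linarith, by linarith, lt_of_le_of_ne this.2.1 fun h => ?_⟩
      have := this.2.2 h
      linarith
    · right
      rw [pt_fst] at c1 c2 ⊢
      have := top3_z hB hS h1 h2
      exact ⟨by linarith, by linarith, by linarith⟩

lemma s1_smooth : ContDiff ℝ ∞ s1 := by unfold s1; exact th_smooth.comp (by fun_prop)
lemma s2_smooth : ContDiff ℝ ∞ s2 := by unfold s2; exact th_smooth.comp (by fun_prop)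

lemma isOpen_A : IsOpen {q : E3 | -1 / 2 < q.2.2} :=
  isOpen_lt continuous_const (by fun_prop)
lemma isOpen_B : IsOpen {q : E3 | -7 < q.1 ∧ -5 < q.2.2 ∧ q.2.2 < -1} := by
  have h1 : IsOpen {q : E3 | -7 < q.1} := isOpen_lt continuous_const (by fun_prop)
  have h2 : IsOpen {q : E3 | -5 < q.2.2} := isOpen_lt continuous_const (by fun_prop)
  have h3 : IsOpen {q : E3 | q.2.2 < -1} := isOpen_lt (by fun_prop) continuous_const
  have : {q : E3 | -7 < q.1 ∧ -5 < q.2.2 ∧ q.2.2 < -1} =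
      {q : E3 | -7 < q.1} ∩ ({q : E3 | -5 < q.2.2} ∩ {q : E3 | q.2.2 < -1}) := by
    ext q; simp
  rw [this]
  exact h1.inter (h2.inter h3)
lemma isOpen_C (B : ℝ) : IsOpen {q : E3 | q.1 < -7 ∨ B - 5 < q.1 ∨ q.2.2 < -5} := by
  have h1 : IsOpen {q : E3 | q.1 < -7} := isOpen_lt (by fun_prop) continuous_const
  have h2 : IsOpen {q : E3 | B - 5 < q.1} := isOpen_lt continuous_const (by fun_prop)
  have h3 : IsOpen {q : E3 | q.2.2 < -5} := isOpen_lt (by fun_prop) continuous_const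
  have : {q : E3 | q.1 < -7 ∨ B - 5 < q.1 ∨ q.2.2 < -5} =
      {q : E3 | q.1 < -7} ∪ ({q : E3 | B - 5 < q.1} ∪ {q : E3 | q.2.2 < -5}) := by
    ext q; simp
  rw [this]
  exact h1.union (h2.union h3)

theorem Hm_smooth (hB : 13 ≤ B) (hS : 0 < S) (s : ℝ) {q : E3} (hq : q ∈ Lp B S) :
    ContDiffAt ℝ ∞ (fun p : ℝ × E3 => Hm B p.1 p.2) (s, q) := by
  have hsnd : Continuous (fun p : ℝ × E3 => p.2) := continuous_snd
  rcases regions hB hS hq with h | h | h
  · have : (fun p : ℝ × E3 => Hm B p.1 p.2) =ᶠ[𝓝 (s, q)] fun p => p.2 := by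
      have h1 := ((isOpen_C B).preimage hsnd).mem_nhds (x := (s, q)) h
      filter_upwards [h1] with p hp using Hm_id hB hp
    exact ContDiffAt.congr_of_eventuallyEq contDiffAt_snd this
  · have hz : -1 / 2 < q.2.2 := by
      rw [h.2.2, top0_mid hS h.1.le h.2.1.le]; norm_num
    have : (fun p : ℝ × E3 => Hm B p.1 p.2) =ᶠ[𝓝 (s, q)] fun p =>
        (Xs (s2 p.1) p.2.1, p.2.2.1 + Ys (s2 p.1) p.2.1, p.2.2.2 + Zs (s2 p.1) p.2.1) := by
      have h1 := (isOpen_A.preimage hsnd).mem_nhds (x := (s, q)) hz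
      filter_upwards [h1] with p hp using Hm_A hp
    refine ContDiffAt.congr_of_eventuallyEq (ContDiff.contDiffAt ?_) this
    have a1 : ContDiff ℝ ∞ (fun p : ℝ × E3 => s2 p.1) := s2_smooth.comp contDiff_fst
    have a2 : ContDiff ℝ ∞ (fun p : ℝ × E3 => p.2.1) := by fun_prop
    have a3 : ContDiff ℝ ∞ (fun p : ℝ × E3 => sg p.2.1) := sg_smooth.comp a2
    unfold Xs Ys Zs
    refine ContDiff.prodMk ?_ (ContDiff.prodMk ?_ ?_)
    · exact ((contDiff_const.sub a1).mul a2).add (a1.mul (xi_smooth.comp a3))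
    · exact (by fun_prop : ContDiff ℝ ∞ (fun p : ℝ × E3 => p.2.2.1)).add
        (a1.mul (yo_smooth.comp a3))
    · exact (by fun_prop : ContDiff ℝ ∞ (fun p : ℝ × E3 => p.2.2.2)).add
        ((a1.mul (zo_smooth.comp a3)).add ((a1.mul (contDiff_const.sub a1)).mul
          (Wn_smooth.comp a2)))
  · have : (fun p : ℝ × E3 => Hm B p.1 p.2) =ᶠ[𝓝 (s, q)] fun p =>
        (Psi B p.1 p.2.1, p.2.2.1, p.2.2.2) := by
      have h1 := (isOpen_B.preimage hsnd).mem_nhds (x := (s, q)) h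
      filter_upwards [h1] with p hp using Hm_B hp
    refine ContDiffAt.congr_of_eventuallyEq (ContDiff.contDiffAt ?_) this
    have a1 : ContDiff ℝ ∞ (fun p : ℝ × E3 => s1 p.1) := s1_smooth.comp contDiff_fst
    have a2 : ContDiff ℝ ∞ (fun p : ℝ × E3 => p.2.1) := by fun_prop
    unfold Psi
    refine ContDiff.prodMk ?_ (by fun_prop)
    exact a2.add ((contDiff_const.mul a1).mul (contDiff_const.sub
      (th_smooth.comp ((a2.add contDiff_const).div_const B))))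

/-! ### the differential along the knot -/

lemma tau_mid (hB : 13 ≤ B) (h : Bds M S) {x : ℝ} (h1 : -8 < x) (h2 : x < B - 1) :
    tau (mdl B S).φ (S + 1) (pt B S (S + 1) 0 x) = (1, 0, 0) := by
  have hS := h.S_pos
  have hA := mdl_ok hB h
  have hd : (S + 1, x) ∈ (mdl B S).dom 0 := (domTop0 hS x).2 ⟨by linarith, by linarith⟩
  have hm : ((S + 1, pt B S (S + 1) 0 x) : E4) ∈ (mdl B S).Sh 0 := ⟨hd, rfl, rfl⟩
  have hφ : (mdl B S).φ (S + 1, pt B S (S + 1) 0 x) = 0 := by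
    rw [hA.φ_eq hm]
    show (mdl B S).Ph 0 (S + 1, x) = 0
    simp only [Surf.Ph, Fin.sum_univ_seven, mdl]
    have f1 : bth 3 (fun u : ℝ × ℝ => e0 9 u.2) (S + 1, x) = 0 :=
      flat_bth (e0_flat (by show 1 < x + 9; linarith))
    have f2 : bth 1 (box S 0 S) (S + 1, x) = 0 :=
      flat_bth (box_top_flat hS (by show S < S + 1 + S; linarith))
    have f3 : bth 1 (fun u : ℝ × ℝ => e1 B u.2) (S + 1, x) = 0 :=
      flat_bth (e1_flat (by show 1 < B - x; linarith))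
    simp [f1, f2, f3]
  unfold tau
  rw [hφ, top0_mid hS h1.le h2.le]
  simp

lemma Hm_fderiv_id (hB : 13 ≤ B) {s : ℝ} {q : E3}
    (h : q.1 < -7 ∨ B - 5 < q.1 ∨ q.2.2 < -5) : fderiv ℝ (Hm B s) q = ContinuousLinearMap.id ℝ E3 := by
  have : Hm B s =ᶠ[𝓝 q] fun p => p := by
    filter_upwards [(isOpen_C B).mem_nhds h] with p hp using Hm_id hB hp
  rw [this.fderiv_eq]
  exact fderiv_fun_id

theorem Hm_imm (hB : 13 ≤ B) (h : Bds M S) (hB2 : 16 * M < B) (s : ℝ) {q : E3}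
    (hq : q ∈ Lp B S) (v : E3) (hv : v = tau (mdl B S).φ (S + 1) q) :
    fderiv ℝ (Hm B s) q v ≠ 0 := by
  have hS := h.S_pos
  have hgood := fun p hp => (mdl_ok hB h).good (p := p) hp
  have hv0 : v ≠ 0 := by rw [hv]; exact (slice_tau hgood (top_ev h) hq).1
  rcases regions hB hS hq with hr | hr | hr
  · rw [Hm_fderiv_id hB hr]; exact hv0
  · rw [hr.2.2, tau_mid hB h hr.1 hr.2.1] at hv
    have hz : -1 / 2 < q.2.2 := by
      rw [hr.2.2, top0_mid hS hr.1.le hr.2.1.le]; norm_num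
    have e : Hm B s =ᶠ[𝓝 q] fun p =>
        (Xs (s2 s) p.1, p.2.1 + Ys (s2 s) p.1, p.2.2 + Zs (s2 s) p.1) := by
      filter_upwards [isOpen_A.mem_nhds hz] with p hp using Hm_A hp
    rw [e.fderiv_eq, hv]
    have d1 : HasFDerivAt (fun p : E3 => p.1) (ContinuousLinearMap.fst ℝ ℝ (ℝ × ℝ)) q := hasFDerivAt_fst
    have d2 : HasFDerivAt (fun p : E3 => p.2.1) ((ContinuousLinearMap.fst ℝ ℝ ℝ).comp
        (ContinuousLinearMap.snd ℝ ℝ (ℝ × ℝ))) q := hasFDerivAt_fst.comp q hasFDerivAt_snd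
    have d3 : HasFDerivAt (fun p : E3 => p.2.2) ((ContinuousLinearMap.snd ℝ ℝ ℝ).comp
        (ContinuousLinearMap.snd ℝ ℝ (ℝ × ℝ))) q := hasFDerivAt_snd.comp q hasFDerivAt_snd
    have dX := (Xs_hasDerivAt (s2 s) q.1).hasFDerivAt.comp q d1
    have dY := (Ys_hasDerivAt (s2 s) q.1).hasFDerivAt.comp q d1
    have dZ := (Zs_hasDerivAt (s2 s) q.1).hasFDerivAt.comp q d1
    have dH : HasFDerivAt (fun p : E3 =>
        (Xs (s2 s) p.1, p.2.1 + Ys (s2 s) p.1, p.2.2 + Zs (s2 s) p.1)) _ q :=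
      dX.prodMk ((d2.add dY).prodMk (d3.add dZ))
    rw [dH.fderiv]
    intro h0
    have hreg := fam_reg (σ := s2 s) (u := q.1) (s2_bd s).1 (s2_bd s).2
    rw [(Xs_hasDerivAt (s2 s) q.1).deriv, (Ys_hasDerivAt (s2 s) q.1).deriv,
      (Zs_hasDerivAt (s2 s) q.1).deriv] at hreg
    have c := comps h0
    simp at c
    rcases hreg with h1 | h1 | h1
    · exact h1 c.1
    · apply h1
      rcases c.2.1 with h2 | h2
      · rw [h2]; ring
      · rw [show deriv yo (sg q.1) * (1 + 8 / 3 * deriv th ((q.1 + 3) / 6)) = 0 by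
          rcases h2 with h2 | h2
          · rw [h2]; ring
          · rw [h2]; ring]
        ring
    · exact h1 c.2.2
  · have e : Hm B s =ᶠ[𝓝 q] fun p => (Psi B s p.1, p.2.1, p.2.2) := by
      filter_upwards [isOpen_B.mem_nhds hr] with p hp using Hm_B hp
    rw [e.fderiv_eq]
    have d1 : HasFDerivAt (fun p : E3 => p.1) (ContinuousLinearMap.fst ℝ ℝ (ℝ × ℝ)) q := hasFDerivAt_fst
    have d2 : HasFDerivAt (fun p : E3 => p.2.1) ((ContinuousLinearMap.fst ℝ ℝ ℝ).comp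
        (ContinuousLinearMap.snd ℝ ℝ (ℝ × ℝ))) q := hasFDerivAt_fst.comp q hasFDerivAt_snd
    have d3 : HasFDerivAt (fun p : E3 => p.2.2) ((ContinuousLinearMap.snd ℝ ℝ ℝ).comp
        (ContinuousLinearMap.snd ℝ ℝ (ℝ × ℝ))) q := hasFDerivAt_snd.comp q hasFDerivAt_snd
    have dP := (Psi_hasDerivAt B s q.1).hasFDerivAt.comp q d1
    have dH : HasFDerivAt (fun p : E3 => (Psi B s p.1, p.2.1, p.2.2)) _ q :=
      dP.prodMk (d2.prodMk d3)
    rw [dH.fderiv]
    intro h0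
    have c := comps h0
    simp at c
    have hp := Psi_deriv_pos h hB2 s q.1
    apply hv0
    rcases c.1 with h1 | h1
    · exact Prod.ext h1 (Prod.ext c.2.1 c.2.2)
    · exact absurd h1 (by
        intro h2
        linarith)

end Pool.Agent.K1H61.LC
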