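import Pool.Agent.K1H61.LC.Iso3

/-!
# The smooth isotopy between the two knots: the image at negative times
-/

set_option autoImplicit false

open scoped ContDiff Topology
open Filter Set

namespace Pool.Agent.K1H61.LC

variable {B S M : ℝ}

lemma Fn_surj {y a : ℝ} (h0 : 0 ≤ y) (h1 : y ≤ a) (ha : 1 ≤ a) : ∃ v, 0 ≤ v ∧ v ≤ a ∧ Fn v = y := by
  have hc : ContinuousOn Fn (Icc 0 a) := Fn_smooth.continuous.continuousOn
  have := intermediate_value_Icc (by linarith : (0 : ℝ) ≤ a) hc
  rw [Fn_zero, Fn_ge ha] at this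
  obtain ⟨v, hv, hv2⟩ := this ⟨h0, h1⟩
  exact ⟨v, hv.1, hv.2, hv2⟩

lemma sg_surj {w : ℝ} (h : |w| ≤ 11) : ∃ u, |u| ≤ 3 ∧ sg u = w := by
  obtain ⟨h1, h2⟩ := abs_le.1 h
  have hc : ContinuousOn sg (Icc (-3) 3) := sg_smooth.continuous.continuousOn
  have := intermediate_value_Icc (by norm_num : (-3 : ℝ) ≤ 3) hc
  rw [sg_odd, sg_three] at this
  obtain ⟨v, hv, hv2⟩ := this ⟨h1, h2⟩
  exact ⟨v, abs_le.2 hv, hv2⟩

lemma sg_bd {u : ℝ} (h : |u| ≤ 3) : |sg u| ≤ 11 := by
  obtain ⟨h1, h2⟩ := abs_le.1 h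
  rw [abs_le]
  constructor
  · have := sg_strict.monotone h1
    rwa [sg_odd, sg_three] at this
  · have := sg_strict.monotone h2
    rwa [sg_three] at this

lemma Psi_surj (hB : 13 ≤ B) {s : ℝ} (hs : s1 s = 1) {c X : ℝ} (hc : B - 5 ≤ c) (h1 : 10 ≤ X)
    (h2 : X ≤ c) : ∃ x, -6 ≤ x ∧ x ≤ c ∧ Psi B s x = X := by
  have hcont : Continuous (Psi B s) := by
    unfold Psi
    have := th_smooth.continuous
    fun_prop
  have := intermediate_value_Icc (by linarith : (-6 : ℝ) ≤ c) hcont.continuousOn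
  rw [Psi_left (by linarith) (by norm_num), Psi_right (by linarith) hc, hs] at this
  obtain ⟨v, hv, hv2⟩ := this ⟨by linarith, h2⟩
  exact ⟨v, hv.1, hv.2, hv2⟩

lemma far0 (hS : 0 < S) {x : ℝ} (h : 3 ≤ |x|) :
    pt B S (S + 1) 0 x = pt B S (-S - 1) 0 x := by
  rw [top0 hS, bot0 hS, Fn_of_large (by linarith), yc_one (s := |x| - 2) (by linarith),
    zc_one (s := |x| - 2) (by linarith)]
  simp only [Prod.mk.injEq, true_and]
  constructor <;> ring

lemma shift2 (hB : 13 ≤ B) (h : Bds M S) (hB2 : 16 * M < B) {s : ℝ} (hs : s1 s = 1) {x : ℝ}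
    (h1 : -6 ≤ x) : pt B S (-S - 1) 2 (Psi B s x) =
      (Psi B s x, (pt B S (S + 1) 2 x).2.1, (pt B S (S + 1) 2 x).2.2) := by
  have hS := h.S_pos
  have hst := Psi_strict h hB2 s
  have hX : 10 ≤ Psi B s x := by
    have := hst.monotone h1
    rw [Psi_left (by linarith) (by norm_num), hs] at this
    linarith
  have key : yc 1 (Psi B s x - 10) = yc 1 (x + 6) ∧ zc 1 (Psi B s x - 10) = zc 1 (x + 6) := by
    rcases le_total x (-5) with h2 | h2
    · rw [Psi_left (by linarith) h2, hs, show x + 16 * 1 - 10 = x + 6 by ring]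
      exact ⟨rfl, rfl⟩
    · have := hst.monotone h2
      rw [Psi_left (by linarith) (le_refl _), hs] at this
      rw [yc_one (s := Psi B s x - 10) (by linarith), zc_one (s := Psi B s x - 10) (by linarith),
        yc_one (s := x + 6) (by linarith), zc_one (s := x + 6) (by linarith)]
      exact ⟨rfl, rfl⟩
  have key2 : yc 1 (B - Psi B s x) = yc 1 (B - x) ∧ zc 1 (B - Psi B s x) = zc 1 (B - x) := by
    rcases le_total (B - 5) x with h2 | h2
    · rw [Psi_right (by linarith) h2]; exact ⟨rfl, rfl⟩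
    · have := hst.monotone h2
      rw [Psi_right (by linarith) (le_refl _)] at this
      rw [yc_one (s := B - Psi B s x) (by linarith), zc_one (s := B - Psi B s x) (by linarith),
        yc_one (s := B - x) (by linarith), zc_one (s := B - x) (by linarith)]
      exact ⟨rfl, rfl⟩
  rw [top2 hS, bot2 hS, Fn_ge (show 1 ≤ Psi B s x by linarith),
    Fn_ge (show 1 ≤ Psi B s x - 8 by linarith), deriv_Fn_ge (show 1 ≤ Psi B s x - 8 by linarith),
    yc_one (s := Psi B s x + 6) (by linarith), zc_one (s := Psi B s x + 6) (by linarith),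
    yc_one (s := Psi B s x - 2) (by linarith), zc_one (s := Psi B s x - 2) (by linarith),
    show Psi B s x - 8 - 2 = Psi B s x - 10 by ring, key.1, key.2, key2.1, key2.2]
  simp only [Prod.mk.injEq, true_and]
  constructor <;> ring

lemma shift3 (hB : 13 ≤ B) (h : Bds M S) (hB2 : 16 * M < B) {s : ℝ} (hs : s1 s = 1) {x : ℝ}
    (h1 : -6 ≤ x) : pt B S (-S - 1) 3 (Psi B s x) =
      (Psi B s x, (pt B S (S + 1) 3 x).2.1, (pt B S (S + 1) 3 x).2.2) := by
  have hS := h.S_pos
  have hst := Psi_strict h hB2 s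
  have hX : 10 ≤ Psi B s x := by
    have := hst.monotone h1
    rw [Psi_left (by linarith) (by norm_num), hs] at this
    linarith
  have key : yc 1 (Psi B s x - 10) = yc 1 (x + 6) ∧ zc 1 (Psi B s x - 10) = zc 1 (x + 6) := by
    rcases le_total x (-5) with h2 | h2
    · rw [Psi_left (by linarith) h2, hs, show x + 16 * 1 - 10 = x + 6 by ring]
      exact ⟨rfl, rfl⟩
    · have := hst.monotone h2
      rw [Psi_left (by linarith) (le_refl _), hs] at this
      rw [yc_one (s := Psi B s x - 10) (by linarith), zc_one (s := Psi B s x - 10) (by linarith),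
        yc_one (s := x + 6) (by linarith), zc_one (s := x + 6) (by linarith)]
      exact ⟨rfl, rfl⟩
  have key2 : yc 1 (B + 4 - Psi B s x) = yc 1 (B + 4 - x) ∧
      zc 1 (B + 4 - Psi B s x) = zc 1 (B + 4 - x) := by
    rcases le_total (B - 5) x with h2 | h2
    · rw [Psi_right (by linarith) h2]; exact ⟨rfl, rfl⟩
    · have := hst.monotone h2
      rw [Psi_right (by linarith) (le_refl _)] at this
      rw [yc_one (s := B + 4 - Psi B s x) (by linarith), zc_one (s := B + 4 - Psi B s x) (by linarith),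
        yc_one (s := B + 4 - x) (by linarith), zc_one (s := B + 4 - x) (by linarith)]
      exact ⟨rfl, rfl⟩
  rw [top3 hS, bot3 hS,
    Fn_ge (show 1 ≤ Psi B s x - 8 by linarith), deriv_Fn_ge (show 1 ≤ Psi B s x - 8 by linarith),
    yc_one (s := Psi B s x + 6) (by linarith), zc_one (s := Psi B s x + 6) (by linarith),
    show Psi B s x - 8 - 2 = Psi B s x - 10 by ring, key.1, key.2, key2.1, key2.2]
  simp only [Prod.mk.injEq, true_and]
  constructor <;> ring

lemma zg_mem (hB : 13 ≤ B) (hS : 0 < S) {w : ℝ} (h0 : 0 ≤ w) (h1 : w ≤ 11) :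
    zg w ∈ Lm B S ∧ zg (-w) ∈ Lm B S := by
  rw [mem_Lm hS, mem_Lm hS]
  rcases le_or_gt w 8 with h8 | h8
  · rcases le_or_gt w 6 with h6 | h6
    · have e : xi w = 6 - Fn (w - 6) := xi_left (by linarith) (by linarith)
      have f0 := Fn_nonneg (w - 6)
      have f1 : Fn (w - 6) ≤ 6 := by
        have := (Fn_le_iff (v := w - 6) (a := 6) (by norm_num)).2
          (by rw [abs_le]; constructor <;> linarith)
        rwa [Fn_ge (v := 6) (by norm_num)] at this
      constructor
      · right; right; right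
        refine ⟨xi w, ⟨by linarith, ?_, by linarith⟩, zg4 hB hS h0 h6⟩
        rw [abs_of_neg (by linarith)]; linarith
      · right; right; right
        refine ⟨xi (-w), ⟨by rw [xi_odd]; linarith, ?_, by rw [xi_odd]; linarith⟩, zg4' hB hS h0 h6⟩
        rw [xi_odd, abs_of_neg (by linarith)]; linarith
    · have e : xi w = 6 - Fn (w - 6) := xi_left (by linarith) (by linarith)
      have f0 := Fn_nonneg (w - 6)
      have f1 : Fn (w - 6) ≤ 2 := by
        rw [← Fn_two]
        exact (Fn_le_iff (by norm_num)).2 (by rw [abs_le]; constructor <;> linarith)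
      constructor
      · right; right; left
        refine ⟨xi w, ⟨by linarith, ?_, ?_, by linarith⟩, zg3 hB hS h6.le h8⟩
        · rw [abs_of_pos (by linarith)]; linarith
        · rw [abs_of_neg (by linarith)]; linarith
      · right; right; left
        refine ⟨xi (-w), ⟨by rw [xi_odd]; linarith, ?_, ?_, by rw [xi_odd]; linarith⟩,
          zg3' hB hS h6.le h8⟩
        · rw [xi_odd, abs_of_neg (by linarith)]; linarith
        · rw [xi_odd, abs_of_neg (by linarith)]; linarith
  · rcases le_or_gt w 10 with h10 | h10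
    · have e : xi w = 2 + Fn (w - 10) := xi_right (by linarith)
      have f0 := Fn_nonneg (w - 10)
      have f1 : Fn (w - 10) ≤ 2 := by
        rw [← Fn_two]
        exact (Fn_le_iff (by norm_num)).2 (by rw [abs_le]; constructor <;> linarith)
      constructor
      · right; right; left
        refine ⟨xi w, ⟨by linarith, ?_, ?_, by linarith⟩, zg2 hB hS h8.le h10⟩
        · rw [abs_of_pos (by linarith)]; linarith
        · rw [abs_of_neg (by linarith)]; linarith
      · right; right; left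
        refine ⟨xi (-w), ⟨by rw [xi_odd]; linarith, ?_, ?_, by rw [xi_odd]; linarith⟩,
          zg2' hB hS h8.le h10⟩
        · rw [xi_odd, abs_of_neg (by linarith)]; linarith
        · rw [xi_odd, abs_of_neg (by linarith)]; linarith
    · have e : xi w = 2 + Fn (w - 10) := xi_right (by linarith)
      have f0 := Fn_nonneg (w - 10)
      have f1 : Fn (w - 10) ≤ 1 := Fn_le_one (by rw [abs_le]; constructor <;> linarith)
      constructor
      · left
        refine ⟨xi w, ⟨by linarith, ?_, by linarith⟩, zg1 hB hS h10.le h1⟩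
        rw [abs_of_pos (by linarith)]; linarith
      · left
        refine ⟨xi (-w), ⟨by rw [xi_odd]; linarith, ?_, by rw [xi_odd]; linarith⟩,
          zg1' hB hS h10.le h1⟩
        rw [xi_odd, abs_of_neg (by linarith)]; linarith

lemma zg_mem' (hB : 13 ≤ B) (hS : 0 < S) {w : ℝ} (h : |w| ≤ 11) : zg w ∈ Lm B S := by
  obtain ⟨h1, h2⟩ := abs_le.1 h
  rcases le_total 0 w with h3 | h3
  · exact (zg_mem hB hS h3 h2).1
  · have := (zg_mem (B := B) (S := S) hB hS (w := -w) (by linarith) (by linarith)).2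
    rwa [neg_neg] at this

theorem Hm_image (hB : 13 ≤ B) (h : Bds M S) (hB2 : 16 * M < B) {s : ℝ} (hs : s ≤ -2) :
    Hm B s '' Lp B S = Lm B S := by
  have hS := h.S_pos
  have e1 : s1 s = 1 := th_one (by linarith)
  have e2 : s2 s = 1 := th_one (by linarith)
  have hst := Psi_strict h hB2 s
  -- action on the middle part of sheet 0
  have mid : ∀ u : ℝ, |u| ≤ 3 → Hm B s (pt B S (S + 1) 0 u) = zg (sg u) := by
    intro u hu
    obtain ⟨h1, h2⟩ := abs_le.1 hu
    have e := top0_mid (B := B) hS (show -8 ≤ u by linarith) (show u ≤ B - 1 by linarith)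
    rw [Hm_kind0 hB (fun _ _ => by rw [e]; exact ⟨rfl, rfl⟩), e, e2]
    unfold Xs Ys Zs zg
    simp
  have out : ∀ x : ℝ, 3 ≤ |x| → Hm B s (pt B S (S + 1) 0 x) = pt B S (S + 1) 0 x := by
    intro x hx
    have hm : -8 ≤ (pt B S (S + 1) 0 x).1 → (pt B S (S + 1) 0 x).1 ≤ B - 1 →
        (pt B S (S + 1) 0 x).2.1 = 0 ∧ (pt B S (S + 1) 0 x).2.2 = 0 := by
      intro h3 h4
      have h5 : (-8 : ℝ) ≤ x := h3
      have h6 : x ≤ B - 1 := h4
      rw [top0_mid hS h5 h6]; exact ⟨rfl, rfl⟩
    rw [Hm_kind0 hB hm]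
    have hx' : 3 ≤ |(pt B S (S + 1) 0 x).1| := hx
    rw [Xs_far _ hx', Ys_far _ hx', Zs_far _ hx', add_zero, add_zero]
  have a1 : ∀ x, -9 ≤ x → x ≤ B + 4 → Hm B s (pt B S (S + 1) 1 x) = pt B S (-S - 1) 1 x := by
    intro x h1 h2
    rw [Hm_kind1 hB (top1_z hB h1 h2).2, pt1 (S + 1) (-S - 1)]
  have a2 : ∀ x, -6 ≤ x → x ≤ B → Hm B s (pt B S (S + 1) 2 x) = pt B S (-S - 1) 2 (Psi B s x) := by
    intro x h1 h2
    have := top2_z hB hS h1 h2
    rw [Hm_kind2 hB h1 (by linarith [this.1]) this.2.1 this.2.2, shift2 hB h hB2 e1 h1]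
    rfl
  have a3 : ∀ x, -6 ≤ x → x ≤ B + 4 →
      Hm B s (pt B S (S + 1) 3 x) = pt B S (-S - 1) 3 (Psi B s x) := by
    intro x h1 h2
    have := top3_z hB hS h1 h2
    rw [Hm_kind2 hB h1 this.1 (by linarith [this.2]) (fun h => by linarith [this.2]),
      shift3 hB h hB2 e1 h1]
    rfl
  have hP6 : Psi B s (-6) = 10 := by
    rw [Psi_left (by linarith) (by norm_num), e1]; norm_num
  apply Subset.antisymm
  · rintro _ ⟨q, hq, rfl⟩
    rcases (mem_Lp hS).1 hq with ⟨x, h1, h2, rfl⟩ | ⟨x, h1, h2, rfl⟩ | ⟨x, h1, h2, rfl⟩ |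
      ⟨x, h1, h2, rfl⟩
    · rcases le_or_gt 3 |x| with h3 | h3
      · rw [out x h3, far0 hS h3]
        exact (mem_Lm hS).2 (Or.inl ⟨x, ⟨h1, by linarith, h2⟩, rfl⟩)
      · rw [mid x h3.le]
        exact zg_mem' hB hS (sg_bd h3.le)
    · rw [a1 x h1 h2]
      exact (mem_Lm hS).2 (Or.inr (Or.inl ⟨x, ⟨h1, h2⟩, rfl⟩))
    · rw [a2 x h1 h2]
      have g1 := hst.monotone h1
      have g2 := hst.monotone h2
      rw [hP6] at g1
      rw [Psi_right (x := B) (by linarith) (by linarith)] at g2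
      refine (mem_Lm hS).2 (Or.inr (Or.inr (Or.inl ⟨Psi B s x, ⟨by linarith, ?_, ?_, g2⟩, rfl⟩)))
      · rw [abs_of_pos (by linarith)]; linarith
      · rw [abs_of_pos (by linarith)]; linarith
    · rw [a3 x h1 h2]
      have g1 := hst.monotone h1
      have g2 := hst.monotone h2
      rw [hP6] at g1
      rw [Psi_right (x := B + 4) (by linarith) (by linarith)] at g2
      refine (mem_Lm hS).2 (Or.inr (Or.inr (Or.inr ⟨Psi B s x, ⟨by linarith, ?_, g2⟩, rfl⟩)))
      rw [abs_of_pos (by linarith)]; linarith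
  · intro q hq
    -- the zigzag points are in the image
    have zs : ∀ w : ℝ, |w| ≤ 11 → zg w ∈ Hm B s '' Lp B S := by
      intro w hw
      obtain ⟨u, hu, rfl⟩ := sg_surj hw
      obtain ⟨h1, h2⟩ := abs_le.1 hu
      refine ⟨pt B S (S + 1) 0 u, (mem_Lp hS).2 (Or.inl ⟨u, by linarith, by linarith, rfl⟩), ?_⟩
      exact mid u hu
    have zs' : ∀ w : ℝ, 0 ≤ w → w ≤ 11 → zg w ∈ Hm B s '' Lp B S ∧ zg (-w) ∈ Hm B s '' Lp B S := by
      intro w h0 h1
      refine ⟨zs w (by rw [abs_of_nonneg h0]; exact h1), zs (-w) ?_⟩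
      rw [abs_neg, abs_of_nonneg h0]; exact h1
    -- points over 2 ≤ |x| ≤ 6 on sheet 2
    have p2 : ∀ x : ℝ, 2 ≤ x → x ≤ 6 → pt B S (-S - 1) 2 x ∈ Hm B s '' Lp B S ∧
        pt B S (-S - 1) 2 (-x) ∈ Hm B s '' Lp B S := by
      intro x h1 h2
      rcases le_total x 4 with h3 | h3
      · obtain ⟨v, v0, v1, v2⟩ := Fn_surj (y := x - 2) (a := 2) (by linarith) (by linarith)
          (by norm_num)
        have e : xi (10 - v) = x := by
          rw [xi_right (by linarith), show 10 - v - 10 = -v by ring, Fn_even, v2]; ring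
        have g := zs' (10 - v) (by linarith) (by linarith)
        rw [zg2 hB hS (by linarith) (by linarith), zg2' hB hS (by linarith) (by linarith), xi_odd,
          e] at g
        exact g
      · obtain ⟨v, v0, v1, v2⟩ := Fn_surj (y := 6 - x) (a := 2) (by linarith) (by linarith)
          (by norm_num)
        have e : xi (6 + v) = x := by
          rw [xi_left (by linarith) (by linarith), show 6 + v - 6 = v by ring, v2]; ring
        have g := zs' (6 + v) (by linarith) (by linarith)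
        rw [zg3 hB hS (by linarith) (by linarith), zg3' hB hS (by linarith) (by linarith), xi_odd,
          e] at g
        exact g
    have p0 : ∀ x : ℝ, 2 ≤ x → x ≤ 3 → pt B S (-S - 1) 0 x ∈ Hm B s '' Lp B S ∧
        pt B S (-S - 1) 0 (-x) ∈ Hm B s '' Lp B S := by
      intro x h1 h2
      obtain ⟨v, v0, v1, v2⟩ := Fn_surj (y := x - 2) (a := 1) (by linarith) (by linarith)
        (by norm_num)
      have e : xi (10 + v) = x := by
        rw [xi_right (by linarith), show 10 + v - 10 = v by ring, v2]; ring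
      have g := zs' (10 + v) (by linarith) (by linarith)
      rw [zg1 hB hS (by linarith) (by linarith), zg1' hB hS (by linarith) (by linarith), xi_odd,
        e] at g
      exact g
    have p3 : ∀ x : ℝ, 0 ≤ x → x ≤ 6 → pt B S (-S - 1) 3 x ∈ Hm B s '' Lp B S ∧
        pt B S (-S - 1) 3 (-x) ∈ Hm B s '' Lp B S := by
      intro x h1 h2
      obtain ⟨v, v0, v1, v2⟩ := Fn_surj (y := 6 - x) (a := 6) (by linarith) (by linarith)
        (by norm_num)
      have e : xi (6 - v) = x := by
        rw [xi_left (by linarith) (by linarith), show 6 - v - 6 = -v by ring, Fn_even, v2]; ring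
      have g := zs' (6 - v) (by linarith) (by linarith)
      rw [zg4 hB hS (by linarith) (by linarith), zg4' hB hS (by linarith) (by linarith), xi_odd,
        e] at g
      exact g
    rcases (mem_Lm hS).1 hq with ⟨x, ⟨h1, h2, h3⟩, rfl⟩ | ⟨x, ⟨h1, h2⟩, rfl⟩ |
      ⟨x, ⟨h1, h2, h3, h4⟩, rfl⟩ | ⟨x, ⟨h1, h2, h3⟩, rfl⟩
    · rcases le_or_gt 3 |x| with h5 | h5
      · refine ⟨pt B S (S + 1) 0 x, (mem_Lp hS).2 (Or.inl ⟨x, h1, h3, rfl⟩), ?_⟩
        rw [out x h5, far0 hS h5]
      · rcases le_abs.1 h2 with h6 | h6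
        · exact (p0 x h6 (by linarith [(abs_lt.1 h5).2])).1
        · have := (p0 (-x) h6 (by linarith [(abs_lt.1 h5).1])).2
          rwa [neg_neg] at this
    · exact ⟨pt B S (S + 1) 1 x, (mem_Lp hS).2 (Or.inr (Or.inl ⟨x, h1, h2, rfl⟩)), a1 x h1 h2⟩
    · rcases le_abs.1 h2 with h6 | h6
      · rcases le_abs.1 h3 with h7 | h7
        · obtain ⟨x0, g1, g2, g3⟩ := Psi_surj hB e1 (c := B) (by linarith)
            (show 10 ≤ x by linarith) h4
          refine ⟨pt B S (S + 1) 2 x0, (mem_Lp hS).2 (Or.inr (Or.inr (Or.inl ⟨x0, g1, g2, rfl⟩))), ?_⟩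
          rw [a2 x0 g1 g2, g3]
        · exact (p2 x h6 (by linarith)).1
      · have := (p2 (-x) h6 (by linarith)).2
        rwa [neg_neg] at this
    · rcases le_abs.1 h2 with h7 | h7
      · obtain ⟨x0, g1, g2, g3⟩ := Psi_surj hB e1 (c := B + 4) (by linarith)
          (show 10 ≤ x by linarith) h3
        refine ⟨pt B S (S + 1) 3 x0, (mem_Lp hS).2 (Or.inr (Or.inr (Or.inr ⟨x0, g1, g2, rfl⟩))), ?_⟩
        rw [a3 x0 g1 g2, g3]
      · rcases le_total 0 x with h6 | h6
        · exact (p3 x h6 (by linarith)).1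
        · have := (p3 (-x) (by linarith) (by linarith)).2
          rwa [neg_neg] at this

end Pool.Agent.K1H61.LC
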