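import Pool.Agent.K1H61.LC.Defs

/-!
# Local models of Lagrangian surfaces
-/

set_option autoImplicit false

open scoped ContDiff Topology
open Filter Set

namespace Pool.Agent.K1H61.LC

/-- projection to the coordinates `(t, x)` -/
def pr (q : E4) : ℝ × ℝ := (q.1, q.2.1)

lemma pr_smooth : ContDiff ℝ ∞ pr := by unfold pr; fun_prop

/-- The local conditions for a graded exact Lagrangian surface. -/
structure Good (L : Set E4) (f φ : E4 → ℝ) (p : E4) : Prop where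
  sub : ∃ (U : Set E4) (F : E4 → ℝ × ℝ), IsOpen U ∧ p ∈ U ∧ ContDiffOn ℝ ∞ F U ∧
    (∀ q ∈ U, q ∈ L ↔ F q = 0) ∧ Function.Surjective (fderiv ℝ F p)
  lag : ∀ v w, IsTangent L p v → IsTangent L p w → omega p v w = 0
  phase : ∀ v w, IsTangent L p v → IsTangent L p w →
    (Complex.exp (-(φ p : ℂ) * Complex.I) * cvol p v w).im = 0
  prim : ∀ (c : ℝ → E4) (v : E4), c 0 = p → (∀ᶠ s in 𝓝 (0 : ℝ), c s ∈ L) → HasDerivAt c v 0 →
    HasDerivAt (fun s => f (c s)) (Real.exp p.1 * alpha p.2 v.2) 0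

/-- the linear form `(a, b) ↦ A a + B b` -/
noncomputable def lin (A B : ℝ) : ℝ × ℝ →L[ℝ] ℝ :=
  A • ContinuousLinearMap.fst ℝ ℝ ℝ + B • ContinuousLinearMap.snd ℝ ℝ ℝ

@[simp] lemma lin_apply (A B : ℝ) (v : ℝ × ℝ) : lin A B v = A * v.1 + B * v.2 := by
  simp [lin]

lemma curve_pr {c : ℝ → E4} {v : E4} (h : HasDerivAt c v 0) :
    HasDerivAt (fun s => pr (c s)) (v.1, v.2.1) 0 :=
  h.fst.prodMk h.snd.fst

theorem good_of_graph {L : Set E4} {f φ : E4 → ℝ} {p : E4} {V : Set (ℝ × ℝ)} (hV : IsOpen V)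
    (hpV : pr p ∈ V) {Y Z Q : ℝ × ℝ → ℝ} (hY : ContDiffOn ℝ ∞ Y V) (hZ : ContDiffOn ℝ ∞ Z V)
    {Yt Yx Zt Zx Qt Qx : ℝ} (hY' : HasFDerivAt Y (lin Yt Yx) (pr p))
    (hZ' : HasFDerivAt Z (lin Zt Zx) (pr p)) (hQ' : HasFDerivAt Q (lin Qt Qx) (pr p))
    (hL : ∀ᶠ q in 𝓝 p, q ∈ L ↔ q.2.2.1 = Y (pr q) ∧ q.2.2.2 = Z (pr q))
    (hp : p ∈ L)
    (hf : ∀ᶠ q in 𝓝 p, q ∈ L → f q = Real.exp q.1 * Q (pr q))
    (e1 : Zx = Y (pr p) + Yt) (e2 : Qt = Zt - Q (pr p)) (e3 : Qx = Yt)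
    (hφ : (Complex.exp (-(φ p : ℂ) * Complex.I) *
      ((1 + (Zt : ℂ) * Complex.I) * (1 + (Yx : ℂ) * Complex.I) + (Yt : ℂ) ^ 2)).im = 0) :
    Good L f φ p := by
  have hpY : p.2.2.1 = Y (pr p) := (hL.self_of_nhds.1 hp).1
  -- tangent vectors
  have key : ∀ (c : ℝ → E4) (v : E4), c 0 = p → (∀ᶠ s in 𝓝 (0 : ℝ), c s ∈ L) → HasDerivAt c v 0 →
      v.2.2.1 = Yt * v.1 + Yx * v.2.1 ∧ v.2.2.2 = Zt * v.1 + Zx * v.2.1 := by
    intro c v h0 hc hd
    have hcont : Tendsto c (𝓝 0) (𝓝 p) := by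
      have := hd.continuousAt.tendsto
      rwa [h0] at this
    have hL' := hcont.eventually hL
    have ey : (fun s => (c s).2.2.1) =ᶠ[𝓝 0] fun s => Y (pr (c s)) := by
      filter_upwards [hc, hL'] with s h1 h2 using (h2.1 h1).1
    have ez : (fun s => (c s).2.2.2) =ᶠ[𝓝 0] fun s => Z (pr (c s)) := by
      filter_upwards [hc, hL'] with s h1 h2 using (h2.1 h1).2
    have hpr := curve_pr hd
    have dY : HasDerivAt (fun s => Y (pr (c s))) (lin Yt Yx (v.1, v.2.1)) 0 := by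
      have : HasFDerivAt Y (lin Yt Yx) (pr (c 0)) := by rw [h0]; exact hY'
      exact this.comp_hasDerivAt 0 hpr
    have dZ : HasDerivAt (fun s => Z (pr (c s))) (lin Zt Zx (v.1, v.2.1)) 0 := by
      have : HasFDerivAt Z (lin Zt Zx) (pr (c 0)) := by rw [h0]; exact hZ'
      exact this.comp_hasDerivAt 0 hpr
    have d1 : HasDerivAt (fun s => (c s).2.2.1) v.2.2.1 0 := hd.snd.snd.fst
    have d2 : HasDerivAt (fun s => (c s).2.2.2) v.2.2.2 0 := hd.snd.snd.snd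
    constructor
    · have := d1.unique (dY.congr_of_eventuallyEq ey)
      simpa using this
    · have := d2.unique (dZ.congr_of_eventuallyEq ez)
      simpa using this
  have alph : ∀ (v : E4), v.2.2.2 = Zt * v.1 + Zx * v.2.1 →
      alpha p.2 v.2 = Zt * v.1 + Yt * v.2.1 := by
    intro v hv
    simp only [alpha]
    rw [hv, hpY, e1]; ring
  refine ⟨?_, ?_, ?_, ?_⟩
  · obtain ⟨U, hU, hUo, hpU⟩ := eventually_nhds_iff.1 hL
    refine ⟨U ∩ pr ⁻¹' V, fun q => (q.2.2.1 - Y (pr q), q.2.2.2 - Z (pr q)),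
      hUo.inter (hV.preimage pr_smooth.continuous), ⟨hpU, hpV⟩, ?_, ?_, ?_⟩
    · have h1 : ContDiffOn ℝ ∞ (fun q : E4 => Y (pr q)) (U ∩ pr ⁻¹' V) :=
        hY.comp pr_smooth.contDiffOn (fun q hq => hq.2)
      have h2 : ContDiffOn ℝ ∞ (fun q : E4 => Z (pr q)) (U ∩ pr ⁻¹' V) :=
        hZ.comp pr_smooth.contDiffOn (fun q hq => hq.2)
      exact ((by fun_prop : ContDiff ℝ ∞ (fun q : E4 => q.2.2.1)).contDiffOn.sub h1).prodMk
        ((by fun_prop : ContDiff ℝ ∞ (fun q : E4 => q.2.2.2)).contDiffOn.sub h2)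
    · intro q hq
      rw [hU q hq.1]
      simp only [Prod.mk_eq_zero, sub_eq_zero]
    · have dpr : HasFDerivAt pr ((ContinuousLinearMap.fst ℝ ℝ E3).prod
          ((ContinuousLinearMap.fst ℝ ℝ (ℝ × ℝ)).comp (ContinuousLinearMap.snd ℝ ℝ E3))) p := by
        exact hasFDerivAt_fst.prodMk (hasFDerivAt_fst.comp p hasFDerivAt_snd)
      have dy : HasFDerivAt (fun q : E4 => q.2.2.1) ((ContinuousLinearMap.fst ℝ ℝ ℝ).comp
          ((ContinuousLinearMap.snd ℝ ℝ (ℝ × ℝ)).comp (ContinuousLinearMap.snd ℝ ℝ E3))) p :=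
        hasFDerivAt_fst.comp p (hasFDerivAt_snd.comp p hasFDerivAt_snd)
      have dz : HasFDerivAt (fun q : E4 => q.2.2.2) ((ContinuousLinearMap.snd ℝ ℝ ℝ).comp
          ((ContinuousLinearMap.snd ℝ ℝ (ℝ × ℝ)).comp (ContinuousLinearMap.snd ℝ ℝ E3))) p :=
        hasFDerivAt_snd.comp p (hasFDerivAt_snd.comp p hasFDerivAt_snd)
      have hF := (dy.sub (hY'.comp p dpr)).prodMk (dz.sub (hZ'.comp p dpr))
      have hF' : HasFDerivAt (fun q : E4 => (q.2.2.1 - Y (pr q), q.2.2.2 - Z (pr q))) _ p := hF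
      rw [hF'.fderiv]
      rintro ⟨a, b⟩
      refine ⟨(0, 0, a, b), ?_⟩
      simp
  · rintro v w ⟨c, h0, hc, hd⟩ ⟨c', h0', hc', hd'⟩
    obtain ⟨hy, hz⟩ := key c v h0 hc hd
    obtain ⟨hy', hz'⟩ := key c' w h0' hc' hd'
    simp only [omega]
    rw [alph v hz, alph w hz', hy, hy']
    ring
  · rintro v w ⟨c, h0, hc, hd⟩ ⟨c', h0', hc', hd'⟩
    obtain ⟨hy, hz⟩ := key c v h0 hc hd
    obtain ⟨hy', hz'⟩ := key c' w h0' hc' hd'
    have : cvol p v w = ((v.1 * w.2.1 - w.1 * v.2.1 : ℝ) : ℂ) *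
        ((1 + (Zt : ℂ) * Complex.I) * (1 + (Yx : ℂ) * Complex.I) + (Yt : ℂ) ^ 2) := by
      simp only [cvol]
      rw [alph v hz, alph w hz', hy, hy']
      push_cast
      linear_combination (-(Yt : ℂ) ^ 2 * (v.1 * w.2.1 - w.1 * v.2.1)) * Complex.I_sq
    rw [this, mul_left_comm, Complex.im_ofReal_mul, hφ, mul_zero]
  · intro c v h0 hc hd
    obtain ⟨hy, hz⟩ := key c v h0 hc hd
    have hcont : Tendsto c (𝓝 0) (𝓝 p) := by
      have := hd.continuousAt.tendsto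
      rwa [h0] at this
    have hf' := hcont.eventually hf
    have ef : (fun s => f (c s)) =ᶠ[𝓝 0] fun s => Real.exp (c s).1 * Q (pr (c s)) := by
      filter_upwards [hc, hf'] with s h1 h2 using h2 h1
    have dQ : HasDerivAt (fun s => Q (pr (c s))) (lin Qt Qx (v.1, v.2.1)) 0 := by
      have : HasFDerivAt Q (lin Qt Qx) (pr (c 0)) := by rw [h0]; exact hQ'
      exact this.comp_hasDerivAt 0 (curve_pr hd)
    have d1 : HasDerivAt (fun s => (c s).1) v.1 0 := hd.fst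
    have de : HasDerivAt (fun s => Real.exp (c s).1) (Real.exp (c 0).1 * v.1) 0 := d1.exp
    have := (de.mul dQ).congr_of_eventuallyEq ef
    refine this.congr_deriv ?_
    rw [alph v hz, h0]
    simp only [lin_apply]
    rw [e2, e3]; ring

/-- partial derivative with respect to the first variable `t` -/
noncomputable def dt (r : ℝ × ℝ → ℝ) (p : ℝ × ℝ) : ℝ := fderiv ℝ r p (1, 0)

/-- partial derivative with respect to the second variable `x` -/
noncomputable def dx (r : ℝ × ℝ → ℝ) (p : ℝ × ℝ) : ℝ := fderiv ℝ r p (0, 1)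

lemma dt_smooth {r : ℝ × ℝ → ℝ} (hr : ContDiff ℝ ∞ r) : ContDiff ℝ ∞ (dt r) :=
  (hr.fderiv_right (by simp)).clm_apply contDiff_const

lemma dx_smooth {r : ℝ × ℝ → ℝ} (hr : ContDiff ℝ ∞ r) : ContDiff ℝ ∞ (dx r) :=
  (hr.fderiv_right (by simp)).clm_apply contDiff_const

lemma fderiv_eq_lin (r : ℝ × ℝ → ℝ) (p : ℝ × ℝ) : fderiv ℝ r p = lin (dt r p) (dx r p) := by
  ext <;> simp [dt, dx]

lemma hasFDerivAt_lin {r : ℝ × ℝ → ℝ} {p : ℝ × ℝ} (hr : DifferentiableAt ℝ r p) :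
    HasFDerivAt r (lin (dt r p) (dx r p)) p := by
  rw [← fderiv_eq_lin]; exact hr.hasFDerivAt

lemma eq_dt_of_hasFDerivAt {r : ℝ × ℝ → ℝ} {p : ℝ × ℝ} {A B : ℝ} (h : HasFDerivAt r (lin A B) p) :
    dt r p = A ∧ dx r p = B := by
  constructor <;> simp [dt, dx, h.fderiv]

theorem good_of_fold {L : Set E4} {f φ : E4 → ℝ} {p : E4} {r : ℝ × ℝ → ℝ} (hr : ContDiff ℝ ∞ r)
    {κ m : ℝ} (hκ : κ ≠ 0) (hy : p.2.2.1 = 0) (hz : p.2.2.2 = m) (hr0 : r (pr p) = 0)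
    (hne : 0 < dx r (pr p) ^ 2 + dt r (pr p) ^ 2)
    (hL : ∀ᶠ q in 𝓝 p, q ∈ L ↔ ∃ η : ℝ, η ^ 2 = r (pr q) ∧ q.2.2.1 = 3 / 2 * κ * η * dx r (pr q) ∧
      q.2.2.2 = m + κ * η ^ 3 + 3 / 2 * κ * η * dt r (pr q))
    (hf : ∀ᶠ q in 𝓝 p, ∀ η : ℝ, η ^ 2 = r (pr q) → q.2.2.1 = 3 / 2 * κ * η * dx r (pr q) →
      q.2.2.2 = m + κ * η ^ 3 + 3 / 2 * κ * η * dt r (pr q) →
      f q = Real.exp q.1 * (3 / 2 * κ * η * dt r (pr q)))
    (hφ : (Complex.exp (-(φ p : ℂ) * Complex.I) * Complex.I).im = 0) :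
    Good L f φ p := by
  set B2 : E4 → ℝ := fun q => dt r (pr q) + 2 / 3 * r (pr q) with hB2
  set N : E4 → ℝ := fun q => dx r (pr q) ^ 2 + B2 q ^ 2 with hN
  set u : E4 → ℝ := fun q => q.2.2.1 * dx r (pr q) + (q.2.2.2 - m) * B2 q with hu
  set e : E4 → ℝ := fun q => (2 / (3 * κ) * u q) * (N q)⁻¹ with he
  set G : E4 → ℝ := fun q => q.2.2.1 * B2 q - (q.2.2.2 - m) * dx r (pr q) with hG
  set F : E4 → ℝ × ℝ := fun q => (e q ^ 2 - r (pr q), G q) with hF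
  have sdx : ContDiff ℝ ∞ (fun q => dx r (pr q)) := (dx_smooth hr).comp pr_smooth
  have sdt : ContDiff ℝ ∞ (fun q => dt r (pr q)) := (dt_smooth hr).comp pr_smooth
  have sr : ContDiff ℝ ∞ (fun q => r (pr q)) := hr.comp pr_smooth
  have sB2 : ContDiff ℝ ∞ B2 := sdt.add (contDiff_const.mul sr)
  have sN : ContDiff ℝ ∞ N := (sdx.pow 2).add (sB2.pow 2)
  have sy : ContDiff ℝ ∞ (fun q : E4 => q.2.2.1) := by fun_prop
  have sz : ContDiff ℝ ∞ (fun q : E4 => q.2.2.2 - m) := by fun_prop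
  have su : ContDiff ℝ ∞ u := (sy.mul sdx).add (sz.mul sB2)
  have sG : ContDiff ℝ ∞ G := (sy.mul sB2).sub (sz.mul sdx)
  have hB2p : B2 p = dt r (pr p) := by simp [hB2, hr0]
  have hNp : N p ≠ 0 := by
    simp only [hN, hB2p]; exact hne.ne'
  have hup : u p = 0 := by simp [hu, hy, hz]
  have hep : e p = 0 := by simp [he, hup]
  have alg : ∀ q, N q ≠ 0 → ∀ η : ℝ, (η ^ 2 = r (pr q) ∧ q.2.2.1 = 3 / 2 * κ * η * dx r (pr q) ∧
      q.2.2.2 = m + κ * η ^ 3 + 3 / 2 * κ * η * dt r (pr q)) → η = e q ∧ F q = 0 := by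
    rintro q hNq η ⟨h1, h2, h3⟩
    have h4 : q.2.2.2 - m = 3 / 2 * κ * η * B2 q := by
      simp only [hB2]; rw [h3, ← h1]; ring
    have h5 : u q = 3 / 2 * κ * η * N q := by
      simp only [hu, h4, h2, hN]; ring
    have h6 : e q = η := by
      simp only [he, h5]; field_simp
    refine ⟨h6.symm, ?_⟩
    simp only [hF, hG, h6, h1, h4, h2, Prod.mk_eq_zero]
    constructor <;> ring
  have alg2 : ∀ q, N q ≠ 0 → F q = 0 → (e q ^ 2 = r (pr q) ∧
      q.2.2.1 = 3 / 2 * κ * e q * dx r (pr q) ∧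
      q.2.2.2 = m + κ * e q ^ 3 + 3 / 2 * κ * e q * dt r (pr q)) := by
    intro q hNq hFq
    simp only [hF, hG, Prod.mk_eq_zero] at hFq
    obtain ⟨h1, h2⟩ := hFq
    have h3 : 3 / 2 * κ * e q * N q = u q := by
      simp only [he]; field_simp
    have h4 : (q.2.2.1 - 3 / 2 * κ * e q * dx r (pr q)) * N q = 0 := by
      have : (q.2.2.1 - 3 / 2 * κ * e q * dx r (pr q)) * N q =
        q.2.2.1 * N q - (3 / 2 * κ * e q * N q) * dx r (pr q) := by ring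
      rw [this, h3]
      simp only [hN, hu]
      linear_combination B2 q * h2
    have h5 : (q.2.2.2 - m - 3 / 2 * κ * e q * B2 q) * N q = 0 := by
      have : (q.2.2.2 - m - 3 / 2 * κ * e q * B2 q) * N q =
        (q.2.2.2 - m) * N q - (3 / 2 * κ * e q * N q) * B2 q := by ring
      rw [this, h3]
      simp only [hN, hu]
      linear_combination -(dx r (pr q)) * h2
    have h6 := (mul_eq_zero.1 h4).resolve_right hNq
    have h7 := (mul_eq_zero.1 h5).resolve_right hNq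
    refine ⟨by linarith, by linarith, ?_⟩
    have h8 : B2 q = dt r (pr q) + 2 / 3 * e q ^ 2 := by
      simp only [hB2]; rw [show r (pr q) = e q ^ 2 by linarith]
    rw [h8] at h7
    linear_combination h7
  -- derivatives
  have dpr : HasFDerivAt pr ((ContinuousLinearMap.fst ℝ ℝ E3).prod
      ((ContinuousLinearMap.fst ℝ ℝ (ℝ × ℝ)).comp (ContinuousLinearMap.snd ℝ ℝ E3))) p := by
    exact hasFDerivAt_fst.prodMk (hasFDerivAt_fst.comp p hasFDerivAt_snd)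
  have dy : HasFDerivAt (fun q : E4 => q.2.2.1) ((ContinuousLinearMap.fst ℝ ℝ ℝ).comp
      ((ContinuousLinearMap.snd ℝ ℝ (ℝ × ℝ)).comp (ContinuousLinearMap.snd ℝ ℝ E3))) p :=
    hasFDerivAt_fst.comp p (hasFDerivAt_snd.comp p hasFDerivAt_snd)
  have dz : HasFDerivAt (fun q : E4 => q.2.2.2 - m) ((ContinuousLinearMap.snd ℝ ℝ ℝ).comp
      ((ContinuousLinearMap.snd ℝ ℝ (ℝ × ℝ)).comp (ContinuousLinearMap.snd ℝ ℝ E3))) p :=
    (hasFDerivAt_snd.comp p (hasFDerivAt_snd.comp p hasFDerivAt_snd)).sub_const m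
  have ddx := (sdx.differentiable (by simp) p).hasFDerivAt
  have dB2 := (sB2.differentiable (by simp) p).hasFDerivAt
  have du : HasFDerivAt u _ p := (dy.mul ddx).add (dz.mul dB2)
  have dG : HasFDerivAt G _ p := (dy.mul dB2).sub (dz.mul ddx)
  have dNi := ((sN.differentiable (by simp) p).inv hNp).hasFDerivAt
  have de : HasFDerivAt e _ p := (du.const_mul (2 / (3 * κ))).mul dNi
  have dr : HasFDerivAt (fun q => r (pr q)) _ p :=
    (hasFDerivAt_lin (hr.differentiable (by simp) (pr p))).comp p dpr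
  have dF : HasFDerivAt F _ p := ((de.pow 2).sub dr).prodMk dG
  have dFv : ∀ v : E4, fderiv ℝ F p v = (-(dt r (pr p) * v.1 + dx r (pr p) * v.2.1),
      dt r (pr p) * v.2.2.1 - dx r (pr p) * v.2.2.2) := by
    intro v
    rw [dF.fderiv]
    simp [hep, hy, hz, hB2p]
  have dev : ∀ v : E4, fderiv ℝ e p v = (2 / (3 * κ)) *
      (dx r (pr p) * v.2.2.1 + dt r (pr p) * v.2.2.2) * (N p)⁻¹ := by
    intro v
    rw [de.fderiv]
    simp [hup, hy, hz, hB2p]
    ring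
  have hNp2 : N p = dx r (pr p) ^ 2 + dt r (pr p) ^ 2 := by simp only [hN, hB2p]
  have hNev : ∀ᶠ q in 𝓝 p, N q ≠ 0 := sN.continuous.continuousAt.eventually_ne hNp
  have hLF : ∀ᶠ q in 𝓝 p, N q ≠ 0 ∧ (q ∈ L ↔ F q = 0) := by
    filter_upwards [hL, hNev] with q h1 h2
    refine ⟨h2, h1.trans ⟨fun ⟨η, h⟩ => (alg q h2 η h).2, fun h => ⟨e q, alg2 q h2 h⟩⟩⟩
  have key : ∀ (c : ℝ → E4) (v : E4), c 0 = p → (∀ᶠ s in 𝓝 (0 : ℝ), c s ∈ L) → HasDerivAt c v 0 →
      dt r (pr p) * v.1 + dx r (pr p) * v.2.1 = 0 ∧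
      dt r (pr p) * v.2.2.1 = dx r (pr p) * v.2.2.2 := by
    intro c v h0 hc hd
    have hcont : Tendsto c (𝓝 0) (𝓝 p) := by
      have := hd.continuousAt.tendsto
      rwa [h0] at this
    have h1 : (fun s => F (c s)) =ᶠ[𝓝 0] fun _ => 0 := by
      filter_upwards [hc, hcont.eventually hLF] with s h1 h2 using h2.2.1 h1
    have h2 : HasDerivAt (fun s => F (c s)) (fderiv ℝ F p v) 0 := by
      have : HasFDerivAt F (fderiv ℝ F p) (c 0) := by rw [h0]; exact dF.differentiableAt.hasFDerivAt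
      exact this.comp_hasDerivAt 0 hd
    have h3 := (h2.congr_of_eventuallyEq h1.symm).unique (hasDerivAt_const (0 : ℝ) (0 : ℝ × ℝ))
    rw [dFv, Prod.mk_eq_zero] at h3
    constructor
    · linarith [h3.1]
    · linarith [h3.2]
  have hal : ∀ v : E4, alpha p.2 v.2 = v.2.2.2 := by intro v; simp [alpha, hy]
  set A := dt r (pr p) with hA
  set B := dx r (pr p) with hB
  refine ⟨?_, ?_, ?_, ?_⟩
  · obtain ⟨U, hU, hUo, hpU⟩ := eventually_nhds_iff.1 hLF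
    refine ⟨U, F, hUo, hpU, ?_, fun q hq => (hU q hq).2, ?_⟩
    · have hNi : ContDiffOn ℝ ∞ (fun q => (N q)⁻¹) U := sN.contDiffOn.inv (fun q hq => (hU q hq).1)
      have he' : ContDiffOn ℝ ∞ e U := ((contDiff_const.mul su).contDiffOn).mul hNi
      exact ((he'.pow 2).sub sr.contDiffOn).prodMk sG.contDiffOn
    · rintro ⟨a, b⟩
      refine ⟨(-(a * A / (B ^ 2 + A ^ 2)), -(a * B / (B ^ 2 + A ^ 2)), b * A / (B ^ 2 + A ^ 2),
        -(b * B / (B ^ 2 + A ^ 2))), ?_⟩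
      rw [dFv]
      have := hne.ne'
      ext <;> simp only <;> field_simp <;> ring
  · rintro v w ⟨c, h0, hc, hd⟩ ⟨c', h0', hc', hd'⟩
    obtain ⟨h1, h2⟩ := key c v h0 hc hd
    obtain ⟨h3, h4⟩ := key c' w h0' hc' hd'
    simp only [omega, hal]
    have : (v.1 * w.2.2.2 - w.1 * v.2.2.2 + (v.2.1 * w.2.2.1 - w.2.1 * v.2.2.1)) *
        (B ^ 2 + A ^ 2) = 0 := by
      linear_combination (A * w.2.2.2 + B * w.2.2.1) * h1 + (A * v.2.1 - B * v.1) * h4 -
        (A * v.2.2.2 + B * v.2.2.1) * h3 - (A * w.2.1 - B * w.1) * h2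
    rw [(mul_eq_zero.1 this).resolve_right hne.ne', mul_zero]
  · rintro v w ⟨c, h0, hc, hd⟩ ⟨c', h0', hc', hd'⟩
    obtain ⟨h1, h2⟩ := key c v h0 hc hd
    obtain ⟨h3, h4⟩ := key c' w h0' hc' hd'
    have e1 : (v.1 * w.2.1 - w.1 * v.2.1) * (B ^ 2 + A ^ 2) = 0 := by
      linear_combination (A * w.2.1 - B * w.1) * h1 + (B * v.1 - A * v.2.1) * h3
    have e2 : (v.2.2.2 * w.2.2.1 - w.2.2.2 * v.2.2.1) * (B ^ 2 + A ^ 2) = 0 := by
      linear_combination (A * v.2.2.2 + B * v.2.2.1) * h4 - (A * w.2.2.2 + B * w.2.2.1) * h2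
    have e1' := (mul_eq_zero.1 e1).resolve_right hne.ne'
    have e2' := (mul_eq_zero.1 e2).resolve_right hne.ne'
    have : cvol p v w = ((v.1 * w.2.2.1 + v.2.2.2 * w.2.1 - w.1 * v.2.2.1 - w.2.2.2 * v.2.1 : ℝ) : ℂ)
        * Complex.I := by
      apply Complex.ext
      · simp [cvol, hal]; linarith
      · simp [cvol, hal]; ring
    rw [this, mul_left_comm, Complex.im_ofReal_mul, hφ, mul_zero]
  · intro c v h0 hc hd
    obtain ⟨h1, h2⟩ := key c v h0 hc hd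
    have hcont : Tendsto c (𝓝 0) (𝓝 p) := by
      have := hd.continuousAt.tendsto
      rwa [h0] at this
    have ef : (fun s => f (c s)) =ᶠ[𝓝 0] fun s => Real.exp (c s).1 *
        (3 / 2 * κ * (e (c s) * dt r (pr (c s)))) := by
      filter_upwards [hc, hcont.eventually hf, hcont.eventually hLF] with s h1 h2 h3
      have h4 := alg2 _ h3.1 (h3.2.1 h1)
      rw [h2 (e (c s)) h4.1 h4.2.1 h4.2.2]; ring
    have d1 : HasDerivAt (fun s => (c s).1) v.1 0 := hd.fst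
    have de1 : HasDerivAt (fun s => Real.exp (c s).1) (Real.exp (c 0).1 * v.1) 0 := d1.exp
    have de2 : HasDerivAt (fun s => e (c s)) (fderiv ℝ e p v) 0 := by
      have : HasFDerivAt e (fderiv ℝ e p) (c 0) := by rw [h0]; exact de.differentiableAt.hasFDerivAt
      exact this.comp_hasDerivAt 0 hd
    have de3 : HasDerivAt (fun s => dt r (pr (c s))) (fderiv ℝ (fun q => dt r (pr q)) p v) 0 := by
      have : HasFDerivAt (fun q => dt r (pr q)) (fderiv ℝ (fun q => dt r (pr q)) p) (c 0) := by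
        rw [h0]; exact (sdt.differentiable (by simp) p).hasFDerivAt
      exact this.comp_hasDerivAt 0 hd
    have := (de1.mul ((de2.mul de3).const_mul (3 / 2 * κ))).congr_of_eventuallyEq ef
    refine this.congr_deriv ?_
    simp only [Pi.mul_apply, h0, hep, dev, hal, hNp2]
    rw [← hA]
    have h5 : A * (B * v.2.2.1 + A * v.2.2.2) = (B ^ 2 + A ^ 2) * v.2.2.2 := by
      linear_combination B * h2
    have := hne.ne'
    field_simp
    linear_combination h5 + B * h2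

end Pool.Agent.K1H61.LC
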