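import Mathlib

/-!
# Profile functions
-/

set_option autoImplicit false

open scoped ContDiff Topology
open Filter Set

namespace Pool.Agent.K1H61.LC

/-- the smooth transition function -/
noncomputable def th (x : ℝ) : ℝ := Real.smoothTransition x

lemma th_smooth : ContDiff ℝ ∞ th := Real.smoothTransition.contDiff
lemma th_zero {x : ℝ} (h : x ≤ 0) : th x = 0 := Real.smoothTransition.zero_of_nonpos h
lemma th_one {x : ℝ} (h : 1 ≤ x) : th x = 1 := Real.smoothTransition.one_of_one_le h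
lemma th_nonneg (x : ℝ) : 0 ≤ th x := Real.smoothTransition.nonneg x
lemma th_le_one (x : ℝ) : th x ≤ 1 := Real.smoothTransition.le_one x
lemma th_pos {x : ℝ} (h : 0 < x) : 0 < th x := Real.smoothTransition.pos_of_pos h
lemma th_lt_one {x : ℝ} (h : x < 1) : th x < 1 := Real.smoothTransition.lt_one_of_lt_one h
lemma th_mono : Monotone th := Real.smoothTransition.monotone

lemma th_hasDerivAt (x : ℝ) : HasDerivAt th (deriv th x) x :=
  (th_smooth.differentiable (by simp) x).hasDerivAt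

lemma glue_hasDerivAt (x : ℝ) : HasDerivAt expNegInvGlue (x⁻¹ ^ 2 * expNegInvGlue x) x := by
  have h := expNegInvGlue.hasDerivAt_polynomial_eval_inv_mul 1 x
  simpa using h

lemma deriv_th_pos {x : ℝ} (h0 : 0 < x) (h1 : x < 1) : 0 < deriv th x := by
  have ha := glue_hasDerivAt x
  have hb : HasDerivAt (fun x => expNegInvGlue (1 - x))
      (-((1 - x)⁻¹ ^ 2 * expNegInvGlue (1 - x))) x := by
    have := (glue_hasDerivAt (1 - x)).comp x ((hasDerivAt_id x).const_sub 1)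
    simpa [Function.comp_def] using this
  have hd := ha.div (ha.add hb) (Real.smoothTransition.pos_denom x).ne'
  have h2 : HasDerivAt th _ x := hd
  rw [h2.deriv]
  have ga := expNegInvGlue.pos_of_pos h0
  have gb := expNegInvGlue.pos_of_pos (sub_pos.2 h1)
  apply div_pos
  · have h3 : 0 < x⁻¹ ^ 2 := by positivity
    have h4 : 0 < (1 - x)⁻¹ ^ 2 := by
      have : 0 < (1 - x)⁻¹ := inv_pos.2 (sub_pos.2 h1)
      positivity
    simp only [Pi.add_apply]
    have e : x⁻¹ ^ 2 * expNegInvGlue x * (expNegInvGlue x + expNegInvGlue (1 - x)) -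
      expNegInvGlue x * (x⁻¹ ^ 2 * expNegInvGlue x + -((1 - x)⁻¹ ^ 2 * expNegInvGlue (1 - x))) =
      expNegInvGlue x * expNegInvGlue (1 - x) * (x⁻¹ ^ 2 + (1 - x)⁻¹ ^ 2) := by ring
    rw [e]
    positivity
  · have := Real.smoothTransition.pos_denom x
    simp only [Pi.add_apply]
    positivity

lemma deriv_th_zero_left {x : ℝ} (h : x < 0) : deriv th x = 0 := by
  have : th =ᶠ[𝓝 x] fun _ => 0 := by
    filter_upwards [gt_mem_nhds h] with y hy using th_zero hy.le
  rw [this.deriv_eq]; simp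

lemma deriv_th_zero_right {x : ℝ} (h : 1 < x) : deriv th x = 0 := by
  have : th =ᶠ[𝓝 x] fun _ => 1 := by
    filter_upwards [lt_mem_nhds h] with y hy using th_one hy.le
  rw [this.deriv_eq]; simp

lemma deriv_th_nonneg (x : ℝ) : 0 ≤ deriv th x := th_mono.deriv_nonneg

lemma deriv_th_continuous : Continuous (deriv th) :=
  th_smooth.continuous_deriv (by simp)

lemma exists_bound_of_support {f : ℝ → ℝ} (hf : Continuous f) (a b C : ℝ)
    (h : ∀ x, (x < a ∨ b < x) → |f x| ≤ C) : ∃ M, 0 < M ∧ ∀ x, |f x| ≤ M := by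
  obtain ⟨M, hM⟩ := (isCompact_Icc (a := a) (b := b)).exists_bound_of_continuousOn hf.continuousOn
  refine ⟨max (max M C) 1, by positivity, fun x => ?_⟩
  by_cases hx : x ∈ Icc a b
  · exact (hM x hx).trans ((le_max_left _ _).trans (le_max_left _ _))
  · have : x < a ∨ b < x := by
      simp only [mem_Icc, not_and_or, not_le] at hx
      exact hx
    exact (h x this).trans ((le_max_right _ _).trans (le_max_left _ _))

lemma exists_bound_deriv_th : ∃ M, 0 < M ∧ ∀ x, |deriv th x| ≤ M :=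
  exists_bound_of_support deriv_th_continuous 0 1 0 (by
    rintro x (h | h)
    · simp [deriv_th_zero_left h]
    · simp [deriv_th_zero_right h])

/-! ### The function `Fn` -/

/-- cutoff: `0` for `|v| ≤ 1/2`, `1` for `|v| ≥ 1` -/
noncomputable def Th (v : ℝ) : ℝ := th ((4 * v ^ 2 - 1) / 3)

lemma Th_smooth : ContDiff ℝ ∞ Th := by
  unfold Th; exact th_smooth.comp (by fun_prop)

lemma Th_zero {v : ℝ} (h : |v| ≤ 1 / 2) : Th v = 0 := by
  apply th_zero
  have : v ^ 2 ≤ 1 / 4 := by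
    have := sq_le_sq' (by linarith [abs_nonneg v]) h (b := 1 / 2)
    rw [sq_abs] at this; linarith
  linarith

lemma Th_one {v : ℝ} (h : 1 ≤ |v|) : Th v = 1 := by
  apply th_one
  have : 1 ≤ v ^ 2 := by rw [← sq_abs]; nlinarith
  linarith

lemma Th_nonneg (v : ℝ) : 0 ≤ Th v := th_nonneg _
lemma Th_le_one (v : ℝ) : Th v ≤ 1 := th_le_one _
lemma Th_even (v : ℝ) : Th (-v) = Th v := by simp [Th]

lemma Th_hasDerivAt (v : ℝ) : HasDerivAt Th (deriv th ((4 * v ^ 2 - 1) / 3) * (8 * v / 3)) v := by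
  have h : HasDerivAt (fun v : ℝ => (4 * v ^ 2 - 1) / 3) (8 * v / 3) v := by
    have := (((hasDerivAt_pow 2 v).const_mul 4).sub_const 1).div_const 3
    refine this.congr_deriv ?_
    push_cast
    ring
  exact (th_hasDerivAt _).comp v h

/-- even smooth function, `v²` for `|v| ≤ 1/2` and `|v|` for `|v| ≥ 1` -/
noncomputable def Fn (v : ℝ) : ℝ := v ^ 2 + (|v| - v ^ 2) * Th v

lemma Fn_even (v : ℝ) : Fn (-v) = Fn v := by simp [Fn, Th_even]

lemma Fn_zero : Fn 0 = 0 := by simp [Fn]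

lemma Fn_of_small {v : ℝ} (h : |v| ≤ 1 / 2) : Fn v = v ^ 2 := by simp [Fn, Th_zero h]

lemma Fn_of_large {v : ℝ} (h : 1 ≤ |v|) : Fn v = |v| := by simp [Fn, Th_one h]

lemma Fn_abs (v : ℝ) : Fn |v| = Fn v := by
  rcases abs_choice v with h | h <;> rw [h]
  exact Fn_even v

lemma Fn_smooth : ContDiff ℝ ∞ Fn := by
  rw [contDiff_iff_contDiffAt]
  intro v
  by_cases hv : v = 0
  · subst hv
    have : Fn =ᶠ[𝓝 0] fun v => v ^ 2 := by
      filter_upwards [Metric.ball_mem_nhds (0 : ℝ) (show (0 : ℝ) < 1 / 2 by norm_num)] with v hv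
      apply Fn_of_small
      simpa using (Metric.mem_ball.1 hv).le
    exact ContDiffAt.congr_of_eventuallyEq (by fun_prop) this
  · have h1 : ContDiffAt ℝ ∞ (fun v : ℝ => |v|) v := contDiffAt_abs hv
    have h2 : ContDiffAt ℝ ∞ (fun v : ℝ => v ^ 2) v := by fun_prop
    exact h2.add ((h1.sub h2).mul Th_smooth.contDiffAt)

lemma Fn_hasDerivAt (v : ℝ) : HasDerivAt Fn (deriv Fn v) v :=
  (Fn_smooth.differentiable (by simp) v).hasDerivAt

lemma deriv_Fn_of_pos {v : ℝ} (hv : 0 < v) :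
    deriv Fn v = 2 * v * (1 - Th v) + Th v +
      (v - v ^ 2) * (deriv th ((4 * v ^ 2 - 1) / 3) * (8 * v / 3)) := by
  have h1 : HasDerivAt (fun v : ℝ => |v|) 1 v := by
    have : (fun v : ℝ => |v|) =ᶠ[𝓝 v] fun v => v := by
      filter_upwards [lt_mem_nhds hv] with w hw using abs_of_pos hw
    exact (hasDerivAt_id' v).congr_of_eventuallyEq this
  have h2 : HasDerivAt (fun v : ℝ => v ^ 2) (2 * v) v := by simpa using hasDerivAt_pow 2 v
  have h := h2.add ((h1.sub h2).mul (Th_hasDerivAt v))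
  have h3 : HasDerivAt Fn _ v := h
  rw [h3.deriv]
  simp only [Pi.sub_apply, abs_of_pos hv]
  ring

lemma deriv_Fn_pos {v : ℝ} (hv : 0 < v) : 0 < deriv Fn v := by
  rw [deriv_Fn_of_pos hv]
  rcases lt_or_ge v 1 with h | h
  · have h1 : 0 ≤ (v - v ^ 2) * (deriv th ((4 * v ^ 2 - 1) / 3) * (8 * v / 3)) := by
      apply mul_nonneg
      · nlinarith
      · have := deriv_th_nonneg ((4 * v ^ 2 - 1) / 3); positivity
    have h2 : 0 < 2 * v * (1 - Th v) + Th v := by
      rcases eq_or_lt_of_le (Th_nonneg v) with h3 | h3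
      · rw [← h3]; simpa using hv
      · have := Th_le_one v
        have : 0 ≤ 2 * v * (1 - Th v) := by apply mul_nonneg <;> linarith
        linarith
    linarith
  · have h1 : Th v = 1 := Th_one (by rwa [abs_of_pos hv])
    have h2 : (v - v ^ 2) * (deriv th ((4 * v ^ 2 - 1) / 3) * (8 * v / 3)) = 0 := by
      rcases eq_or_lt_of_le h with h3 | h3
      · rw [← h3]; norm_num
      · rw [deriv_th_zero_right (by nlinarith)]; ring
    rw [h1, h2]; norm_num

lemma deriv_Fn_neg {v : ℝ} (hv : v < 0) : deriv Fn v < 0 := by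
  have h : HasDerivAt (fun v => Fn (-v)) (deriv Fn (-v) * (-1)) v :=
    (Fn_hasDerivAt (-v)).comp v (hasDerivAt_neg v)
  have h2 : (fun v => Fn (-v)) = Fn := by ext v; exact Fn_even v
  rw [h2] at h
  rw [h.deriv]
  have := deriv_Fn_pos (v := -v) (by linarith)
  linarith

lemma deriv_Fn_odd (v : ℝ) : deriv Fn (-v) = - deriv Fn v := by
  have h : HasDerivAt (fun v => Fn (-v)) (deriv Fn (-v) * (-1)) v :=
    (Fn_hasDerivAt (-v)).comp v (hasDerivAt_neg v)
  have h2 : (fun v => Fn (-v)) = Fn := by ext v; exact Fn_even v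
  rw [h2] at h
  rw [h.deriv]; ring

lemma deriv_Fn_ne {v : ℝ} (hv : v ≠ 0) : deriv Fn v ≠ 0 := by
  rcases lt_or_gt_of_ne hv with h | h
  · exact (deriv_Fn_neg h).ne
  · exact (deriv_Fn_pos h).ne'

lemma deriv_Fn_small {v : ℝ} (hv : |v| < 1 / 2) : deriv Fn v = 2 * v := by
  have : Fn =ᶠ[𝓝 v] fun v => v ^ 2 := by
    have : {w : ℝ | |w| < 1 / 2} ∈ 𝓝 v := (isOpen_lt continuous_abs continuous_const).mem_nhds hv
    filter_upwards [this] with w hw using Fn_of_small (le_of_lt hw)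
  rw [this.deriv_eq]
  simp

lemma Fn_strictMonoOn : StrictMonoOn Fn (Ici 0) := by
  apply strictMonoOn_of_deriv_pos (convex_Ici 0) Fn_smooth.continuous.continuousOn
  intro v hv
  rw [interior_Ici] at hv
  exact deriv_Fn_pos hv

lemma Fn_nonneg (v : ℝ) : 0 ≤ Fn v := by
  rw [← Fn_abs, ← Fn_zero]
  exact Fn_strictMonoOn.monotoneOn (by simp) (by simp) (abs_nonneg v)

lemma Fn_pos {v : ℝ} (hv : v ≠ 0) : 0 < Fn v := by
  rw [← Fn_abs, ← Fn_zero]
  exact Fn_strictMonoOn (by simp) (by simp) (abs_pos.2 hv)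

lemma Fn_le_iff {v a : ℝ} (ha : 0 ≤ a) : Fn v ≤ Fn a ↔ |v| ≤ a := by
  rw [← Fn_abs]
  exact Fn_strictMonoOn.le_iff_le (by simp) (by simpa using ha)

lemma Fn_lt_iff {v a : ℝ} (ha : 0 ≤ a) : Fn v < Fn a ↔ |v| < a := by
  rw [← Fn_abs]
  exact Fn_strictMonoOn.lt_iff_lt (by simp) (by simpa using ha)

lemma Fn_one : Fn 1 = 1 := by rw [Fn_of_large (by simp)]; simp

lemma Fn_two : Fn 2 = 2 := by rw [Fn_of_large (by norm_num)]; simp

lemma Fn_le_one {v : ℝ} (h : |v| ≤ 1) : Fn v ≤ 1 := by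
  rw [← Fn_one]; exact (Fn_le_iff (by norm_num)).2 h

lemma one_le_Fn {v : ℝ} (h : 1 ≤ |v|) : 1 ≤ Fn v := by rw [Fn_of_large h]; exact h

/-! ### The function `Rn` -/

/-- cutoff: `0` for `s ≤ 1/2`, `1` for `s ≥ 1` -/
noncomputable def Xi (s : ℝ) : ℝ := th (2 * s - 1)

/-- nondecreasing smooth function, `s` for `s ≤ 1/2` and `1` for `s ≥ 1` -/
noncomputable def Rn (s : ℝ) : ℝ := s + (1 - s) * Xi s

lemma Xi_smooth : ContDiff ℝ ∞ Xi := by unfold Xi; exact th_smooth.comp (by fun_prop)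

lemma Rn_smooth : ContDiff ℝ ∞ Rn := by
  unfold Rn
  exact contDiff_id.add ((contDiff_const.sub contDiff_id).mul Xi_smooth)

lemma Rn_of_small {s : ℝ} (h : s ≤ 1 / 2) : Rn s = s := by
  simp [Rn, Xi, th_zero (show 2 * s - 1 ≤ 0 by linarith)]

lemma Rn_of_large {s : ℝ} (h : 1 ≤ s) : Rn s = 1 := by
  simp [Rn, Xi, th_one (show 1 ≤ 2 * s - 1 by linarith)]

lemma Rn_hasDerivAt (s : ℝ) : HasDerivAt Rn (deriv Rn s) s :=
  (Rn_smooth.differentiable (by simp) s).hasDerivAt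

lemma deriv_Rn (s : ℝ) : deriv Rn s = (1 - Xi s) + (1 - s) * (deriv th (2 * s - 1) * 2) := by
  have h0 : HasDerivAt (fun s : ℝ => 2 * s - 1) 2 s := by
    simpa using ((hasDerivAt_id s).const_mul 2).sub_const 1
  have h1 : HasDerivAt Xi (deriv th (2 * s - 1) * 2) s := (th_hasDerivAt _).comp s h0
  have h2 : HasDerivAt (fun s : ℝ => 1 - s) (-1) s := by simpa using (hasDerivAt_id s).const_sub 1
  have h := (hasDerivAt_id s).add (h2.mul h1)
  have h3 : HasDerivAt Rn _ s := h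
  rw [h3.deriv]; ring

lemma deriv_Rn_nonneg (s : ℝ) : 0 ≤ deriv Rn s := by
  rw [deriv_Rn]
  have h1 : 0 ≤ 1 - Xi s := by have := th_le_one (2 * s - 1); unfold Xi; linarith
  rcases le_or_gt s 1 with h | h
  · have := deriv_th_nonneg (2 * s - 1)
    have : 0 ≤ (1 - s) * (deriv th (2 * s - 1) * 2) := by
      apply mul_nonneg <;> linarith
    linarith
  · rw [deriv_th_zero_right (by linarith)]; linarith

lemma deriv_Rn_pos {s : ℝ} (h : s < 1) : 0 < deriv Rn s := by
  rw [deriv_Rn]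
  have h1 : 0 < 1 - Xi s := by have := th_lt_one (show 2 * s - 1 < 1 by linarith); unfold Xi; linarith
  have := deriv_th_nonneg (2 * s - 1)
  have : 0 ≤ (1 - s) * (deriv th (2 * s - 1) * 2) := by
    apply mul_nonneg <;> linarith
  linarith

lemma Rn_mono : Monotone Rn :=
  monotone_of_deriv_nonneg (Rn_smooth.differentiable (by simp)) deriv_Rn_nonneg

lemma Rn_strictMonoOn : StrictMonoOn Rn (Iic 1) := by
  apply strictMonoOn_of_deriv_pos (convex_Iic 1) Rn_smooth.continuous.continuousOn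
  intro v hv
  rw [interior_Iic] at hv
  exact deriv_Rn_pos hv

lemma Rn_zero : Rn 0 = 0 := Rn_of_small (by norm_num)

lemma Rn_le_one (s : ℝ) : Rn s ≤ 1 := by
  rcases le_or_gt 1 s with h | h
  · rw [Rn_of_large h]
  · rw [← Rn_of_large (le_refl 1)]; exact Rn_mono h.le

lemma Rn_pos {s : ℝ} (h : 0 < s) : 0 < Rn s := by
  rcases le_or_gt 1 s with h1 | h1
  · rw [Rn_of_large h1]; norm_num
  · rw [← Rn_zero]; exact Rn_strictMonoOn (by simp) (by simpa using h1.le) h

lemma Rn_pos_iff {s : ℝ} : 0 < Rn s ↔ 0 < s := by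
  refine ⟨fun h => ?_, Rn_pos⟩
  by_contra h1
  rw [Rn_of_small (by linarith)] at h
  exact h1 h

lemma Rn_nonneg_iff {s : ℝ} : 0 ≤ Rn s ↔ 0 ≤ s := by
  refine ⟨fun h => ?_, fun h => ?_⟩
  · by_contra h1
    rw [Rn_of_small (by linarith)] at h
    exact h1 h
  · rcases eq_or_lt_of_le h with h1 | h1
    · rw [← h1, Rn_zero]
    · exact (Rn_pos h1).le

lemma Rn_eq_zero_iff {s : ℝ} : Rn s = 0 ↔ s = 0 := by
  refine ⟨fun h => ?_, fun h => by rw [h, Rn_zero]⟩
  have h1 : 0 ≤ s := Rn_nonneg_iff.1 h.ge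
  have h2 : ¬ 0 < s := fun h2 => (Rn_pos h2).ne' h
  linarith

lemma deriv_Rn_small {s : ℝ} (h : s < 1 / 2) : deriv Rn s = 1 := by
  have : Rn =ᶠ[𝓝 s] fun s => s := by
    filter_upwards [gt_mem_nhds h] with y hy using Rn_of_small hy.le
  rw [this.deriv_eq]; simp

lemma deriv_Rn_large {s : ℝ} (h : 1 < s) : deriv Rn s = 0 := by
  have : Rn =ᶠ[𝓝 s] fun _ => 1 := by
    filter_upwards [lt_mem_nhds h] with y hy using Rn_of_large hy.le
  rw [this.deriv_eq]; simp

lemma deriv_Rn_one : deriv Rn 1 = 0 := by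
  rw [deriv_Rn]; simp [Xi]; rw [th_one (by norm_num)]; norm_num

lemma deriv_Rn_ge {s : ℝ} (h : 1 ≤ s) : deriv Rn s = 0 := by
  rcases eq_or_lt_of_le h with h | h
  · rw [← h, deriv_Rn_one]
  · exact deriv_Rn_large h

lemma exists_bound_deriv_Rn : ∃ M, 0 < M ∧ ∀ x, |deriv Rn x| ≤ M :=
  exists_bound_of_support (Rn_smooth.continuous_deriv (by simp)) (1 / 2) 1 1 (by
    rintro x (h | h)
    · simp [deriv_Rn_small h]
    · simp [deriv_Rn_large h])

end Pool.Agent.K1H61.LC
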