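import Pool.Agent.K1H61.LC.Surf
import Pool.Agent.K1H61.LC.Prof

/-!
# The concrete surface
-/

set_option autoImplicit false

open scoped ContDiff Topology
open Filter Set

namespace Pool.Agent.K1H61.LC

/-! ### partial derivatives by slices -/

lemma dt_of_hasDerivAt {r : ℝ × ℝ → ℝ} {t x a : ℝ} (hr : DifferentiableAt ℝ r (t, x))
    (h : HasDerivAt (fun s => r (s, x)) a t) : dt r (t, x) = a := by
  have h1 : HasDerivAt (fun s : ℝ => (s, x)) ((1 : ℝ), (0 : ℝ)) t :=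
    (hasDerivAt_id t).prodMk (hasDerivAt_const t x)
  have h2 := hr.hasFDerivAt.comp_hasDerivAt t h1
  exact h2.unique h

lemma dx_of_hasDerivAt {r : ℝ × ℝ → ℝ} {t x a : ℝ} (hr : DifferentiableAt ℝ r (t, x))
    (h : HasDerivAt (fun s => r (t, s)) a x) : dx r (t, x) = a := by
  have h1 : HasDerivAt (fun s : ℝ => (t, s)) ((0 : ℝ), (1 : ℝ)) x :=
    (hasDerivAt_const x t).prodMk (hasDerivAt_id x)
  have h2 := hr.hasFDerivAt.comp_hasDerivAt x h1
  exact h2.unique h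

/-! ### blocks depending on `x` only -/

section OneVar

variable {ρ : ℝ → ℝ} (hρ : ContDiff ℝ ∞ ρ)

include hρ

lemma one_smooth : ContDiff ℝ ∞ (fun u : ℝ × ℝ => ρ u.2) := hρ.comp contDiff_snd

lemma one_dt : dt (fun u : ℝ × ℝ => ρ u.2) = fun _ => 0 := by
  funext ⟨t, x⟩
  exact dt_of_hasDerivAt ((one_smooth hρ).differentiable (by simp) _) (hasDerivAt_const t (ρ x))

lemma one_dx : dx (fun u : ℝ × ℝ => ρ u.2) = fun u => deriv ρ u.2 := by
  funext ⟨t, x⟩
  exact dx_of_hasDerivAt ((one_smooth hρ).differentiable (by simp) _)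
    (hρ.differentiable (by simp) x).hasDerivAt

omit hρ in
lemma const_dt (c : ℝ) : dt (fun _ : ℝ × ℝ => c) = fun _ => 0 := by
  funext u; simp [dt]

lemma one_dtdx : dt (dx (fun u : ℝ × ℝ => ρ u.2)) = fun _ => 0 := by
  rw [one_dx hρ]
  have h : ContDiff ℝ ∞ (deriv ρ) := by
    have := hρ.iterate_deriv 1
    simpa using this
  exact one_dt h

lemma one_bQ (κ : ℝ) (u : ℝ × ℝ) : bQ κ (fun u : ℝ × ℝ => ρ u.2) u = 0 := by
  simp [bQ, one_dt hρ]

lemma one_bD (u : ℝ × ℝ) : bD (fun u : ℝ × ℝ => ρ u.2) u = 0 := by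
  simp [bD, one_dt hρ, one_dtdx hρ, const_dt]

lemma one_slit {κ : ℝ} (hκ : 0 < κ) (h0 : ∀ x, ρ x = 0 → deriv ρ x ≠ 0) (u : ℝ × ℝ)
    (hu : 0 ≤ ρ u.2) :
    0 < bRe κ (fun u : ℝ × ℝ => ρ u.2) u ∨ bIm κ (fun u : ℝ × ℝ => ρ u.2) u ≠ 0 := by
  rcases eq_or_lt_of_le hu with h | h
  · right
    have h1 := h0 u.2 h.symm
    have : bIm κ (fun u : ℝ × ℝ => ρ u.2) u = 3 / 4 * κ * deriv ρ u.2 ^ 2 := by
      simp only [bIm, ← h, one_dt hρ, one_dx hρ]
      ring
    rw [this]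
    positivity
  · left
    simp only [bRe, one_bD hρ]
    have := Real.sqrt_pos.2 h
    simpa using this

lemma one_reg (h0 : ∀ x, ρ x = 0 → deriv ρ x ≠ 0) (u : ℝ × ℝ) (hu : ρ u.2 = 0) :
    0 < dx (fun u : ℝ × ℝ => ρ u.2) u ^ 2 + dt (fun u : ℝ × ℝ => ρ u.2) u ^ 2 := by
  have h1 := h0 u.2 hu
  simp only [one_dt hρ, one_dx hρ]
  positivity

end OneVar

/-! ### blocks depending on both variables -/

/-- the moving wall -/
noncomputable def lam (S t : ℝ) : ℝ := 2 - 3 * th (t / S)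
/-- its derivative -/
noncomputable def lam1 (S t : ℝ) : ℝ := -(3 / S) * deriv th (t / S)
/-- its second derivative -/
noncomputable def lam2 (S t : ℝ) : ℝ := -(3 / S ^ 2) * deriv (deriv th) (t / S)

lemma deriv_smooth {f : ℝ → ℝ} (hf : ContDiff ℝ ∞ f) : ContDiff ℝ ∞ (deriv f) := by
  have := hf.iterate_deriv 1
  simpa using this

lemma smooth_hasDerivAt {f : ℝ → ℝ} (hf : ContDiff ℝ ∞ f) (x : ℝ) : HasDerivAt f (deriv f x) x :=
  (hf.differentiable (by simp) x).hasDerivAt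

lemma lam_smooth (S : ℝ) : ContDiff ℝ ∞ (lam S) := by
  unfold lam
  exact contDiff_const.sub (contDiff_const.mul (th_smooth.comp (by fun_prop)))

lemma lam_hasDerivAt (S t : ℝ) : HasDerivAt (lam S) (lam1 S t) t := by
  have h1 : HasDerivAt (fun t : ℝ => t / S) (1 / S) t := (hasDerivAt_id t).div_const S
  have h2 := ((smooth_hasDerivAt th_smooth (t / S)).comp t h1).const_mul 3
  refine (h2.const_sub 2).congr_deriv ?_
  unfold lam1; ring

lemma lam1_hasDerivAt (S t : ℝ) : HasDerivAt (lam1 S) (lam2 S t) t := by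
  have h1 : HasDerivAt (fun t : ℝ => t / S) (1 / S) t := (hasDerivAt_id t).div_const S
  have h2 := ((smooth_hasDerivAt (deriv_smooth th_smooth) (t / S)).comp t h1).const_mul (-(3 / S))
  refine h2.congr_deriv ?_
  unfold lam2; ring

/-- the argument -/
noncomputable def wf (S a b : ℝ) (u : ℝ × ℝ) : ℝ := Fn (u.2 - a) - lam S (u.1 + b)

/-- the block -/
noncomputable def box (S a b : ℝ) (u : ℝ × ℝ) : ℝ := Rn (Fn (u.2 - a) - lam S (u.1 + b))

lemma box_smooth (S a b : ℝ) : ContDiff ℝ ∞ (box S a b) := by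
  unfold box
  exact Rn_smooth.comp ((Fn_smooth.comp (by fun_prop)).sub ((lam_smooth S).comp (by fun_prop)))

lemma wf_dt (S a b t x : ℝ) : HasDerivAt (fun s => wf S a b (s, x)) (-lam1 S (t + b)) t := by
  have h1 : HasDerivAt (fun s : ℝ => s + b) 1 t := (hasDerivAt_id t).add_const b
  have h2 := (lam_hasDerivAt S (t + b)).comp t h1
  refine (h2.const_sub (Fn (x - a))).congr_deriv (by ring)

lemma wf_dx (S a b t x : ℝ) : HasDerivAt (fun s => wf S a b (t, s)) (deriv Fn (x - a)) x := by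
  have h1 : HasDerivAt (fun s : ℝ => s - a) 1 x := (hasDerivAt_id x).sub_const a
  have h2 := (smooth_hasDerivAt Fn_smooth (x - a)).comp x h1
  refine (h2.sub_const (lam S (t + b))).congr_deriv (by ring)

lemma box_dt (S a b : ℝ) :
    dt (box S a b) = fun u => -(deriv Rn (wf S a b u) * lam1 S (u.1 + b)) := by
  funext ⟨t, x⟩
  refine dt_of_hasDerivAt ((box_smooth S a b).differentiable (by simp) _) ?_
  have := (smooth_hasDerivAt Rn_smooth (wf S a b (t, x))).comp t (wf_dt S a b t x)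
  exact this.congr_deriv (by ring)

lemma box_dx (S a b : ℝ) :
    dx (box S a b) = fun u => deriv Rn (wf S a b u) * deriv Fn (u.2 - a) := by
  funext ⟨t, x⟩
  refine dx_of_hasDerivAt ((box_smooth S a b).differentiable (by simp) _) ?_
  exact (smooth_hasDerivAt Rn_smooth (wf S a b (t, x))).comp x (wf_dx S a b t x)

lemma box_dtdt (S a b : ℝ) (u : ℝ × ℝ) :
    dt (dt (box S a b)) u = deriv (deriv Rn) (wf S a b u) * lam1 S (u.1 + b) ^ 2 -
      deriv Rn (wf S a b u) * lam2 S (u.1 + b) := by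
  obtain ⟨t, x⟩ := u
  refine dt_of_hasDerivAt ((dt_smooth (box_smooth S a b)).differentiable (by simp) _) ?_
  rw [box_dt]
  have h1 := (smooth_hasDerivAt (deriv_smooth Rn_smooth) (wf S a b (t, x))).comp t
    (wf_dt S a b t x)
  have h2 : HasDerivAt (fun s : ℝ => s + b) 1 t := (hasDerivAt_id t).add_const b
  have h3 := (lam1_hasDerivAt S (t + b)).comp t h2
  exact (h1.mul h3).neg.congr_deriv (by simp only [Function.comp_apply]; ring)

lemma box_dtdx (S a b : ℝ) (u : ℝ × ℝ) :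
    dt (dx (box S a b)) u = -(deriv (deriv Rn) (wf S a b u) * lam1 S (u.1 + b) *
      deriv Fn (u.2 - a)) := by
  obtain ⟨t, x⟩ := u
  refine dt_of_hasDerivAt ((dx_smooth (box_smooth S a b)).differentiable (by simp) _) ?_
  rw [box_dx]
  have h1 := (smooth_hasDerivAt (deriv_smooth Rn_smooth) (wf S a b (t, x))).comp t
    (wf_dt S a b t x)
  exact (h1.mul_const (deriv Fn (x - a))).congr_deriv (by ring)

lemma box_dxdx (S a b : ℝ) (u : ℝ × ℝ) :
    dx (dx (box S a b)) u = deriv (deriv Rn) (wf S a b u) * deriv Fn (u.2 - a) ^ 2 +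
      deriv Rn (wf S a b u) * deriv (deriv Fn) (u.2 - a) := by
  obtain ⟨t, x⟩ := u
  refine dx_of_hasDerivAt ((dx_smooth (box_smooth S a b)).differentiable (by simp) _) ?_
  rw [box_dx]
  have h1 := (smooth_hasDerivAt (deriv_smooth Rn_smooth) (wf S a b (t, x))).comp x
    (wf_dx S a b t x)
  have h2 : HasDerivAt (fun s : ℝ => s - a) 1 x := (hasDerivAt_id x).sub_const a
  have h3 := (smooth_hasDerivAt (deriv_smooth Fn_smooth) (x - a)).comp x h2
  exact (h1.mul h3).congr_deriv (by simp only [Function.comp_apply]; ring)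

lemma mul_bd {a b A B : ℝ} (ha : |a| ≤ A) (hb : |b| ≤ B) : |a * b| ≤ A * B := by
  rw [abs_mul]; exact mul_le_mul ha hb (abs_nonneg _) (le_trans (abs_nonneg _) ha)

lemma add_bd {a b A B : ℝ} (ha : |a| ≤ A) (hb : |b| ≤ B) : |a + b| ≤ A + B :=
  (abs_add_le a b).trans (add_le_add ha hb)

lemma sub_bd {a b A B : ℝ} (ha : |a| ≤ A) (hb : |b| ≤ B) : |a - b| ≤ A + B :=
  (abs_sub a b).trans (add_le_add ha hb)

lemma exists_bounds : ∃ M : ℝ, 1 ≤ M ∧ ∀ x, |deriv th x| ≤ M ∧ |deriv (deriv th) x| ≤ M ∧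
    |deriv Rn x| ≤ M ∧ |deriv (deriv Rn) x| ≤ M ∧ |deriv Fn x| ≤ M ∧ |deriv (deriv Fn) x| ≤ M := by
  have c : ∀ {f : ℝ → ℝ}, ContDiff ℝ ∞ f → Continuous (deriv f) := fun h =>
    (deriv_smooth h).continuous
  have ev_const : ∀ {f : ℝ → ℝ} {c x : ℝ}, (∀ᶠ y in 𝓝 x, f y = c) → deriv f x = 0 := by
    intro f c x h
    have : f =ᶠ[𝓝 x] fun _ => c := h
    rw [this.deriv_eq]; simp
  obtain ⟨M1, h1, H1⟩ := exists_bound_deriv_th
  obtain ⟨M2, h2, H2⟩ := exists_bound_of_support (c (deriv_smooth th_smooth)) 0 1 0 (by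
    rintro x (h | h)
    · rw [ev_const (c := 0) (by
        filter_upwards [gt_mem_nhds h] with y hy using deriv_th_zero_left hy)]
      simp
    · rw [ev_const (c := 0) (by
        filter_upwards [lt_mem_nhds h] with y hy using deriv_th_zero_right hy)]
      simp)
  obtain ⟨M3, h3, H3⟩ := exists_bound_deriv_Rn
  obtain ⟨M4, h4, H4⟩ := exists_bound_of_support (c (deriv_smooth Rn_smooth)) (1 / 2) 1 0 (by
    rintro x (h | h)
    · rw [ev_const (c := 1) (by
        filter_upwards [gt_mem_nhds h] with y hy using deriv_Rn_small hy)]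
      simp
    · rw [ev_const (c := 0) (by
        filter_upwards [lt_mem_nhds h] with y hy using deriv_Rn_large hy)]
      simp)
  have dF1 : ∀ x, 1 < x → deriv Fn x = 1 := by
    intro x h
    have : Fn =ᶠ[𝓝 x] fun y => y := by
      filter_upwards [lt_mem_nhds h] with y hy
      rw [Fn_of_large (by rw [abs_of_pos (by linarith)]; exact hy.le), abs_of_pos (by linarith)]
    rw [this.deriv_eq]; simp
  have dF2 : ∀ x, x < -1 → deriv Fn x = -1 := by
    intro x h
    have h1 := deriv_Fn_odd (-x)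
    rw [neg_neg, dF1 (-x) (by linarith)] at h1
    exact h1
  obtain ⟨M5, h5, H5⟩ := exists_bound_of_support (c Fn_smooth) (-1) 1 1 (by
    rintro x (h | h)
    · rw [dF2 x h]; simp
    · rw [dF1 x h]; simp)
  obtain ⟨M6, h6, H6⟩ := exists_bound_of_support (c (deriv_smooth Fn_smooth)) (-1) 1 0 (by
    rintro x (h | h)
    · rw [ev_const (c := -1) (by
        filter_upwards [gt_mem_nhds h] with y hy using dF2 y hy)]
      simp
    · rw [ev_const (c := 1) (by
        filter_upwards [lt_mem_nhds h] with y hy using dF1 y hy)]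
      simp)
  refine ⟨1 + M1 + M2 + M3 + M4 + M5 + M6, by linarith, fun x => ⟨?_, ?_, ?_, ?_, ?_, ?_⟩⟩
  · linarith [H1 x]
  · linarith [H2 x]
  · linarith [H3 x]
  · linarith [H4 x]
  · linarith [H5 x]
  · linarith [H6 x]

/-- bounds -/
structure Bds (M S : ℝ) : Prop where
  one_le : 1 ≤ M
  bd : ∀ x, |deriv th x| ≤ M ∧ |deriv (deriv th) x| ≤ M ∧ |deriv Rn x| ≤ M ∧
    |deriv (deriv Rn) x| ≤ M ∧ |deriv Fn x| ≤ M ∧ |deriv (deriv Fn) x| ≤ M
  large : 80 * M ^ 6 < S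

lemma Bds.S_pos {M S : ℝ} (h : Bds M S) : 0 < S := by
  have := h.large; have := h.one_le
  have : 0 < M := by linarith
  have : 0 < M ^ 6 := by positivity
  linarith

lemma Bds.eps {M S : ℝ} (h : Bds M S) : 3 * M / S * (24 * M ^ 5) < 1 := by
  have h1 := h.large
  have h2 := h.S_pos
  have h3 : 3 * M / S * (24 * M ^ 5) = 72 * M ^ 6 / S := by ring
  rw [h3, div_lt_one h2]
  have : 0 < M := by linarith [h.one_le]
  have : 0 < M ^ 6 := by positivity
  linarith

lemma Bds.lam1_bd {M S : ℝ} (h : Bds M S) (t : ℝ) : |lam1 S t| ≤ 3 * M / S := by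
  have h2 := h.S_pos
  unfold lam1
  rw [abs_mul, abs_neg, abs_of_pos (by positivity : 0 < 3 / S)]
  have := (h.bd (t / S)).1
  calc 3 / S * |deriv th (t / S)| ≤ 3 / S * M := by gcongr
    _ = 3 * M / S := by ring

lemma Bds.lam2_bd {M S : ℝ} (h : Bds M S) (t : ℝ) : |lam2 S t| ≤ 3 * M / S := by
  have h2 := h.S_pos
  have h1 : 1 ≤ S := by
    have := h.large
    have h3 : 1 ≤ M ^ 6 := one_le_pow₀ h.one_le
    linarith
  unfold lam2
  rw [abs_mul, abs_neg, abs_of_pos (by positivity : 0 < 3 / S ^ 2)]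
  have := (h.bd (t / S)).2.1
  have hM : 0 ≤ M := by linarith [h.one_le]
  calc 3 / S ^ 2 * |deriv (deriv th) (t / S)| ≤ 3 / S ^ 2 * M := by gcongr
    _ ≤ 3 / S * M := by
      gcongr
      nlinarith
    _ = 3 * M / S := by ring

lemma box_le_one (S a b : ℝ) (u : ℝ × ℝ) : box S a b u ≤ 1 := Rn_le_one _

lemma Bds.box_bD {M S : ℝ} (h : Bds M S) (a b : ℝ) (u : ℝ × ℝ) (hu : 0 ≤ box S a b u) :
    (3 / 2) ^ 2 * bD (box S a b) u < 1 := by
  set ε := 3 * M / S with hε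
  have hM := h.one_le
  have hM0 : 0 ≤ M := by linarith
  have hS := h.S_pos
  have hε0 : 0 ≤ ε := by positivity
  have heps := h.eps
  rw [← hε] at heps
  have hε1 : ε ≤ 1 := by
    have : 1 ≤ M ^ 5 := one_le_pow₀ hM
    nlinarith
  have l1 := h.lam1_bd (u.1 + b)
  have l2 := h.lam2_bd (u.1 + b)
  rw [← hε] at l1 l2
  obtain ⟨-, -, R1, R2, -, -⟩ := h.bd (wf S a b u)
  obtain ⟨-, -, -, -, F1, F2⟩ := h.bd (u.2 - a)
  have hr : |box S a b u| ≤ 1 := by rw [abs_of_nonneg hu]; exact box_le_one _ _ _ _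
  have ht : |dt (box S a b) u| ≤ M * ε := by
    rw [box_dt, abs_neg]; exact mul_bd R1 l1
  have hx : |dx (box S a b) u| ≤ M * M := by
    rw [box_dx]; exact mul_bd R1 F1
  have htt : |dt (dt (box S a b)) u| ≤ M * (ε * ε) + M * ε := by
    rw [box_dtdt, sq]
    exact sub_bd (mul_bd R2 (mul_bd l1 l1)) (mul_bd R1 l2)
  have htx : |dt (dx (box S a b)) u| ≤ M * ε * M := by
    rw [box_dtdx, abs_neg]; exact mul_bd (mul_bd R2 l1) F1
  have hxx : |dx (dx (box S a b)) u| ≤ M * (M * M) + M * M := by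
    rw [box_dxdx, sq]
    exact add_bd (mul_bd R2 (mul_bd F1 F1)) (mul_bd R1 F2)
  have key : |bD (box S a b) u| ≤ 1 * ((M * ε + (M * (ε * ε) + M * ε)) * (M * (M * M) + M * M) +
      (M * ε * M) * (M * ε * M)) + 1 / 2 * ((M * (M * M) + M * M) * ((M * ε) * (M * ε)) +
      2 * (M * ε * M) * (M * ε) * (M * M) +
      ((M * (ε * ε) + M * ε) + M * ε) * ((M * M) * (M * M))) := by
    unfold bD
    refine add_bd (mul_bd hr (sub_bd (mul_bd (add_bd ht htt) hxx) ?_)) (mul_bd ?_ (add_bd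
      (sub_bd (mul_bd hxx ?_) (mul_bd (mul_bd (mul_bd ?_ htx) ht) hx)) (mul_bd (add_bd htt ht) ?_)))
    · rw [sq]; exact mul_bd htx htx
    · rw [abs_of_pos]; norm_num
    · rw [sq]; exact mul_bd ht ht
    · rw [abs_of_pos]; norm_num
    · rw [sq]; exact mul_bd hx hx
  have hεε : ε * ε ≤ ε := by nlinarith
  have hM1 : M ≤ M ^ 5 := by
    calc M = M ^ 1 := (pow_one M).symm
      _ ≤ M ^ 5 := pow_le_pow_right₀ hM (by norm_num)
  have key2 : |bD (box S a b) u| ≤ ε * (21 / 2 * M ^ 5) := by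
    refine key.trans ?_
    have e3 : M ^ 3 ≤ M ^ 5 := pow_le_pow_right₀ hM (by norm_num)
    have e4 : M ^ 4 ≤ M ^ 5 := pow_le_pow_right₀ hM (by norm_num)
    have e6 : 0 ≤ 5 / 2 * M ^ 4 + M ^ 3 + 2 * M ^ 5 := by positivity
    have e7 : (ε * ε) * (5 / 2 * M ^ 4 + M ^ 3 + 2 * M ^ 5) ≤
        ε * (5 / 2 * M ^ 4 + M ^ 3 + 2 * M ^ 5) := mul_le_mul_of_nonneg_right hεε e6
    have e8 : ε * (9 / 2 * M ^ 4 + 3 * M ^ 3 + 3 * M ^ 5) ≤ ε * (21 / 2 * M ^ 5) :=
      mul_le_mul_of_nonneg_left (by linarith) hε0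
    linarith
  have := (abs_le.1 key2).2
  nlinarith

end Pool.Agent.K1H61.LC
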