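import Pool.Agent.K1H61.LC.Block

/-!
# Surfaces glued from sheets
-/

set_option autoImplicit false

open scoped ContDiff Topology
open Filter Set

namespace Pool.Agent.K1H61.LC

section Flat

variable {r : ℝ × ℝ → ℝ} {u : ℝ × ℝ}

lemma flat_fderiv (h : Flat r u) : ∀ᶠ v in 𝓝 u, fderiv ℝ r v = 0 := by
  filter_upwards [eventually_eventually_nhds.2 h.2] with v hv
  have : r =ᶠ[𝓝 v] fun _ => r u := hv
  rw [this.fderiv_eq]; simp

lemma flat_dt (h : Flat r u) : ∀ᶠ v in 𝓝 u, dt r v = 0 := by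
  filter_upwards [flat_fderiv h] with v hv; simp [dt, hv]

lemma flat_dx (h : Flat r u) : ∀ᶠ v in 𝓝 u, dx r v = 0 := by
  filter_upwards [flat_fderiv h] with v hv; simp [dx, hv]

lemma ev_zero_dt (h : ∀ᶠ v in 𝓝 u, r v = 0) : dt r u = 0 := by
  have : r =ᶠ[𝓝 u] fun _ => 0 := h
  simp [dt, this.fderiv_eq]

lemma ev_zero_dx (h : ∀ᶠ v in 𝓝 u, r v = 0) : dx r u = 0 := by
  have : r =ᶠ[𝓝 u] fun _ => 0 := h
  simp [dx, this.fderiv_eq]

lemma flat_bG {κ : ℝ} (h : Flat r u) : ∀ᶠ v in 𝓝 u, bG κ r v = bG κ r u := by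
  filter_upwards [h.2] with v hv; simp [bG, hv]

lemma flat_bY {κ : ℝ} (h : Flat r u) : ∀ᶠ v in 𝓝 u, bY κ r v = 0 := by
  filter_upwards [flat_dx h] with v hv; simp [bY, hv]

lemma flat_bQ {κ : ℝ} (h : Flat r u) : ∀ᶠ v in 𝓝 u, bQ κ r v = 0 := by
  filter_upwards [flat_dt h] with v hv; simp [bQ, hv]

lemma flat_bth {κ : ℝ} (h : Flat r u) : bth κ r u = 0 := by
  have h1 := (flat_dt h).self_of_nhds
  have h2 := (flat_dx h).self_of_nhds
  have h3 := ev_zero_dt (flat_dt h)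
  have h4 := ev_zero_dt (flat_dx h)
  have h5 := ev_zero_dx (flat_dx h)
  have e1 : bIm κ r u = 0 := by simp [bIm, h1, h2, h3, h5]
  have e2 : bRe κ r u = √(r u) := by simp [bRe, bD, h1, h2, h3, h4, h5]
  rw [bth, e1, e2]
  simp [Complex.arg_ofReal_of_nonneg (Real.sqrt_nonneg _)]

end Flat

/-- Data of a surface glued from sheets. -/
structure Surf (ι J : Type) [Fintype ι] where
  κ : ι → ℝ
  r : ι → ℝ × ℝ → ℝ
  s : J → ι → ℝ
  h : J → ℝ
  n : J → ℤ
  κ_pos : ∀ i, 0 < κ i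
  smooth : ∀ i, ContDiff ℝ ∞ (r i)
  s_val : ∀ j i, s j i = 0 ∨ s j i = 1 ∨ s j i = -1

namespace Surf

variable {ι J : Type} [Fintype ι] (A : Surf ι J)

/-- the domain of a sheet -/
def dom (j : J) : Set (ℝ × ℝ) := {u | ∀ i, A.s j i ≠ 0 → 0 ≤ A.r i u}
/-- generating function -/
noncomputable def G (j : J) (u : ℝ × ℝ) : ℝ := A.h j + ∑ i, A.s j i * bG (A.κ i) (A.r i) u
/-- coordinate `y` -/
noncomputable def Y (j : J) (u : ℝ × ℝ) : ℝ := ∑ i, A.s j i * bY (A.κ i) (A.r i) u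
/-- primitive -/
noncomputable def Q (j : J) (u : ℝ × ℝ) : ℝ := ∑ i, A.s j i * bQ (A.κ i) (A.r i) u
/-- coordinate `z` -/
noncomputable def Z (j : J) (u : ℝ × ℝ) : ℝ := A.G j u + A.Q j u
/-- phase -/
noncomputable def Ph (j : J) (u : ℝ × ℝ) : ℝ :=
  Real.pi * A.n j + ∑ i, A.s j i * bth (A.κ i) (A.r i) u
/-- a sheet -/
def Sh (j : J) : Set E4 := {q | pr q ∈ A.dom j ∧ q.2.2.1 = A.Y j (pr q) ∧ q.2.2.2 = A.Z j (pr q)}
/-- the surface -/
def L : Set E4 := {q | ∃ j, q ∈ A.Sh j}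
/-- the point of the sheet over `u` -/
noncomputable def P (j : J) (u : ℝ × ℝ) : E4 := (u.1, u.2, A.Y j u, A.Z j u)

open Classical in
/-- the primitive on the surface -/
noncomputable def f (q : E4) : ℝ :=
  if h : ∃ j, q ∈ A.Sh j then Real.exp q.1 * A.Q h.choose (pr q) else 0

open Classical in
/-- the phase on the surface -/
noncomputable def φ (q : E4) : ℝ :=
  if h : ∃ j, q ∈ A.Sh j then A.Ph h.choose (pr q) else 0

lemma G_continuous (j : J) : Continuous (A.G j) := by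
  have := fun i => bG_continuous (κ := A.κ i) (A.smooth i)
  unfold G; fun_prop

lemma Y_continuous (j : J) : Continuous (A.Y j) := by
  have := fun i => bY_continuous (κ := A.κ i) (A.smooth i)
  unfold Y; fun_prop

lemma Q_continuous (j : J) : Continuous (A.Q j) := by
  have := fun i => bQ_continuous (κ := A.κ i) (A.smooth i)
  unfold Q; fun_prop

lemma Z_continuous (j : J) : Continuous (A.Z j) := (A.G_continuous j).add (A.Q_continuous j)

lemma P_continuous (j : J) : Continuous (A.P j) := by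
  have := A.Y_continuous j
  have := A.Z_continuous j
  unfold P; fun_prop

lemma dom_closed (j : J) : IsClosed (A.dom j) := by
  have : A.dom j = ⋂ i, {u | A.s j i ≠ 0 → 0 ≤ A.r i u} := by
    ext u; simp [dom]
  rw [this]
  refine isClosed_iInter fun i => ?_
  by_cases hs : A.s j i = 0
  · simp [hs]
  · simp only [ne_eq, hs, not_false_eq_true, true_imp_iff]
    exact isClosed_le continuous_const (A.smooth i).continuous

lemma Sh_closed (j : J) : IsClosed (A.Sh j) := by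
  have h1 : IsClosed {q : E4 | pr q ∈ A.dom j} := (A.dom_closed j).preimage pr_smooth.continuous
  have h2 : IsClosed {q : E4 | q.2.2.1 = A.Y j (pr q)} :=
    isClosed_eq (by fun_prop) ((A.Y_continuous j).comp pr_smooth.continuous)
  have h3 : IsClosed {q : E4 | q.2.2.2 = A.Z j (pr q)} :=
    isClosed_eq (by fun_prop) ((A.Z_continuous j).comp pr_smooth.continuous)
  exact h1.inter (h2.inter h3)

lemma P_mem {j : J} {u : ℝ × ℝ} (hu : u ∈ A.dom j) : A.P j u ∈ A.Sh j := ⟨hu, rfl, rfl⟩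

lemma P_mem_L {j : J} {u : ℝ × ℝ} (hu : u ∈ A.dom j) : A.P j u ∈ A.L := ⟨j, A.P_mem hu⟩

lemma eq_P {j : J} {q : E4} (hq : q ∈ A.Sh j) : q = A.P j (pr q) := by
  obtain ⟨_, h2, h3⟩ := hq
  obtain ⟨t, x, y, z⟩ := q
  simp only [P] at *
  rw [h2, h3]; rfl

/-- The geometric conditions. -/
structure Ok : Prop where
  one : ∀ j u, u ∈ A.dom j → ∃ i0, A.s j i0 ≠ 0 ∧ ∀ k, k ≠ i0 → A.s j k ≠ 0 → Flat (A.r k) u
  slit : ∀ i u, 0 ≤ A.r i u → 0 < bRe (A.κ i) (A.r i) u ∨ bIm (A.κ i) (A.r i) u ≠ 0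
  reg : ∀ i u, A.r i u = 0 → 0 < dx (A.r i) u ^ 2 + dt (A.r i) u ^ 2
  pair : ∀ j i u, u ∈ A.dom j → A.s j i ≠ 0 → A.r i u = 0 → ∃ j', A.s j' i = - A.s j i ∧
    u ∈ A.dom j' ∧ A.G j u = A.G j' u ∧ (A.n j' : ℝ) = A.n j + A.s j i
  inter : ∀ j j' q, j ≠ j' → q ∈ A.Sh j → q ∈ A.Sh j' → ∃ i, A.s j i ≠ 0 ∧ A.s j' i = - A.s j i ∧
    A.r i (pr q) = 0
  uniq : ∀ j j' i u, u ∈ A.dom j → u ∈ A.dom j' → A.r i u = 0 → A.s j i ≠ 0 →
    A.s j' i = A.s j i → j = j'

variable {A}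

namespace Ok

lemma pr_tendsto (p : E4) : Tendsto pr (𝓝 p) (𝓝 (pr p)) := pr_smooth.continuous.continuousAt

/-- near a point on a sheet, the other blocks being flat -/
lemma local_form {j : J} {i : ι} {u : ℝ × ℝ} (h : ∀ k, k ≠ i → A.s j k ≠ 0 → Flat (A.r k) u) :
    (∀ᶠ v in 𝓝 u, A.Y j v = A.s j i * bY (A.κ i) (A.r i) v) ∧
    (∀ᶠ v in 𝓝 u, A.Q j v = A.s j i * bQ (A.κ i) (A.r i) v) ∧
    (∀ᶠ v in 𝓝 u, A.G j v = (A.G j u - A.s j i * bG (A.κ i) (A.r i) u) +
      A.s j i * bG (A.κ i) (A.r i) v) ∧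
    (A.Ph j u = Real.pi * A.n j + A.s j i * bth (A.κ i) (A.r i) u) ∧
    (∀ᶠ v in 𝓝 u, ∀ k, k ≠ i → A.s j k ≠ 0 → 0 < A.r k v) := by
  classical
  refine ⟨?_, ?_, ?_, ?_, ?_⟩
  · have : ∀ᶠ v in 𝓝 u, ∀ k, k ≠ i → A.s j k * bY (A.κ k) (A.r k) v = 0 := by
      rw [eventually_all]
      intro k
      by_cases hk : k = i
      · simp [hk]
      · by_cases hs : A.s j k = 0
        · simp [hs]
        · filter_upwards [flat_bY (κ := A.κ k) (h k hk hs)] with v hv _; rw [hv, mul_zero]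
    filter_upwards [this] with v hv
    unfold Y
    rw [Finset.sum_eq_single i (fun k _ hk => hv k hk) (fun h => absurd (Finset.mem_univ i) h)]
  · have : ∀ᶠ v in 𝓝 u, ∀ k, k ≠ i → A.s j k * bQ (A.κ k) (A.r k) v = 0 := by
      rw [eventually_all]
      intro k
      by_cases hk : k = i
      · simp [hk]
      · by_cases hs : A.s j k = 0
        · simp [hs]
        · filter_upwards [flat_bQ (κ := A.κ k) (h k hk hs)] with v hv _; rw [hv, mul_zero]
    filter_upwards [this] with v hv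
    unfold Q
    rw [Finset.sum_eq_single i (fun k _ hk => hv k hk) (fun h => absurd (Finset.mem_univ i) h)]
  · have : ∀ᶠ v in 𝓝 u, ∀ k, k ≠ i → A.s j k * bG (A.κ k) (A.r k) v -
        A.s j k * bG (A.κ k) (A.r k) u = 0 := by
      rw [eventually_all]
      intro k
      by_cases hk : k = i
      · simp [hk]
      · by_cases hs : A.s j k = 0
        · simp [hs]
        · filter_upwards [flat_bG (κ := A.κ k) (h k hk hs)] with v hv _; rw [hv, sub_self]
    filter_upwards [this] with v hv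
    have e : A.G j v - A.G j u = A.s j i * bG (A.κ i) (A.r i) v -
        A.s j i * bG (A.κ i) (A.r i) u := by
      unfold G
      rw [add_sub_add_left_eq_sub, ← Finset.sum_sub_distrib,
        Finset.sum_eq_single i (fun k _ hk => hv k hk) (fun h => absurd (Finset.mem_univ i) h)]
    linarith
  · unfold Ph
    rw [Finset.sum_eq_single i _ (fun h => absurd (Finset.mem_univ i) h)]
    intro k _ hk
    by_cases hs : A.s j k = 0
    · simp [hs]
    · rw [flat_bth (h k hk hs), mul_zero]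
  · rw [eventually_all]
    intro k
    by_cases hk : k = i
    · simp [hk]
    · by_cases hs : A.s j k = 0
      · simp [hs]
      · have := (A.smooth k).continuous.continuousAt.eventually (lt_mem_nhds (h k hk hs).1)
        filter_upwards [this] with v hv _ _ using hv

variable (hA : A.Ok)

include hA

/-- At a zero of a block all the other blocks are flat. -/
lemma flat_of_zero {j : J} {i : ι} {u : ℝ × ℝ} (hu : u ∈ A.dom j) (hi : A.s j i ≠ 0)
    (hr : A.r i u = 0) : ∀ k, k ≠ i → A.s j k ≠ 0 → Flat (A.r k) u := by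
  obtain ⟨i0, h1, h2⟩ := hA.one j u hu
  have : i = i0 := by
    by_contra h
    have := (h2 i h hi).1
    rw [hr] at this; exact lt_irrefl _ this
  subst this
  exact h2

lemma Q_of_zero {j : J} {i : ι} {u : ℝ × ℝ} (hu : u ∈ A.dom j) (hi : A.s j i ≠ 0)
    (hr : A.r i u = 0) : A.Q j u = 0 := by
  have h := hA.flat_of_zero hu hi hr
  unfold Q
  apply Finset.sum_eq_zero
  intro k _
  by_cases hk : k = i
  · subst hk; simp [bQ, hr]
  · by_cases hs : A.s j k = 0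
    · simp [hs]
    · rw [(flat_bQ (h k hk hs)).self_of_nhds, mul_zero]

lemma Y_of_zero {j : J} {i : ι} {u : ℝ × ℝ} (hu : u ∈ A.dom j) (hi : A.s j i ≠ 0)
    (hr : A.r i u = 0) : A.Y j u = 0 := by
  have h := hA.flat_of_zero hu hi hr
  unfold Y
  apply Finset.sum_eq_zero
  intro k _
  by_cases hk : k = i
  · subst hk; simp [bY, hr]
  · by_cases hs : A.s j k = 0
    · simp [hs]
    · rw [(flat_bY (h k hk hs)).self_of_nhds, mul_zero]

lemma bth_of_zero {i : ι} {u : ℝ × ℝ} (hr : A.r i u = 0) :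
    bth (A.κ i) (A.r i) u = Real.pi / 2 := by
  have h1 : bRe (A.κ i) (A.r i) u = 0 := by simp [bRe, hr]
  have h2 : 0 < bIm (A.κ i) (A.r i) u := by
    have := hA.reg i u hr
    have hκ := A.κ_pos i
    simp only [bIm, hr]
    have e : 3 / 2 * A.κ i * (0 * (dt (A.r i) u + dt (dt (A.r i)) u + dx (dx (A.r i)) u) +
      1 / 2 * (dt (A.r i) u ^ 2 + dx (A.r i) u ^ 2)) =
      3 / 4 * A.κ i * (dx (A.r i) u ^ 2 + dt (A.r i) u ^ 2) := by ring
    rw [e]; positivity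
  rw [bth, h1, Complex.ofReal_zero, zero_add, Complex.arg_real_mul _ h2, Complex.arg_I]

lemma Ph_of_zero {j : J} {i : ι} {u : ℝ × ℝ} (hu : u ∈ A.dom j) (hi : A.s j i ≠ 0)
    (hr : A.r i u = 0) : A.Ph j u = Real.pi * A.n j + A.s j i * (Real.pi / 2) := by
  classical
  have h := hA.flat_of_zero hu hi hr
  unfold Ph
  rw [Finset.sum_eq_single i]
  · rw [hA.bth_of_zero hr]
  · intro k _ hk
    by_cases hs : A.s j k = 0
    · simp [hs]
    · rw [flat_bth (h k hk hs), mul_zero]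
  · intro h; exact absurd (Finset.mem_univ i) h

lemma agree {j j' : J} {q : E4} (h : q ∈ A.Sh j) (h' : q ∈ A.Sh j') :
    A.Q j (pr q) = A.Q j' (pr q) ∧ A.Ph j (pr q) = A.Ph j' (pr q) := by
  by_cases hj : j = j'
  · subst hj; exact ⟨rfl, rfl⟩
  · obtain ⟨i, hi, hi', hr⟩ := hA.inter j j' q hj h h'
    have hi2 : A.s j' i ≠ 0 := by rw [hi']; exact neg_ne_zero.2 hi
    refine ⟨by rw [hA.Q_of_zero h.1 hi hr, hA.Q_of_zero h'.1 hi2 hr], ?_⟩
    rw [hA.Ph_of_zero h.1 hi hr, hA.Ph_of_zero h'.1 hi2 hr]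
    obtain ⟨j'', h1, h2, _, h4⟩ := hA.pair j i (pr q) h.1 hi hr
    have : j'' = j' := hA.uniq j'' j' i (pr q) h2 h'.1 hr (by rw [h1]; exact neg_ne_zero.2 hi)
      (by rw [h1, hi'])
    subst this
    rw [h4, hi']; ring

lemma f_eq {j : J} {q : E4} (h : q ∈ A.Sh j) : A.f q = Real.exp q.1 * A.Q j (pr q) := by
  have hex : ∃ j, q ∈ A.Sh j := ⟨j, h⟩
  unfold f
  rw [dif_pos hex, (hA.agree hex.choose_spec h).1]

lemma φ_eq {j : J} {q : E4} (h : q ∈ A.Sh j) : A.φ q = A.Ph j (pr q) := by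
  have hex : ∃ j, q ∈ A.Sh j := ⟨j, h⟩
  unfold φ
  rw [dif_pos hex, (hA.agree hex.choose_spec h).2]

lemma Ph_continuousOn (j : J) : ContinuousOn (A.Ph j) (A.dom j) := by
  unfold Ph
  refine continuousOn_const.add (continuousOn_finsetSum _ fun i _ => ?_)
  by_cases hs : A.s j i = 0
  · simp only [hs, zero_mul]; exact continuousOn_const
  · refine continuousOn_const.mul fun u hu => ?_
    exact (bth_continuousAt (A.smooth i) (hA.slit i u (hu i hs))).continuousWithinAt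

lemma φ_continuousOn [Finite J] : ContinuousOn A.φ A.L := by
  have hL : A.L = ⋃ j, A.Sh j := by ext q; simp [L]
  rw [hL]
  refine LocallyFinite.continuousOn_iUnion (locallyFinite_of_finite _) A.Sh_closed fun j => ?_
  have h1 : ContinuousOn (fun q : E4 => A.Ph j (pr q)) (A.Sh j) :=
    (hA.Ph_continuousOn j).comp pr_smooth.continuous.continuousOn (fun q hq => hq.1)
  exact h1.congr fun q hq => hA.φ_eq hq

theorem good_graph [Finite J] {j : J} {p : E4} (hp : p ∈ A.Sh j)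
    (hpos : ∀ i, A.s j i ≠ 0 → 0 < A.r i (pr p)) : Good A.L A.f A.φ p := by
  obtain ⟨i, hi, hfl⟩ := hA.one j (pr p) hp.1
  obtain ⟨eY, eQ, eG, ePh, epos⟩ := local_form hfl
  have hne : ∀ j', j' ≠ j → p ∉ A.Sh j' := by
    intro j' hj' hp'
    obtain ⟨k, hk1, _, hk3⟩ := hA.inter j j' p hj'.symm hp hp'
    exact (hpos k hk1).ne' hk3
  have hL1 : ∀ᶠ q in 𝓝 p, ∀ j', j' ≠ j → q ∉ A.Sh j' := by
    rw [eventually_all]
    intro j'
    by_cases hj : j' = j
    · simp [hj]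
    · filter_upwards [(A.Sh_closed j').isOpen_compl.mem_nhds (hne j' hj)] with q hq _ using hq
  have hposi : ∀ᶠ v in 𝓝 (pr p), 0 < A.r i v :=
    (A.smooth i).continuous.continuousAt.eventually (lt_mem_nhds (hpos i hi))
  have hL : ∀ᶠ q in 𝓝 p, q ∈ A.L ↔ q.2.2.1 = A.s j i * bY (A.κ i) (A.r i) (pr q) ∧
      q.2.2.2 = (A.G j (pr p) - A.s j i * bG (A.κ i) (A.r i) (pr p)) +
        A.s j i * (bG (A.κ i) (A.r i) (pr q) + bQ (A.κ i) (A.r i) (pr q)) := by
    filter_upwards [hL1, (pr_tendsto p).eventually eY, (pr_tendsto p).eventually eQ,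
      (pr_tendsto p).eventually eG, (pr_tendsto p).eventually epos,
      (pr_tendsto p).eventually hposi] with q h1 h2 h3 h4 h5 h6
    have hdom : pr q ∈ A.dom j := by
      intro k hk
      by_cases hki : k = i
      · rw [hki]; exact h6.le
      · exact (h5 k hki hk).le
    have : q ∈ A.L ↔ q ∈ A.Sh j := by
      constructor
      · rintro ⟨j', hj'⟩
        by_cases hj : j' = j
        · rwa [← hj]
        · exact absurd hj' (h1 j' hj)
      · intro h; exact ⟨j, h⟩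
    rw [this]
    simp only [Sh, mem_ofPred_eq, hdom, true_and, Z, h2, h3, h4]
    constructor
    · rintro ⟨a, b⟩; exact ⟨a, by rw [b]; ring⟩
    · rintro ⟨a, b⟩; exact ⟨a, by rw [b]; ring⟩
  refine good_of_block (A.smooth i) (σ := A.s j i) (n := A.n j) ((A.s_val j i).resolve_left hi)
    (hpos i hi) ⟨j, hp⟩ hL ?_ (by rw [hA.φ_eq hp, ePh])
  filter_upwards [hL1, (pr_tendsto p).eventually eQ] with q h1 h2
  rintro ⟨j', hj'⟩
  by_cases hj : j' = j
  · subst hj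
    rw [hA.f_eq hj', h2]
  · exact absurd hj' (h1 j' hj)

theorem good_fold [Finite J] {j : J} {p : E4} (hp : p ∈ A.Sh j) {i : ι} (hi : A.s j i ≠ 0)
    (hz : A.r i (pr p) = 0) : Good A.L A.f A.φ p := by
  obtain ⟨j', hj'1, hj'2, hj'3, hj'4⟩ := hA.pair j i (pr p) hp.1 hi hz
  have hi' : A.s j' i ≠ 0 := by rw [hj'1]; exact neg_ne_zero.2 hi
  obtain ⟨eY, eQ, eG, ePh, epos⟩ := local_form (hA.flat_of_zero hp.1 hi hz)
  obtain ⟨eY', eQ', eG', _, epos'⟩ := local_form (hA.flat_of_zero hj'2 hi' hz)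
  have hb0 : bG (A.κ i) (A.r i) (pr p) = - A.κ i := by simp [bG, hz]
  have hpy : p.2.2.1 = 0 := by rw [hp.2.1, hA.Y_of_zero hp.1 hi hz]
  have hpz : p.2.2.2 = A.G j (pr p) := by
    rw [hp.2.2, Z, hA.Q_of_zero hp.1 hi hz, add_zero]
  have hp' : p ∈ A.Sh j' := by
    refine ⟨hj'2, ?_, ?_⟩
    · rw [hpy, hA.Y_of_zero hj'2 hi' hz]
    · rw [hpz, Z, hA.Q_of_zero hj'2 hi' hz, add_zero, hj'3]
  have hne : ∀ l, l ≠ j → l ≠ j' → p ∉ A.Sh l := by
    intro l hl hl' hpl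
    obtain ⟨k, hk1, hk2, hk3⟩ := hA.inter j l p hl.symm hp hpl
    have : k = i := by
      by_contra h
      have := (hA.flat_of_zero hp.1 hi hz k h hk1).1
      rw [hk3] at this; exact lt_irrefl _ this
    subst this
    exact hl' (hA.uniq l j' k (pr p) hpl.1 hj'2 hz (by rw [hk2]; exact neg_ne_zero.2 hi)
      (by rw [hk2, hj'1]))
  have hL1 : ∀ᶠ q in 𝓝 p, ∀ l, l ≠ j → l ≠ j' → q ∉ A.Sh l := by
    rw [eventually_all]
    intro l
    by_cases h1 : l = j
    · simp [h1]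
    · by_cases h2 : l = j'
      · simp [h2]
      · filter_upwards [(A.Sh_closed l).isOpen_compl.mem_nhds (hne l h1 h2)] with q hq _ _ using hq
  have hs1 : A.s j i = 1 ∨ A.s j i = -1 := (A.s_val j i).resolve_left hi
  -- description of one sheet
  have desc : ∀ (l : J) (σ : ℝ), (σ = 1 ∨ σ = -1) → ∀ q : E4, (0 ≤ A.r i (pr q) ↔ pr q ∈ A.dom l) →
      A.Y l (pr q) = σ * bY (A.κ i) (A.r i) (pr q) →
      A.Q l (pr q) = σ * bQ (A.κ i) (A.r i) (pr q) →
      A.G l (pr q) = (A.G j (pr p) - σ * bG (A.κ i) (A.r i) (pr p)) +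
        σ * bG (A.κ i) (A.r i) (pr q) →
      (q ∈ A.Sh l ↔ ∃ η : ℝ, 0 ≤ σ * η ∧ η ^ 2 = A.r i (pr q) ∧
        q.2.2.1 = 3 / 2 * A.κ i * η * dx (A.r i) (pr q) ∧
        q.2.2.2 = A.G j (pr p) + A.κ i * η ^ 3 + 3 / 2 * A.κ i * η * dt (A.r i) (pr q)) := by
    intro l σ hσ q hd h1 h2 h3
    have hσ2 : σ * σ = 1 := by rcases hσ with rfl | rfl <;> norm_num
    simp only [Sh, mem_ofPred_eq, Z, h1, h2, h3, hb0, ← hd]
    constructor
    · rintro ⟨hr, ey, ez⟩
      have hsq : √(A.r i (pr q)) ^ 2 = A.r i (pr q) := Real.sq_sqrt hr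
      refine ⟨σ * √(A.r i (pr q)), ?_, ?_, ?_, ?_⟩
      · rw [← mul_assoc, hσ2, one_mul]; exact Real.sqrt_nonneg _
      · rw [mul_pow, sq σ, hσ2, one_mul, hsq]
      · rw [ey]; unfold bY; ring
      · rw [ez]; unfold bG bQ
        linear_combination (-(A.κ i * √(A.r i (pr q)) ^ 3 * σ)) * hσ2 -
          (σ * A.κ i * √(A.r i (pr q))) * hsq
    · rintro ⟨η, h0, e1, e2, e3⟩
      have hr : 0 ≤ A.r i (pr q) := by rw [← e1]; positivity
      have hsq : √(A.r i (pr q)) = σ * η := by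
        rw [← e1, Real.sqrt_eq_iff_mul_self_eq (by positivity) h0]
        linear_combination (-(η ^ 2)) * hσ2
      refine ⟨hr, ?_, ?_⟩
      · rw [e2]; unfold bY; rw [hsq]
        linear_combination (-(3 / 2 * A.κ i * η * dx (A.r i) (pr q))) * hσ2
      · rw [e3]; unfold bG bQ; rw [hsq, ← e1]
        linear_combination (-(A.κ i * η ^ 3) -
          3 / 2 * A.κ i * η * dt (A.r i) (pr q)) * hσ2
  have hdj : ∀ᶠ q in 𝓝 p, (0 ≤ A.r i (pr q) ↔ pr q ∈ A.dom j) ∧
      (0 ≤ A.r i (pr q) ↔ pr q ∈ A.dom j') := by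
    filter_upwards [(pr_tendsto p).eventually epos, (pr_tendsto p).eventually epos'] with q h5 h6
    refine ⟨⟨fun h k hk => ?_, fun h => h i hi⟩, ⟨fun h k hk => ?_, fun h => h i hi'⟩⟩
    · by_cases hki : k = i
      · rw [hki]; exact h
      · exact (h5 k hki hk).le
    · by_cases hki : k = i
      · rw [hki]; exact h
      · exact (h6 k hki hk).le
  have hboth : ∀ᶠ q in 𝓝 p, (q ∈ A.Sh j ↔ ∃ η : ℝ, 0 ≤ A.s j i * η ∧ η ^ 2 = A.r i (pr q) ∧
        q.2.2.1 = 3 / 2 * A.κ i * η * dx (A.r i) (pr q) ∧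
        q.2.2.2 = A.G j (pr p) + A.κ i * η ^ 3 + 3 / 2 * A.κ i * η * dt (A.r i) (pr q)) ∧
      (q ∈ A.Sh j' ↔ ∃ η : ℝ, 0 ≤ A.s j' i * η ∧ η ^ 2 = A.r i (pr q) ∧
        q.2.2.1 = 3 / 2 * A.κ i * η * dx (A.r i) (pr q) ∧
        q.2.2.2 = A.G j (pr p) + A.κ i * η ^ 3 + 3 / 2 * A.κ i * η * dt (A.r i) (pr q)) ∧
      (A.Q j (pr q) = A.s j i * bQ (A.κ i) (A.r i) (pr q)) ∧
      (A.Q j' (pr q) = A.s j' i * bQ (A.κ i) (A.r i) (pr q)) := by
    filter_upwards [hdj, (pr_tendsto p).eventually eY, (pr_tendsto p).eventually eQ,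
      (pr_tendsto p).eventually eG, (pr_tendsto p).eventually eY', (pr_tendsto p).eventually eQ',
      (pr_tendsto p).eventually eG'] with q h0 h1 h2 h3 h1' h2' h3'
    refine ⟨desc j _ hs1 q h0.1 h1 h2 h3, desc j' _ ((A.s_val j' i).resolve_left hi') q h0.2 h1'
      h2' (by rw [hj'3]; exact h3'), h2, h2'⟩
  refine good_of_fold (A.smooth i) (κ := A.κ i) (m := A.G j (pr p)) (A.κ_pos i).ne' hpy hpz hz
    (hA.reg i _ hz) ?_ ?_ ?_
  · filter_upwards [hL1, hboth] with q h1 h2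
    constructor
    · rintro ⟨l, hl⟩
      by_cases hlj : l = j
      · subst hlj
        obtain ⟨η, _, h⟩ := h2.1.1 hl
        exact ⟨η, h⟩
      · by_cases hlj' : l = j'
        · subst hlj'
          obtain ⟨η, _, h⟩ := h2.2.1.1 hl
          exact ⟨η, h⟩
        · exact absurd hl (h1 l hlj hlj')
    · rintro ⟨η, h⟩
      rcases le_total 0 (A.s j i * η) with h0 | h0
      · exact ⟨j, h2.1.2 ⟨η, h0, h⟩⟩
      · refine ⟨j', h2.2.1.2 ⟨η, ?_, h⟩⟩
        rw [hj'1]; linarith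
  · filter_upwards [hboth] with q h2 η e1 e2 e3
    rcases le_total 0 (A.s j i * η) with h0 | h0
    · have hq := h2.1.2 ⟨η, h0, e1, e2, e3⟩
      rw [hA.f_eq hq, h2.2.2.1, bQ, ← e1]
      have : √(η ^ 2) = A.s j i * η := by
        rw [Real.sqrt_eq_iff_mul_self_eq (by positivity) h0]
        rcases hs1 with h | h <;> rw [h] <;> ring
      rw [this]
      rcases hs1 with h | h <;> rw [h] <;> ring
    · have h0' : 0 ≤ A.s j' i * η := by rw [hj'1]; linarith
      have hq := h2.2.1.2 ⟨η, h0', e1, e2, e3⟩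
      have hs1' : A.s j' i = 1 ∨ A.s j' i = -1 := (A.s_val j' i).resolve_left hi'
      rw [hA.f_eq hq, h2.2.2.2, bQ, ← e1]
      have : √(η ^ 2) = A.s j' i * η := by
        rw [Real.sqrt_eq_iff_mul_self_eq (by positivity) h0']
        rcases hs1' with h | h <;> rw [h] <;> ring
      rw [this]
      rcases hs1' with h | h <;> rw [h] <;> ring
  · rw [hA.φ_eq hp, hA.Ph_of_zero hp.1 hi hz]
    have e : Complex.exp (-((Real.pi * A.n j + A.s j i * (Real.pi / 2) : ℝ) : ℂ) * Complex.I) *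
        Complex.I = Complex.exp ((Real.pi / 2 - (Real.pi * A.n j + A.s j i * (Real.pi / 2)) : ℝ) *
          Complex.I) := by
      rw [show ((Real.pi / 2 - (Real.pi * A.n j + A.s j i * (Real.pi / 2)) : ℝ) : ℂ) * Complex.I =
        -((Real.pi * A.n j + A.s j i * (Real.pi / 2) : ℝ) : ℂ) * Complex.I +
          (Real.pi : ℂ) / 2 * Complex.I by push_cast; ring, Complex.exp_add,
        Complex.exp_pi_div_two_mul_I]
    rw [e, Complex.exp_ofReal_mul_I_im]
    rcases hs1 with h | h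
    · rw [h, show Real.pi / 2 - (Real.pi * A.n j + 1 * (Real.pi / 2)) =
        ((-(A.n j) : ℤ) : ℝ) * Real.pi by push_cast; ring, Real.sin_int_mul_pi]
    · rw [h, show Real.pi / 2 - (Real.pi * A.n j + -1 * (Real.pi / 2)) =
        ((1 - (A.n j) : ℤ) : ℝ) * Real.pi by push_cast; ring, Real.sin_int_mul_pi]

theorem good [Finite J] {p : E4} (hp : p ∈ A.L) : Good A.L A.f A.φ p := by
  obtain ⟨j, hj⟩ := hp
  by_cases h : ∃ i, A.s j i ≠ 0 ∧ A.r i (pr p) = 0
  · obtain ⟨i, h1, h2⟩ := h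
    exact hA.good_fold hj h1 h2
  · refine hA.good_graph hj fun i hi => ?_
    refine lt_of_le_of_ne (hj.1 i hi) fun h0 => h ⟨i, hi, h0.symm⟩

end Ok

end Surf

end Pool.Agent.K1H61.LC
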